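import Mathlib

set_option autoImplicit false

/-!
Algebra on the unit circle.
-/

namespace Pool.Agent.H120R3.Lw

noncomputable def ph (c X Y E : ℝ) : ℝ := X + c * Y * (E - 1)
noncomputable def dp (c m X Y E W : ℝ) : ℝ := Y - c * X * (E - 1) + c * m * X * Y ^ 2 * W
noncomputable def kp (c m X Y W : ℝ) : ℝ := -(c * m * Y * ((3 * X ^ 2 - Y ^ 2) * W + m * X ^ 2 * Y ^ 2 * W ^ 3))

/-- hypotheses on the point and the parameters -/
structure Pt (c d X Y E W : ℝ) : Prop where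
  cpos : 0 < c
  cle : c ≤ 1 / 8
  dpos : 0 < d
  dle : d ≤ 1 / 2
  circ : X ^ 2 + Y ^ 2 = 1
  Epos : 0 < E
  Esq : E ^ 2 = X ^ 2 + d ^ 2 * Y ^ 2
  EW : E * W = 1

lemma Pt.neg {c d X Y E W : ℝ} (h : Pt c d X Y E W) : Pt c d (-X) (-Y) E W :=
  ⟨h.cpos, h.cle, h.dpos, h.dle, by rw [neg_sq, neg_sq]; exact h.circ, h.Epos,
    by rw [neg_sq, neg_sq]; exact h.Esq, h.EW⟩

lemma Pt.Wpos {c d X Y E W : ℝ} (h : Pt c d X Y E W) : 0 < W := by
  have h1 := h.Epos
  have h2 := h.EW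
  by_contra h3
  push Not at h3
  have : E * W ≤ 0 := mul_nonpos_of_nonneg_of_nonpos h1.le h3
  linarith

lemma Pt.E_le {c d X Y E W : ℝ} (h : Pt c d X Y E W) : E ≤ 1 := by
  have h1 := h.Epos
  have h2 := h.Esq
  have h3 := h.circ
  have h4 : d ^ 2 ≤ 1 := by have := h.dpos; have := h.dle; nlinarith
  have h5 : E ^ 2 ≤ 1 := by
    rw [h2, ← h3]
    have : d ^ 2 * Y ^ 2 ≤ 1 * Y ^ 2 := mul_le_mul_of_nonneg_right h4 (sq_nonneg _)
    linarith
  nlinarith

lemma Pt.X_le {c d X Y E W : ℝ} (h : Pt c d X Y E W) : |X| ≤ E := by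
  have h1 := h.Epos
  have h2 := h.Esq
  apply abs_le_of_sq_le_sq _ h1.le
  rw [h2]
  have : 0 ≤ d ^ 2 * Y ^ 2 := by positivity
  linarith

lemma Pt.XW {c d X Y E W : ℝ} (h : Pt c d X Y E W) : |X| * W ≤ 1 := by
  have h1 := h.X_le
  have h2 := h.Wpos
  have h3 := h.EW
  calc |X| * W ≤ E * W := mul_le_mul_of_nonneg_right h1 h2.le
    _ = 1 := h3

lemma Pt.absX {c d X Y E W : ℝ} (h : Pt c d X Y E W) : |X| ≤ 1 := by
  apply abs_le_of_sq_le_sq _ (by norm_num)
  have := h.circ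
  have := sq_nonneg Y
  nlinarith

lemma Pt.absY {c d X Y E W : ℝ} (h : Pt c d X Y E W) : |Y| ≤ 1 := by
  apply abs_le_of_sq_le_sq _ (by norm_num)
  have := h.circ
  have := sq_nonneg X
  nlinarith

lemma ph_bound {c d X Y E W : ℝ} (h : Pt c d X Y E W) : |ph c X Y E - X| ≤ c * |Y| := by
  have h1 := h.Epos
  have h2 := h.E_le
  have h3 := h.cpos
  unfold ph
  rw [show X + c * Y * (E - 1) - X = c * Y * (E - 1) by ring, abs_mul, abs_mul, abs_of_pos h3]
  have h4 : |E - 1| ≤ 1 := by rw [abs_le]; constructor <;> linarith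
  have h5 : 0 ≤ c * |Y| := by positivity
  calc c * |Y| * |E - 1| ≤ c * |Y| * 1 := mul_le_mul_of_nonneg_left h4 h5
    _ = _ := mul_one _

lemma dp_form {c d X Y E W : ℝ} (h : Pt c d X Y E W) :
    ∃ ε, |ε| ≤ 2 * c ∧ dp c (1 - d ^ 2) X Y E W = Y * (1 + ε) := by
  have h1 := h.Epos
  have h2 := h.cpos
  have hm : 0 ≤ 1 - d ^ 2 := by have := h.dpos; have := h.dle; nlinarith
  have hm1 : 1 - d ^ 2 ≤ 1 := by have := sq_nonneg d; linarith
  refine ⟨c * (1 - d ^ 2) * X * Y * (1 / (E + 1) + W), ?_, ?_⟩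
  · have hX := h.absX
    have hY := h.absY
    have hXW := h.XW
    have hW := h.Wpos
    have hE1 : 1 / (E + 1) ≤ 1 := by
      rw [div_le_one (by linarith)]; linarith
    have hE0 : 0 ≤ 1 / (E + 1) := by positivity
    rw [abs_mul, abs_mul, abs_mul, abs_mul, abs_of_pos h2, abs_of_nonneg hm,
      abs_of_nonneg (by positivity : 0 ≤ 1 / (E + 1) + W)]
    have h3 : |X| * (1 / (E + 1) + W) ≤ 2 := by
      have : |X| * (1 / (E + 1)) ≤ 1 * 1 := mul_le_mul hX hE1 hE0 (by norm_num)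
      linarith
    have h4 : 0 ≤ |X| * (1 / (E + 1) + W) := by positivity
    calc c * (1 - d ^ 2) * |X| * |Y| * (1 / (E + 1) + W)
        = c * ((1 - d ^ 2) * |Y| * (|X| * (1 / (E + 1) + W))) := by ring
      _ ≤ c * (1 * 1 * 2) := by
        gcongr
      _ = 2 * c := by ring
  · unfold dp
    have h3 : E - 1 = -((1 - d ^ 2) * Y ^ 2 / (E + 1)) := by
      have h4 : E + 1 ≠ 0 := by linarith
      field_simp
      have := h.Esq
      have := h.circ
      nlinarith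
    rw [h3]
    ring

lemma kp_form {c d X Y E W : ℝ} (h : Pt c d X Y E W) :
    kp c (1 - d ^ 2) X Y W = c * (1 - d ^ 2) * Y * (d ^ 2 * Y ^ 2 * W ^ 3 - 3 * X ^ 2 * W) := by
  unfold kp
  have h1 := h.circ
  have h2 := h.Esq
  have h3 := h.EW
  have h4 : W = (X ^ 2 + d ^ 2 * Y ^ 2) * W ^ 3 := by
    rw [← h2]
    calc W = (E * W) ^ 2 * W := by rw [h3]; ring
      _ = _ := by ring
  have h5 : Y ^ 2 * W = Y ^ 2 * ((X ^ 2 + d ^ 2 * Y ^ 2) * W ^ 3) := by rw [← h4]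
  have h6 : X ^ 2 = 1 - Y ^ 2 := by linarith
  linear_combination (c * (1 - d ^ 2) * Y) * h5 + (c * (1 - d ^ 2) * Y * Y ^ 2 * d ^ 2 * W ^ 3) * h1

lemma kp_lower {c d X Y E W : ℝ} (h : Pt c d X Y E W) (hY : 0 ≤ Y) :
    -(3 * c) ≤ kp c (1 - d ^ 2) X Y W := by
  rw [kp_form h]
  have h2 := h.cpos
  have hW := h.Wpos
  have hm : 0 ≤ 1 - d ^ 2 := by have := h.dpos; have := h.dle; nlinarith
  have hm1 : 1 - d ^ 2 ≤ 1 := by have := sq_nonneg d; linarith
  have hY1 : Y ≤ 1 := (le_abs_self Y).trans h.absY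
  have h3 : X ^ 2 * W ≤ 1 := by
    calc X ^ 2 * W = |X| * (|X| * W) := by rw [← sq_abs]; ring
      _ ≤ 1 * 1 := mul_le_mul h.absX h.XW (by positivity) (by norm_num)
      _ = 1 := by norm_num
  have h4 : 0 ≤ X ^ 2 * W := by positivity
  have h5 : 0 ≤ c * (1 - d ^ 2) * Y * (d ^ 2 * Y ^ 2 * W ^ 3) := by positivity
  have h6 : c * (1 - d ^ 2) * Y * (3 * (X ^ 2 * W)) ≤ c * 1 * 1 * (3 * 1) := by
    gcongr
  calc -(3 * c) ≤ - (c * (1 - d ^ 2) * Y * (3 * (X ^ 2 * W))) := by linarith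
    _ ≤ c * (1 - d ^ 2) * Y * (d ^ 2 * Y ^ 2 * W ^ 3) - c * (1 - d ^ 2) * Y * (3 * (X ^ 2 * W)) := by linarith
    _ = _ := by ring

lemma kp_zero (c m X W : ℝ) : kp c m X 0 W = 0 := by unfold kp; ring

lemma kp_neg (c m X Y W : ℝ) : kp c m (-X) (-Y) W = - kp c m X Y W := by unfold kp; ring
lemma ph_neg (c X Y E : ℝ) : ph c (-X) (-Y) E = - ph c X Y E := by unfold ph; ring

/-- value of the kink at the top -/
lemma kp_top {c d X Y E W : ℝ} (h : Pt c d X Y E W) (hX : X = 0) (hY : Y = 1) :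
    kp c (1 - d ^ 2) X Y W = c * (1 - d ^ 2) / d := by
  rw [kp_form h]
  subst hX; subst hY
  have h1 := h.Esq
  have hd := h.dpos
  have hE : E = d := by
    have h2 : E ^ 2 = d ^ 2 := by rw [h1]; ring
    exact (pow_left_inj₀ h.Epos.le hd.le (by norm_num)).1 h2
  have hW : W = 1 / d := by
    rw [eq_div_iff hd.ne', mul_comm, ← hE]
    exact h.EW
  rw [hW]
  field_simp
  ring

/-- the main inequality in the switching window -/
lemma window_neg {c H C w co s h U V φ φ' ε ε' K : ℝ} (hc : 0 < c) (hH : 0 ≤ H) (hC : 0 ≤ C)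
    (hsmall : c * (100 * (C + H + 1)) ≤ 1)
    (hw : 0 < w) (hco : 0 ≤ co) (hs : 0 ≤ s) (hcs : co ^ 2 + s ^ 2 = 1) (hh : |h| ≤ H)
    (hUV : U ^ 2 + V ^ 2 = 1) (hU : 0 ≤ U) (hV : 0 ≤ V)
    (hcrit : w * co * (V * (1 + ε)) = w * s * (U * (1 + ε'))) (hε : |ε| ≤ 2 * c) (hε' : |ε'| ≤ 2 * c)
    (hφ : |φ - U| ≤ c * |V|) (hφ' : |φ' - V| ≤ c * |U|) (hK : K ≤ 3 * c * (12 * C * w)) :
    (-(w * co) - w * s * h) * φ + (-(w * s) + w * co * h) * φ' + K < 0 := by
  rw [abs_of_nonneg hV] at hφ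
  rw [abs_of_nonneg hU] at hφ'
  have hcle : c ≤ 1 / 100 := by nlinarith
  -- cross term
  have hcross : co * V - s * U = s * U * ε' - co * V * ε := by
    have : w * (co * V * (1 + ε)) = w * (s * U * (1 + ε')) := by linarith
    have := mul_left_cancel₀ hw.ne' this
    linarith
  have hcoV : 0 ≤ co * V := by positivity
  have hsU : 0 ≤ s * U := by positivity
  have hCS : co * V + s * U ≤ 1 := by nlinarith [sq_nonneg (co - V), sq_nonneg (s - U)]
  have hCS' : co * U + s * V ≤ 1 := by nlinarith [sq_nonneg (co - U), sq_nonneg (s - V)]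
  have hcr : |co * V - s * U| ≤ 2 * c := by
    rw [hcross]
    calc |s * U * ε' - co * V * ε| ≤ |s * U * ε'| + |co * V * ε| := abs_sub _ _
      _ = s * U * |ε'| + co * V * |ε| := by
        rw [abs_mul, abs_mul (co * V), abs_of_nonneg hsU, abs_of_nonneg hcoV]
      _ ≤ s * U * (2 * c) + co * V * (2 * c) := by gcongr
      _ = (co * V + s * U) * (2 * c) := by ring
      _ ≤ 1 * (2 * c) := by gcongr
      _ = 2 * c := one_mul _
  have hdot : 1 - 2 * c ≤ co * U + s * V := by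
    have h1 : (co * U + s * V) ^ 2 + (co * V - s * U) ^ 2 = 1 := by
      calc _ = (co ^ 2 + s ^ 2) * (U ^ 2 + V ^ 2) := by ring
        _ = 1 := by rw [hcs, hUV]; ring
    have h2 : (co * V - s * U) ^ 2 ≤ (2 * c) ^ 2 := by
      rw [← sq_abs (co * V - s * U)]
      exact pow_le_pow_left₀ (abs_nonneg _) hcr 2
    have h3 : 0 ≤ co * U + s * V := by positivity
    by_contra h4
    push Not at h4
    have h5 : (co * U + s * V) ^ 2 < (1 - 2 * c) ^ 2 := pow_lt_pow_left₀ h4 h3 (by norm_num)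
    nlinarith
  -- decompose
  obtain ⟨e1, he1⟩ : ∃ e1, e1 = φ - U := ⟨_, rfl⟩
  obtain ⟨e2, he2⟩ : ∃ e2, e2 = φ' - V := ⟨_, rfl⟩
  rw [← he1] at hφ
  rw [← he2] at hφ'
  have hφe : φ = U + e1 := by linarith
  have hφe' : φ' = V + e2 := by linarith
  rw [hφe, hφe']
  have t1 : |co * e1 + s * e2| ≤ c := by
    calc |co * e1 + s * e2| ≤ |co * e1| + |s * e2| := abs_add_le _ _
      _ = co * |e1| + s * |e2| := by rw [abs_mul, abs_mul, abs_of_nonneg hco, abs_of_nonneg hs]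
      _ ≤ co * (c * V) + s * (c * U) := by gcongr
      _ = c * (co * V + s * U) := by ring
      _ ≤ c * 1 := by gcongr
      _ = c := mul_one _
  have t2 : |co * e2 - s * e1| ≤ c := by
    calc |co * e2 - s * e1| ≤ |co * e2| + |s * e1| := abs_sub _ _
      _ = co * |e2| + s * |e1| := by rw [abs_mul, abs_mul, abs_of_nonneg hco, abs_of_nonneg hs]
      _ ≤ co * (c * U) + s * (c * V) := by gcongr
      _ = c * (co * U + s * V) := by ring
      _ ≤ c * 1 := by gcongr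
      _ = c := mul_one _
  have t3 : |h * ((co * V - s * U) + (co * e2 - s * e1))| ≤ H * (3 * c) := by
    rw [abs_mul]
    apply mul_le_mul hh _ (abs_nonneg _) hH
    refine (abs_add_le _ _).trans ?_
    linarith
  have hmain : (-(w * co) - w * s * h) * (U + e1) + (-(w * s) + w * co * h) * (V + e2)
      = w * (-(co * U + s * V) - (co * e1 + s * e2) + h * ((co * V - s * U) + (co * e2 - s * e1))) := by
    ring
  rw [hmain]
  have t1' := (abs_le.1 t1).1
  have t3' := (abs_le.1 t3).2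
  have hb : -(co * U + s * V) - (co * e1 + s * e2) + h * ((co * V - s * U) + (co * e2 - s * e1))
      ≤ -(1 - 3 * c - H * (3 * c)) := by linarith
  have hb2 := mul_le_mul_of_nonneg_left hb hw.le
  have hfin : 3 * c * (12 * C * w) < w * (1 - 3 * c - H * (3 * c)) := by
    have : 36 * c * C + 3 * c + 3 * c * H < 1 := by nlinarith [mul_nonneg hc.le hC, mul_nonneg hc.le hH]
    nlinarith
  linarith

end Pool.Agent.H120R3.Lw
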