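import Mathlib
import Pool.Agent.H120R3.LwAlg

set_option autoImplicit false

/-!
Algebra on the unit circle, allowing the kink size to vanish.
-/

namespace Pool.Agent.H120R3.Ca

open Pool.Agent.H120R3.Lw (ph dp kp)

/-- hypotheses on the point and the parameters -/
structure Pt (c d X Y E W : ℝ) : Prop where
  cpos : 0 ≤ c
  cle : c ≤ 1 / 8
  dpos : 0 < d
  dle : d ≤ 1 / 2
  circ : X ^ 2 + Y ^ 2 = 1
  Epos : 0 < E
  Esq : E ^ 2 = X ^ 2 + d ^ 2 * Y ^ 2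
  EW : E * W = 1

lemma Pt.neg {c d X Y E W : ℝ} (h : Pt c d X Y E W) : Pt c d (-X) (-Y) E W :=
  ⟨h.cpos, h.cle, h.dpos, h.dle, by rw [neg_sq, neg_sq]; exact h.circ, h.Epos,
    by rw [neg_sq, neg_sq]; exact h.Esq, h.EW⟩

lemma Pt.Wpos {c d X Y E W : ℝ} (h : Pt c d X Y E W) : 0 < W := by
  have h1 := h.Epos
  have h2 := h.EW
  by_contra h3
  push Not at h3
  have : E * W ≤ 0 := mul_nonpos_of_nonneg_of_nonpos h1.le h3
  linarith

lemma Pt.E_le {c d X Y E W : ℝ} (h : Pt c d X Y E W) : E ≤ 1 := by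
  have h1 := h.Epos
  have h2 := h.Esq
  have h3 := h.circ
  have h4 : d ^ 2 ≤ 1 := by have := h.dpos; have := h.dle; nlinarith
  have h5 : E ^ 2 ≤ 1 := by
    rw [h2, ← h3]
    have : d ^ 2 * Y ^ 2 ≤ 1 * Y ^ 2 := mul_le_mul_of_nonneg_right h4 (sq_nonneg _)
    linarith
  nlinarith

lemma Pt.X_le {c d X Y E W : ℝ} (h : Pt c d X Y E W) : |X| ≤ E := by
  have h1 := h.Epos
  have h2 := h.Esq
  apply abs_le_of_sq_le_sq _ h1.le
  rw [h2]
  have : 0 ≤ d ^ 2 * Y ^ 2 := by positivity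
  linarith

lemma Pt.XW {c d X Y E W : ℝ} (h : Pt c d X Y E W) : |X| * W ≤ 1 := by
  have h1 := h.X_le
  have h2 := h.Wpos
  have h3 := h.EW
  calc |X| * W ≤ E * W := mul_le_mul_of_nonneg_right h1 h2.le
    _ = 1 := h3

lemma Pt.absX {c d X Y E W : ℝ} (h : Pt c d X Y E W) : |X| ≤ 1 := by
  apply abs_le_of_sq_le_sq _ (by norm_num)
  have := h.circ
  have := sq_nonneg Y
  nlinarith

lemma Pt.absY {c d X Y E W : ℝ} (h : Pt c d X Y E W) : |Y| ≤ 1 := by
  apply abs_le_of_sq_le_sq _ (by norm_num)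
  have := h.circ
  have := sq_nonneg X
  nlinarith

lemma ph_bound {c d X Y E W : ℝ} (h : Pt c d X Y E W) : |ph c X Y E - X| ≤ c * |Y| := by
  have h1 := h.Epos
  have h2 := h.E_le
  have h3 := h.cpos
  unfold ph
  rw [show X + c * Y * (E - 1) - X = c * Y * (E - 1) by ring, abs_mul, abs_mul, abs_of_nonneg h3]
  have h4 : |E - 1| ≤ 1 := by rw [abs_le]; constructor <;> linarith
  have h5 : 0 ≤ c * |Y| := by positivity
  calc c * |Y| * |E - 1| ≤ c * |Y| * 1 := mul_le_mul_of_nonneg_left h4 h5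
    _ = _ := mul_one _

lemma dp_form {c d X Y E W : ℝ} (h : Pt c d X Y E W) :
    ∃ ε, |ε| ≤ 2 * c ∧ dp c (1 - d ^ 2) X Y E W = Y * (1 + ε) := by
  have h1 := h.Epos
  have h2 := h.cpos
  have hm : 0 ≤ 1 - d ^ 2 := by have := h.dpos; have := h.dle; nlinarith
  have hm1 : 1 - d ^ 2 ≤ 1 := by have := sq_nonneg d; linarith
  refine ⟨c * (1 - d ^ 2) * X * Y * (1 / (E + 1) + W), ?_, ?_⟩
  · have hX := h.absX
    have hY := h.absY
    have hXW := h.XW
    have hW := h.Wpos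
    have hE1 : 1 / (E + 1) ≤ 1 := by
      rw [div_le_one (by linarith)]; linarith
    have hE0 : 0 ≤ 1 / (E + 1) := by positivity
    rw [abs_mul, abs_mul, abs_mul, abs_mul, abs_of_nonneg h2, abs_of_nonneg hm,
      abs_of_nonneg (by positivity : 0 ≤ 1 / (E + 1) + W)]
    have h3 : |X| * (1 / (E + 1) + W) ≤ 2 := by
      have : |X| * (1 / (E + 1)) ≤ 1 * 1 := mul_le_mul hX hE1 hE0 (by norm_num)
      linarith
    have h4 : 0 ≤ |X| * (1 / (E + 1) + W) := by positivity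
    calc c * (1 - d ^ 2) * |X| * |Y| * (1 / (E + 1) + W)
        = c * ((1 - d ^ 2) * |Y| * (|X| * (1 / (E + 1) + W))) := by ring
      _ ≤ c * (1 * 1 * 2) := by
        gcongr
      _ = 2 * c := by ring
  · unfold dp
    have h3 : E - 1 = -((1 - d ^ 2) * Y ^ 2 / (E + 1)) := by
      have h4 : E + 1 ≠ 0 := by linarith
      field_simp
      have := h.Esq
      have := h.circ
      nlinarith
    rw [h3]
    ring

lemma kp_form {c d X Y E W : ℝ} (h : Pt c d X Y E W) :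
    kp c (1 - d ^ 2) X Y W = c * (1 - d ^ 2) * Y * (d ^ 2 * Y ^ 2 * W ^ 3 - 3 * X ^ 2 * W) := by
  unfold kp
  have h1 := h.circ
  have h2 := h.Esq
  have h3 := h.EW
  have h4 : W = (X ^ 2 + d ^ 2 * Y ^ 2) * W ^ 3 := by
    rw [← h2]
    calc W = (E * W) ^ 2 * W := by rw [h3]; ring
      _ = _ := by ring
  have h5 : Y ^ 2 * W = Y ^ 2 * ((X ^ 2 + d ^ 2 * Y ^ 2) * W ^ 3) := by rw [← h4]
  have h6 : X ^ 2 = 1 - Y ^ 2 := by linarith
  linear_combination (c * (1 - d ^ 2) * Y) * h5 + (c * (1 - d ^ 2) * Y * Y ^ 2 * d ^ 2 * W ^ 3) * h1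

lemma kp_lower {c d X Y E W : ℝ} (h : Pt c d X Y E W) (hY : 0 ≤ Y) :
    -(3 * c) ≤ kp c (1 - d ^ 2) X Y W := by
  rw [kp_form h]
  have h2 := h.cpos
  have hW := h.Wpos
  have hm : 0 ≤ 1 - d ^ 2 := by have := h.dpos; have := h.dle; nlinarith
  have hm1 : 1 - d ^ 2 ≤ 1 := by have := sq_nonneg d; linarith
  have hY1 : Y ≤ 1 := (le_abs_self Y).trans h.absY
  have h3 : X ^ 2 * W ≤ 1 := by
    calc X ^ 2 * W = |X| * (|X| * W) := by rw [← sq_abs]; ring
      _ ≤ 1 * 1 := mul_le_mul h.absX h.XW (by positivity) (by norm_num)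
      _ = 1 := by norm_num
  have h4 : 0 ≤ X ^ 2 * W := by positivity
  have h5 : 0 ≤ c * (1 - d ^ 2) * Y * (d ^ 2 * Y ^ 2 * W ^ 3) := by positivity
  have h6 : c * (1 - d ^ 2) * Y * (3 * (X ^ 2 * W)) ≤ c * 1 * 1 * (3 * 1) := by
    gcongr
  calc -(3 * c) ≤ - (c * (1 - d ^ 2) * Y * (3 * (X ^ 2 * W))) := by linarith
    _ ≤ c * (1 - d ^ 2) * Y * (d ^ 2 * Y ^ 2 * W ^ 3) - c * (1 - d ^ 2) * Y * (3 * (X ^ 2 * W)) := by linarith
    _ = _ := by ring

lemma kp_zero (c m X W : ℝ) : kp c m X 0 W = 0 := by unfold kp; ring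

lemma kp_neg (c m X Y W : ℝ) : kp c m (-X) (-Y) W = - kp c m X Y W := by unfold kp; ring
lemma ph_neg (c X Y E : ℝ) : ph c (-X) (-Y) E = - ph c X Y E := by unfold ph; ring

/-- value of the kink at the top -/
lemma kp_top {c d X Y E W : ℝ} (h : Pt c d X Y E W) (hX : X = 0) (hY : Y = 1) :
    kp c (1 - d ^ 2) X Y W = c * (1 - d ^ 2) / d := by
  rw [kp_form h]
  subst hX; subst hY
  have h1 := h.Esq
  have hd := h.dpos
  have hE : E = d := by
    have h2 : E ^ 2 = d ^ 2 := by rw [h1]; ring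
    exact (pow_left_inj₀ h.Epos.le hd.le (by norm_num)).1 h2
  have hW : W = 1 / d := by
    rw [eq_div_iff hd.ne', mul_comm, ← hE]
    exact h.EW
  rw [hW]
  field_simp
  ring


end Pool.Agent.H120R3.Ca
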