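import Mathlib

set_option autoImplicit false

/-!
Profiles for the counterexample to Loewner's conjecture.
-/

namespace Pool.Agent.H120R3.Lw

open Real Filter Topology Set MeasureTheory
open scoped ContDiff

/-- A profile: a function with all its derivatives, bounded and vanishing on `t ≤ 0`. -/
structure Prof (ξ : ℕ → ℝ → ℝ) : Prop where
  der : ∀ l t, HasDerivAt (ξ l) (ξ (l + 1) t) t
  zero : ∀ l t, t ≤ 0 → ξ l t = 0
  bdd : ∀ l, ∃ C, ∀ t, |ξ l t| ≤ C

/-- the integral-profile attached to `a` -/
noncomputable def prof (a : ℝ → ℝ) : ℕ → ℝ → ℝ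
  | 0 => fun t => ∫ x in (0:ℝ)..t, a x
  | (l + 1) => deriv^[l] a

lemma prof_isProf {a : ℝ → ℝ} (ha : ContDiff ℝ ∞ a) (h0 : ∀ t, t ≤ 0 → a t = 0)
    (h1 : ∀ t, 5 / 4 ≤ t → a t = 0) : Prof (prof a) := by
  have hc : Continuous a := ha.continuous
  have hsm : ∀ l, ContDiff ℝ ∞ (deriv^[l] a) := fun l => ha.iterate_deriv l
  have hz0 : ∀ l t, t ≤ 0 → deriv^[l] a t = 0 := by
    intro l
    have : ∀ t, t < 0 → deriv^[l] a t = 0 := by
      induction l with
      | zero => intro t ht; exact h0 t ht.le
      | succ l ih =>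
        intro t ht
        rw [Function.iterate_succ_apply']
        have : deriv^[l] a =ᶠ[𝓝 t] fun _ => (0:ℝ) := by
          filter_upwards [Iio_mem_nhds ht] with x hx using ih x hx
        rw [this.deriv_eq, deriv_const]
    intro t ht
    rcases ht.lt_or_eq with h | h
    · exact this t h
    · subst h
      have h2 : Tendsto (deriv^[l] a) (𝓝[<] 0) (𝓝 (deriv^[l] a 0)) :=
        ((hsm l).continuous.tendsto 0).mono_left nhdsWithin_le_nhds
      have h3 : Tendsto (deriv^[l] a) (𝓝[<] 0) (𝓝 0) := by
        apply tendsto_const_nhds.congr'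
        filter_upwards [self_mem_nhdsWithin] with x hx using (this x hx).symm
      exact tendsto_nhds_unique h2 h3
  have hcs : HasCompactSupport a := by
    apply HasCompactSupport.intro (isCompact_Icc (a := (0:ℝ)) (b := 5/4))
    intro x hx
    rw [mem_Icc, not_and_or, not_le, not_le] at hx
    rcases hx with hx | hx
    · exact h0 x hx.le
    · exact h1 x hx.le
  have hcs' : ∀ l, HasCompactSupport (deriv^[l] a) := by
    intro l
    induction l with
    | zero => exact hcs
    | succ l ih =>
      rw [Function.iterate_succ']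
      exact ih.deriv
  refine ⟨?_, ?_, ?_⟩
  · intro l t
    cases l with
    | zero =>
      show HasDerivAt (fun t => ∫ x in (0:ℝ)..t, a x) (a t) t
      exact intervalIntegral.integral_hasDerivAt_right (hc.intervalIntegrable _ _)
        hc.stronglyMeasurable.stronglyMeasurableAtFilter hc.continuousAt
    | succ l =>
      show HasDerivAt (deriv^[l] a) (deriv^[l + 1] a t) t
      rw [Function.iterate_succ_apply']
      exact ((hsm l).differentiable (by simp) t).hasDerivAt
  · intro l t ht
    cases l with
    | zero =>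
      show ∫ x in (0:ℝ)..t, a x = 0
      rw [intervalIntegral.integral_congr (g := fun _ => (0:ℝ))]
      · simp
      · intro x hx
        rw [uIcc_of_ge ht] at hx
        exact h0 x hx.2
    | succ l => exact hz0 l t ht
  · intro l
    cases l with
    | zero =>
      obtain ⟨C, hC⟩ := hc.bounded_above_of_compact_support hcs
      have hC0 : 0 ≤ C := (norm_nonneg _).trans (hC 0)
      refine ⟨C * (5 / 4), fun t => ?_⟩
      show |∫ x in (0:ℝ)..t, a x| ≤ _
      rcases le_total t 0 with ht | ht
      · rw [intervalIntegral.integral_congr (g := fun _ => (0:ℝ))]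
        · simp; positivity
        · intro x hx
          rw [uIcc_of_ge ht] at hx
          exact h0 x hx.2
      · rcases le_total t (5/4) with ht' | ht'
        · have := intervalIntegral.norm_integral_le_of_norm_le_const (a := 0) (b := t) (f := a)
            (C := C) (fun x _ => hC x)
          rw [Real.norm_eq_abs, sub_zero, abs_of_nonneg ht] at this
          exact this.trans (mul_le_mul_of_nonneg_left ht' hC0)
        · rw [← intervalIntegral.integral_add_adjacent_intervals (b := 5/4)
            (hc.intervalIntegrable _ _) (hc.intervalIntegrable _ _)]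
          have e : ∫ x in (5/4:ℝ)..t, a x = 0 := by
            rw [intervalIntegral.integral_congr (g := fun _ => (0:ℝ))]
            · simp
            · intro x hx
              rw [uIcc_of_le ht'] at hx
              exact h1 x hx.1
          rw [e, add_zero]
          have := intervalIntegral.norm_integral_le_of_norm_le_const (a := 0) (b := 5/4) (f := a)
            (C := C) (fun x _ => hC x)
          rw [Real.norm_eq_abs, sub_zero, abs_of_nonneg (by norm_num : (0:ℝ) ≤ 5/4)] at this
          exact this
    | succ l =>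
      obtain ⟨C, hC⟩ := (hsm l).continuous.bounded_above_of_compact_support (hcs' l)
      refine ⟨C, fun t => ?_⟩
      show |deriv^[l] a t| ≤ C
      simpa using hC t

/-! ### the concrete profiles -/

/-- switching angle -/
noncomputable def eta (s : ℝ) : ℝ := π / 2 * smoothTransition (4 * s)

/-- growing profile -/
noncomputable def pa (t : ℝ) : ℝ := smoothTransition (4 * t - 1) * exp (1 - t) * cos (eta (t - 1))

/-- starting profile -/
noncomputable def pb (t : ℝ) : ℝ := (1 - smoothTransition (2 * t - 1)) * exp (-t) * sin (eta t)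

lemma eta_contDiff : ContDiff ℝ ∞ eta := by
  unfold eta
  exact contDiff_const.mul (smoothTransition.contDiff.comp (contDiff_const.mul contDiff_id))

lemma pa_contDiff : ContDiff ℝ ∞ pa := by
  unfold pa
  refine ((smoothTransition.contDiff.comp ((contDiff_const.mul contDiff_id).sub contDiff_const)).mul
    (Real.contDiff_exp.comp (contDiff_const.sub contDiff_id))).mul
    (Real.contDiff_cos.comp (eta_contDiff.comp (contDiff_id.sub contDiff_const)))

lemma pb_contDiff : ContDiff ℝ ∞ pb := by
  unfold pb
  refine ((contDiff_const.sub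
    (smoothTransition.contDiff.comp ((contDiff_const.mul contDiff_id).sub contDiff_const))).mul
    (Real.contDiff_exp.comp contDiff_neg)).mul
    (Real.contDiff_sin.comp eta_contDiff)

lemma eta_nonneg (s : ℝ) : 0 ≤ eta s := by
  unfold eta
  have := smoothTransition.nonneg (4 * s)
  have := pi_pos
  positivity

lemma eta_le (s : ℝ) : eta s ≤ π / 2 := by
  unfold eta
  have := smoothTransition.le_one (4 * s)
  have := pi_pos
  nlinarith

lemma eta_of_nonpos {s : ℝ} (h : s ≤ 0) : eta s = 0 := by
  unfold eta
  rw [smoothTransition.zero_of_nonpos (by linarith), mul_zero]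

lemma eta_of_ge {s : ℝ} (h : 1 / 4 ≤ s) : eta s = π / 2 := by
  unfold eta
  rw [smoothTransition.one_of_one_le (by linarith), mul_one]

lemma cos_eta_nonneg (s : ℝ) : 0 ≤ cos (eta s) :=
  cos_nonneg_of_mem_Icc ⟨by linarith [eta_nonneg s, pi_pos], eta_le s⟩

lemma sin_eta_nonneg (s : ℝ) : 0 ≤ sin (eta s) :=
  sin_nonneg_of_nonneg_of_le_pi (eta_nonneg s) (by linarith [eta_le s, pi_pos])

lemma pa_nonneg (t : ℝ) : 0 ≤ pa t := by
  unfold pa
  have := smoothTransition.nonneg (4 * t - 1)
  have := cos_eta_nonneg (t - 1)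
  positivity

lemma pb_nonneg (t : ℝ) : 0 ≤ pb t := by
  unfold pb
  have := smoothTransition.le_one (2 * t - 1)
  have := sin_eta_nonneg t
  have h : 0 ≤ 1 - smoothTransition (2 * t - 1) := by linarith
  positivity

lemma pa_zero_left {t : ℝ} (h : t ≤ 1 / 4) : pa t = 0 := by
  unfold pa
  rw [smoothTransition.zero_of_nonpos (by linarith), zero_mul, zero_mul]

lemma pa_zero_right {t : ℝ} (h : 5 / 4 ≤ t) : pa t = 0 := by
  unfold pa
  rw [eta_of_ge (by linarith), cos_pi_div_two, mul_zero]

lemma pb_zero_left {t : ℝ} (h : t ≤ 0) : pb t = 0 := by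
  unfold pb
  rw [eta_of_nonpos h, sin_zero, mul_zero]

lemma pb_zero_right {t : ℝ} (h : 1 ≤ t) : pb t = 0 := by
  unfold pb
  rw [smoothTransition.one_of_one_le (by linarith), sub_self, zero_mul, zero_mul]

lemma pa_isProf : Prof (prof pa) :=
  prof_isProf pa_contDiff (fun t ht => pa_zero_left (by linarith)) (fun t ht => pa_zero_right ht)

lemma pb_isProf : Prof (prof pb) :=
  prof_isProf pb_contDiff (fun t ht => pb_zero_left ht) (fun t ht => pb_zero_right (by linarith))

lemma deriv_pa_zero {t : ℝ} (h : pa t = 0) : deriv pa t = 0 := by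
  apply IsLocalMin.deriv_eq_zero
  apply Filter.Eventually.of_forall
  intro x
  rw [h]
  exact pa_nonneg x

lemma deriv_pb_zero {t : ℝ} (h : pb t = 0) : deriv pb t = 0 := by
  apply IsLocalMin.deriv_eq_zero
  apply Filter.Eventually.of_forall
  intro x
  rw [h]
  exact pb_nonneg x

lemma pa_window {s : ℝ} (h : -1 / 2 ≤ s) : pa (1 + s) = exp (-s) * cos (eta s) := by
  unfold pa
  rw [smoothTransition.one_of_one_le (by linarith), one_mul]
  congr 2
  · ring_nf
  · ring_nf

lemma pb_window {s : ℝ} (h : s ≤ 1 / 2) : pb s = exp (-s) * sin (eta s) := by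
  unfold pb
  rw [smoothTransition.zero_of_nonpos (by linarith)]
  ring

lemma deriv_pb_window {s : ℝ} (h : s < 1 / 2) :
    deriv pb s = - (exp (-s) * sin (eta s)) + exp (-s) * cos (eta s) * deriv eta s := by
  have e : pb =ᶠ[𝓝 s] fun x => exp (-x) * sin (eta x) := by
    filter_upwards [Iio_mem_nhds h] with x hx using pb_window (le_of_lt hx)
  rw [e.deriv_eq]
  have h1 : HasDerivAt eta (deriv eta s) s := (eta_contDiff.differentiable (by simp) s).hasDerivAt
  have h2 : HasDerivAt (fun x => exp (-x)) (exp (-s) * (-1)) s := (hasDerivAt_neg s).exp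
  have h3 : HasDerivAt (fun x => exp (-x) * sin (eta x)) _ s := h2.mul h1.sin
  rw [h3.deriv]
  ring

lemma deriv_pa_window {s : ℝ} (h : -1 / 2 < s) :
    deriv pa (1 + s) = - (exp (-s) * cos (eta s)) - exp (-s) * sin (eta s) * deriv eta s := by
  have e : pa =ᶠ[𝓝 (1 + s)] fun x => exp (-(x - 1)) * cos (eta (x - 1)) := by
    filter_upwards [Ioi_mem_nhds (show 1 / 2 < 1 + s by linarith)] with x hx
    have := pa_window (s := x - 1) (by rw [mem_Ioi] at hx; linarith)
    rw [← this]
    congr 1
    ring
  rw [e.deriv_eq]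
  have h1 : HasDerivAt eta (deriv eta s) ((1 + s) - 1) := by
    have : (1 + s) - 1 = s := by ring
    rw [this]
    exact (eta_contDiff.differentiable (by simp) s).hasDerivAt
  have h0 : HasDerivAt (fun x : ℝ => x - 1) 1 (1 + s) := (hasDerivAt_id (1 + s)).sub_const 1
  have h1' : HasDerivAt (fun x => eta (x - 1)) (deriv eta s) (1 + s) :=
    HasDerivAt.comp_sub_const (1 + s) 1 h1
  have h2 : HasDerivAt (fun x : ℝ => exp (-(x - 1))) (exp (-((1 + s) - 1)) * (-1)) (1 + s) :=
    h0.neg.exp
  have h3 : HasDerivAt (fun x : ℝ => exp (-(x - 1)) * cos (eta (x - 1))) _ (1 + s) := h2.mul h1'.cos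
  rw [h3.deriv]
  have : (1 + s) - 1 = s := by ring
  simp only [this]
  ring

lemma pa_pos {t : ℝ} (h : 1 / 4 < t) (h' : t ≤ 1) : 0 < pa t := by
  unfold pa
  rw [eta_of_nonpos (by linarith), cos_zero, mul_one]
  have := smoothTransition.pos_of_pos (x := 4 * t - 1) (by linarith)
  positivity

lemma pb_quarter_pos : 0 < pb (1 / 4) := by
  rw [pb_window (by norm_num), eta_of_ge (by norm_num), sin_pi_div_two]
  positivity

lemma dwell_pos {s g g' : ℝ} (hg : 0 < g) (hg' : 0 < g') (h : 1 / 4 ≤ s) (h' : s ≤ 1) :
    0 < g * pa s + g' * pb s := by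
  rcases h.lt_or_eq with h1 | h1
  · have := pa_pos h1 h'
    have := pb_nonneg s
    positivity
  · rw [← h1]
    have := pb_quarter_pos
    have := pa_nonneg (1 / 4)
    positivity

lemma prof_zero_hasDerivAt (a : ℝ → ℝ) (ha : Continuous a) (t : ℝ) :
    HasDerivAt (prof a 0) (a t) t :=
  intervalIntegral.integral_hasDerivAt_right (ha.intervalIntegrable _ _)
        ha.stronglyMeasurable.stronglyMeasurableAtFilter ha.continuousAt

lemma prof_mono (a : ℝ → ℝ) (ha : Continuous a) (h : ∀ t, 0 ≤ a t) : Monotone (prof a 0) := by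
  apply monotone_of_deriv_nonneg
  · exact fun t => (prof_zero_hasDerivAt a ha t).differentiableAt
  · intro t
    rw [(prof_zero_hasDerivAt a ha t).deriv]
    exact h t

lemma profa_nonneg (t : ℝ) : 0 ≤ prof pa 0 t := by
  rcases le_total t 0 with h | h
  · rw [pa_isProf.zero 0 t h]
  · have := prof_mono pa pa_contDiff.continuous pa_nonneg h
    rwa [pa_isProf.zero 0 0 le_rfl] at this

lemma profb_nonneg (t : ℝ) : 0 ≤ prof pb 0 t := by
  rcases le_total t 0 with h | h
  · rw [pb_isProf.zero 0 t h]
  · have := prof_mono pb pb_contDiff.continuous pb_nonneg h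
    rwa [pb_isProf.zero 0 0 le_rfl] at this

lemma profa_zero {t : ℝ} (h : t ≤ 1 / 4) : prof pa 0 t = 0 := by
  apply le_antisymm _ (profa_nonneg t)
  have h1 := prof_mono pa pa_contDiff.continuous pa_nonneg h
  have h2 : prof pa 0 (1 / 4) = 0 := by
    show ∫ x in (0:ℝ)..(1/4), pa x = 0
    rw [intervalIntegral.integral_congr (g := fun _ => (0:ℝ))]
    · simp
    · intro x hx
      rw [uIcc_of_le (by norm_num)] at hx
      exact pa_zero_left hx.2
  linarith

lemma profa_pos {t : ℝ} (h : 1 ≤ t) : 0 < prof pa 0 t := by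
  have h1 := prof_mono pa pa_contDiff.continuous pa_nonneg h
  have h2 : 0 < prof pa 0 1 := by
    have hd : StrictMonoOn (prof pa 0) (Icc (1/4) 1) := by
      apply strictMonoOn_of_deriv_pos (convex_Icc _ _)
      · exact fun t _ => (prof_zero_hasDerivAt pa pa_contDiff.continuous t).continuousAt.continuousWithinAt
      · intro t ht
        rw [interior_Icc] at ht
        rw [(prof_zero_hasDerivAt pa pa_contDiff.continuous t).deriv]
        exact pa_pos ht.1 ht.2.le
    have := hd (left_mem_Icc.2 (by norm_num)) (right_mem_Icc.2 (by norm_num)) (by norm_num : (1/4:ℝ) < 1)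
    rw [profa_zero le_rfl] at this
    exact this
  linarith

end Pool.Agent.H120R3.Lw
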