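import Mathlib
import Pool.Agent.H120R3.LwProf

set_option autoImplicit false

/-!
A family of function sequences closed under partial derivatives; smoothness of the sums.
-/

namespace Pool.Agent.H120R3.Lw

open Real Filter Topology Set
open scoped ContDiff

/-- `u` has partial derivatives `a`, `b` at `z` (and is differentiable) -/
def HP (u : ℂ → ℝ) (a b : ℝ) (z : ℂ) : Prop :=
  HasFDerivAt u (a • Complex.reCLM + b • Complex.imCLM) z

lemma HP.cg {u : ℂ → ℝ} {a b a' b' : ℝ} {z : ℂ} (h : HP u a b z) (ha : a = a') (hb : b = b') :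
    HP u a' b' z := by subst ha; subst hb; exact h

lemma HP.mul {u v : ℂ → ℝ} {a b c d : ℝ} {z : ℂ} (h : HP u a b z) (h' : HP v c d z) :
    HP (fun z => u z * v z) (a * v z + u z * c) (b * v z + u z * d) z := by
  have h2 : HasFDerivAt (fun z => u z * v z) _ z := HasFDerivAt.mul h h'
  refine h2.congr_fderiv ?_
  ext x
  simp
  ring

lemma HP.add {u v : ℂ → ℝ} {a b c d : ℝ} {z : ℂ} (h : HP u a b z) (h' : HP v c d z) :
    HP (fun z => u z + v z) (a + c) (b + d) z := by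
  have h2 : HasFDerivAt (fun z => u z + v z) _ z := HasFDerivAt.add h h'
  refine h2.congr_fderiv ?_
  ext x
  simp
  ring

lemma HP.const_mul {u : ℂ → ℝ} {a b : ℝ} {z : ℂ} (k : ℝ) (h : HP u a b z) :
    HP (fun z => k * u z) (k * a) (k * b) z := by
  have h2 : HasFDerivAt (fun z => k * u z) _ z := HasFDerivAt.const_mul h k
  refine h2.congr_fderiv ?_
  ext x
  simp
  ring

lemma HP.comp {u : ℂ → ℝ} {a b : ℝ} {z : ℂ} {g : ℝ → ℝ} {g' : ℝ} (hg : HasDerivAt g g' (u z))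
    (h : HP u a b z) : HP (fun z => g (u z)) (g' * a) (g' * b) z := by
  have h2 : HasFDerivAt (fun z => g (u z)) _ z := hg.comp_hasFDerivAt z h
  refine h2.congr_fderiv ?_
  ext x
  simp
  ring

lemma HP_const (k : ℝ) (z : ℂ) : HP (fun _ => k) 0 0 z := by
  have h2 : HasFDerivAt (fun _ : ℂ => k) (0 : ℂ →L[ℝ] ℝ) z := hasFDerivAt_const k z
  refine h2.congr_fderiv ?_
  ext x
  simp

lemma HP_re (z : ℂ) : HP (fun z => z.re) 1 0 z := by
  have h2 : HasFDerivAt (fun z : ℂ => z.re) Complex.reCLM z := Complex.reCLM.hasFDerivAt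
  refine h2.congr_fderiv ?_
  ext x
  simp

lemma HP_im (z : ℂ) : HP (fun z => z.im) 0 1 z := by
  have h2 : HasFDerivAt (fun z : ℂ => z.im) Complex.imCLM z := Complex.imCLM.hasFDerivAt
  refine h2.congr_fderiv ?_
  ext x
  simp

lemma HP.pow {u : ℂ → ℝ} {a b : ℝ} {z : ℂ} (k : ℕ) (h : HP u a b z) :
    HP (fun z => u z ^ k) (k * u z ^ (k - 1) * a) (k * u z ^ (k - 1) * b) z :=
  HP.comp (g := fun x => x ^ k) (hasDerivAt_pow k (u z)) h

lemma HP.unique {u : ℂ → ℝ} {a b c d : ℝ} {z : ℂ} (h : HP u a b z) (h' : HP u c d z) :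
    a = c ∧ b = d := by
  have h2 := HasFDerivAt.unique h h'
  constructor
  · have := congrArg (fun L : ℂ →L[ℝ] ℝ => L 1) h2
    simpa using this
  · have := congrArg (fun L : ℂ →L[ℝ] ℝ => L Complex.I) h2
    simpa using this

lemma HP.congr_ev {u v : ℂ → ℝ} {a b : ℝ} {z : ℂ} (h : HP u a b z) (e : v =ᶠ[𝓝 z] u) :
    HP v a b z := HasFDerivAt.congr_of_eventuallyEq h e

/-! ### elementary functions -/

/-- `1/|z|` -/
noncomputable def ri (z : ℂ) : ℝ := (√(z.re ^ 2 + z.im ^ 2))⁻¹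

/-- `1/sqrt(A x² + B y²)` -/
noncomputable def si (A B : ℝ) (z : ℂ) : ℝ := (√(A * z.re ^ 2 + B * z.im ^ 2))⁻¹

/-- `log |z| + n + 1` -/
noncomputable def tau (n : ℕ) (z : ℂ) : ℝ := Real.log (exp (2 * (n + 1)) * (z.re ^ 2 + z.im ^ 2)) / 2

lemma nsq_pos {z : ℂ} (hz : z ≠ 0) : 0 < z.re ^ 2 + z.im ^ 2 := by
  have h : 0 < Complex.normSq z := Complex.normSq_pos.2 hz
  rw [Complex.normSq_apply] at h
  nlinarith

lemma ssq_pos {A B : ℝ} (hA : 0 < A) (hB : 0 < B) {z : ℂ} (hz : z ≠ 0) :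
    0 < A * z.re ^ 2 + B * z.im ^ 2 := by
  have h := nsq_pos hz
  rcases lt_or_ge 0 (z.re ^ 2) with h1 | h1
  · have : 0 ≤ B * z.im ^ 2 := by positivity
    have : 0 < A * z.re ^ 2 := by positivity
    linarith
  · have h2 : 0 < z.im ^ 2 := by linarith
    have : 0 ≤ A * z.re ^ 2 := by positivity
    have : 0 < B * z.im ^ 2 := by positivity
    linarith

lemma si_sq {A B : ℝ} (hA : 0 < A) (hB : 0 < B) {z : ℂ} (hz : z ≠ 0) :
    si A B z ^ 2 * (A * z.re ^ 2 + B * z.im ^ 2) = 1 := by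
  have h := ssq_pos hA hB hz
  unfold si
  rw [inv_pow, Real.sq_sqrt h.le]
  field_simp

lemma ri_sq {z : ℂ} (hz : z ≠ 0) : ri z ^ 2 * (z.re ^ 2 + z.im ^ 2) = 1 := by
  have h := nsq_pos hz
  unfold ri
  rw [inv_pow, Real.sq_sqrt h.le]
  field_simp

lemma HP_si {A B : ℝ} (hA : 0 < A) (hB : 0 < B) {z : ℂ} (hz : z ≠ 0) :
    HP (si A B) (-(A * z.re * si A B z ^ 3)) (-(B * z.im * si A B z ^ 3)) z := by
  have h := ssq_pos hA hB hz
  have h0 : HP (fun z => A * z.re ^ 2 + B * z.im ^ 2) (2 * A * z.re) (2 * B * z.im) z := by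
    refine (((HP_re z).pow 2).const_mul A |>.add (((HP_im z).pow 2).const_mul B)).cg ?_ ?_
    · simp; ring
    · simp; ring
  have h1 : HasDerivAt (fun x => (√x)⁻¹) (-((√(A * z.re ^ 2 + B * z.im ^ 2))⁻¹ ^ 3) / 2)
      (A * z.re ^ 2 + B * z.im ^ 2) := by
    have h2 := (Real.hasDerivAt_sqrt h.ne').inv (by positivity)
    refine h2.congr_deriv ?_
    have h3 : 0 < √(A * z.re ^ 2 + B * z.im ^ 2) := by positivity
    field_simp
  refine (HP.comp h1 h0).cg ?_ ?_
  · unfold si; ring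
  · unfold si; ring

lemma HP_ri {z : ℂ} (hz : z ≠ 0) :
    HP ri (-(z.re * ri z ^ 3)) (-(z.im * ri z ^ 3)) z := by
  have h := HP_si one_pos one_pos hz
  have e : si 1 1 = ri := by
    funext w
    unfold si ri
    rw [one_mul, one_mul]
  rw [e] at h
  exact h.cg (by ring) (by ring)

lemma HP_tau (n : ℕ) {z : ℂ} (hz : z ≠ 0) :
    HP (tau n) (z.re * ri z ^ 2) (z.im * ri z ^ 2) z := by
  have h := nsq_pos hz
  have h0 : HP (fun z => z.re ^ 2 + z.im ^ 2) (2 * z.re) (2 * z.im) z := by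
    refine (((HP_re z).pow 2).add ((HP_im z).pow 2)).cg ?_ ?_
    · simp
    · simp
  have h0' := h0.const_mul (exp (2 * (n + 1)))
  have h1 : HasDerivAt (fun x => Real.log x / 2) ((exp (2 * (n + 1)) * (z.re ^ 2 + z.im ^ 2))⁻¹ / 2)
      (exp (2 * (n + 1)) * (z.re ^ 2 + z.im ^ 2)) :=
    (Real.hasDerivAt_log (by positivity)).div_const 2
  have hr : ri z ^ 2 = (z.re ^ 2 + z.im ^ 2)⁻¹ := by
    unfold ri
    rw [inv_pow, Real.sq_sqrt h.le]
  have he : exp (2 * ((n:ℝ) + 1)) ≠ 0 := (exp_pos _).ne'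
  refine (HP.comp h1 h0').cg ?_ ?_
  · rw [hr]; field_simp
  · rw [hr]; field_simp

lemma tau_nonpos_zero (n : ℕ) : tau n 0 ≤ 0 := by
  unfold tau
  simp

lemma tau_zero_nhds (n : ℕ) : ∀ᶠ z : ℂ in 𝓝 0, tau n z ≤ 0 := by
  have h : Tendsto (fun z : ℂ => exp (2 * (n + 1)) * (z.re ^ 2 + z.im ^ 2)) (𝓝 0) (𝓝 0) := by
    have : Continuous (fun z : ℂ => exp (2 * (n + 1)) * (z.re ^ 2 + z.im ^ 2)) := by fun_prop
    have h2 := this.tendsto 0
    simpa using h2
  filter_upwards [h.eventually (gt_mem_nhds one_pos)] with z hz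
  unfold tau
  have : Real.log (exp (2 * (n + 1)) * (z.re ^ 2 + z.im ^ 2)) ≤ 0 :=
    Real.log_nonpos (by positivity) hz.le
  linarith

lemma HP_powri (p : ℕ) {z : ℂ} (hz : z ≠ 0) :
    HP (fun z => ri z ^ p) (-(p * z.re * ri z ^ (p + 2))) (-(p * z.im * ri z ^ (p + 2))) z := by
  refine ((HP_ri hz).pow p).cg ?_ ?_
  · cases p with
    | zero => simp
    | succ k => simp only [Nat.add_sub_cancel]; ring
  · cases p with
    | zero => simp
    | succ k => simp only [Nat.add_sub_cancel]; ring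

lemma HP_powsi {A B : ℝ} (hA : 0 < A) (hB : 0 < B) (q : ℕ) {z : ℂ} (hz : z ≠ 0) :
    HP (fun z => si A B z ^ q) (-(q * A * z.re * si A B z ^ (q + 2)))
      (-(q * B * z.im * si A B z ^ (q + 2))) z := by
  refine ((HP_si hA hB hz).pow q).cg ?_ ?_
  · cases q with
    | zero => simp
    | succ k => simp only [Nat.add_sub_cancel]; ring
  · cases q with
    | zero => simp
    | succ k => simp only [Nat.add_sub_cancel]; ring

/-! ### parameters and the family -/

/-- parameters -/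
structure Par where
  A : ℕ → ℝ
  B : ℕ → ℝ
  K : ℕ → ℝ
  A_pos : ∀ n, 0 < A n
  B_pos : ∀ n, 0 < B n
  A_le : ∀ n, A n ≤ 1
  B_le : ∀ n, B n ≤ 1
  K_ge : ∀ n, 1 ≤ K n
  hr : ∀ n z, 0 < tau n z → ri z ≤ K n
  hs : ∀ n z, 0 < tau n z → si (A n) (B n) z ≤ K n

/-- rapidly decaying coefficient sequences -/
def Om (P : Par) (w : ℕ → ℝ) : Prop := ∀ m : ℕ, Summable (fun n => |w n| * P.K n ^ m)

lemma Om.const {P : Par} {w : ℕ → ℝ} (h : Om P w) (k : ℝ) : Om P (fun n => k * w n) := by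
  intro m
  refine ((h m).mul_left |k|).congr ?_
  intro n
  rw [abs_mul]; ring

lemma Om.bmul {P : Par} {w v : ℕ → ℝ} (h : Om P w) (hv : ∀ n, |v n| ≤ 1) : Om P (fun n => v n * w n) := by
  intro m
  refine Summable.of_nonneg_of_le (fun n => ?_) (fun n => ?_) (h m)
  · have := P.K_ge n
    positivity
  · rw [abs_mul]
    have h1 := P.K_ge n
    have h2 : 0 ≤ |w n| * P.K n ^ m := by positivity
    calc |v n| * |w n| * P.K n ^ m = |v n| * (|w n| * P.K n ^ m) := by ring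
      _ ≤ 1 * (|w n| * P.K n ^ m) := by
        apply mul_le_mul_of_nonneg_right (hv n) h2
      _ = _ := one_mul _

/-- basic term -/
noncomputable def T (P : Par) (w : ℕ → ℝ) (i j p q : ℕ) (ξ : ℕ → ℝ → ℝ) (l n : ℕ) (z : ℂ) : ℝ :=
  w n * z.re ^ i * z.im ^ j * ri z ^ p * si (P.A n) (P.B n) z ^ q * ξ l (tau n z)

/-- the family -/
inductive Fam (P : Par) : (ℕ → ℂ → ℝ) → Prop
  | basic (w : ℕ → ℝ) (i j p q : ℕ) (ξ : ℕ → ℝ → ℝ) (l : ℕ) (hw : Om P w) (hξ : Prof ξ) :
      Fam P (T P w i j p q ξ l)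
  | add (u v : ℕ → ℂ → ℝ) (hu : Fam P u) (hv : Fam P v) : Fam P (fun n z => u n z + v n z)

lemma T_zero_of_tau (P : Par) (w : ℕ → ℝ) (i j p q : ℕ) {ξ : ℕ → ℝ → ℝ} (hξ : Prof ξ) (l n : ℕ) {z : ℂ}
    (h : tau n z ≤ 0) : T P w i j p q ξ l n z = 0 := by
  unfold T
  rw [hξ.zero l _ h, mul_zero]

lemma HP_T (P : Par) (w : ℕ → ℝ) (i j p q : ℕ) {ξ : ℕ → ℝ → ℝ} (hξ : Prof ξ) (l n : ℕ) (z : ℂ) :
    HP (T P w i j p q ξ l n)
      ((T P (fun n => i * w n) (i - 1) j p q ξ l n z + T P (fun n => (-p : ℝ) * w n) (i + 1) j (p + 2) q ξ l n z)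
        + (T P (fun n => P.A n * ((-q : ℝ) * w n)) (i + 1) j p (q + 2) ξ l n z
          + T P w (i + 1) j (p + 2) q ξ (l + 1) n z))
      ((T P (fun n => j * w n) i (j - 1) p q ξ l n z + T P (fun n => (-p : ℝ) * w n) i (j + 1) (p + 2) q ξ l n z)
        + (T P (fun n => P.B n * ((-q : ℝ) * w n)) i (j + 1) p (q + 2) ξ l n z
          + T P w i (j + 1) (p + 2) q ξ (l + 1) n z)) z := by
  by_cases hz : z = 0
  · subst hz
    have h0 := tau_nonpos_zero n
    have e : T P w i j p q ξ l n =ᶠ[𝓝 0] fun _ => 0 := by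
      filter_upwards [tau_zero_nhds n] with z hz using T_zero_of_tau P w i j p q hξ l n hz
    refine ((HP_const 0 0).congr_ev e).cg ?_ ?_
    · simp only [T_zero_of_tau P _ _ _ _ _ hξ _ n h0]; simp
    · simp only [T_zero_of_tau P _ _ _ _ _ hξ _ n h0]; simp
  · have h1 := ((HP_re z).pow i).const_mul (w n)
    have h2 := h1.mul ((HP_im z).pow j)
    have h3 := h2.mul (HP_powri p hz)
    have h4 := h3.mul (HP_powsi (P.A_pos n) (P.B_pos n) q hz)
    have h5 := h4.mul (HP.comp (hξ.der l (tau n z)) (HP_tau n hz))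
    refine HP.cg h5 ?_ ?_
    · unfold T
      ring
    · unfold T
      ring

lemma Fam.deriv {P : Par} {u : ℕ → ℂ → ℝ} (h : Fam P u) :
    ∃ ux uy, Fam P ux ∧ Fam P uy ∧ ∀ n z, HP (u n) (ux n z) (uy n z) z := by
  induction h with
  | basic w i j p q ξ l hw hξ =>
    refine ⟨_, _, ?_, ?_, fun n z => HP_T P w i j p q hξ l n z⟩
    · refine Fam.add _ _ (Fam.add _ _ ?_ ?_) (Fam.add _ _ ?_ ?_)
      · exact Fam.basic _ _ _ _ _ _ _ (hw.const _) hξ
      · exact Fam.basic _ _ _ _ _ _ _ (hw.const _) hξ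
      · exact Fam.basic _ _ _ _ _ _ _ ((hw.const _).bmul (fun n => by
          rw [abs_of_pos (P.A_pos n)]; exact P.A_le n)) hξ
      · exact Fam.basic _ _ _ _ _ _ _ hw hξ
    · refine Fam.add _ _ (Fam.add _ _ ?_ ?_) (Fam.add _ _ ?_ ?_)
      · exact Fam.basic _ _ _ _ _ _ _ (hw.const _) hξ
      · exact Fam.basic _ _ _ _ _ _ _ (hw.const _) hξ
      · exact Fam.basic _ _ _ _ _ _ _ ((hw.const _).bmul (fun n => by
          rw [abs_of_pos (P.B_pos n)]; exact P.B_le n)) hξ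
      · exact Fam.basic _ _ _ _ _ _ _ hw hξ
  | add u v hu hv ihu ihv =>
    obtain ⟨ux, uy, h1, h2, h3⟩ := ihu
    obtain ⟨vx, vy, h1', h2', h3'⟩ := ihv
    exact ⟨_, _, Fam.add _ _ h1 h1', Fam.add _ _ h2 h2', fun n z => (h3 n z).add (h3' n z)⟩

lemma Fam.bound {P : Par} {u : ℕ → ℂ → ℝ} (h : Fam P u) :
    ∃ b : ℕ → ℝ, Summable b ∧ ∀ n z, ‖z‖ < 1 → |u n z| ≤ b n := by
  induction h with
  | basic w i j p q ξ l hw hξ =>
    obtain ⟨C, hC⟩ := hξ.bdd l
    have hC0 : 0 ≤ C := (abs_nonneg _).trans (hC 0)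
    refine ⟨fun n => C * (|w n| * P.K n ^ (p + q)), (hw (p + q)).mul_left C, ?_⟩
    intro n z hz
    have hK := P.K_ge n
    rcases le_or_gt (tau n z) 0 with ht | ht
    · rw [T_zero_of_tau P w i j p q hξ l n ht, abs_zero]
      positivity
    · unfold T
      rw [abs_mul, abs_mul, abs_mul, abs_mul, abs_mul, abs_pow, abs_pow, abs_pow, abs_pow]
      have hri : 0 ≤ ri z := by unfold ri; positivity
      have hsi : 0 ≤ si (P.A n) (P.B n) z := by unfold si; positivity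
      rw [abs_of_nonneg hri, abs_of_nonneg hsi]
      have h1 : |z.re| ^ i ≤ 1 := pow_le_one₀ (abs_nonneg _) ((Complex.abs_re_le_norm z).trans hz.le)
      have h2 : |z.im| ^ j ≤ 1 := pow_le_one₀ (abs_nonneg _) ((Complex.abs_im_le_norm z).trans hz.le)
      have h3 : ri z ^ p ≤ P.K n ^ p := pow_le_pow_left₀ hri (P.hr n z ht) p
      have h4 : si (P.A n) (P.B n) z ^ q ≤ P.K n ^ q := pow_le_pow_left₀ hsi (P.hs n z ht) q
      calc |w n| * |z.re| ^ i * |z.im| ^ j * ri z ^ p * si (P.A n) (P.B n) z ^ q * |ξ l (tau n z)|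
          ≤ |w n| * 1 * 1 * P.K n ^ p * P.K n ^ q * C := by
            gcongr
            exact hC _
        _ = C * (|w n| * P.K n ^ (p + q)) := by rw [pow_add]; ring
  | add u v hu hv ihu ihv =>
    obtain ⟨b, h1, h2⟩ := ihu
    obtain ⟨b', h1', h2'⟩ := ihv
    exact ⟨fun n => b n + b' n, h1.add h1', fun n z hz =>
      (abs_add_le _ _).trans (add_le_add (h2 n z hz) (h2' n z hz))⟩

lemma Fam.zero {P : Par} {u : ℕ → ℂ → ℝ} (h : Fam P u) (n : ℕ) : u n 0 = 0 := by
  induction h with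
  | basic w i j p q ξ l hw hξ => exact T_zero_of_tau P w i j p q hξ l n (tau_nonpos_zero n)
  | add u v hu hv ihu ihv => show u n 0 + v n 0 = 0; rw [ihu, ihv, add_zero]

lemma Fam.summable {P : Par} {u : ℕ → ℂ → ℝ} (h : Fam P u) {z : ℂ} (hz : ‖z‖ < 1) :
    Summable (fun n => u n z) := by
  obtain ⟨b, h1, h2⟩ := h.bound
  exact Summable.of_norm_bounded h1 (fun n => h2 n z hz)

/-- the sum -/
noncomputable def Ser (u : ℕ → ℂ → ℝ) (z : ℂ) : ℝ := ∑' n, u n z

lemma norm_lin_le (a b : ℝ) : ‖a • Complex.reCLM + b • Complex.imCLM‖ ≤ |a| + |b| := by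
  refine (norm_add_le _ _).trans ?_
  rw [norm_smul, norm_smul, Complex.reCLM_norm, Complex.imCLM_norm, mul_one, mul_one,
    Real.norm_eq_abs, Real.norm_eq_abs]

lemma HP_Ser {P : Par} {u ux uy : ℕ → ℂ → ℝ} (h : Fam P u) (hx : Fam P ux) (hy : Fam P uy)
    (hd : ∀ n z, HP (u n) (ux n z) (uy n z) z) {z : ℂ} (hz : ‖z‖ < 1) :
    HP (Ser u) (Ser ux z) (Ser uy z) z := by
  obtain ⟨b, hb1, hb2⟩ := hx.bound
  obtain ⟨b', hb1', hb2'⟩ := hy.bound
  have hball : IsOpen (Metric.ball (0 : ℂ) 1) := Metric.isOpen_ball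
  have hconn : IsPreconnected (Metric.ball (0 : ℂ) 1) := (convex_ball (0 : ℂ) 1).isPreconnected
  have hp : z ∈ Metric.ball (0 : ℂ) 1 := by simpa using hz
  have h1 := hasFDerivAt_tsum_of_isPreconnected (𝕜 := ℝ) (hb1.add hb1') hball hconn
    (f := u) (f' := fun n z => ux n z • Complex.reCLM + uy n z • Complex.imCLM)
    (fun n x _ => hd n x)
    (fun n x hx' => by
      have hx'' : ‖x‖ < 1 := by simpa using hx'
      exact (norm_lin_le _ _).trans (add_le_add (hb2 n x hx'') (hb2' n x hx'')))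
    hp (h.summable hz) hp
  have hval : (∑' n, (ux n z • Complex.reCLM + uy n z • Complex.imCLM)) =
      Ser ux z • Complex.reCLM + Ser uy z • Complex.imCLM := by
    apply HasSum.tsum_eq
    unfold Ser
    apply HasSum.add
    · exact (hx.summable hz).hasSum.smul_const _
    · exact (hy.summable hz).hasSum.smul_const _
  rw [hval] at h1
  exact h1

lemma Fam.contDiffOn_nat {P : Par} (n : ℕ) : ∀ {u : ℕ → ℂ → ℝ}, Fam P u →
    ContDiffOn ℝ n (Ser u) (Metric.ball (0 : ℂ) 1) := by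
  induction n with
  | zero =>
    intro u h
    obtain ⟨ux, uy, hx, hy, hd⟩ := h.deriv
    rw [Nat.cast_zero, contDiffOn_zero]
    intro z hz
    have hz' : ‖z‖ < 1 := by simpa using hz
    exact (HasFDerivAt.continuousAt (HP_Ser h hx hy hd hz')).continuousWithinAt
  | succ n ih =>
    intro u h
    obtain ⟨ux, uy, hx, hy, hd⟩ := h.deriv
    rw [Nat.cast_succ, contDiffOn_succ_iff_fderiv_of_isOpen Metric.isOpen_ball]
    refine ⟨?_, by simp, ?_⟩
    · intro z hz
      have hz' : ‖z‖ < 1 := by simpa using hz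
      exact (HasFDerivAt.differentiableAt (HP_Ser h hx hy hd hz')).differentiableWithinAt
    · have e : ∀ z ∈ Metric.ball (0 : ℂ) 1, fderiv ℝ (Ser u) z =
          Ser ux z • Complex.reCLM + Ser uy z • Complex.imCLM := by
        intro z hz
        have hz' : ‖z‖ < 1 := by simpa using hz
        exact (HP_Ser h hx hy hd hz').fderiv
      refine ContDiffOn.congr ?_ e
      exact ((ih hx).smul contDiffOn_const).add ((ih hy).smul contDiffOn_const)

lemma Fam.contDiffOn {P : Par} {u : ℕ → ℂ → ℝ} (h : Fam P u) :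
    ContDiffOn ℝ ∞ (Ser u) (Metric.ball (0 : ℂ) 1) := by
  rw [contDiffOn_infty]
  intro n
  exact Fam.contDiffOn_nat n h

/-! ### closure properties -/

lemma Fam.mulx {P : Par} {u : ℕ → ℂ → ℝ} (h : Fam P u) : Fam P (fun n z => z.re * u n z) := by
  induction h with
  | basic w i j p q ξ l hw hξ =>
    have e : (fun n (z : ℂ) => z.re * T P w i j p q ξ l n z) = T P w (i + 1) j p q ξ l := by
      funext n z; unfold T; ring
    rw [e]
    exact Fam.basic _ _ _ _ _ _ _ hw hξ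
  | add u v hu hv ihu ihv =>
    have e : (fun n (z : ℂ) => z.re * (u n z + v n z)) = fun n z => z.re * u n z + z.re * v n z := by
      funext n z; ring
    rw [e]
    exact Fam.add _ _ ihu ihv

lemma Fam.muly {P : Par} {u : ℕ → ℂ → ℝ} (h : Fam P u) : Fam P (fun n z => z.im * u n z) := by
  induction h with
  | basic w i j p q ξ l hw hξ =>
    have e : (fun n (z : ℂ) => z.im * T P w i j p q ξ l n z) = T P w i (j + 1) p q ξ l := by
      funext n z; unfold T; ring
    rw [e]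
    exact Fam.basic _ _ _ _ _ _ _ hw hξ
  | add u v hu hv ihu ihv =>
    have e : (fun n (z : ℂ) => z.im * (u n z + v n z)) = fun n z => z.im * u n z + z.im * v n z := by
      funext n z; ring
    rw [e]
    exact Fam.add _ _ ihu ihv

lemma Fam.mulri {P : Par} {u : ℕ → ℂ → ℝ} (h : Fam P u) : Fam P (fun n z => ri z * u n z) := by
  induction h with
  | basic w i j p q ξ l hw hξ =>
    have e : (fun n (z : ℂ) => ri z * T P w i j p q ξ l n z) = T P w i j (p + 1) q ξ l := by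
      funext n z; unfold T; ring
    rw [e]
    exact Fam.basic _ _ _ _ _ _ _ hw hξ
  | add u v hu hv ihu ihv =>
    have e : (fun n (z : ℂ) => ri z * (u n z + v n z)) = fun n z => ri z * u n z + ri z * v n z := by
      funext n z; ring
    rw [e]
    exact Fam.add _ _ ihu ihv

lemma Fam.mulsi {P : Par} {u : ℕ → ℂ → ℝ} (h : Fam P u) :
    Fam P (fun n z => si (P.A n) (P.B n) z * u n z) := by
  induction h with
  | basic w i j p q ξ l hw hξ =>
    have e : (fun n (z : ℂ) => si (P.A n) (P.B n) z * T P w i j p q ξ l n z) =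
        T P w i j p (q + 1) ξ l := by
      funext n z; unfold T; ring
    rw [e]
    exact Fam.basic _ _ _ _ _ _ _ hw hξ
  | add u v hu hv ihu ihv =>
    have e : (fun n (z : ℂ) => si (P.A n) (P.B n) z * (u n z + v n z)) =
        fun n z => si (P.A n) (P.B n) z * u n z + si (P.A n) (P.B n) z * v n z := by
      funext n z; ring
    rw [e]
    exact Fam.add _ _ ihu ihv

lemma Fam.cmul {P : Par} {u : ℕ → ℂ → ℝ} (h : Fam P u) (k : ℝ) : Fam P (fun n z => k * u n z) := by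
  induction h with
  | basic w i j p q ξ l hw hξ =>
    have e : (fun n (z : ℂ) => k * T P w i j p q ξ l n z) = T P (fun n => k * w n) i j p q ξ l := by
      funext n z; unfold T; ring
    rw [e]
    exact Fam.basic _ _ _ _ _ _ _ (hw.const k) hξ
  | add u v hu hv ihu ihv =>
    have e : (fun n (z : ℂ) => k * (u n z + v n z)) = fun n z => k * u n z + k * v n z := by
      funext n z; ring
    rw [e]
    exact Fam.add _ _ ihu ihv

lemma Fam.smul {P : Par} {u : ℕ → ℂ → ℝ} (h : Fam P u) {v : ℕ → ℝ} (hv : ∀ n, |v n| ≤ 1) :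
    Fam P (fun n z => v n * u n z) := by
  induction h with
  | basic w i j p q ξ l hw hξ =>
    have e : (fun n (z : ℂ) => v n * T P w i j p q ξ l n z) = T P (fun n => v n * w n) i j p q ξ l := by
      funext n z; unfold T; ring
    rw [e]
    exact Fam.basic _ _ _ _ _ _ _ (hw.bmul hv) hξ
  | add u v' hu hv' ihu ihv =>
    have e : (fun n (z : ℂ) => v n * (u n z + v' n z)) = fun n z => v n * u n z + v n * v' n z := by
      funext n z; ring
    rw [e]
    exact Fam.add _ _ ihu ihv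

end Pool.Agent.H120R3.Lw
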