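import Mathlib
import Pool.Agent.H120R3.LwSer

set_option autoImplicit false
set_option linter.unusedSimpArgs false

/-!
Charts: umbilic directions of a one-homogeneous function and the trace free Hessian.
-/

namespace Pool.Agent.H120R3.Ca

open Real Filter Topology Set
open Pool.Agent.H120R3.Lw (HP HP_re HP_im HP_const)
open scoped ContDiff RealInnerProductSpace

variable {E : Type*} [NormedAddCommGroup E] [InnerProductSpace ℝ E]

/-- chart map -/
noncomputable def Psi (e0 e1 e2 : E) (l σ : ℝ) (z : ℂ) : E :=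
  (l * z.re) • e0 + (l * z.im) • e1 + (l * σ * (1 - (z.re ^ 2 + z.im ^ 2)) / 2) • e2

noncomputable def T1 (e0 e2 : E) (l σ : ℝ) (z : ℂ) : E := l • e0 + (-(l * σ * z.re)) • e2
noncomputable def T2 (e1 e2 : E) (l σ : ℝ) (z : ℂ) : E := l • e1 + (-(l * σ * z.im)) • e2

lemma HP_smul {f : ℂ → ℝ} {a b : ℝ} {z : ℂ} (h : HP f a b z) (v : E) :
    HasFDerivAt (fun z => f z • v) (Complex.reCLM.smulRight (a • v) + Complex.imCLM.smulRight (b • v)) z := by
  have h2 : HasFDerivAt (fun z => f z • v) _ z := HasFDerivAt.smul_const h v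
  refine h2.congr_fderiv ?_
  ext x
  simp [add_smul, smul_smul]
  ring_nf

lemma hasFDerivAt_Psi (e0 e1 e2 : E) (l σ : ℝ) (z : ℂ) :
    HasFDerivAt (Psi e0 e1 e2 l σ)
      (Complex.reCLM.smulRight (T1 e0 e2 l σ z) + Complex.imCLM.smulRight (T2 e1 e2 l σ z)) z := by
  have h0 := HP_smul ((HP_re z).const_mul l) e0
  have h1 := HP_smul ((HP_im z).const_mul l) e1
  have hq : HP (fun z => l * σ * (1 - (z.re ^ 2 + z.im ^ 2)) / 2) (-(l * σ * z.re)) (-(l * σ * z.im)) z := by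
    have h3 := ((((HP_re z).pow 2).add ((HP_im z).pow 2)).const_mul (-(l * σ / 2))).add
      (HP_const (l * σ / 2) z)
    have e : (fun z : ℂ => l * σ * (1 - (z.re ^ 2 + z.im ^ 2)) / 2) =
        fun z => -(l * σ / 2) * (z.re ^ 2 + z.im ^ 2) + l * σ / 2 := by
      funext w; ring
    rw [e]
    refine h3.cg ?_ ?_
    · simp; ring
    · simp; ring
  have h2 := HP_smul hq e2
  have h : HasFDerivAt (Psi e0 e1 e2 l σ) _ z := (h0.add h1).add h2
  refine h.congr_fderiv ?_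
  ext x
  simp [T1, T2, smul_smul, smul_add]
  module

lemma hasFDerivAt_T1 (e0 e2 : E) (l σ : ℝ) (z : ℂ) :
    HasFDerivAt (T1 e0 e2 l σ) (Complex.reCLM.smulRight ((-(l * σ)) • e2)) z := by
  have h1 := HP_smul ((HP_re z).const_mul (-(l * σ))) e2
  have h2 : HasFDerivAt (fun _ : ℂ => l • e0) (0 : ℂ →L[ℝ] E) z := hasFDerivAt_const _ _
  have h := h2.add h1
  have e : T1 e0 e2 l σ = fun z => l • e0 + (-(l * σ) * z.re) • e2 := by
    funext w; unfold T1; congr 2; ring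
  rw [e]
  refine h.congr_fderiv ?_
  ext x
  simp

lemma hasFDerivAt_T2 (e1 e2 : E) (l σ : ℝ) (z : ℂ) :
    HasFDerivAt (T2 e1 e2 l σ) (Complex.imCLM.smulRight ((-(l * σ)) • e2)) z := by
  have h1 := HP_smul ((HP_im z).const_mul (-(l * σ))) e2
  have h2 : HasFDerivAt (fun _ : ℂ => l • e1) (0 : ℂ →L[ℝ] E) z := hasFDerivAt_const _ _
  have h := h2.add h1
  have e : T2 e1 e2 l σ = fun z => l • e1 + (-(l * σ) * z.im) • e2 := by
    funext w; unfold T2; congr 2; ring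
  rw [e]
  refine h.congr_fderiv ?_
  ext x
  simp

/-- the chart lemma -/
lemma chart {e0 e1 e2 : E} (h00 : ⟪e0, e0⟫ = 1) (h11 : ⟪e1, e1⟫ = 1) (h22 : ⟪e2, e2⟫ = 1)
    (h01 : ⟪e0, e1⟫ = 0) (h02 : ⟪e0, e2⟫ = 0) (h12 : ⟪e1, e2⟫ = 0)
    {l σ : ℝ} (hl : 0 < l) (hσ : σ ^ 2 = 1) {H : E → ℝ} {z : ℂ}
    (H' : E → E →L[ℝ] ℝ) (hH : ∀ᶠ y in 𝓝 (Psi e0 e1 e2 l σ z), HasFDerivAt H (H' y) y)
    (B : E →L[ℝ] E →L[ℝ] ℝ) (hB : HasFDerivAt H' B (Psi e0 e1 e2 l σ z))
    (hE : ∀ v, B v (Psi e0 e1 e2 l σ z) = 0) (hE' : ∀ v, B (Psi e0 e1 e2 l σ z) v = 0)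
    {c : ℝ} (humb : ∀ u v, ⟪u, Psi e0 e1 e2 l σ z⟫ = 0 → ⟪v, Psi e0 e1 e2 l σ z⟫ = 0 → B u v = c * ⟪u, v⟫)
    {g gx gy : ℂ → ℝ} {gxx gxy gyx gyy : ℝ} (hg : ∀ᶠ w in 𝓝 z, HP g (gx w) (gy w) w)
    (hgx : HP gx gxx gxy z) (hgy : HP gy gyx gyy z)
    (hc : ∀ᶠ w in 𝓝 z, H (Psi e0 e1 e2 l σ w) = l * g w) :
    gxx = gyy ∧ gxy + gyx = 0 := by
  have h10 : ⟪e1, e0⟫ = 0 := by rw [real_inner_comm]; exact h01
  have h20 : ⟪e2, e0⟫ = 0 := by rw [real_inner_comm]; exact h02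
  have h21 : ⟪e2, e1⟫ = 0 := by rw [real_inner_comm]; exact h12
  have hΨc : ContinuousAt (Psi e0 e1 e2 l σ) z := (hasFDerivAt_Psi e0 e1 e2 l σ z).continuousAt
  have hHΨ : ∀ᶠ w in 𝓝 z, HasFDerivAt H (H' (Psi e0 e1 e2 l σ w)) (Psi e0 e1 e2 l σ w) :=
    hΨc.eventually hH
  have step1 : ∀ᶠ w in 𝓝 z, H' (Psi e0 e1 e2 l σ w) (T1 e0 e2 l σ w) = l * gx w ∧
      H' (Psi e0 e1 e2 l σ w) (T2 e1 e2 l σ w) = l * gy w := by
    filter_upwards [hHΨ, hg, eventually_eventually_nhds.2 hc] with w hw1 hw2 hw3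
    have k1 : HasFDerivAt (fun w => H (Psi e0 e1 e2 l σ w)) _ w := hw1.comp w (hasFDerivAt_Psi e0 e1 e2 l σ w)
    have k2 : HasFDerivAt (fun w => l * g w) ((l * gx w) • Complex.reCLM + (l * gy w) • Complex.imCLM) w :=
      hw2.const_mul l
    have k3 := k2.congr_of_eventuallyEq hw3
    have k4 := k1.unique k3
    constructor
    · have := congrArg (fun L : ℂ →L[ℝ] ℝ => L 1) k4
      simpa using this
    · have := congrArg (fun L : ℂ →L[ℝ] ℝ => L Complex.I) k4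
      simpa using this
  -- second level
  have hcomp : HasFDerivAt (fun w => H' (Psi e0 e1 e2 l σ w))
      (B.comp (Complex.reCLM.smulRight (T1 e0 e2 l σ z) + Complex.imCLM.smulRight (T2 e1 e2 l σ z))) z :=
    hB.comp z (hasFDerivAt_Psi e0 e1 e2 l σ z)
  have s1 : HasFDerivAt (fun w => H' (Psi e0 e1 e2 l σ w) (T1 e0 e2 l σ w)) _ z :=
    hcomp.clm_apply (hasFDerivAt_T1 e0 e2 l σ z)
  have s2 : HasFDerivAt (fun w => H' (Psi e0 e1 e2 l σ w) (T2 e1 e2 l σ w)) _ z :=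
    hcomp.clm_apply (hasFDerivAt_T2 e1 e2 l σ z)
  have r1 : HasFDerivAt (fun w => l * gx w) ((l * gxx) • Complex.reCLM + (l * gxy) • Complex.imCLM) z :=
    hgx.const_mul l
  have r2 : HasFDerivAt (fun w => l * gy w) ((l * gyx) • Complex.reCLM + (l * gyy) • Complex.imCLM) z :=
    hgy.const_mul l
  have u1 := s1.unique (r1.congr_of_eventuallyEq (by filter_upwards [step1] with w hw using hw.1))
  have u2 := s2.unique (r2.congr_of_eventuallyEq (by filter_upwards [step1] with w hw using hw.2))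
  have a1 := congrArg (fun L : ℂ →L[ℝ] ℝ => L 1) u1
  have a2 := congrArg (fun L : ℂ →L[ℝ] ℝ => L Complex.I) u1
  have a3 := congrArg (fun L : ℂ →L[ℝ] ℝ => L 1) u2
  have a4 := congrArg (fun L : ℂ →L[ℝ] ℝ => L Complex.I) u2
  simp at a1 a2 a3 a4
  clear u1 u2 s1 s2 r1 r2 hcomp step1 hHΨ
  -- projections
  obtain ⟨x, hx⟩ : ∃ x, x = z.re := ⟨_, rfl⟩
  obtain ⟨y, hy⟩ : ∃ y, y = z.im := ⟨_, rfl⟩
  obtain ⟨p, hp⟩ : ∃ p, p = Psi e0 e1 e2 l σ z := ⟨_, rfl⟩
  obtain ⟨t1, ht1⟩ : ∃ t, t = T1 e0 e2 l σ z := ⟨_, rfl⟩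
  obtain ⟨t2, ht2⟩ : ∃ t, t = T2 e1 e2 l σ z := ⟨_, rfl⟩
  rw [← hp] at hE hE' humb
  rw [← ht1] at a1 a2 a3
  rw [← ht2] at a2 a3 a4
  have hpp : p = (l * x) • e0 + (l * y) • e1 + (l * σ * (1 - (x ^ 2 + y ^ 2)) / 2) • e2 := by
    rw [hp, hx, hy]; rfl
  have ht1' : t1 = l • e0 + (-(l * σ * x)) • e2 := by rw [ht1, hx]; rfl
  have ht2' : t2 = l • e1 + (-(l * σ * y)) • e2 := by rw [ht2, hy]; rfl
  have hD : 0 < 1 + (x ^ 2 + y ^ 2) := by positivity
  have i1 : ⟪t1, p⟫ = l ^ 2 * x * (1 + (x ^ 2 + y ^ 2)) / 2 := by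
    rw [hpp, ht1']
    simp only [inner_add_left, inner_add_right, real_inner_smul_left, real_inner_smul_right,
      h00, h11, h22, h01, h02, h12, h10, h20, h21]
    linear_combination (-(l ^ 2 * x * (1 - (x ^ 2 + y ^ 2)) / 2)) * hσ
  have i2 : ⟪t2, p⟫ = l ^ 2 * y * (1 + (x ^ 2 + y ^ 2)) / 2 := by
    rw [hpp, ht2']
    simp only [inner_add_left, inner_add_right, real_inner_smul_left, real_inner_smul_right,
      h00, h11, h22, h01, h02, h12, h10, h20, h21]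
    linear_combination (-(l ^ 2 * y * (1 - (x ^ 2 + y ^ 2)) / 2)) * hσ
  have ip : ⟪p, p⟫ = l ^ 2 * (1 + (x ^ 2 + y ^ 2)) ^ 2 / 4 := by
    rw [hpp]
    simp only [inner_add_left, inner_add_right, real_inner_smul_left, real_inner_smul_right,
      h00, h11, h22, h01, h02, h12, h10, h20, h21]
    linear_combination (l ^ 2 * (1 - (x ^ 2 + y ^ 2)) ^ 2 / 4) * hσ
  have j11 : ⟪t1, t1⟫ = l ^ 2 * (1 + x ^ 2) := by
    rw [ht1']
    simp only [inner_add_left, inner_add_right, real_inner_smul_left, real_inner_smul_right,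
      h00, h11, h22, h01, h02, h12, h10, h20, h21]
    linear_combination (l ^ 2 * x ^ 2) * hσ
  have j22 : ⟪t2, t2⟫ = l ^ 2 * (1 + y ^ 2) := by
    rw [ht2']
    simp only [inner_add_left, inner_add_right, real_inner_smul_left, real_inner_smul_right,
      h00, h11, h22, h01, h02, h12, h10, h20, h21]
    linear_combination (l ^ 2 * y ^ 2) * hσ
  have j12 : ⟪t1, t2⟫ = l ^ 2 * (x * y) := by
    rw [ht1', ht2']
    simp only [inner_add_left, inner_add_right, real_inner_smul_left, real_inner_smul_right,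
      h00, h11, h22, h01, h02, h12, h10, h20, h21]
    linear_combination (l ^ 2 * x * y) * hσ
  have i1' : ⟪p, t1⟫ = l ^ 2 * x * (1 + (x ^ 2 + y ^ 2)) / 2 := by rw [real_inner_comm]; exact i1
  have i2' : ⟪p, t2⟫ = l ^ 2 * y * (1 + (x ^ 2 + y ^ 2)) / 2 := by rw [real_inner_comm]; exact i2
  have j21 : ⟪t2, t1⟫ = l ^ 2 * (x * y) := by rw [real_inner_comm]; exact j12
  obtain ⟨s, hs⟩ : ∃ s, s = 2 * x / (1 + (x ^ 2 + y ^ 2)) := ⟨_, rfl⟩
  obtain ⟨s', hs'⟩ : ∃ s', s' = 2 * y / (1 + (x ^ 2 + y ^ 2)) := ⟨_, rfl⟩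
  have hsD : s * (1 + (x ^ 2 + y ^ 2)) = 2 * x := by rw [hs]; field_simp
  have hsD' : s' * (1 + (x ^ 2 + y ^ 2)) = 2 * y := by rw [hs']; field_simp
  have o1 : ⟪t1 - s • p, p⟫ = 0 := by
    rw [inner_sub_left, real_inner_smul_left, i1, ip]
    linear_combination (-(l ^ 2 * (1 + (x ^ 2 + y ^ 2)) / 4)) * hsD
  have o2 : ⟪t2 - s' • p, p⟫ = 0 := by
    rw [inner_sub_left, real_inner_smul_left, i2, ip]
    linear_combination (-(l ^ 2 * (1 + (x ^ 2 + y ^ 2)) / 4)) * hsD'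
  have B1 : ∀ (a b : E) (α β : ℝ), B (a - α • p) (b - β • p) = B a b := by
    intro a b α β
    have e1 : B (a - α • p) (b - β • p) = B (a - α • p) b - β * B (a - α • p) p := by
      rw [map_sub, map_smul, smul_eq_mul]
    have e2 : B (a - α • p) b = B a b - α * B p b := by
      rw [map_sub, map_smul]; rfl
    rw [e1, hE, e2, hE']
    ring
  have b11 : B t1 t1 = c * l ^ 2 := by
    rw [← B1 t1 t1 s s, humb _ _ o1 o1]
    congr 1
    rw [inner_sub_left, inner_sub_right, inner_sub_right, real_inner_smul_left, real_inner_smul_left,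
      real_inner_smul_right, real_inner_smul_right, j11, i1, i1', ip]
    linear_combination (l ^ 2 * (s * (1 + (x ^ 2 + y ^ 2)) / 4 - x / 2)) * hsD
  have b22 : B t2 t2 = c * l ^ 2 := by
    rw [← B1 t2 t2 s' s', humb _ _ o2 o2]
    congr 1
    rw [inner_sub_left, inner_sub_right, inner_sub_right, real_inner_smul_left, real_inner_smul_left,
      real_inner_smul_right, real_inner_smul_right, j22, i2, i2', ip]
    linear_combination (l ^ 2 * (s' * (1 + (x ^ 2 + y ^ 2)) / 4 - y / 2)) * hsD'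
  have b12 : B t1 t2 = 0 := by
    rw [← B1 t1 t2 s s', humb _ _ o1 o2]
    have : ⟪t1 - s • p, t2 - s' • p⟫ = 0 := by
      rw [inner_sub_left, inner_sub_right, inner_sub_right, real_inner_smul_left, real_inner_smul_left,
        real_inner_smul_right, real_inner_smul_right, j12, i1, i2', ip]
      linear_combination (l ^ 2 * (s' * (1 + (x ^ 2 + y ^ 2)) / 4 - y / 2)) * hsD
    rw [this, mul_zero]
  have b21 : B t2 t1 = 0 := by
    rw [← B1 t2 t1 s' s, humb _ _ o2 o1]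
    have : ⟪t2 - s' • p, t1 - s • p⟫ = 0 := by
      rw [inner_sub_left, inner_sub_right, inner_sub_right, real_inner_smul_left, real_inner_smul_left,
        real_inner_smul_right, real_inner_smul_right, j21, i2, i1', ip]
      linear_combination (l ^ 2 * (s * (1 + (x ^ 2 + y ^ 2)) / 4 - x / 2)) * hsD'
    rw [this, mul_zero]
  have hl0 : l ≠ 0 := hl.ne'
  rw [b11] at a1
  rw [b22] at a4
  constructor
  · have : l * (gxx - gyy) = 0 := by linear_combination a4 - a1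
    have := (mul_eq_zero.1 this).resolve_left hl0
    linarith
  · have : l * (gxy + gyx) = 0 := by
      linear_combination -a2 - a3 + b12 + b21
    exact (mul_eq_zero.1 this).resolve_left hl0

end Pool.Agent.H120R3.Ca
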