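import Mathlib

set_option autoImplicit false

/-!
From a perturbation of the support function to a surface given as a regular zero set.
-/

namespace Pool.Agent.H120R3.Ca

open Real Filter Topology Set
open scoped ContDiff RealInnerProductSpace NNReal

variable {E : Type*} [NormedAddCommGroup E] [InnerProductSpace ℝ E] [FiniteDimensional ℝ E]

/-- real-linear inverse of the Riesz isomorphism -/
noncomputable def Rz (E : Type*) [NormedAddCommGroup E] [InnerProductSpace ℝ E] [FiniteDimensional ℝ E] :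
    (E →L[ℝ] ℝ) →L[ℝ] E :=
  ∑ i, (ContinuousLinearMap.apply ℝ ℝ (stdOrthonormalBasis ℝ E i)).smulRight (stdOrthonormalBasis ℝ E i)

lemma Rz_inner (φ : E →L[ℝ] ℝ) (v : E) : ⟪Rz E φ, v⟫ = φ v := by
  unfold Rz
  have h := (stdOrthonormalBasis ℝ E).sum_repr' v
  conv_rhs => rw [← h]
  rw [ContinuousLinearMap.sum_apply, sum_inner, map_sum]
  apply Finset.sum_congr rfl
  intro i _
  simp [inner_smul_left]
  ring

theorem geo {K : E → ℝ} (hK : ContDiff ℝ ∞ K) (hKc : HasCompactSupport K)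
    (hEuler : ∀ y : E, ‖y‖ = 1 → ∀ᶠ x in 𝓝 y, ∀ v, fderiv ℝ (fderiv ℝ K) x v x = 0) :
    ∃ (F : E → ℝ) (Φ : E ≃ₜ E), ContDiff ℝ ∞ F ∧ (∀ x, F x = ‖Φ.symm x‖ ^ 2 - 1) ∧
      (∀ x, F x = 0 → fderiv ℝ F x ≠ 0) ∧
      (∀ x, F x = 0 → (∃ c : ℝ, ∀ u v, fderiv ℝ F x u = 0 → fderiv ℝ F x v = 0 →
          fderiv ℝ (fderiv ℝ F) x u v = c * ⟪u, v⟫) →
        ∃ c : ℝ, ∀ u v, ⟪u, Φ.symm x⟫ = 0 → ⟪v, Φ.symm x⟫ = 0 →
          fderiv ℝ (fderiv ℝ K) (Φ.symm x) u v = c * ⟪u, v⟫) := by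
  have hfK : ContDiff ℝ ∞ (fderiv ℝ K) := hK.fderiv_right (by simp)
  have hfKd : ∀ x, HasFDerivAt (fderiv ℝ K) (fderiv ℝ (fderiv ℝ K) x) x := fun x =>
    (hfK.differentiable (by simp) x).hasFDerivAt
  have hg : ContDiff ℝ ∞ (fun y => Rz E (fderiv ℝ K y)) := (Rz E).contDiff.comp hfK
  have hgc : HasCompactSupport (fun y => Rz E (fderiv ℝ K y)) := by
    have h1 : HasCompactSupport (fderiv ℝ K) := hKc.fderiv ℝ
    exact h1.comp_left (map_zero (Rz E))
  obtain ⟨C, hC⟩ : ∃ C, LipschitzWith C (fun y => Rz E (fderiv ℝ K y)) :=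
    ContDiff.lipschitzWith_of_hasCompactSupport hgc hg (by simp)
  obtain ⟨ε, hε⟩ : ∃ ε : ℝ, ε = 1 / (2 * ((C : ℝ) + 1)) := ⟨_, rfl⟩
  have hC0 : (0 : ℝ) ≤ C := C.coe_nonneg
  have hε0 : 0 < ε := by rw [hε]; positivity
  have hεC : ε * C ≤ 1 / 2 := by
    rw [hε, div_mul_eq_mul_div, div_le_div_iff₀ (by positivity) (by norm_num)]
    linarith
  set φ : E → E := fun y => y + ε • Rz E (fderiv ℝ K y) with hφ
  have hφs : ContDiff ℝ ∞ φ := contDiff_id.add (contDiff_const.smul hg)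
  have happ : ApproximatesLinearOn φ ((ContinuousLinearEquiv.refl ℝ E : E ≃L[ℝ] E) : E →L[ℝ] E) univ (1 / 2) := by
    intro x _ y _
    have h1 : φ x - φ y - ((ContinuousLinearEquiv.refl ℝ E : E ≃L[ℝ] E) : E →L[ℝ] E) (x - y)
        = ε • (Rz E (fderiv ℝ K x) - Rz E (fderiv ℝ K y)) := by
      simp only [hφ, ContinuousLinearEquiv.coe_refl, ContinuousLinearMap.coe_id', id_eq, smul_sub]
      abel
    rw [h1, norm_smul, Real.norm_of_nonneg hε0.le]
    have h2 : ‖Rz E (fderiv ℝ K x) - Rz E (fderiv ℝ K y)‖ ≤ C * ‖x - y‖ := by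
      have := hC.dist_le_mul x y
      rwa [dist_eq_norm, dist_eq_norm] at this
    calc ε * ‖Rz E (fderiv ℝ K x) - Rz E (fderiv ℝ K y)‖ ≤ ε * (C * ‖x - y‖) :=
          mul_le_mul_of_nonneg_left h2 hε0.le
      _ = (ε * C) * ‖x - y‖ := by ring
      _ ≤ (1 / 2) * ‖x - y‖ := mul_le_mul_of_nonneg_right hεC (norm_nonneg _)
      _ = _ := by norm_num
  have hcc : Subsingleton E ∨ (1 / 2 : ℝ≥0) <
      ‖((ContinuousLinearEquiv.refl ℝ E : E ≃L[ℝ] E).symm : E →L[ℝ] E)‖₊⁻¹ := by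
    rcases subsingleton_or_nontrivial E with h | h
    · exact Or.inl h
    · right
      have e : ‖((ContinuousLinearEquiv.refl ℝ E : E ≃L[ℝ] E).symm : E →L[ℝ] E)‖₊ = 1 := by
        have : ((ContinuousLinearEquiv.refl ℝ E : E ≃L[ℝ] E).symm : E →L[ℝ] E) = ContinuousLinearMap.id ℝ E := rfl
        rw [this, ← NNReal.coe_inj, coe_nnnorm, ContinuousLinearMap.norm_id]
        rfl
      rw [e, inv_one]
      exact NNReal.coe_lt_coe.1 (by norm_num)
  set Φ : E ≃ₜ E := happ.toHomeomorph φ hcc with hΦ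
  have hΦa : ∀ x, Φ x = φ x := fun x => rfl
  -- derivative
  obtain ⟨D, hD⟩ : ∃ D : E → E →L[ℝ] E, D = fun x => ContinuousLinearMap.id ℝ E +
      ε • (Rz E).comp (fderiv ℝ (fderiv ℝ K) x) := ⟨_, rfl⟩
  have hDa : ∀ x v, D x v = v + ε • Rz E (fderiv ℝ (fderiv ℝ K) x v) := by
    intro x v; rw [hD]; rfl
  have hφd : ∀ x, HasFDerivAt φ (D x) x := by
    intro x
    rw [hD]
    exact (hasFDerivAt_id x).add (((Rz E).hasFDerivAt.comp x (hfKd x)).const_smul ε)
  have hinner : ∀ x v u, ⟪D x v, u⟫ = ⟪v, u⟫ + ε * fderiv ℝ (fderiv ℝ K) x v u := by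
    intro x v u
    rw [hDa, inner_add_left, real_inner_smul_left, Rz_inner]
  have hinj : ∀ x, Function.Injective (D x) := by
    intro x
    rw [injective_iff_map_eq_zero]
    intro v hv
    have h1 : ‖fderiv ℝ (fun y => Rz E (fderiv ℝ K y)) x‖ ≤ C := norm_fderiv_le_of_lipschitz ℝ hC
    have h2 : fderiv ℝ (fun y => Rz E (fderiv ℝ K y)) x = (Rz E).comp (fderiv ℝ (fderiv ℝ K) x) :=
      ((Rz E).hasFDerivAt.comp x (hfKd x)).fderiv
    rw [h2] at h1
    have h3 : ‖Rz E (fderiv ℝ (fderiv ℝ K) x v)‖ ≤ C * ‖v‖ := by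
      have := ((Rz E).comp (fderiv ℝ (fderiv ℝ K) x)).le_of_opNorm_le h1 v
      exact this
    rw [hDa] at hv
    have h4 : v = -(ε • Rz E (fderiv ℝ (fderiv ℝ K) x v)) := eq_neg_of_add_eq_zero_left hv
    have h5 : ‖v‖ = ε * ‖Rz E (fderiv ℝ (fderiv ℝ K) x v)‖ := by
      conv_lhs => rw [h4]
      rw [norm_neg, norm_smul, Real.norm_of_nonneg hε0.le]
    have h6 : ‖v‖ ≤ (1 / 2) * ‖v‖ := by
      calc ‖v‖ = ε * ‖Rz E (fderiv ℝ (fderiv ℝ K) x v)‖ := h5
        _ ≤ ε * (C * ‖v‖) := mul_le_mul_of_nonneg_left h3 hε0.le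
        _ = (ε * C) * ‖v‖ := by ring
        _ ≤ (1 / 2) * ‖v‖ := mul_le_mul_of_nonneg_right hεC (norm_nonneg _)
    have h7 : ‖v‖ = 0 := by
      have := norm_nonneg v
      linarith
    exact norm_eq_zero.1 h7
  set De : E → E ≃L[ℝ] E := fun x =>
    (LinearEquiv.ofInjectiveEndo (D x : E →ₗ[ℝ] E) (hinj x)).toContinuousLinearEquiv with hDe
  have hDe_eq : ∀ x, ((De x : E ≃L[ℝ] E) : E →L[ℝ] E) = D x := by
    intro x
    ext v
    rfl
  have hsurj : ∀ x, Function.Surjective (D x) := by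
    intro x w
    refine ⟨(De x).symm w, ?_⟩
    have : D x ((De x).symm w) = (De x) ((De x).symm w) := by
      rw [← hDe_eq x]; rfl
    rw [this, ContinuousLinearEquiv.apply_symm_apply]
  have hsymm : ContDiff ℝ ∞ (Φ.symm : E → E) := by
    apply Φ.contDiff_symm (f₀' := De)
    · intro a
      rw [hDe_eq a]
      exact hφd a
    · exact hφs
  -- the function
  set F : E → ℝ := fun x => ‖Φ.symm x‖ ^ 2 - 1 with hF
  have hFs : ContDiff ℝ ∞ F := (hsymm.norm_sq ℝ).sub contDiff_const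
  have hFd : ∀ x, HasFDerivAt F (fderiv ℝ F x) x := fun x => (hFs.differentiable (by simp) x).hasFDerivAt
  have hFfd : ContDiff ℝ ∞ (fderiv ℝ F) := hFs.fderiv_right (by simp)
  have hFdd : ∀ x, HasFDerivAt (fderiv ℝ F) (fderiv ℝ (fderiv ℝ F) x) x := fun x =>
    (hFfd.differentiable (by simp) x).hasFDerivAt
  have hFΦ : ∀ y, F (φ y) = ‖y‖ ^ 2 - 1 := by
    intro y
    rw [hF]
    show ‖Φ.symm (φ y)‖ ^ 2 - 1 = _
    rw [← hΦa, Homeomorph.symm_apply_apply]
  have hchain : ∀ y v, fderiv ℝ F (φ y) (D y v) = 2 * ⟪y, v⟫ := by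
    intro y v
    have h1 : HasFDerivAt (fun y => F (φ y)) ((fderiv ℝ F (φ y)).comp (D y)) y := (hFd (φ y)).comp y (hφd y)
    have h2 : (fun y => F (φ y)) = fun y => ‖y‖ ^ 2 - 1 := funext hFΦ
    rw [h2] at h1
    have h3 : HasFDerivAt (fun y : E => ‖y‖ ^ 2 - 1) (2 • (innerSL ℝ y)) y :=
      (hasStrictFDerivAt_norm_sq y).hasFDerivAt.sub_const 1
    have h4 := congrArg (fun L : E →L[ℝ] ℝ => L v) (h1.unique h3)
    simpa using h4
  have hsph : ∀ x, F x = 0 → ‖Φ.symm x‖ = 1 ∧ φ (Φ.symm x) = x := by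
    intro x hx
    constructor
    · have h1 : ‖Φ.symm x‖ ^ 2 = 1 := by
        have : ‖Φ.symm x‖ ^ 2 - 1 = 0 := hx
        linarith
      have h2 := norm_nonneg (Φ.symm x)
      nlinarith
    · rw [← hΦa, Homeomorph.apply_symm_apply]
  refine ⟨F, Φ, hFs, fun x => rfl, ?_, ?_⟩
  · intro x hx h0
    obtain ⟨h1, h2⟩ := hsph x hx
    have h3 := hchain (Φ.symm x) (Φ.symm x)
    rw [h2, h0, real_inner_self_eq_norm_sq, h1] at h3
    norm_num at h3
  · rintro x hx ⟨c, hc⟩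
    obtain ⟨h1, h2⟩ := hsph x hx
    obtain ⟨y, hy⟩ : ∃ y, y = Φ.symm x := ⟨_, rfl⟩
    rw [← hy] at h1 h2 ⊢
    have hgrad : ∀ᶠ x' in 𝓝 y, ∀ w, fderiv ℝ F (φ x') w = 2 * ⟪x', w⟫ := by
      filter_upwards [hEuler y h1] with x' hx' w
      obtain ⟨v, rfl⟩ := hsurj x' w
      rw [hchain, real_inner_comm, real_inner_comm (D x' v) x', hinner, hx' v]
      ring
    have hgrad0 := hgrad.self_of_nhds
    have hEy := (hEuler y h1).self_of_nhds
    have hsecond : ∀ v u, fderiv ℝ (fderiv ℝ F) x (D y v) u = 2 * ⟪v, u⟫ := by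
      intro v u
      have e1 : HasFDerivAt (fun x' => fderiv ℝ F (φ x')) ((fderiv ℝ (fderiv ℝ F) (φ y)).comp (D y)) y :=
        (hFdd (φ y)).comp y (hφd y)
      have e2 : HasFDerivAt (fun x' => fderiv ℝ F (φ x') u)
          (((ContinuousLinearMap.apply ℝ ℝ u)).comp ((fderiv ℝ (fderiv ℝ F) (φ y)).comp (D y))) y :=
        (ContinuousLinearMap.apply ℝ ℝ u).hasFDerivAt.comp y e1
      have e3 : HasFDerivAt (fun x' : E => 2 * ⟪x', u⟫) (2 • (innerSL ℝ u)) y := by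
        have h5 : HasFDerivAt (fun x' : E => innerSL ℝ u x') (innerSL ℝ u) y := (innerSL ℝ u).hasFDerivAt
        have h6 := h5.const_mul (2:ℝ)
        have h7 : (fun x' : E => 2 * innerSL ℝ u x') = fun x' : E => 2 * ⟪x', u⟫ := by
          funext x'
          rw [innerSL_apply_apply, real_inner_comm]
        rw [h7] at h6
        refine h6.congr_fderiv ?_
        ext w
        simp
      have e4 : HasFDerivAt (fun x' => fderiv ℝ F (φ x') u) (2 • (innerSL ℝ u)) y :=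
        e3.congr_of_eventuallyEq (by
          filter_upwards [hgrad] with x' hx' using hx' u)
      have e5 := congrArg (fun L : E →L[ℝ] ℝ => L v) (e2.unique e4)
      rw [h2] at e5
      simpa [real_inner_comm] using e5
    have key : ∀ u v, ⟪u, y⟫ = 0 → ⟪v, y⟫ = 0 →
        2 * ⟪v, u⟫ = c * (⟪v, u⟫ + ε * fderiv ℝ (fderiv ℝ K) y v u) := by
      intro u v hu hv
      have k1 : fderiv ℝ F x (D y v) = 0 := by
        rw [← h2, hgrad0, real_inner_comm, hinner, hEy v, hv]; ring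
      have k2 : fderiv ℝ F x u = 0 := by
        rw [← h2, hgrad0, real_inner_comm, hu, mul_zero]
      have k3 := hc _ _ k1 k2
      rw [hsecond, hinner] at k3
      exact k3
    by_cases hc0 : c = 0
    · refine ⟨0, fun u v hu hv => ?_⟩
      have h3 := key u u hu hu
      rw [hc0, zero_mul, real_inner_self_eq_norm_sq] at h3
      have h4 : ‖u‖ = 0 := by
        have := norm_nonneg u
        nlinarith
      rw [norm_eq_zero] at h4
      rw [h4]
      simp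
    · refine ⟨(2 / c - 1) / ε, fun u v hu hv => ?_⟩
      have h3 := key v u hv hu
      field_simp
      linarith

end Pool.Agent.H120R3.Ca
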