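import Mathlib
import Pool.Agent.H120R3.LwSer

set_option autoImplicit false

/-!
Second order computation for one term `α(log|z|) L(z)`.
-/

namespace Pool.Agent.H120R3.Lw

open Real Filter Topology Set
open scoped ContDiff

/-- `E = sqrt(A x² + B y²)/|z|` -/
noncomputable def ee (A B : ℝ) (z : ℂ) : ℝ := (A * z.re ^ 2 + B * z.im ^ 2) * si A B z * ri z

/-- homogeneous degree one building block -/
noncomputable def LL (c p q A B : ℝ) (z : ℂ) : ℝ :=
  p * z.re + q * z.im + c * (p * z.im + q * z.re) * (ee A B z - 1)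

noncomputable def LLx (c p q A B : ℝ) (z : ℂ) : ℝ :=
  p + c * q * (ee A B z - 1)
    + c * (p * z.im + q * z.re) * (A - B) * z.re * z.im ^ 2 * si A B z * ri z ^ 3

noncomputable def LLy (c p q A B : ℝ) (z : ℂ) : ℝ :=
  q + c * p * (ee A B z - 1)
    - c * (p * z.im + q * z.re) * (A - B) * z.re ^ 2 * z.im * si A B z * ri z ^ 3

noncomputable def kr (c p q A B : ℝ) (z : ℂ) : ℝ :=
  -c * (A - B) * (2 * (p * z.re - q * z.im) * z.re * z.im
    + (p * z.im + q * z.re) * (z.re ^ 2 - z.im ^ 2)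
    + (A - B) * (p * z.im + q * z.re) * z.re ^ 2 * z.im ^ 2 * si A B z ^ 2) * si A B z * ri z ^ 5

lemma HP_ee {A B : ℝ} (hA : 0 < A) (hB : 0 < B) {z : ℂ} (hz : z ≠ 0) :
    HP (ee A B) ((A - B) * z.re * z.im ^ 2 * si A B z * ri z ^ 3)
      (-((A - B) * z.re ^ 2 * z.im * si A B z * ri z ^ 3)) z := by
  have h0 : HP (fun z => A * z.re ^ 2 + B * z.im ^ 2) (2 * A * z.re) (2 * B * z.im) z := by
    refine (((HP_re z).pow 2).const_mul A |>.add (((HP_im z).pow 2).const_mul B)).cg ?_ ?_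
    · simp; ring
    · simp; ring
  have h1 := (h0.mul (HP_si hA hB hz)).mul (HP_ri hz)
  have hs := si_sq hA hB hz
  have hr := ri_sq hz
  refine HP.cg h1 ?_ ?_
  · generalize si A B z = s at *
    generalize ri z = r at *
    generalize z.re = x at *
    generalize z.im = y at *
    linear_combination (-A * x * s * r) * hs + (-A * x * s * r) * hr
  · generalize si A B z = s at *
    generalize ri z = r at *
    generalize z.re = x at *
    generalize z.im = y at *
    linear_combination (-B * y * s * r) * hs + (-B * y * s * r) * hr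

lemma HP_LL (c p q : ℝ) {A B : ℝ} (hA : 0 < A) (hB : 0 < B) {z : ℂ} (hz : z ≠ 0) :
    HP (LL c p q A B) (LLx c p q A B z) (LLy c p q A B z) z := by
  have h1 : HP (fun z => p * z.re + q * z.im) p q z := by
    refine (((HP_re z).const_mul p).add ((HP_im z).const_mul q)).cg ?_ ?_ <;> simp
  have h2 : HP (fun z => c * (p * z.im + q * z.re)) (c * q) (c * p) z := by
    refine ((((HP_im z).const_mul p).add ((HP_re z).const_mul q)).const_mul c).cg ?_ ?_ <;> simp
  have h3 := (HP_ee hA hB hz).add (HP_const (-1) z)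
  have h4 := h1.add (h2.mul h3)
  have e : LL c p q A B = fun z => p * z.re + q * z.im + c * (p * z.im + q * z.re) * (ee A B z + -1) := by
    funext w; unfold LL; ring
  rw [e]
  refine HP.cg h4 ?_ ?_
  · unfold LLx; ring
  · unfold LLy; ring

lemma HP_v (A B a b k : ℝ) (i j m : ℕ) (hA : 0 < A) (hB : 0 < B) {z : ℂ} (hz : z ≠ 0) :
    HP (fun z => (a * z.re + b * z.im) * k * z.re ^ i * z.im ^ j * si A B z * ri z ^ m)
      (a * k * z.re ^ i * z.im ^ j * si A B z * ri z ^ m
        + (a * z.re + b * z.im) * k * (i * z.re ^ (i - 1)) * z.im ^ j * si A B z * ri z ^ m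
        + (a * z.re + b * z.im) * k * z.re ^ i * z.im ^ j * (-(A * z.re * si A B z ^ 3)) * ri z ^ m
        + (a * z.re + b * z.im) * k * z.re ^ i * z.im ^ j * si A B z * (-(m * z.re * ri z ^ (m + 2))))
      (b * k * z.re ^ i * z.im ^ j * si A B z * ri z ^ m
        + (a * z.re + b * z.im) * k * z.re ^ i * (j * z.im ^ (j - 1)) * si A B z * ri z ^ m
        + (a * z.re + b * z.im) * k * z.re ^ i * z.im ^ j * (-(B * z.im * si A B z ^ 3)) * ri z ^ m
        + (a * z.re + b * z.im) * k * z.re ^ i * z.im ^ j * si A B z * (-(m * z.im * ri z ^ (m + 2)))) z := by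
  have h1 : HP (fun z => a * z.re + b * z.im) a b z := by
    refine (((HP_re z).const_mul a).add ((HP_im z).const_mul b)).cg ?_ ?_ <;> simp
  have h2 := ((((h1.mul (HP_const k z)).mul ((HP_re z).pow i)).mul ((HP_im z).pow j)).mul
    (HP_si hA hB hz)).mul (HP_powri m hz)
  refine HP.cg h2 ?_ ?_
  · ring
  · ring

lemma HP_LLx (c p q : ℝ) {A B : ℝ} (hA : 0 < A) (hB : 0 < B) {z : ℂ} (hz : z ≠ 0) :
    ∃ w, HP (LLx c p q A B) (kr c p q A B z * z.im ^ 2) w z := by
  have h3 := (((HP_ee hA hB hz).add (HP_const (-1) z)).const_mul (c * q)).add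
    (HP_v A B (c * q) (c * p) (A - B) 1 2 3 hA hB hz)
  have h4 := (HP_const p z).add h3
  have e : LLx c p q A B = fun z => p + (c * q * (ee A B z + -1) +
      (c * q * z.re + c * p * z.im) * (A - B) * z.re ^ 1 * z.im ^ 2 * si A B z * ri z ^ 3) := by
    funext w; unfold LLx; ring
  rw [e]
  refine ⟨_, HP.cg h4 ?_ rfl⟩
  have hs := si_sq hA hB hz
  have hr := ri_sq hz
  unfold kr
  generalize si A B z = s at *
  generalize ri z = r at *
  generalize z.re = x at *
  generalize z.im = y at *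
  push_cast
  linear_combination (c * (A - B) * s * y ^ 2 * r ^ 3 * ((p * y + q * x) * A * x ^ 2 * s ^ 2 - 2 * q * x - (p * y + q * x))) * hr
    + (-(c * (A - B) * s * y ^ 2 * r ^ 3 * (p * y + q * x) * x ^ 2 * r ^ 2)) * hs

lemma HP_LLy (c p q : ℝ) {A B : ℝ} (hA : 0 < A) (hB : 0 < B) {z : ℂ} (hz : z ≠ 0) :
    HP (LLy c p q A B) (-(kr c p q A B z * z.re * z.im)) (kr c p q A B z * z.re ^ 2) z := by
  have h3 := (((HP_ee hA hB hz).add (HP_const (-1) z)).const_mul (c * p)).add
    ((HP_v A B (c * q) (c * p) (A - B) 2 1 3 hA hB hz).const_mul (-1))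
  have h4 := (HP_const q z).add h3
  have e : LLy c p q A B = fun z => q + (c * p * (ee A B z + -1) +
      -1 * ((c * q * z.re + c * p * z.im) * (A - B) * z.re ^ 2 * z.im ^ 1 * si A B z * ri z ^ 3)) := by
    funext w; unfold LLy; ring
  rw [e]
  have hs := si_sq hA hB hz
  have hr := ri_sq hz
  refine HP.cg h4 ?_ ?_
  · unfold kr
    generalize si A B z = s at *
    generalize ri z = r at *
    generalize z.re = x at *
    generalize z.im = y at *
    push_cast
    linear_combination (c * (A - B) * s * x * y * r ^ 3 * (2 * q * x + (p * y + q * x) - (p * y + q * x) * x ^ 2 * A * s ^ 2)) * hr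
      + (c * (A - B) * s * x * y * r ^ 3 * (p * y + q * x) * x ^ 2 * r ^ 2) * hs
  · unfold kr
    generalize si A B z = s at *
    generalize ri z = r at *
    generalize z.re = x at *
    generalize z.im = y at *
    push_cast
    linear_combination (-(c * (A - B) * s * x ^ 2 * r ^ 3 * ((p * y + q * x) * y ^ 2 * B * s ^ 2 - 2 * p * y - (p * y + q * x)))) * hr
      + (c * (A - B) * s * x ^ 2 * r ^ 3 * (p * y + q * x) * y ^ 2 * r ^ 2) * hs

/-- Euler relation -/
lemma euler_LL (c p q A B : ℝ) (z : ℂ) :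
    z.re * LLx c p q A B z + z.im * LLy c p q A B z = LL c p q A B z := by
  unfold LLx LLy LL
  ring

/-- second order computation for `α(τ) L`. -/
lemma second_order {α : ℕ → ℝ → ℝ} (hα : ∀ l t, HasDerivAt (α l) (α (l + 1) t) t) (n : ℕ)
    (c p q : ℝ) {A B : ℝ} (hA : 0 < A) (hB : 0 < B)
    {u ux uy uxx uxy uyx uyy : ℂ → ℝ} (hu : ∀ z, z ≠ 0 → u z = α 0 (tau n z) * LL c p q A B z)
    (H : ∀ z, HP u (ux z) (uy z) z) (Hx : ∀ z, HP ux (uxx z) (uxy z) z)
    (Hy : ∀ z, HP uy (uyx z) (uyy z) z) {z : ℂ} (hz : z ≠ 0) :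
    uxx z - uyy z = ri z ^ 3 * ((z.re ^ 2 - z.im ^ 2) * (α 2 (tau n z) * (LL c p q A B z * ri z)) 
        - 4 * z.re * z.im * (α 1 (tau n z) * ((z.re * LLy c p q A B z - z.im * LLx c p q A B z) * ri z)))
        - (z.re ^ 2 - z.im ^ 2) * (α 0 (tau n z) * kr c p q A B z) ∧
    2 * uyx z = ri z ^ 3 * (2 * (z.re ^ 2 - z.im ^ 2) * (α 1 (tau n z) * ((z.re * LLy c p q A B z - z.im * LLx c p q A B z) * ri z))
        + 2 * z.re * z.im * (α 2 (tau n z) * (LL c p q A B z * ri z)))
        - 2 * z.re * z.im * (α 0 (tau n z) * kr c p q A B z) := by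
  have hne : ∀ w : ℂ, w ≠ 0 → ∀ᶠ w' in 𝓝 w, w' ≠ 0 := fun w hw => isOpen_ne.mem_nhds hw
  have h1 : ∀ w : ℂ, w ≠ 0 →
      ux w = α 1 (tau n w) * (w.re * ri w ^ 2) * LL c p q A B w + α 0 (tau n w) * LLx c p q A B w ∧
      uy w = α 1 (tau n w) * (w.im * ri w ^ 2) * LL c p q A B w + α 0 (tau n w) * LLy c p q A B w := by
    intro w hw
    have h2 := (HP.comp (hα 0 (tau n w)) (HP_tau n hw)).mul (HP_LL c p q hA hB hw)
    have h3 : HP u _ _ w := h2.congr_ev (by
      filter_upwards [hne w hw] with w' hw' using hu w' hw')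
    exact (H w).unique h3
  have hre2 : HP (fun z => ri z ^ 2) (-((2 : ℕ) * z.re * ri z ^ (2 + 2))) (-((2 : ℕ) * z.im * ri z ^ (2 + 2))) z :=
    HP_powri 2 hz
  have g0 := HP.comp (hα 0 (tau n z)) (HP_tau n hz)
  have g1 := HP.comp (hα 1 (tau n z)) (HP_tau n hz)
  obtain ⟨w', hLx⟩ := HP_LLx c p q hA hB hz
  have hLy := HP_LLy c p q hA hB hz
  have hL := HP_LL c p q hA hB hz
  have h2x := (((g1.mul ((HP_re z).mul hre2)).mul hL).add (g0.mul hLx))
  have h2y := (((g1.mul ((HP_im z).mul hre2)).mul hL).add (g0.mul hLy))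
  have h3x := (Hx z).unique (h2x.congr_ev (by
      filter_upwards [hne z hz] with w' hw' using (h1 w' hw').1))
  have h3y := (Hy z).unique (h2y.congr_ev (by
      filter_upwards [hne z hz] with w' hw' using (h1 w' hw').2))
  rw [h3x.1, h3y.1, h3y.2]
  have hE := euler_LL c p q A B z
  have hr := ri_sq hz
  have hc2 : ((2 : ℕ) : ℝ) = 2 := by norm_num
  rw [hc2]
  clear h3x h3y h2x h2y hLx hLy hL g0 g1 hre2 h1 hne H Hx Hy hu
  generalize LLx c p q A B z = Lx at *
  generalize LLy c p q A B z = Ly at *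
  generalize LL c p q A B z = L at *
  generalize kr c p q A B z = k at *
  generalize α 0 (tau n z) = a0 at *
  generalize α 1 (tau n z) = a1 at *
  generalize α (1 + 1) (tau n z) = a2 at *
  generalize ri z = r at *
  generalize z.re = x at *
  generalize z.im = y at *
  subst hE
  constructor
  · linear_combination (-2 * a1 * r ^ 2 * (x * Lx - y * Ly)) * hr
  · linear_combination (-2 * a1 * r ^ 2 * (y * Lx + x * Ly)) * hr

end Pool.Agent.H120R3.Lw
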