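import Mathlib
import Pool.Agent.H120R3.LwQ
import Pool.Agent.H120R3.LwAlg

set_option autoImplicit false

/-!
Parameters, the function, and the termwise formula.
-/

namespace Pool.Agent.H120R3.Lw

open Real Filter Topology Set
open scoped ContDiff

noncomputable def gg (n : ℕ) : ℝ := (1 / 2) ^ (n ^ 2)
noncomputable def dd (k : ℝ) (n : ℕ) : ℝ := k / 4 ^ n
noncomputable def pp (n : ℕ) : ℝ := if Even n then 1 else 0
noncomputable def qq (n : ℕ) : ℝ := if Even n then 0 else 1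
noncomputable def AA (k : ℝ) (n : ℕ) : ℝ := if Even n then 1 else dd k n ^ 2
noncomputable def BB (k : ℝ) (n : ℕ) : ℝ := if Even n then dd k n ^ 2 else 1
noncomputable def KK (k : ℝ) (n : ℕ) : ℝ := (4 * exp 1 / k) ^ (n + 1)

lemma dd_pos {k : ℝ} (hk : 0 < k) (n : ℕ) : 0 < dd k n := by unfold dd; positivity
lemma dd_le {k : ℝ} (_hk : 0 < k) (hk' : k ≤ 1 / 2) (n : ℕ) : dd k n ≤ 1 / 2 := by
  unfold dd
  rw [div_le_iff₀ (by positivity)]
  have : (1:ℝ) ≤ 4 ^ n := one_le_pow₀ (by norm_num)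
  nlinarith

lemma dd_sq_le {k : ℝ} (hk : 0 < k) (hk' : k ≤ 1 / 2) (n : ℕ) : dd k n ^ 2 ≤ 1 := by
  have h1 := dd_pos hk n
  have h2 := dd_le hk hk' n
  nlinarith

lemma gg_pos (n : ℕ) : 0 < gg n := by unfold gg; positivity

lemma gg_succ (n : ℕ) : gg (n + 1) = gg n * ((1 / 2) * (1 / 4) ^ n) := by
  unfold gg
  have e : (n + 1) ^ 2 = n ^ 2 + (1 + 2 * n) := by ring
  rw [e, pow_add, pow_add, pow_mul, pow_one]
  norm_num

lemma gg_succ_le (n : ℕ) : gg (n + 1) ≤ gg n * (1 / 2) := by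
  rw [gg_succ]
  have h1 := gg_pos n
  have h2 : ((1:ℝ) / 4) ^ n ≤ 1 := pow_le_one₀ (by norm_num) (by norm_num)
  apply mul_le_mul_of_nonneg_left _ h1.le
  linarith

lemma gg_geom (M j : ℕ) : gg (M + j) ≤ gg M * (1 / 2) ^ j := by
  induction j with
  | zero => simp
  | succ j ih =>
    calc gg (M + (j + 1)) ≤ gg (M + j) * (1 / 2) := gg_succ_le (M + j)
      _ ≤ gg M * (1 / 2) ^ j * (1 / 2) := by gcongr
      _ = _ := by ring

lemma AA_pos {k : ℝ} (hk : 0 < k) (n : ℕ) : 0 < AA k n := by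
  unfold AA
  have := dd_pos hk n
  split_ifs <;> positivity

lemma BB_pos {k : ℝ} (hk : 0 < k) (n : ℕ) : 0 < BB k n := by
  unfold BB
  have := dd_pos hk n
  split_ifs <;> positivity

lemma AA_le {k : ℝ} (hk : 0 < k) (hk' : k ≤ 1 / 2) (n : ℕ) : AA k n ≤ 1 := by
  unfold AA
  have := dd_sq_le hk hk' n
  split_ifs <;> linarith

lemma BB_le {k : ℝ} (hk : 0 < k) (hk' : k ≤ 1 / 2) (n : ℕ) : BB k n ≤ 1 := by
  unfold BB
  have := dd_sq_le hk hk' n
  split_ifs <;> linarith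

lemma AA_ge {k : ℝ} (hk : 0 < k) (hk' : k ≤ 1 / 2) (n : ℕ) : dd k n ^ 2 ≤ AA k n := by
  unfold AA
  have := dd_sq_le hk hk' n
  split_ifs <;> linarith

lemma BB_ge {k : ℝ} (hk : 0 < k) (hk' : k ≤ 1 / 2) (n : ℕ) : dd k n ^ 2 ≤ BB k n := by
  unfold BB
  have := dd_sq_le hk hk' n
  split_ifs <;> linarith

lemma base_ge {k : ℝ} (hk : 0 < k) (hk' : k ≤ 1 / 2) : 1 ≤ 4 * exp 1 / k := by
  rw [le_div_iff₀ hk]
  have := Real.add_one_le_exp (1:ℝ)
  linarith

lemma KK_ge {k : ℝ} (hk : 0 < k) (hk' : k ≤ 1 / 2) (n : ℕ) : 1 ≤ KK k n :=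
  one_le_pow₀ (base_ge hk hk')

lemma ri_le_of_tau {n : ℕ} {z : ℂ} (h : 0 < tau n z) : z ≠ 0 ∧ ri z ≤ exp (n + 1) := by
  have h0 : z ≠ 0 := by
    rintro rfl
    exact absurd (tau_nonpos_zero n) (not_le.2 h)
  refine ⟨h0, ?_⟩
  have hn := nsq_pos h0
  unfold tau at h
  have h1 : 0 < Real.log (exp (2 * (n + 1)) * (z.re ^ 2 + z.im ^ 2)) := by linarith
  rw [Real.log_pos_iff (by positivity)] at h1
  unfold ri
  have h2 : exp (-((n:ℝ) + 1)) ≤ √(z.re ^ 2 + z.im ^ 2) := by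
    apply Real.le_sqrt_of_sq_le
    have h3 : exp (-((n:ℝ) + 1)) ^ 2 * exp (2 * (n + 1)) = 1 := by
      rw [← Real.exp_nat_mul, ← Real.exp_add]
      norm_num
      ring
    have h4 : 0 < exp (2 * ((n:ℝ) + 1)) := exp_pos _
    by_contra h5
    push Not at h5
    have : exp (2 * ((n:ℝ) + 1)) * (z.re ^ 2 + z.im ^ 2) < exp (2 * ((n:ℝ) + 1)) * exp (-((n:ℝ) + 1)) ^ 2 :=
      mul_lt_mul_of_pos_left h5 h4
    linarith
  calc (√(z.re ^ 2 + z.im ^ 2))⁻¹ ≤ (exp (-((n:ℝ) + 1)))⁻¹ := inv_anti₀ (exp_pos _) h2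
    _ = exp (n + 1) := by rw [← Real.exp_neg]; norm_num

lemma exp_le_KK {k : ℝ} (hk : 0 < k) (hk' : k ≤ 1 / 2) (n : ℕ) : exp (n + 1) / dd k n ≤ KK k n := by
  unfold KK dd
  have e : exp ((n:ℝ) + 1) = exp 1 ^ (n + 1) := by
    rw [← Real.exp_nat_mul]
    congr 1
    push_cast
    ring
  rw [e, div_pow, mul_pow]
  have h1 : k ^ (n + 1) ≤ k := by
    have : k ^ (n + 1) ≤ k ^ 1 := pow_le_pow_of_le_one hk.le (by linarith) (by omega)
    simpa using this
  have h2 : (4:ℝ) ^ n ≤ 4 ^ (n + 1) := pow_le_pow_right₀ (by norm_num) (by omega)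
  have h3 : 0 < exp 1 ^ (n + 1) := by positivity
  calc exp 1 ^ (n + 1) / (k / 4 ^ n) = (4 ^ n * exp 1 ^ (n + 1)) / k := by field_simp
    _ ≤ (4 ^ (n + 1) * exp 1 ^ (n + 1)) / k := by gcongr
    _ ≤ (4 ^ (n + 1) * exp 1 ^ (n + 1)) / k ^ (n + 1) := by gcongr

lemma si_le {A B d : ℝ} (hd : 0 < d) (hA : d ^ 2 ≤ A) (hB : d ^ 2 ≤ B) {z : ℂ} (hz : z ≠ 0) :
    si A B z ≤ ri z / d := by
  have hn := nsq_pos hz
  unfold si ri
  rw [div_eq_mul_inv, ← mul_inv]
  apply inv_anti₀ (by positivity)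
  apply Real.le_sqrt_of_sq_le
  rw [mul_pow, Real.sq_sqrt hn.le]
  nlinarith [sq_nonneg z.re, sq_nonneg z.im]

/-- the parameters -/
noncomputable def par (k : ℝ) (hk : 0 < k) (hk' : k ≤ 1 / 2) : Par where
  A := AA k
  B := BB k
  K := KK k
  A_pos := AA_pos hk
  B_pos := BB_pos hk
  A_le := AA_le hk hk'
  B_le := BB_le hk hk'
  K_ge := KK_ge hk hk'
  hr := by
    intro n z h
    refine (ri_le_of_tau h).2.trans ?_
    refine le_trans ?_ (exp_le_KK hk hk' n)
    rw [le_div_iff₀ (dd_pos hk n)]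
    have := dd_le hk hk' n
    have := exp_pos ((n:ℝ) + 1)
    nlinarith
  hs := by
    intro n z h
    obtain ⟨h0, h1⟩ := ri_le_of_tau h
    refine (si_le (dd_pos hk n) (AA_ge hk hk' n) (BB_ge hk hk' n) h0).trans ?_
    refine le_trans ?_ (exp_le_KK hk hk' n)
    have := dd_pos hk n
    gcongr

lemma summable_gauss (B : ℝ) (hB : 1 ≤ B) : Summable (fun n : ℕ => gg n * B ^ (n + 1)) := by
  have hB0 : 0 < B := by linarith
  apply summable_of_ratio_test_tendsto_lt_one (l := 0) one_pos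
  · exact Filter.Eventually.of_forall fun n => by
      have := gg_pos n
      positivity
  · have e : ∀ n : ℕ, ‖gg (n + 1) * B ^ (n + 1 + 1)‖ / ‖gg n * B ^ (n + 1)‖ = (B / 2) * (1 / 4) ^ n := by
      intro n
      have h1 := gg_pos n
      have h2 := gg_pos (n + 1)
      rw [Real.norm_of_nonneg (by positivity), Real.norm_of_nonneg (by positivity), gg_succ]
      field_simp
      ring
    simp_rw [e]
    have : Tendsto (fun n : ℕ => (B / 2) * (1 / 4 : ℝ) ^ n) atTop (𝓝 ((B / 2) * 0)) :=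
      (tendsto_pow_atTop_nhds_zero_of_lt_one (by norm_num) (by norm_num)).const_mul _
    simpa using this

lemma Om_gg {k : ℝ} (hk : 0 < k) (hk' : k ≤ 1 / 2) : Om (par k hk hk') gg := by
  intro m
  have h := summable_gauss ((4 * exp 1 / k) ^ m) (one_le_pow₀ (base_ge hk hk'))
  refine h.congr ?_
  intro n
  show _ = |gg n| * (KK k n) ^ m
  rw [abs_of_pos (gg_pos n)]
  unfold KK
  rw [← pow_mul, ← pow_mul, mul_comm m (n + 1)]

lemma Om_gg' {k : ℝ} (hk : 0 < k) (hk' : k ≤ 1 / 2) : Om (par k hk hk') (fun n => gg (n + 1)) := by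
  intro m
  refine Summable.of_nonneg_of_le (fun n => ?_) (fun n => ?_) (Om_gg hk hk' m)
  · have := (par k hk hk').K_ge n
    positivity
  · have h1 := (par k hk hk').K_ge n
    have h2 := gg_pos n
    have h3 := gg_pos (n + 1)
    have h4 := gg_succ_le n
    rw [abs_of_pos h2, abs_of_pos h3]
    gcongr
    linarith

/-- radial amplitudes -/
noncomputable def al (n l : ℕ) (t : ℝ) : ℝ := gg n * prof pa l t + gg (n + 1) * prof pb l t

lemma al_der (n l : ℕ) (t : ℝ) : HasDerivAt (al n l) (al n (l + 1) t) t :=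
  ((pa_isProf.der l t).const_mul _).add ((pb_isProf.der l t).const_mul _)

/-- the terms of the counterexample -/
noncomputable def ff (c k : ℝ) (n : ℕ) (z : ℂ) : ℝ :=
  al n 0 (tau n z) * LL c (pp n) (qq n) (AA k n) (BB k n) z

lemma Fam_ff (c : ℝ) {k : ℝ} (hk : 0 < k) (hk' : k ≤ 1 / 2) : Fam (par k hk hk') (ff c k) := by
  set P := par k hk hk' with hP
  have hb1 : Fam P (T P gg 0 0 0 0 (prof pa) 0) := Fam.basic _ _ _ _ _ _ _ (Om_gg hk hk') pa_isProf
  have hb2 : Fam P (T P (fun n => gg (n + 1)) 0 0 0 0 (prof pb) 0) :=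
    Fam.basic _ _ _ _ _ _ _ (Om_gg' hk hk') pb_isProf
  have hb := Fam.add _ _ hb1 hb2
  have hpp : ∀ n, |pp n| ≤ 1 := by intro n; unfold pp; split_ifs <;> simp
  have hqq : ∀ n, |qq n| ≤ 1 := by intro n; unfold qq; split_ifs <;> simp
  have hAA : ∀ n, |P.A n| ≤ 1 := fun n => by rw [abs_of_pos (P.A_pos n)]; exact P.A_le n
  have hBB : ∀ n, |P.B n| ≤ 1 := fun n => by rw [abs_of_pos (P.B_pos n)]; exact P.B_le n
  have h1 := (hb.mulx).smul hpp
  have h2 := (hb.muly).smul hqq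
  have hS := (hb.mulri).mulsi
  have hE := Fam.add _ _ ((hS.mulx.mulx).smul hAA) ((hS.muly.muly).smul hBB)
  have h3 := (Fam.add _ _ ((hE.muly).smul hpp) ((hE.mulx).smul hqq)).cmul c
  have h4 := (Fam.add _ _ ((hb.muly).smul hpp) ((hb.mulx).smul hqq)).cmul (-c)
  have h5 := Fam.add _ _ (Fam.add _ _ h1 h2) (Fam.add _ _ h3 h4)
  convert h5 using 1
  funext n z
  have eA : P.A n = AA k n := rfl
  have eB : P.B n = BB k n := rfl
  rw [eA, eB]
  unfold ff LL ee T al
  ring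

/-! ### normalized quantities -/

noncomputable def Xz (z : ℂ) : ℝ := z.re * ri z
noncomputable def Yz (z : ℂ) : ℝ := z.im * ri z
noncomputable def Un (n : ℕ) (z : ℂ) : ℝ := if Even n then Xz z else Yz z
noncomputable def Vn (n : ℕ) (z : ℂ) : ℝ := if Even n then Yz z else Xz z
noncomputable def sg (n : ℕ) : ℝ := if Even n then -1 else 1
noncomputable def En (k : ℝ) (n : ℕ) (z : ℂ) : ℝ := ee (AA k n) (BB k n) z
noncomputable def Wn (k : ℝ) (n : ℕ) (z : ℂ) : ℝ := si (AA k n) (BB k n) z / ri z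

lemma ri_pos {z : ℂ} (hz : z ≠ 0) : 0 < ri z := by
  have := nsq_pos hz
  unfold ri
  positivity

lemma si_pos {A B : ℝ} (hA : 0 < A) (hB : 0 < B) {z : ℂ} (hz : z ≠ 0) : 0 < si A B z := by
  have := ssq_pos hA hB hz
  unfold si
  positivity

lemma circXY {z : ℂ} (hz : z ≠ 0) : Xz z ^ 2 + Yz z ^ 2 = 1 := by
  have := ri_sq hz
  unfold Xz Yz
  linear_combination this

lemma pt_n {c k : ℝ} (hc : 0 < c) (hc' : c ≤ 1 / 8) (hk : 0 < k) (hk' : k ≤ 1 / 2) (n : ℕ) {z : ℂ}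
    (hz : z ≠ 0) : Pt c (dd k n) (Un n z) (Vn n z) (En k n z) (Wn k n z) := by
  have hr := ri_sq hz
  have hs := si_sq (AA_pos hk n) (BB_pos hk n) hz
  have hrp := ri_pos hz
  have hsp := si_pos (AA_pos hk n) (BB_pos hk n) hz
  have hssq := ssq_pos (AA_pos hk n) (BB_pos hk n) hz
  refine ⟨hc, hc', dd_pos hk n, dd_le hk hk' n, ?_, ?_, ?_, ?_⟩
  · have := circXY hz
    unfold Un Vn
    split_ifs <;> linarith
  · unfold En ee
    positivity
  · have h1 : En k n z ^ 2 = (AA k n * z.re ^ 2 + BB k n * z.im ^ 2) * ri z ^ 2 := by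
      unfold En ee
      linear_combination ((AA k n * z.re ^ 2 + BB k n * z.im ^ 2) * ri z ^ 2) * hs
    rw [h1]
    unfold Un Vn AA BB Xz Yz
    split_ifs <;> ring
  · unfold En Wn ee
    field_simp
    linear_combination hs

/-- combined formulas -/
lemma LL_norm (c k : ℝ) (n : ℕ) (z : ℂ) :
    LL c (pp n) (qq n) (AA k n) (BB k n) z * ri z = ph c (Un n z) (Vn n z) (En k n z) := by
  unfold LL ph Un Vn En Xz Yz pp qq
  split_ifs <;> ring

lemma DD_norm (c : ℝ) {k : ℝ} (hk : 0 < k) (n : ℕ) {z : ℂ} (hz : z ≠ 0) :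
    (z.re * LLy c (pp n) (qq n) (AA k n) (BB k n) z - z.im * LLx c (pp n) (qq n) (AA k n) (BB k n) z) * ri z
      = sg n * dp c (1 - dd k n ^ 2) (Un n z) (Vn n z) (En k n z) (Wn k n z) := by
  have hr := ri_sq hz
  have hrp := ri_pos hz
  unfold LLx LLy dp Un Vn En Wn Xz Yz pp qq sg
  by_cases hn : Even n
  · simp only [hn, if_true]
    have eA : AA k n = 1 := by unfold AA; simp [hn]
    have eB : BB k n = dd k n ^ 2 := by unfold BB; simp [hn]
    rw [eA, eB]
    generalize dd k n = d at *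
    generalize ee 1 (d ^ 2) z = e at *
    generalize si 1 (d ^ 2) z = s at *
    generalize ri z = r at *
    generalize z.re = x at *
    generalize z.im = y at *
    field_simp
    linear_combination (-(c * x * y ^ 2 * (1 - d ^ 2) * s) * r) * hr
  · simp only [hn, if_false]
    have eA : AA k n = dd k n ^ 2 := by unfold AA; simp [hn]
    have eB : BB k n = 1 := by unfold BB; simp [hn]
    rw [eA, eB]
    generalize dd k n = d at *
    generalize ee (d ^ 2) 1 z = e at *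
    generalize si (d ^ 2) 1 z = s at *
    generalize ri z = r at *
    generalize z.re = x at *
    generalize z.im = y at *
    field_simp
    linear_combination ((c * y * x ^ 2 * (1 - d ^ 2) * s) * r) * hr

lemma KR_norm (c k : ℝ) (n : ℕ) {z : ℂ} (hz : z ≠ 0) :
    kr c (pp n) (qq n) (AA k n) (BB k n) z
      = kp c (1 - dd k n ^ 2) (Un n z) (Vn n z) (Wn k n z) * ri z ^ 3 := by
  have hrp := ri_pos hz
  unfold kr kp Un Vn Wn Xz Yz pp qq
  by_cases hn : Even n
  · simp only [hn, if_true]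
    have eA : AA k n = 1 := by unfold AA; simp [hn]
    have eB : BB k n = dd k n ^ 2 := by unfold BB; simp [hn]
    rw [eA, eB]
    generalize dd k n = d at *
    generalize si 1 (d ^ 2) z = s at *
    generalize ri z = r at *
    generalize z.re = x at *
    generalize z.im = y at *
    field_simp
    ring
  · simp only [hn, if_false]
    have eA : AA k n = dd k n ^ 2 := by unfold AA; simp [hn]
    have eB : BB k n = 1 := by unfold BB; simp [hn]
    rw [eA, eB]
    generalize dd k n = d at *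
    generalize si (d ^ 2) 1 z = s at *
    generalize ri z = r at *
    generalize z.re = x at *
    generalize z.im = y at *
    field_simp
    ring

end Pool.Agent.H120R3.Lw
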