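import Mathlib
import Pool.Agent.H120R3.LwPar

set_option autoImplicit false

/-!
Stage analysis: the normalized Hopf-type quantity `R + 2 i S` does not vanish.
-/

namespace Pool.Agent.H120R3.Lw

open Real Filter Topology Set
open scoped ContDiff

noncomputable def Rn (c k : ℝ) (n : ℕ) (z : ℂ) : ℝ :=
  al n 2 (tau n z) * ph c (Un n z) (Vn n z) (En k n z)
    - al n 0 (tau n z) * kp c (1 - dd k n ^ 2) (Un n z) (Vn n z) (Wn k n z)

noncomputable def Sn (c k : ℝ) (n : ℕ) (z : ℂ) : ℝ :=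
  al n 1 (tau n z) * (sg n * dp c (1 - dd k n ^ 2) (Un n z) (Vn n z) (En k n z) (Wn k n z))

lemma tau_succ (n : ℕ) {z : ℂ} (hz : z ≠ 0) : tau n z = tau 0 z + n := by
  have h := nsq_pos hz
  unfold tau
  rw [Real.log_mul (exp_pos _).ne' h.ne', Real.log_mul (exp_pos _).ne' h.ne', Real.log_exp, Real.log_exp]
  push_cast
  ring

lemma normsq_eq (z : ℂ) : z.re ^ 2 + z.im ^ 2 = ‖z‖ ^ 2 := by
  rw [← Complex.normSq_eq_norm_sq, Complex.normSq_apply]; ring

lemma tau0_lt {z : ℂ} (hz : z ≠ 0) (hz1 : ‖z‖ < 1) : tau 0 z < 1 := by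
  have h := nsq_pos hz
  have h2 : z.re ^ 2 + z.im ^ 2 < 1 := by
    rw [normsq_eq]
    have := norm_nonneg z
    nlinarith
  unfold tau
  rw [Real.log_mul (exp_pos _).ne' h.ne', Real.log_exp]
  have := Real.log_neg h h2
  push_cast
  linarith

lemma exists_stage {z : ℂ} (hz : z ≠ 0) (hz1 : ‖z‖ < 1) :
    ∃ (M : ℕ) (s : ℝ), 0 ≤ s ∧ s < 1 ∧ ∀ n : ℕ, tau n z = s + ((n : ℝ) - M) := by
  have h0 := tau0_lt hz hz1
  have h1 : ⌊tau 0 z⌋ ≤ 0 := by
    have : ⌊tau 0 z⌋ < 1 := by
      rw [Int.floor_lt]; exact_mod_cast h0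
    omega
  refine ⟨(-⌊tau 0 z⌋).toNat, Int.fract (tau 0 z), Int.fract_nonneg _, Int.fract_lt_one _, ?_⟩
  intro n
  rw [tau_succ n hz]
  have h2 : (((-⌊tau 0 z⌋).toNat : ℕ) : ℝ) = -(⌊tau 0 z⌋ : ℝ) := by
    have h3 : (((-⌊tau 0 z⌋).toNat : ℕ) : ℤ) = -⌊tau 0 z⌋ := Int.toNat_of_nonneg (by omega)
    have h4 : ((((-⌊tau 0 z⌋).toNat : ℕ) : ℤ) : ℝ) = ((-⌊tau 0 z⌋ : ℤ) : ℝ) := by rw [h3]
    push_cast at h4
    rw [← h4]
  rw [h2]
  have := Int.fract_add_floor (tau 0 z)
  linarith

lemma al_nonneg (n : ℕ) (t : ℝ) : 0 ≤ al n 0 t := by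
  unfold al
  have h1 := gg_pos n
  have h2 := gg_pos (n + 1)
  have h3 := profa_nonneg t
  have h4 := profb_nonneg t
  positivity

lemma al_zero (n l : ℕ) {t : ℝ} (h : t ≤ 0) : al n l t = 0 := by
  unfold al
  rw [pa_isProf.zero l t h, pb_isProf.zero l t h]
  ring

lemma al_one (n : ℕ) (t : ℝ) : al n 1 t = gg n * pa t + gg (n + 1) * pb t := rfl
lemma al_two (n : ℕ) (t : ℝ) : al n 2 t = gg n * deriv pa t + gg (n + 1) * deriv pb t := rfl

lemma al_one_zero (n : ℕ) {t : ℝ} (h : 5 / 4 ≤ t) : al n 1 t = 0 := by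
  rw [al_one, pa_zero_right h, pb_zero_right (by linarith)]
  ring

lemma al_two_zero (n : ℕ) {t : ℝ} (h : 5 / 4 ≤ t) : al n 2 t = 0 := by
  rw [al_two, deriv_pa_zero (pa_zero_right h), deriv_pb_zero (pb_zero_right (by linarith))]
  ring

/-- constants -/
structure Cst (c k C H : ℝ) : Prop where
  cpos : 0 < c
  cle : c ≤ 1 / 8
  kpos : 0 < k
  kle : k ≤ 1 / 2
  Cpos : 0 < C
  Hnn : 0 ≤ H
  ca : ∀ t, prof pa 0 t ≤ C
  cb : ∀ t, prof pb 0 t ≤ C
  ca2 : ∀ t, deriv pa t ≤ C
  cb2 : ∀ t, deriv pb t ≤ C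
  hH : ∀ s, 0 ≤ s → s ≤ 1 / 4 → |deriv eta s| ≤ H
  small : c * (100 * (C + H + 1)) ≤ 1
  kc : 2 * C * k ≤ prof pa 0 1 * c

lemma Un_succ (n : ℕ) (z : ℂ) : Un (n + 1) z = Vn n z := by
  unfold Un Vn
  rcases Nat.even_or_odd n with h | h
  · have h2 : ¬ Even (n + 1) := by rw [Nat.not_even_iff_odd]; exact h.add_one
    simp [h, h2]
  · have h2 : Even (n + 1) := h.add_one
    have h3 : ¬ Even n := by rwa [Nat.not_even_iff_odd]
    simp [h3, h2]

lemma Vn_succ (n : ℕ) (z : ℂ) : Vn (n + 1) z = Un n z := by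
  unfold Un Vn
  rcases Nat.even_or_odd n with h | h
  · have h2 : ¬ Even (n + 1) := by rw [Nat.not_even_iff_odd]; exact h.add_one
    simp [h, h2]
  · have h2 : Even (n + 1) := h.add_one
    have h3 : ¬ Even n := by rwa [Nat.not_even_iff_odd]
    simp [h3, h2]

lemma sg_succ (n : ℕ) : sg (n + 1) = - sg n := by
  unfold sg
  rcases Nat.even_or_odd n with h | h
  · have h2 : ¬ Even (n + 1) := by rw [Nat.not_even_iff_odd]; exact h.add_one
    simp [h, h2]
  · have h2 : Even (n + 1) := h.add_one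
    have h3 : ¬ Even n := by rwa [Nat.not_even_iff_odd]
    simp [h3, h2]

lemma sg_sq (n : ℕ) : sg n = 1 ∨ sg n = -1 := by
  unfold sg
  split_ifs
  · right; rfl
  · left; rfl

lemma UV_par (n m : ℕ) (z : ℂ) : (Un n z = Un m z ∧ Vn n z = Vn m z) ∨ (Un n z = Vn m z ∧ Vn n z = Un m z) := by
  unfold Un Vn
  by_cases h1 : Even n <;> by_cases h2 : Even m <;> simp [h1, h2]

lemma kp_lower_sigma {c d X Y E W σ : ℝ} (h : Pt c d X Y E W) (hσ : σ = 1 ∨ σ = -1) (hY : 0 ≤ σ * Y) :
    -(3 * c) ≤ σ * kp c (1 - d ^ 2) X Y W := by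
  rcases hσ with rfl | rfl
  · rw [one_mul] at *
    exact kp_lower h hY
  · have h2 := kp_lower h.neg (by linarith)
    rw [kp_neg] at h2
    linarith

/-- `S` at a stage -/
lemma S_stage {c k : ℝ} {z : ℂ} {M : ℕ} {s S : ℝ} (hs1 : s < 1) (hs0 : 0 ≤ s)
    (hst : ∀ n : ℕ, tau n z = s + ((n : ℝ) - M)) (hS : HasSum (fun n => Sn c k n z) S) :
    S = Sn c k M z + Sn c k (M + 1) z := by
  have h : HasSum (fun n => Sn c k n z) (∑ n ∈ ({M, M + 1} : Finset ℕ), Sn c k n z) := by
    apply hasSum_sum_of_ne_finset_zero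
    intro n hn
    simp only [Finset.mem_insert, Finset.mem_singleton, not_or] at hn
    have h1 := hst n
    unfold Sn
    rcases lt_or_gt_of_ne hn.1 with h2 | h2
    · have : (n : ℝ) + 1 ≤ M := by exact_mod_cast h2
      rw [al_zero n 1 (by linarith), zero_mul]
    · have : (M : ℝ) + 2 ≤ n := by
        have : M + 2 ≤ n := by omega
        exact_mod_cast this
      rw [al_one_zero n (by linarith), zero_mul]
  have h2 := hS.unique h
  rw [h2, Finset.sum_pair (by omega)]

lemma stage_M {z : ℂ} {M : ℕ} {s : ℝ} (hst : ∀ n : ℕ, tau n z = s + ((n : ℝ) - M)) :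
    tau M z = s ∧ tau (M + 1) z = 1 + s := by
  constructor
  · rw [hst M]; ring
  · rw [hst (M + 1)]; push_cast; ring

/-- dwell: sign of `R` on the axis. -/
lemma dwell_R {c k C H : ℝ} (hc : Cst c k C H) {z : ℂ} (hz : z ≠ 0) {M : ℕ} {s R : ℝ}
    (hs0 : 1 / 4 ≤ s) (hs1 : s < 1) (hst : ∀ n : ℕ, tau n z = s + ((n : ℝ) - M))
    (hR : HasSum (fun n => Rn c k n z) R) (hV : Vn M z = 0) : Un M z * R < 0 := by
  obtain ⟨hM, hM1⟩ := stage_M hst
  have hptM := pt_n hc.cpos hc.cle hc.kpos hc.kle M hz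
  have hptM1 := pt_n hc.cpos hc.cle hc.kpos hc.kle (M + 1) hz
  have hU : Un M z ^ 2 = 1 := by have := hptM.circ; rw [hV] at this; linarith
  have hσ : Un M z = 1 ∨ Un M z = -1 := by
    have h0 : (Un M z - 1) * (Un M z + 1) = 0 := by linear_combination hU
    rcases mul_eq_zero.1 h0 with h | h
    · left; linarith
    · right; linarith
  obtain ⟨σ, hσe⟩ : ∃ σ, σ = Un M z := ⟨_, rfl⟩
  rw [← hσe] at hU hσ ⊢
  -- kink value
  have hkink : ∀ n, Un n z = 0 → Vn n z = σ → σ * kp c (1 - dd k n ^ 2) (Un n z) (Vn n z) (Wn k n z)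
      = c * (1 - dd k n ^ 2) / dd k n := by
    intro n h1 h2
    have hpt := pt_n hc.cpos hc.cle hc.kpos hc.kle n hz
    rcases hσ with h3 | h3
    · rw [h3, one_mul]
      exact kp_top hpt h1 (by rw [h2, h3])
    · have h4 := kp_top hpt.neg (by rw [h1]; ring) (by rw [h2, h3]; ring)
      rw [kp_neg] at h4
      rw [h3, ← h4]; ring
  set w : ℕ → ℝ := fun n => if n = M then al M 2 s else if n = M + 1 then
    -(al (M + 1) 0 (1 + s) * (c * (1 - dd k (M + 1) ^ 2) / dd k (M + 1))) else 0 with hw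
  have hle : ∀ n, σ * Rn c k n z ≤ w n := by
    intro n
    unfold Rn
    rcases lt_trichotomy n M with h1 | h1 | h1
    · have : (n : ℝ) + 1 ≤ M := by exact_mod_cast h1
      have h2 : tau n z ≤ 0 := by rw [hst n]; linarith
      rw [al_zero n 2 h2, al_zero n 0 h2]
      have h3 : n ≠ M := by omega
      have h4 : n ≠ M + 1 := by omega
      simp [hw, h3, h4]
    · subst h1
      simp only [hw, if_true]
      rw [hM, hV, kp_zero, ← hσe]
      have : ph c σ 0 (En k n z) = σ := by unfold ph; ring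
      rw [this]
      have : σ * (al n 2 s * σ - al n 0 s * 0) = al n 2 s * σ ^ 2 := by ring
      rw [this, hU, mul_one]
    · have h5 : (M : ℝ) + 1 ≤ n := by exact_mod_cast h1
      have h2 : 5 / 4 ≤ tau n z := by rw [hst n]; linarith
      rw [al_two_zero n h2]
      have hal := al_nonneg n (tau n z)
      rcases UV_par n M z with ⟨h3, h4⟩ | ⟨h3, h4⟩
      · have hne : n ≠ M + 1 := by
          rintro rfl
          rw [Un_succ, hV, ← hσe] at h3
          rw [← h3] at hU
          norm_num at hU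
        have hne' : n ≠ M := by omega
        rw [h4, hV, kp_zero]
        simp [hw, hne, hne']
      · rw [hV] at h3
        rw [← hσe] at h4
        have h6 := hkink n h3 h4
        have h7 : σ * (0 * ph c (Un n z) (Vn n z) (En k n z) -
            al n 0 (tau n z) * kp c (1 - dd k n ^ 2) (Un n z) (Vn n z) (Wn k n z))
            = -(al n 0 (tau n z) * (c * (1 - dd k n ^ 2) / dd k n)) := by
          rw [← h6]; ring
        rw [h7]
        by_cases h8 : n = M + 1
        · subst h8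
          have hne' : M + 1 ≠ M := by omega
          simp only [hw, hne', if_false, if_true]
          rw [hM1]
        · have hne' : n ≠ M := by omega
          simp only [hw, hne', if_false, h8]
          have h9 := dd_pos hc.kpos n
          have h10 := dd_sq_le hc.kpos hc.kle n
          have h11 : 0 ≤ c * (1 - dd k n ^ 2) / dd k n :=
            div_nonneg (mul_nonneg hc.cpos.le (by linarith)) h9.le
          have := mul_nonneg hal h11
          linarith
  have hsumw : HasSum w (∑ n ∈ ({M, M + 1} : Finset ℕ), w n) := by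
    apply hasSum_sum_of_ne_finset_zero
    intro n hn
    simp only [Finset.mem_insert, Finset.mem_singleton, not_or] at hn
    simp [hw, hn.1, hn.2]
  rw [Finset.sum_pair (by omega)] at hsumw
  have hfin := hasSum_le hle (hR.mul_left σ) hsumw
  refine lt_of_le_of_lt hfin ?_
  have hne' : M + 1 ≠ M := by omega
  simp only [hw, hne', if_false, if_true]
  -- final numeric inequality
  have hg := gg_pos M
  have hg1 := gg_pos (M + 1)
  have h1 : al M 2 s ≤ 2 * C * gg M := by
    rw [al_two]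
    have h2 := gg_succ_le M
    have h3 : gg M * deriv pa s ≤ gg M * C := mul_le_mul_of_nonneg_left (hc.ca2 s) hg.le
    have h4 : gg (M + 1) * deriv pb s ≤ gg (M + 1) * C := mul_le_mul_of_nonneg_left (hc.cb2 s) hg1.le
    have h5 : gg (M + 1) * C ≤ gg M * C := by
      apply mul_le_mul_of_nonneg_right _ hc.Cpos.le
      linarith
    linarith
  have ha0 : 0 < prof pa 0 1 := profa_pos le_rfl
  have h2 : gg (M + 1) * prof pa 0 1 ≤ al (M + 1) 0 (1 + s) := by
    unfold al
    have h3 := prof_mono pa pa_contDiff.continuous pa_nonneg (show (1:ℝ) ≤ 1 + s by linarith)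
    have h4 := profb_nonneg (1 + s)
    have h5 := gg_pos (M + 1 + 1)
    have h6 : gg (M + 1) * prof pa 0 1 ≤ gg (M + 1) * prof pa 0 (1 + s) :=
      mul_le_mul_of_nonneg_left h3 hg1.le
    have h7 : 0 ≤ gg (M + 1 + 1) * prof pb 0 (1 + s) := by positivity
    linarith
  have hd := dd_pos hc.kpos (M + 1)
  have hd2 : dd k (M + 1) ^ 2 ≤ 1 / 4 := by
    have := dd_le hc.kpos hc.kle (M + 1)
    nlinarith
  have h3 : c * (3 / 4) / dd k (M + 1) ≤ c * (1 - dd k (M + 1) ^ 2) / dd k (M + 1) := by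
    have := hc.cpos
    gcongr
    linarith
  have h4 : gg (M + 1) * prof pa 0 1 * (c * (3 / 4) / dd k (M + 1))
      ≤ al (M + 1) 0 (1 + s) * (c * (1 - dd k (M + 1) ^ 2) / dd k (M + 1)) := by
    have h5 : 0 ≤ c * (3 / 4) / dd k (M + 1) := by have := hc.cpos; positivity
    exact mul_le_mul h2 h3 h5 (al_nonneg _ _)
  have h5 : 2 * C * gg M < gg (M + 1) * prof pa 0 1 * (c * (3 / 4) / dd k (M + 1)) := by
    have h6 : c * (3 / 4) / dd k (M + 1) = c * (3 / 4) * 4 ^ (M + 1) / k := by
      unfold dd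
      field_simp
    rw [h6, gg_succ]
    have h7 : ((1:ℝ) / 4) ^ M * 4 ^ (M + 1) = 4 := by
      rw [pow_succ, ← mul_assoc, ← mul_pow]; norm_num
    have h8 : gg M * (1 / 2 * (1 / 4) ^ M) * prof pa 0 1 * (c * (3 / 4) * 4 ^ (M + 1) / k)
        = gg M * (prof pa 0 1 * c) * (3 / 2) / k := by
      calc _ = gg M * (prof pa 0 1 * c) * (3 / 8) * ((1 / 4) ^ M * 4 ^ (M + 1)) / k := by ring
        _ = _ := by rw [h7]; ring
    rw [h8, lt_div_iff₀ hc.kpos]
    have h9 := hc.kc
    have h10 : 0 < gg M * (prof pa 0 1 * c) := by have := hc.cpos; positivity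
    have h11 : gg M * (2 * C * k) ≤ gg M * (prof pa 0 1 * c) := mul_le_mul_of_nonneg_left h9 hg.le
    nlinarith
  linarith

/-- geometric bound for the amplitudes in the window -/
lemma al0_bound {c k C H : ℝ} (hc : Cst c k C H) {z : ℂ} {M : ℕ} {s : ℝ}
    (hs1 : s ≤ 1 / 4) (hst : ∀ n : ℕ, tau n z = s + ((n : ℝ) - M)) :
    ∃ b : ℕ → ℝ, (∀ n, al n 0 (tau n z) ≤ b n) ∧ HasSum b (8 * C * gg (M + 1)) := by
  have hC := hc.Cpos
  set b : ℕ → ℝ := fun n => if n < M then 0 else 4 * C * gg (M + 1) * (1 / 2) ^ (n - M) with hb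
  refine ⟨b, ?_, ?_⟩
  · intro n
    have hgM := gg_pos (M + 1)
    rcases lt_trichotomy n M with h1 | h1 | h1
    · have : (n : ℝ) + 1 ≤ M := by exact_mod_cast h1
      rw [al_zero n 0 (by rw [hst n]; linarith)]
      simp [hb, h1]
    · subst h1
      have h2 : tau n z = s := by rw [hst n]; ring
      rw [h2]
      have h3 : al n 0 s ≤ C * gg (n + 1) := by
        unfold al
        rw [profa_zero hs1]
        have := hc.cb s
        have h4 := mul_le_mul_of_nonneg_left this hgM.le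
        linarith
      simp only [hb, lt_irrefl, if_false, Nat.sub_self, pow_zero, mul_one]
      have : 0 ≤ C * gg (n + 1) := by positivity
      linarith
    · have hn : ¬ n < M := by omega
      simp only [hb, hn, if_false]
      obtain ⟨j, rfl⟩ : ∃ j, n = M + 1 + j := ⟨n - (M + 1), by omega⟩
      have h2 : M + 1 + j - M = j + 1 := by omega
      rw [h2]
      have h3 := gg_geom (M + 1) j
      have h4 := gg_succ_le (M + 1 + j)
      have h5 := gg_pos (M + 1 + j)
      have h6 := gg_pos (M + 1 + j + 1)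
      unfold al
      have h7 := mul_le_mul_of_nonneg_left (hc.ca (tau (M + 1 + j) z)) h5.le
      have h8 := mul_le_mul_of_nonneg_left (hc.cb (tau (M + 1 + j) z)) h6.le
      have h9 : gg (M + 1 + j + 1) * C ≤ gg (M + 1 + j) * C := by
        apply mul_le_mul_of_nonneg_right _ hC.le
        linarith
      have h10 : gg (M + 1 + j) * C ≤ gg (M + 1) * (1 / 2) ^ j * C :=
        mul_le_mul_of_nonneg_right h3 hC.le
      calc _ ≤ gg (M + 1 + j) * C + gg (M + 1 + j) * C := by linarith
        _ ≤ gg (M + 1) * (1 / 2) ^ j * C + gg (M + 1) * (1 / 2) ^ j * C := by linarith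
        _ = 4 * C * gg (M + 1) * (1 / 2) ^ (j + 1) := by rw [pow_succ]; ring
  · rw [← hasSum_nat_add_iff' M]
    have h1 : ∑ i ∈ Finset.range M, b i = 0 := by
      apply Finset.sum_eq_zero
      intro i hi
      simp [hb, Finset.mem_range.1 hi]
    rw [h1, sub_zero]
    have h2 : (fun n => b (n + M)) = fun n => 4 * C * gg (M + 1) * (1 / 2) ^ n := by
      funext n
      have : ¬ n + M < M := by omega
      simp only [hb, this, if_false, Nat.add_sub_cancel]
    rw [h2]
    have h3 := (hasSum_geometric_of_lt_one (r := (1/2:ℝ)) (by norm_num) (by norm_num)).mul_left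
      (4 * C * gg (M + 1))
    have h4 : (1 - 1 / 2 : ℝ)⁻¹ = 2 := by norm_num
    rw [h4] at h3
    have h5 : 4 * C * gg (M + 1) * 2 = 8 * C * gg (M + 1) := by ring
    rw [h5] at h3
    exact h3

/-- sign selection -/
lemma exists_sigma {w co s U V ε ε' : ℝ} (hw : 0 < w) (hco : 0 ≤ co) (hs : 0 ≤ s)
    (hcs : co ^ 2 + s ^ 2 = 1) (hcrit : w * co * (V * (1 + ε)) = w * s * (U * (1 + ε')))
    (hε : 0 < 1 + ε) (hε' : 0 < 1 + ε') :
    ∃ σ : ℝ, (σ = 1 ∨ σ = -1) ∧ 0 ≤ σ * U ∧ 0 ≤ σ * V := by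
  have h1 : co * (V * (1 + ε)) = s * (U * (1 + ε')) := by
    have : w * (co * (V * (1 + ε))) = w * (s * (U * (1 + ε'))) := by linarith
    exact mul_left_cancel₀ hw.ne' this
  have hUV : 0 ≤ U * V := by
    rcases hco.eq_or_lt with h2 | h2
    · rw [← h2] at h1 hcs
      have hs' : s ≠ 0 := by rintro rfl; norm_num at hcs
      have : U * (1 + ε') = 0 := by
        have : s * (U * (1 + ε')) = 0 := by linarith
        exact (mul_eq_zero.1 this).resolve_left hs'
      have hU0 : U = 0 := (mul_eq_zero.1 this).resolve_right hε'.ne'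
      rw [hU0, zero_mul]
    · have h3 : (co * (1 + ε)) * (U * V) = s * (1 + ε') * U ^ 2 := by linear_combination U * h1
      have h4 : 0 ≤ s * (1 + ε') * U ^ 2 := by positivity
      have h5 : 0 < co * (1 + ε) := by positivity
      rw [← h3] at h4
      exact nonneg_of_mul_nonneg_right h4 h5
  rcases lt_trichotomy U 0 with h | h | h
  · refine ⟨-1, Or.inr rfl, by linarith, ?_⟩
    by_contra h2
    push Not at h2
    have : 0 < V := by linarith
    have := mul_neg_of_neg_of_pos h this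
    linarith
  · rcases le_total 0 V with h2 | h2
    · exact ⟨1, Or.inl rfl, by rw [h]; norm_num, by linarith⟩
    · exact ⟨-1, Or.inr rfl, by rw [h]; norm_num, by linarith⟩
  · refine ⟨1, Or.inl rfl, by linarith, ?_⟩
    by_contra h2
    push Not at h2
    have : V < 0 := by linarith
    have := mul_neg_of_pos_of_neg h this
    linarith

/-- window: if `S = 0` then `R ≠ 0`. -/
lemma window_R {c k C H : ℝ} (hc : Cst c k C H) {z : ℂ} (hz : z ≠ 0) {M : ℕ} {s R S : ℝ}
    (hs0 : 0 ≤ s) (hs1 : s ≤ 1 / 4) (hst : ∀ n : ℕ, tau n z = s + ((n : ℝ) - M))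
    (hR : HasSum (fun n => Rn c k n z) R) (hS : HasSum (fun n => Sn c k n z) S) (hS0 : S = 0) :
    R ≠ 0 := by
  obtain ⟨hM, hM1⟩ := stage_M hst
  have hptM := pt_n hc.cpos hc.cle hc.kpos hc.kle M hz
  have hptM1 := pt_n hc.cpos hc.cle hc.kpos hc.kle (M + 1) hz
  have hSS := S_stage (by linarith) hs0 hst hS
  rw [hS0] at hSS
  -- amplitudes
  set w : ℝ := gg (M + 1) * exp (-s) with hw
  have hwpos : 0 < w := by have := gg_pos (M + 1); positivity
  set co := cos (eta s) with hco
  set sn := sin (eta s) with hsn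
  set h := deriv eta s with hh
  have hp : al (M + 1) 1 (1 + s) = w * co := by
    rw [al_one, pa_window (by linarith), pb_zero_right (by linarith)]
    rw [hw]; ring
  have hq : al M 1 s = w * sn := by
    rw [al_one, pa_zero_left hs1, pb_window (by linarith)]
    rw [hw]; ring
  have hp' : al (M + 1) 2 (1 + s) = -(w * co) - w * sn * h := by
    rw [al_two, deriv_pa_window (by linarith), deriv_pb_zero (pb_zero_right (by linarith))]
    rw [hw]; ring
  have hq' : al M 2 s = -(w * sn) + w * co * h := by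
    rw [al_two, deriv_pa_zero (pa_zero_left hs1), deriv_pb_window (by linarith)]
    rw [hw]; ring
  have hconn : 0 ≤ co := cos_eta_nonneg s
  have hsnn : 0 ≤ sn := sin_eta_nonneg s
  have hcs : co ^ 2 + sn ^ 2 = 1 := cos_sq_add_sin_sq _
  -- critical equation
  obtain ⟨ε', hε', hdM⟩ := dp_form hptM
  obtain ⟨ε, hε, hdM1⟩ := dp_form hptM1
  rw [Un_succ, Vn_succ] at hdM1 hptM1
  set U := Vn M z with hU
  set V := Un M z with hV
  have hcrit : w * co * (V * (1 + ε)) = w * sn * (U * (1 + ε')) := by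
    unfold Sn at hSS
    rw [hM, hM1, hp, hq, Un_succ, Vn_succ, ← hU, ← hV, hdM, hdM1, sg_succ] at hSS
    rcases sg_sq M with h1 | h1
    · rw [h1] at hSS; linarith
    · rw [h1] at hSS; linarith
  have hc1 := hc.cle
  have hc0 := hc.cpos
  have hε1 : 0 < 1 + ε := by have := (abs_le.1 hε).1; linarith
  have hε1' : 0 < 1 + ε' := by have := (abs_le.1 hε').1; linarith
  obtain ⟨σ, hσ, hσU, hσV⟩ := exists_sigma hwpos hconn hsnn hcs hcrit hε1 hε1'
  have hσ2 : σ ^ 2 = 1 := by rcases hσ with h1 | h1 <;> rw [h1] <;> norm_num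
  have hσabs : |σ| = 1 := by rcases hσ with h1 | h1 <;> rw [h1] <;> norm_num
  -- bound of sigma R
  obtain ⟨b, hb1, hb2⟩ := al0_bound hc hs1 hst
  set d : ℕ → ℝ := fun n => if n = M then σ * (al M 2 s * ph c V U (En k M z)) else if n = M + 1 then
    σ * (al (M + 1) 2 (1 + s) * ph c U V (En k (M + 1) z)) else 0 with hd
  have hle : ∀ n, σ * Rn c k n z ≤ d n + 3 * c * b n := by
    intro n
    have hsplit : σ * Rn c k n z = σ * (al n 2 (tau n z) * ph c (Un n z) (Vn n z) (En k n z))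
        - al n 0 (tau n z) * (σ * kp c (1 - dd k n ^ 2) (Un n z) (Vn n z) (Wn k n z)) := by
      unfold Rn; ring
    have hpt := pt_n hc.cpos hc.cle hc.kpos hc.kle n hz
    have hσVn : 0 ≤ σ * Vn n z := by
      rcases UV_par n M z with ⟨h3, h4⟩ | ⟨h3, h4⟩
      · rw [h4]; exact hσU
      · rw [h4]; exact hσV
    have hk := kp_lower_sigma hpt hσ hσVn
    have hal := al_nonneg n (tau n z)
    have hk2 : -(al n 0 (tau n z) * (σ * kp c (1 - dd k n ^ 2) (Un n z) (Vn n z) (Wn k n z)))
        ≤ 3 * c * b n := by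
      have h1 := mul_le_mul_of_nonneg_left hk hal
      have h2 : 3 * c * al n 0 (tau n z) ≤ 3 * c * b n :=
        mul_le_mul_of_nonneg_left (hb1 n) (by linarith)
      linarith
    have hd2 : σ * (al n 2 (tau n z) * ph c (Un n z) (Vn n z) (En k n z)) = d n := by
      rcases eq_or_ne n M with h1 | h1
      · subst h1
        simp only [hd, if_true]
        rw [hM]
      · rcases eq_or_ne n (M + 1) with h2 | h2
        · subst h2
          simp only [hd, h1, if_false, if_true]
          rw [hM1, Un_succ, Vn_succ]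
        · simp only [hd, h1, h2, if_false]
          rcases lt_or_gt_of_ne h1 with h3 | h3
          · have : (n : ℝ) + 1 ≤ M := by exact_mod_cast h3
            rw [al_zero n 2 (by rw [hst n]; linarith)]
            ring
          · have : (M : ℝ) + 2 ≤ n := by
              have : M + 2 ≤ n := by omega
              exact_mod_cast this
            rw [al_two_zero n (by rw [hst n]; linarith)]
            ring
    rw [hsplit, hd2]
    linarith
  have hsumd : HasSum d (∑ n ∈ ({M, M + 1} : Finset ℕ), d n) := by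
    apply hasSum_sum_of_ne_finset_zero
    intro n hn
    simp only [Finset.mem_insert, Finset.mem_singleton, not_or] at hn
    simp [hd, hn.1, hn.2]
  rw [Finset.sum_pair (by omega)] at hsumd
  have hfin := hasSum_le hle (hR.mul_left σ) (hsumd.add (hb2.mul_left (3 * c)))
  have hne' : M + 1 ≠ M := by omega
  simp only [hd, hne', if_false, if_true] at hfin
  rw [hp', hq'] at hfin
  have hK : 3 * c * (8 * C * gg (M + 1)) ≤ 3 * c * (12 * C * w) := by
    have h1 : 3 / 4 ≤ exp (-s) := by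
      have := Real.add_one_le_exp (-s)
      linarith
    have h2 := gg_pos (M + 1)
    have h3 : 8 * C * gg (M + 1) ≤ 12 * C * w := by
      rw [hw]
      have h4 : 0 < C * gg (M + 1) := by have := hc.Cpos; positivity
      nlinarith
    exact mul_le_mul_of_nonneg_left h3 (by linarith)
  have hφ1 := ph_bound hptM1
  have hφ2 := ph_bound hptM
  have hφ1' : |σ * ph c U V (En k (M + 1) z) - σ * U| ≤ c * |σ * V| := by
    rw [← mul_sub, abs_mul, abs_mul, hσabs, one_mul, one_mul]
    exact hφ1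
  have hφ2' : |σ * ph c V U (En k M z) - σ * V| ≤ c * |σ * U| := by
    rw [← mul_sub, abs_mul, abs_mul, hσabs, one_mul, one_mul]
    exact hφ2
  have hUV : (σ * U) ^ 2 + (σ * V) ^ 2 = 1 := by
    have := hptM1.circ
    rw [mul_pow, mul_pow, hσ2, one_mul, one_mul]
    exact this
  have hmain := window_neg hc.cpos hc.Hnn hc.Cpos.le hc.small hwpos hconn hsnn hcs
    (hc.hH s hs0 hs1) hUV hσU hσV (by linear_combination σ * hcrit) hε hε' hφ1' hφ2' hK
  intro hR0
  rw [hR0, mul_zero] at hfin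
  linarith

end Pool.Agent.H120R3.Lw
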