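import Mathlib
import Pool.Agent.H120R3.LwStage

set_option autoImplicit false

/-!
A family of function sequences closed under partial derivatives (square-root plane version).
-/

namespace Pool.Agent.H120R3.Ca

open Real Filter Topology Set
open Pool.Agent.H120R3.Lw (HP HP_re HP_im HP_const ri si nsq_pos ssq_pos si_sq ri_sq HP_si HP_ri
  HP_powsi norm_lin_le Prof ri_pos)
open scoped ContDiff

/-- `|z|^{-1/2}` -/
noncomputable def rh (z : ℂ) : ℝ := √(ri z)

lemma ri_nonneg (z : ℂ) : 0 ≤ ri z := by unfold ri; positivity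
lemma rh_nonneg (z : ℂ) : 0 ≤ rh z := Real.sqrt_nonneg _
lemma rh_sq (z : ℂ) : rh z ^ 2 = ri z := Real.sq_sqrt (ri_nonneg z)
lemma rh_pos {z : ℂ} (hz : z ≠ 0) : 0 < rh z := Real.sqrt_pos.2 (ri_pos hz)

lemma HP_rh {z : ℂ} (hz : z ≠ 0) :
    HP rh (-(z.re * rh z ^ 5) / 2) (-(z.im * rh z ^ 5) / 2) z := by
  have h1 : HasDerivAt (fun x => √x) (1 / (2 * √(ri z))) (ri z) :=
    Real.hasDerivAt_sqrt (ri_pos hz).ne'
  have hp := rh_pos hz
  have h2 : ri z = rh z ^ 2 := (rh_sq z).symm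
  refine (HP.comp h1 (HP_ri hz)).cg ?_ ?_
  · show 1 / (2 * rh z) * (-(z.re * ri z ^ 3)) = _
    rw [h2]; field_simp
  · show 1 / (2 * rh z) * (-(z.im * ri z ^ 3)) = _
    rw [h2]; field_simp

lemma HP_powrh (p : ℕ) {z : ℂ} (hz : z ≠ 0) :
    HP (fun z => rh z ^ p) (-((p / 2 : ℝ) * z.re * rh z ^ (p + 4)))
      (-((p / 2 : ℝ) * z.im * rh z ^ (p + 4))) z := by
  refine ((HP_rh hz).pow p).cg ?_ ?_
  · cases p with
    | zero => simp
    | succ k => simp only [Nat.add_sub_cancel]; ring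
  · cases p with
    | zero => simp
    | succ k => simp only [Nat.add_sub_cancel]; ring

/-- scaled logarithm -/
noncomputable def tau (κ m : ℝ) (z : ℂ) : ℝ := κ * Real.log (m * (z.re ^ 2 + z.im ^ 2))

lemma HP_tau (κ : ℝ) {m : ℝ} (hm : 0 < m) {z : ℂ} (hz : z ≠ 0) :
    HP (tau κ m) (2 * κ * z.re * rh z ^ 4) (2 * κ * z.im * rh z ^ 4) z := by
  have h := nsq_pos hz
  have h0 : HP (fun z => z.re ^ 2 + z.im ^ 2) (2 * z.re) (2 * z.im) z := by
    refine (((HP_re z).pow 2).add ((HP_im z).pow 2)).cg ?_ ?_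
    · simp
    · simp
  have h0' := h0.const_mul m
  have h1 : HasDerivAt (fun x => κ * Real.log x) (κ * (m * (z.re ^ 2 + z.im ^ 2))⁻¹)
      (m * (z.re ^ 2 + z.im ^ 2)) :=
    (Real.hasDerivAt_log (by positivity)).const_mul κ
  have hr : rh z ^ 4 = (z.re ^ 2 + z.im ^ 2)⁻¹ := by
    have : rh z ^ 4 = ri z ^ 2 := by rw [← rh_sq]; ring
    rw [this]
    unfold ri
    rw [inv_pow, Real.sq_sqrt h.le]
  refine (HP.comp h1 h0').cg ?_ ?_
  · rw [hr]; field_simp
  · rw [hr]; field_simp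

lemma tau_nonpos_zero (κ m : ℝ) : tau κ m 0 ≤ 0 := by
  unfold tau
  simp

lemma tau_zero_nhds {κ m : ℝ} (hκ : 0 < κ) (hm : 0 < m) : ∀ᶠ z : ℂ in 𝓝 0, tau κ m z ≤ 0 := by
  have h : Tendsto (fun z : ℂ => m * (z.re ^ 2 + z.im ^ 2)) (𝓝 0) (𝓝 0) := by
    have : Continuous (fun z : ℂ => m * (z.re ^ 2 + z.im ^ 2)) := by fun_prop
    have h2 := this.tendsto 0
    simpa using h2
  filter_upwards [h.eventually (gt_mem_nhds one_pos)] with z hz
  unfold tau
  have : Real.log (m * (z.re ^ 2 + z.im ^ 2)) ≤ 0 :=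
    Real.log_nonpos (by positivity) hz.le
  nlinarith

/-- cutoff systems -/
structure CProf (χ : ℕ → ℕ → ℝ → ℝ) : Prop where
  der : ∀ n l t, HasDerivAt (χ n l) (χ n (l + 1) t) t
  bdd : ∀ l, ∃ C, ∀ n t, |χ n l t| ≤ C

/-- parameters -/
structure Par where
  κ : ℝ
  m : ℕ → ℝ
  A : ℕ → ℝ
  B : ℕ → ℝ
  K : ℕ → ℝ
  κ_pos : 0 < κ
  m_pos : ∀ n, 0 < m n
  A_pos : ∀ n, 0 < A n
  B_pos : ∀ n, 0 < B n
  A_le : ∀ n, A n ≤ 1
  B_le : ∀ n, B n ≤ 1
  K_ge : ∀ n, 1 ≤ K n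
  hr : ∀ n z, 0 < tau κ (m n) z → rh z ≤ K n
  hs : ∀ n z, 0 < tau κ (m n) z → si (A n) (B n) z ≤ K n

/-- rapidly decaying coefficient sequences -/
def Om (P : Par) (w : ℕ → ℝ) : Prop := ∀ m : ℕ, Summable (fun n => |w n| * P.K n ^ m)

lemma Om.const {P : Par} {w : ℕ → ℝ} (h : Om P w) (k : ℝ) : Om P (fun n => k * w n) := by
  intro m
  refine ((h m).mul_left |k|).congr ?_
  intro n
  rw [abs_mul]; ring

lemma Om.bmul {P : Par} {w v : ℕ → ℝ} (h : Om P w) (hv : ∀ n, |v n| ≤ 1) : Om P (fun n => v n * w n) := by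
  intro m
  refine Summable.of_nonneg_of_le (fun n => ?_) (fun n => ?_) (h m)
  · have := P.K_ge n
    positivity
  · rw [abs_mul]
    have h1 := P.K_ge n
    have h2 : 0 ≤ |w n| * P.K n ^ m := by positivity
    calc |v n| * |w n| * P.K n ^ m = |v n| * (|w n| * P.K n ^ m) := by ring
      _ ≤ 1 * (|w n| * P.K n ^ m) := by
        apply mul_le_mul_of_nonneg_right (hv n) h2
      _ = _ := one_mul _

/-- basic term -/
noncomputable def T (P : Par) (w : ℕ → ℝ) (i j p q : ℕ) (ξ : ℕ → ℝ → ℝ) (l : ℕ)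
    (χ : ℕ → ℕ → ℝ → ℝ) (l' n : ℕ) (z : ℂ) : ℝ :=
  w n * z.re ^ i * z.im ^ j * rh z ^ p * si (P.A n) (P.B n) z ^ q * ξ l (tau P.κ (P.m n) z) *
    χ n l' (tau P.κ (P.m n) z)

/-- the family -/
inductive Fam (P : Par) : (ℕ → ℂ → ℝ) → Prop
  | basic (w : ℕ → ℝ) (i j p q : ℕ) (ξ : ℕ → ℝ → ℝ) (l : ℕ) (χ : ℕ → ℕ → ℝ → ℝ) (l' : ℕ)
      (hw : Om P w) (hξ : Prof ξ) (hχ : CProf χ) : Fam P (T P w i j p q ξ l χ l')
  | add (u v : ℕ → ℂ → ℝ) (hu : Fam P u) (hv : Fam P v) : Fam P (fun n z => u n z + v n z)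

lemma T_zero_of_tau (P : Par) (w : ℕ → ℝ) (i j p q : ℕ) {ξ : ℕ → ℝ → ℝ} (hξ : Prof ξ) (l : ℕ)
    (χ : ℕ → ℕ → ℝ → ℝ) (l' n : ℕ) {z : ℂ}
    (h : tau P.κ (P.m n) z ≤ 0) : T P w i j p q ξ l χ l' n z = 0 := by
  unfold T
  rw [hξ.zero l _ h, mul_zero, zero_mul]

lemma HP_T (P : Par) (w : ℕ → ℝ) (i j p q : ℕ) {ξ : ℕ → ℝ → ℝ} (hξ : Prof ξ) (l : ℕ)
    {χ : ℕ → ℕ → ℝ → ℝ} (hχ : CProf χ) (l' n : ℕ) (z : ℂ) :
    HP (T P w i j p q ξ l χ l' n)
      ((T P (fun n => i * w n) (i - 1) j p q ξ l χ l' n z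
          + T P (fun n => (-(p/2) : ℝ) * w n) (i + 1) j (p + 4) q ξ l χ l' n z)
        + ((T P (fun n => P.A n * ((-q : ℝ) * w n)) (i + 1) j p (q + 2) ξ l χ l' n z
          + T P (fun n => (2 * P.κ) * w n) (i + 1) j (p + 4) q ξ (l + 1) χ l' n z)
          + T P (fun n => (2 * P.κ) * w n) (i + 1) j (p + 4) q ξ l χ (l' + 1) n z))
      ((T P (fun n => j * w n) i (j - 1) p q ξ l χ l' n z
          + T P (fun n => (-(p/2) : ℝ) * w n) i (j + 1) (p + 4) q ξ l χ l' n z)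
        + ((T P (fun n => P.B n * ((-q : ℝ) * w n)) i (j + 1) p (q + 2) ξ l χ l' n z
          + T P (fun n => (2 * P.κ) * w n) i (j + 1) (p + 4) q ξ (l + 1) χ l' n z)
          + T P (fun n => (2 * P.κ) * w n) i (j + 1) (p + 4) q ξ l χ (l' + 1) n z)) z := by
  by_cases hz : z = 0
  · subst hz
    have h0 := tau_nonpos_zero P.κ (P.m n)
    have e : T P w i j p q ξ l χ l' n =ᶠ[𝓝 0] fun _ => 0 := by
      filter_upwards [tau_zero_nhds P.κ_pos (P.m_pos n)] with z hz using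
        T_zero_of_tau P w i j p q hξ l χ l' n hz
    refine ((HP_const 0 0).congr_ev e).cg ?_ ?_
    · simp only [T_zero_of_tau P _ _ _ _ _ hξ _ _ _ n h0]; simp
    · simp only [T_zero_of_tau P _ _ _ _ _ hξ _ _ _ n h0]; simp
  · have h1 := ((HP_re z).pow i).const_mul (w n)
    have h2 := h1.mul ((HP_im z).pow j)
    have h3 := h2.mul (HP_powrh p hz)
    have h4 := h3.mul (HP_powsi (P.A_pos n) (P.B_pos n) q hz)
    have h5 := h4.mul (HP.comp (hξ.der l (tau P.κ (P.m n) z)) (HP_tau P.κ (P.m_pos n) hz))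
    have h6 := h5.mul (HP.comp (hχ.der n l' (tau P.κ (P.m n) z)) (HP_tau P.κ (P.m_pos n) hz))
    refine HP.cg h6 ?_ ?_
    · unfold T
      ring
    · unfold T
      ring

lemma Fam.deriv {P : Par} {u : ℕ → ℂ → ℝ} (h : Fam P u) :
    ∃ ux uy, Fam P ux ∧ Fam P uy ∧ ∀ n z, HP (u n) (ux n z) (uy n z) z := by
  induction h with
  | basic w i j p q ξ l χ l' hw hξ hχ =>
    refine ⟨_, _, ?_, ?_, fun n z => HP_T P w i j p q hξ l hχ l' n z⟩
    · refine Fam.add _ _ (Fam.add _ _ ?_ ?_) (Fam.add _ _ (Fam.add _ _ ?_ ?_) ?_)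
      · exact Fam.basic _ _ _ _ _ _ _ _ _ (hw.const _) hξ hχ
      · exact Fam.basic _ _ _ _ _ _ _ _ _ (hw.const _) hξ hχ
      · exact Fam.basic _ _ _ _ _ _ _ _ _ ((hw.const _).bmul (fun n => by
          rw [abs_of_pos (P.A_pos n)]; exact P.A_le n)) hξ hχ
      · exact Fam.basic _ _ _ _ _ _ _ _ _ (hw.const _) hξ hχ
      · exact Fam.basic _ _ _ _ _ _ _ _ _ (hw.const _) hξ hχ
    · refine Fam.add _ _ (Fam.add _ _ ?_ ?_) (Fam.add _ _ (Fam.add _ _ ?_ ?_) ?_)
      · exact Fam.basic _ _ _ _ _ _ _ _ _ (hw.const _) hξ hχ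
      · exact Fam.basic _ _ _ _ _ _ _ _ _ (hw.const _) hξ hχ
      · exact Fam.basic _ _ _ _ _ _ _ _ _ ((hw.const _).bmul (fun n => by
          rw [abs_of_pos (P.B_pos n)]; exact P.B_le n)) hξ hχ
      · exact Fam.basic _ _ _ _ _ _ _ _ _ (hw.const _) hξ hχ
      · exact Fam.basic _ _ _ _ _ _ _ _ _ (hw.const _) hξ hχ
  | add u v hu hv ihu ihv =>
    obtain ⟨ux, uy, h1, h2, h3⟩ := ihu
    obtain ⟨vx, vy, h1', h2', h3'⟩ := ihv
    exact ⟨_, _, Fam.add _ _ h1 h1', Fam.add _ _ h2 h2', fun n z => (h3 n z).add (h3' n z)⟩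

lemma Fam.bound {P : Par} {u : ℕ → ℂ → ℝ} (h : Fam P u) :
    ∃ b : ℕ → ℝ, Summable b ∧ ∀ n z, ‖z‖ < 1 → |u n z| ≤ b n := by
  induction h with
  | basic w i j p q ξ l χ l' hw hξ hχ =>
    obtain ⟨C, hC⟩ := hξ.bdd l
    obtain ⟨D, hD⟩ := hχ.bdd l'
    have hC0 : 0 ≤ C := (abs_nonneg _).trans (hC 0)
    have hD0 : 0 ≤ D := (abs_nonneg _).trans (hD 0 0)
    refine ⟨fun n => C * D * (|w n| * P.K n ^ (p + q)), (hw (p + q)).mul_left (C * D), ?_⟩
    intro n z hz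
    have hK := P.K_ge n
    rcases le_or_gt (tau P.κ (P.m n) z) 0 with ht | ht
    · rw [T_zero_of_tau P w i j p q hξ l χ l' n ht, abs_zero]
      positivity
    · unfold T
      rw [abs_mul, abs_mul, abs_mul, abs_mul, abs_mul, abs_mul, abs_pow, abs_pow, abs_pow, abs_pow]
      have hri : 0 ≤ rh z := rh_nonneg z
      have hsi : 0 ≤ si (P.A n) (P.B n) z := by unfold si; positivity
      rw [abs_of_nonneg hri, abs_of_nonneg hsi]
      have h1 : |z.re| ^ i ≤ 1 := pow_le_one₀ (abs_nonneg _) ((Complex.abs_re_le_norm z).trans hz.le)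
      have h2 : |z.im| ^ j ≤ 1 := pow_le_one₀ (abs_nonneg _) ((Complex.abs_im_le_norm z).trans hz.le)
      have h3 : rh z ^ p ≤ P.K n ^ p := pow_le_pow_left₀ hri (P.hr n z ht) p
      have h4 : si (P.A n) (P.B n) z ^ q ≤ P.K n ^ q := pow_le_pow_left₀ hsi (P.hs n z ht) q
      calc |w n| * |z.re| ^ i * |z.im| ^ j * rh z ^ p * si (P.A n) (P.B n) z ^ q *
            |ξ l (tau P.κ (P.m n) z)| * |χ n l' (tau P.κ (P.m n) z)|
          ≤ |w n| * 1 * 1 * P.K n ^ p * P.K n ^ q * C * D := by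
            gcongr
            · exact hC _
            · exact hD _ _
        _ = C * D * (|w n| * P.K n ^ (p + q)) := by rw [pow_add]; ring
  | add u v hu hv ihu ihv =>
    obtain ⟨b, h1, h2⟩ := ihu
    obtain ⟨b', h1', h2'⟩ := ihv
    exact ⟨fun n => b n + b' n, h1.add h1', fun n z hz =>
      (abs_add_le _ _).trans (add_le_add (h2 n z hz) (h2' n z hz))⟩

lemma Fam.zero {P : Par} {u : ℕ → ℂ → ℝ} (h : Fam P u) (n : ℕ) : u n 0 = 0 := by
  induction h with
  | basic w i j p q ξ l χ l' hw hξ hχ =>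
    exact T_zero_of_tau P w i j p q hξ l χ l' n (tau_nonpos_zero _ _)
  | add u v hu hv ihu ihv => show u n 0 + v n 0 = 0; rw [ihu, ihv, add_zero]

lemma Fam.summable {P : Par} {u : ℕ → ℂ → ℝ} (h : Fam P u) {z : ℂ} (hz : ‖z‖ < 1) :
    Summable (fun n => u n z) := by
  obtain ⟨b, h1, h2⟩ := h.bound
  exact Summable.of_norm_bounded h1 (fun n => h2 n z hz)

/-- the sum -/
noncomputable def Ser (u : ℕ → ℂ → ℝ) (z : ℂ) : ℝ := ∑' n, u n z

lemma HP_Ser {P : Par} {u ux uy : ℕ → ℂ → ℝ} (h : Fam P u) (hx : Fam P ux) (hy : Fam P uy)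
    (hd : ∀ n z, HP (u n) (ux n z) (uy n z) z) {z : ℂ} (hz : ‖z‖ < 1) :
    HP (Ser u) (Ser ux z) (Ser uy z) z := by
  obtain ⟨b, hb1, hb2⟩ := hx.bound
  obtain ⟨b', hb1', hb2'⟩ := hy.bound
  have hball : IsOpen (Metric.ball (0 : ℂ) 1) := Metric.isOpen_ball
  have hconn : IsPreconnected (Metric.ball (0 : ℂ) 1) := (convex_ball (0 : ℂ) 1).isPreconnected
  have hp : z ∈ Metric.ball (0 : ℂ) 1 := by simpa using hz
  have h1 := hasFDerivAt_tsum_of_isPreconnected (𝕜 := ℝ) (hb1.add hb1') hball hconn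
    (f := u) (f' := fun n z => ux n z • Complex.reCLM + uy n z • Complex.imCLM)
    (fun n x _ => hd n x)
    (fun n x hx' => by
      have hx'' : ‖x‖ < 1 := by simpa using hx'
      exact (norm_lin_le _ _).trans (add_le_add (hb2 n x hx'') (hb2' n x hx'')))
    hp (h.summable hz) hp
  have hval : (∑' n, (ux n z • Complex.reCLM + uy n z • Complex.imCLM)) =
      Ser ux z • Complex.reCLM + Ser uy z • Complex.imCLM := by
    apply HasSum.tsum_eq
    unfold Ser
    apply HasSum.add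
    · exact (hx.summable hz).hasSum.smul_const _
    · exact (hy.summable hz).hasSum.smul_const _
  rw [hval] at h1
  exact h1

lemma Fam.contDiffOn_nat {P : Par} (n : ℕ) : ∀ {u : ℕ → ℂ → ℝ}, Fam P u →
    ContDiffOn ℝ n (Ser u) (Metric.ball (0 : ℂ) 1) := by
  induction n with
  | zero =>
    intro u h
    obtain ⟨ux, uy, hx, hy, hd⟩ := h.deriv
    rw [Nat.cast_zero, contDiffOn_zero]
    intro z hz
    have hz' : ‖z‖ < 1 := by simpa using hz
    exact (HasFDerivAt.continuousAt (HP_Ser h hx hy hd hz')).continuousWithinAt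
  | succ n ih =>
    intro u h
    obtain ⟨ux, uy, hx, hy, hd⟩ := h.deriv
    rw [Nat.cast_succ, contDiffOn_succ_iff_fderiv_of_isOpen Metric.isOpen_ball]
    refine ⟨?_, by simp, ?_⟩
    · intro z hz
      have hz' : ‖z‖ < 1 := by simpa using hz
      exact (HasFDerivAt.differentiableAt (HP_Ser h hx hy hd hz')).differentiableWithinAt
    · have e : ∀ z ∈ Metric.ball (0 : ℂ) 1, fderiv ℝ (Ser u) z =
          Ser ux z • Complex.reCLM + Ser uy z • Complex.imCLM := by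
        intro z hz
        have hz' : ‖z‖ < 1 := by simpa using hz
        exact (HP_Ser h hx hy hd hz').fderiv
      refine ContDiffOn.congr ?_ e
      exact ((ih hx).smul contDiffOn_const).add ((ih hy).smul contDiffOn_const)

lemma Fam.contDiffOn {P : Par} {u : ℕ → ℂ → ℝ} (h : Fam P u) :
    ContDiffOn ℝ ∞ (Ser u) (Metric.ball (0 : ℂ) 1) := by
  rw [contDiffOn_infty]
  intro n
  exact Fam.contDiffOn_nat n h

/-! ### closure properties -/

lemma Fam.mulx {P : Par} {u : ℕ → ℂ → ℝ} (h : Fam P u) : Fam P (fun n z => z.re * u n z) := by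
  induction h with
  | basic w i j p q ξ l χ l' hw hξ hχ =>
    have e : (fun n (z : ℂ) => z.re * T P w i j p q ξ l χ l' n z) = T P w (i + 1) j p q ξ l χ l' := by
      funext n z; unfold T; ring
    rw [e]
    exact Fam.basic _ _ _ _ _ _ _ _ _ hw hξ hχ
  | add u v hu hv ihu ihv =>
    have e : (fun n (z : ℂ) => z.re * (u n z + v n z)) = fun n z => z.re * u n z + z.re * v n z := by
      funext n z; ring
    rw [e]
    exact Fam.add _ _ ihu ihv

lemma Fam.muly {P : Par} {u : ℕ → ℂ → ℝ} (h : Fam P u) : Fam P (fun n z => z.im * u n z) := by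
  induction h with
  | basic w i j p q ξ l χ l' hw hξ hχ =>
    have e : (fun n (z : ℂ) => z.im * T P w i j p q ξ l χ l' n z) = T P w i (j + 1) p q ξ l χ l' := by
      funext n z; unfold T; ring
    rw [e]
    exact Fam.basic _ _ _ _ _ _ _ _ _ hw hξ hχ
  | add u v hu hv ihu ihv =>
    have e : (fun n (z : ℂ) => z.im * (u n z + v n z)) = fun n z => z.im * u n z + z.im * v n z := by
      funext n z; ring
    rw [e]
    exact Fam.add _ _ ihu ihv

lemma Fam.mulrh {P : Par} {u : ℕ → ℂ → ℝ} (h : Fam P u) : Fam P (fun n z => rh z * u n z) := by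
  induction h with
  | basic w i j p q ξ l χ l' hw hξ hχ =>
    have e : (fun n (z : ℂ) => rh z * T P w i j p q ξ l χ l' n z) = T P w i j (p + 1) q ξ l χ l' := by
      funext n z; unfold T; ring
    rw [e]
    exact Fam.basic _ _ _ _ _ _ _ _ _ hw hξ hχ
  | add u v hu hv ihu ihv =>
    have e : (fun n (z : ℂ) => rh z * (u n z + v n z)) = fun n z => rh z * u n z + rh z * v n z := by
      funext n z; ring
    rw [e]
    exact Fam.add _ _ ihu ihv

lemma Fam.mulri {P : Par} {u : ℕ → ℂ → ℝ} (h : Fam P u) : Fam P (fun n z => ri z * u n z) := by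
  have h2 := h.mulrh.mulrh
  have e : (fun n (z : ℂ) => ri z * u n z) = fun n z => rh z * (rh z * u n z) := by
    funext n z; rw [← rh_sq]; ring
  rw [e]
  exact h2

lemma Fam.mulsi {P : Par} {u : ℕ → ℂ → ℝ} (h : Fam P u) :
    Fam P (fun n z => si (P.A n) (P.B n) z * u n z) := by
  induction h with
  | basic w i j p q ξ l χ l' hw hξ hχ =>
    have e : (fun n (z : ℂ) => si (P.A n) (P.B n) z * T P w i j p q ξ l χ l' n z) =
        T P w i j p (q + 1) ξ l χ l' := by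
      funext n z; unfold T; ring
    rw [e]
    exact Fam.basic _ _ _ _ _ _ _ _ _ hw hξ hχ
  | add u v hu hv ihu ihv =>
    have e : (fun n (z : ℂ) => si (P.A n) (P.B n) z * (u n z + v n z)) =
        fun n z => si (P.A n) (P.B n) z * u n z + si (P.A n) (P.B n) z * v n z := by
      funext n z; ring
    rw [e]
    exact Fam.add _ _ ihu ihv

lemma Fam.cmul {P : Par} {u : ℕ → ℂ → ℝ} (h : Fam P u) (k : ℝ) : Fam P (fun n z => k * u n z) := by
  induction h with
  | basic w i j p q ξ l χ l' hw hξ hχ =>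
    have e : (fun n (z : ℂ) => k * T P w i j p q ξ l χ l' n z) =
        T P (fun n => k * w n) i j p q ξ l χ l' := by
      funext n z; unfold T; ring
    rw [e]
    exact Fam.basic _ _ _ _ _ _ _ _ _ (hw.const k) hξ hχ
  | add u v hu hv ihu ihv =>
    have e : (fun n (z : ℂ) => k * (u n z + v n z)) = fun n z => k * u n z + k * v n z := by
      funext n z; ring
    rw [e]
    exact Fam.add _ _ ihu ihv

lemma Fam.smul {P : Par} {u : ℕ → ℂ → ℝ} (h : Fam P u) {v : ℕ → ℝ} (hv : ∀ n, |v n| ≤ 1) :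
    Fam P (fun n z => v n * u n z) := by
  induction h with
  | basic w i j p q ξ l χ l' hw hξ hχ =>
    have e : (fun n (z : ℂ) => v n * T P w i j p q ξ l χ l' n z) =
        T P (fun n => v n * w n) i j p q ξ l χ l' := by
      funext n z; unfold T; ring
    rw [e]
    exact Fam.basic _ _ _ _ _ _ _ _ _ (hw.bmul hv) hξ hχ
  | add u v' hu hv' ihu ihv =>
    have e : (fun n (z : ℂ) => v n * (u n z + v' n z)) = fun n z => v n * u n z + v n * v' n z := by
      funext n z; ring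
    rw [e]
    exact Fam.add _ _ ihu ihv

end Pool.Agent.H120R3.Ca
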