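import Mathlib
import Pool.Agent.H120R3.CaSer

set_option autoImplicit false

/-!
Outer profiles.
-/

namespace Pool.Agent.H120R3.Ca

open Real Filter Topology Set MeasureTheory
open Pool.Agent.H120R3.Lw (Prof prof pa pb eta pa_contDiff pb_contDiff pa_isProf pb_isProf gg al al_der
  gg_pos pb_zero_right pb_zero_left pa_nonneg pb_nonneg eta_of_nonpos deriv_pb_zero
  prof_zero_hasDerivAt prof_mono gg_succ_le pb_window)
open scoped ContDiff

lemma cs_isProf {F : ℝ → ℝ} (hF : ContDiff ℝ ∞ F) (h0 : ∀ t, t ≤ 0 → F t = 0) {T : ℝ}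
    (h1 : ∀ t, T ≤ t → F t = 0) : Prof (fun l => deriv^[l] F) := by
  have hsm : ∀ l, ContDiff ℝ ∞ (deriv^[l] F) := fun l => hF.iterate_deriv l
  have hcs : HasCompactSupport F := by
    apply HasCompactSupport.intro (isCompact_Icc (a := (0:ℝ)) (b := T))
    intro x hx
    rw [mem_Icc, not_and_or, not_le, not_le] at hx
    rcases hx with hx | hx
    · exact h0 x hx.le
    · exact h1 x hx.le
  have hcs' : ∀ l, HasCompactSupport (deriv^[l] F) := by
    intro l
    induction l with
    | zero => exact hcs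
    | succ l ih =>
      rw [Function.iterate_succ']
      exact ih.deriv
  refine ⟨?_, ?_, ?_⟩
  · intro l t
    show HasDerivAt (deriv^[l] F) (deriv^[l + 1] F t) t
    rw [Function.iterate_succ_apply']
    exact ((hsm l).differentiable (by simp) t).hasDerivAt
  · intro l t ht
    have hlt : ∀ t, t < 0 → deriv^[l] F t = 0 := by
      induction l with
      | zero => intro t ht; exact h0 t ht.le
      | succ l ih =>
        intro t ht
        rw [Function.iterate_succ_apply']
        have : deriv^[l] F =ᶠ[𝓝 t] fun _ => (0:ℝ) := by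
          filter_upwards [Iio_mem_nhds ht] with x hx using ih x hx
        rw [this.deriv_eq, deriv_const]
    rcases ht.lt_or_eq with h | h
    · exact hlt t h
    · subst h
      have h2 : Tendsto (deriv^[l] F) (𝓝[<] 0) (𝓝 (deriv^[l] F 0)) :=
        ((hsm l).continuous.tendsto 0).mono_left nhdsWithin_le_nhds
      have h3 : Tendsto (deriv^[l] F) (𝓝[<] 0) (𝓝 0) := by
        apply tendsto_const_nhds.congr'
        filter_upwards [self_mem_nhdsWithin] with x hx using (hlt x hx).symm
      exact tendsto_nhds_unique h2 h3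
  · intro l
    obtain ⟨C, hC⟩ := (hsm l).continuous.bounded_above_of_compact_support (hcs' l)
    exact ⟨C, fun t => by simpa using hC t⟩

/-- the cutoff -/
noncomputable def ct (s : ℝ) : ℝ := 1 - smoothTransition s

lemma ct_contDiff : ContDiff ℝ ∞ ct := by
  unfold ct
  exact contDiff_const.sub smoothTransition.contDiff

lemma ct_iter_bdd (l : ℕ) : ∃ C, ∀ t, |deriv^[l] ct t| ≤ C := by
  have hsm : ∀ l, ContDiff ℝ ∞ (deriv^[l] ct) := fun l => ct_contDiff.iterate_deriv l
  cases l with
  | zero =>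
    refine ⟨1, fun t => ?_⟩
    show |ct t| ≤ 1
    unfold ct
    have h1 := smoothTransition.nonneg t
    have h2 := smoothTransition.le_one t
    rw [abs_le]; constructor <;> linarith
  | succ l =>
    have hcs : HasCompactSupport (deriv ct) := by
      apply HasCompactSupport.intro (isCompact_Icc (a := (0:ℝ)) (b := 1))
      intro x hx
      rw [mem_Icc, not_and_or, not_le, not_le] at hx
      rcases hx with hx | hx
      · have : ct =ᶠ[𝓝 x] fun _ => (1:ℝ) := by
          filter_upwards [Iio_mem_nhds hx] with y hy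
          unfold ct
          rw [smoothTransition.zero_of_nonpos (le_of_lt hy), sub_zero]
        rw [this.deriv_eq, deriv_const]
      · have : ct =ᶠ[𝓝 x] fun _ => (0:ℝ) := by
          filter_upwards [Ioi_mem_nhds hx] with y hy
          unfold ct
          rw [smoothTransition.one_of_one_le (le_of_lt hy), sub_self]
        rw [this.deriv_eq, deriv_const]
    have hcs' : ∀ l, HasCompactSupport (deriv^[l] (deriv ct)) := by
      intro l
      induction l with
      | zero => exact hcs
      | succ l ih =>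
        rw [Function.iterate_succ']
        exact ih.deriv
    have hsm' : Continuous (deriv^[l] (deriv ct)) := (hsm (l + 1)).continuous
    obtain ⟨C, hC⟩ := hsm'.bounded_above_of_compact_support (hcs' l)
    exact ⟨C, fun t => by simpa using hC t⟩

lemma deriv_st_zero_left {t : ℝ} (h : t ≤ 0) : deriv smoothTransition t = 0 := by
  apply IsLocalMin.deriv_eq_zero
  apply Filter.Eventually.of_forall
  intro x
  rw [smoothTransition.zero_of_nonpos h]
  exact smoothTransition.nonneg x

lemma deriv_st_zero_right {t : ℝ} (h : 1 ≤ t) : deriv smoothTransition t = 0 := by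
  apply IsLocalMax.deriv_eq_zero
  apply Filter.Eventually.of_forall
  intro x
  rw [smoothTransition.one_of_one_le h]
  exact smoothTransition.le_one x

lemma st_contDiff : ContDiff ℝ ∞ smoothTransition := smoothTransition.contDiff

lemma st_hasDerivAt (t : ℝ) : HasDerivAt smoothTransition (deriv smoothTransition t) t :=
  (st_contDiff.differentiable (by simp) t).hasDerivAt

lemma deriv_st_nonneg (t : ℝ) : 0 ≤ deriv smoothTransition t :=
  smoothTransition.monotone.deriv_nonneg

/-! ### the data -/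

/-- rotation angle -/
noncomputable def et1 (t : ℝ) : ℝ := π * smoothTransition (t - 2)

noncomputable def q0 (N : ℕ) (t : ℝ) : ℝ :=
  gg N * (smoothTransition (4 * t - 1) * exp (1 - t) * cos (et1 t) * ct (t - 4)) + gg (N + 1) * pb t

noncomputable def q1 (N : ℕ) (t : ℝ) : ℝ := gg N * (exp (1 - t) * sin (et1 t) * ct (t - 4))

noncomputable def lam (μ t : ℝ) : ℝ := μ * smoothTransition (t - 3)

noncomputable def Am (μ t : ℝ) : ℝ := exp (-∫ x in (0:ℝ)..t, lam μ x)

noncomputable def PP (μ : ℝ) (q : ℝ → ℝ) (t : ℝ) : ℝ := Am μ t * prof q 0 t * ct (t - 7)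

lemma et1_contDiff : ContDiff ℝ ∞ et1 := by
  unfold et1
  exact contDiff_const.mul (st_contDiff.comp (contDiff_id.sub contDiff_const))

lemma q0_contDiff (N : ℕ) : ContDiff ℝ ∞ (q0 N) := by
  unfold q0
  refine (contDiff_const.mul ((((st_contDiff.comp
    ((contDiff_const.mul contDiff_id).sub contDiff_const)).mul
    (Real.contDiff_exp.comp (contDiff_const.sub contDiff_id))).mul
    (Real.contDiff_cos.comp et1_contDiff)).mul
    (ct_contDiff.comp (contDiff_id.sub contDiff_const)))).add (contDiff_const.mul pb_contDiff)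

lemma q1_contDiff (N : ℕ) : ContDiff ℝ ∞ (q1 N) := by
  unfold q1
  refine contDiff_const.mul (((Real.contDiff_exp.comp (contDiff_const.sub contDiff_id)).mul
    (Real.contDiff_sin.comp et1_contDiff)).mul
    (ct_contDiff.comp (contDiff_id.sub contDiff_const)))

lemma prim_contDiff {q : ℝ → ℝ} (hq : ContDiff ℝ ∞ q) : ContDiff ℝ ∞ (fun t => ∫ x in (0:ℝ)..t, q x) := by
  have hd : ∀ t, HasDerivAt (fun t => ∫ x in (0:ℝ)..t, q x) (q t) t := fun t =>
    prof_zero_hasDerivAt q hq.continuous t
  rw [contDiff_infty_iff_deriv]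
  refine ⟨fun t => (hd t).differentiableAt, ?_⟩
  have : deriv (fun t => ∫ x in (0:ℝ)..t, q x) = q := funext fun t => (hd t).deriv
  rw [this]
  exact hq

lemma lam_contDiff (μ : ℝ) : ContDiff ℝ ∞ (lam μ) := by
  unfold lam
  exact contDiff_const.mul (st_contDiff.comp (contDiff_id.sub contDiff_const))

lemma Am_contDiff (μ : ℝ) : ContDiff ℝ ∞ (Am μ) := by
  unfold Am
  exact Real.contDiff_exp.comp (prim_contDiff (lam_contDiff μ)).neg

lemma Am_pos (μ t : ℝ) : 0 < Am μ t := exp_pos _

lemma Am_hasDerivAt (μ t : ℝ) : HasDerivAt (Am μ) (-(lam μ t * Am μ t)) t := by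
  have h := (prof_zero_hasDerivAt (lam μ) (lam_contDiff μ).continuous t).neg.exp
  refine h.congr_deriv ?_
  show Am μ t * -lam μ t = _
  ring

lemma PP_contDiff (μ : ℝ) {q : ℝ → ℝ} (hq : ContDiff ℝ ∞ q) : ContDiff ℝ ∞ (PP μ q) := by
  unfold PP
  exact ((Am_contDiff μ).mul (prim_contDiff hq)).mul
    (ct_contDiff.comp (contDiff_id.sub contDiff_const))

lemma prof_nonpos {q : ℝ → ℝ} (h0 : ∀ t, t ≤ 0 → q t = 0) {t : ℝ} (ht : t ≤ 0) : prof q 0 t = 0 := by
  show ∫ x in (0:ℝ)..t, q x = 0
  rw [intervalIntegral.integral_congr (g := fun _ => (0:ℝ))]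
  · simp
  · intro x hx
    rw [uIcc_of_ge ht] at hx
    exact h0 x hx.2

lemma PP_isProf (μ : ℝ) {q : ℝ → ℝ} (hq : ContDiff ℝ ∞ q) (h0 : ∀ t, t ≤ 0 → q t = 0) :
    Prof (fun l => deriv^[l] (PP μ q)) := by
  apply cs_isProf (PP_contDiff μ hq) (T := 8)
  · intro t ht
    unfold PP
    rw [prof_nonpos h0 ht, mul_zero, zero_mul]
  · intro t ht
    unfold PP ct
    rw [smoothTransition.one_of_one_le (by linarith), sub_self, mul_zero]

lemma q0_nonpos (N : ℕ) {t : ℝ} (ht : t ≤ 0) : q0 N t = 0 := by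
  unfold q0
  rw [smoothTransition.zero_of_nonpos (by linarith), pb_zero_left ht]
  ring

lemma et1_zero {t : ℝ} (h : t ≤ 2) : et1 t = 0 := by
  unfold et1
  rw [smoothTransition.zero_of_nonpos (by linarith), mul_zero]

lemma et1_pi {t : ℝ} (h : 3 ≤ t) : et1 t = π := by
  unfold et1
  rw [smoothTransition.one_of_one_le (by linarith), mul_one]

lemma ct_one {t : ℝ} (h : t ≤ 0) : ct t = 1 := by
  unfold ct
  rw [smoothTransition.zero_of_nonpos h, sub_zero]

lemma ct_zero {t : ℝ} (h : 1 ≤ t) : ct t = 0 := by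
  unfold ct
  rw [smoothTransition.one_of_one_le h, sub_self]

lemma ct_nonneg (t : ℝ) : 0 ≤ ct t := by
  unfold ct
  have := smoothTransition.le_one t
  linarith

lemma ct_le (t : ℝ) : ct t ≤ 1 := by
  unfold ct
  have := smoothTransition.nonneg t
  linarith

lemma ct_hasDerivAt (t : ℝ) : HasDerivAt ct (-deriv smoothTransition t) t := by
  unfold ct
  exact (st_hasDerivAt t).const_sub 1

lemma q1_zero (N : ℕ) {t : ℝ} (h : t ≤ 2) : q1 N t = 0 := by
  unfold q1
  rw [et1_zero h, sin_zero]
  ring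

lemma q0_eq (N : ℕ) {t : ℝ} (h : t ≤ 1) : q0 N t = gg N * pa t + gg (N + 1) * pb t := by
  unfold q0 pa
  rw [et1_zero (by linarith), ct_one (by linarith), eta_of_nonpos (by linarith)]
  ring

lemma V0_eq (N : ℕ) {t : ℝ} (h : t ≤ 1) : prof (q0 N) 0 t = al N 0 t := by
  rcases le_total t 0 with ht | ht
  · rw [prof_nonpos (fun t ht => q0_nonpos N ht) ht]
    unfold al
    rw [pa_isProf.zero 0 t ht, pb_isProf.zero 0 t ht]
    ring
  · unfold al
    show ∫ x in (0:ℝ)..t, q0 N x = gg N * (∫ x in (0:ℝ)..t, pa x) + gg (N + 1) * ∫ x in (0:ℝ)..t, pb x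
    rw [← intervalIntegral.integral_const_mul, ← intervalIntegral.integral_const_mul,
      ← intervalIntegral.integral_add]
    · apply intervalIntegral.integral_congr
      intro x hx
      rw [uIcc_of_le ht] at hx
      exact q0_eq N (hx.2.trans h)
    · exact (continuous_const.mul pa_contDiff.continuous).intervalIntegrable _ _
    · exact (continuous_const.mul pb_contDiff.continuous).intervalIntegrable _ _

lemma lam_zero (μ : ℝ) {t : ℝ} (h : t ≤ 3) : lam μ t = 0 := by
  unfold lam
  rw [smoothTransition.zero_of_nonpos (by linarith), mul_zero]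

lemma lam_one (μ : ℝ) {t : ℝ} (h : 4 ≤ t) : lam μ t = μ := by
  unfold lam
  rw [smoothTransition.one_of_one_le (by linarith), mul_one]

lemma Am_one (μ : ℝ) {t : ℝ} (h : t ≤ 3) : Am μ t = 1 := by
  unfold Am
  rw [intervalIntegral.integral_congr (g := fun _ => (0:ℝ))]
  · simp
  · intro x hx
    apply lam_zero
    rcases le_total t 0 with ht | ht
    · rw [uIcc_of_ge ht] at hx
      linarith [hx.2]
    · rw [uIcc_of_le ht] at hx
      linarith [hx.2]

lemma Am_late (μ : ℝ) {t : ℝ} (h : 4 ≤ t) : Am μ t = Am μ 4 * exp (-(μ * (t - 4))) := by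
  unfold Am
  rw [← Real.exp_add]
  congr 1
  rw [← intervalIntegral.integral_add_adjacent_intervals (b := 4)
    ((lam_contDiff μ).continuous.intervalIntegrable _ _)
    ((lam_contDiff μ).continuous.intervalIntegrable _ _)]
  have : ∫ x in (4:ℝ)..t, lam μ x = μ * (t - 4) := by
    rw [intervalIntegral.integral_congr (g := fun _ => μ)]
    · rw [intervalIntegral.integral_const, smul_eq_mul, mul_comm]
    · intro x hx
      rw [uIcc_of_le h] at hx
      exact lam_one μ hx.1
  rw [this]
  ring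

/-- first derivative of the vector profile -/
lemma PP_deriv (μ : ℝ) {q : ℝ → ℝ} (hq : ContDiff ℝ ∞ q) {t : ℝ} (ht : t < 7) :
    deriv (PP μ q) t = Am μ t * (q t - lam μ t * prof q 0 t) := by
  have e : PP μ q =ᶠ[𝓝 t] fun t => Am μ t * prof q 0 t := by
    filter_upwards [Iio_mem_nhds ht] with x hx
    unfold PP
    rw [ct_one (by rw [mem_Iio] at hx; linarith), mul_one]
  rw [e.deriv_eq]
  have h := (Am_hasDerivAt μ t).mul (prof_zero_hasDerivAt q hq.continuous t)
  rw [show (fun t => Am μ t * prof q 0 t) = (Am μ * prof q 0) from rfl, h.deriv]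
  ring

lemma PP_deriv2 (μ : ℝ) {q : ℝ → ℝ} (hq : ContDiff ℝ ∞ q) {t : ℝ} (ht : t < 7) :
    deriv (deriv (PP μ q)) t = Am μ t * (deriv q t - 2 * lam μ t * q t
      + (lam μ t ^ 2 - deriv (lam μ) t) * prof q 0 t) := by
  have e : deriv (PP μ q) =ᶠ[𝓝 t] fun t => Am μ t * (q t - lam μ t * prof q 0 t) := by
    filter_upwards [Iio_mem_nhds ht] with x hx using PP_deriv μ hq hx
  rw [e.deriv_eq]
  have hq' : HasDerivAt q (deriv q t) t := (hq.differentiable (by simp) t).hasDerivAt
  have hl : HasDerivAt (lam μ) (deriv (lam μ) t) t :=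
    ((lam_contDiff μ).differentiable (by simp) t).hasDerivAt
  have h : HasDerivAt (fun t => Am μ t * (q t - lam μ t * prof q 0 t)) _ t :=
    (Am_hasDerivAt μ t).mul (hq'.sub (hl.mul (prof_zero_hasDerivAt q hq.continuous t)))
  rw [h.deriv]
  ring

/-- agreement with the stage profile -/
lemma PP_early (μ : ℝ) (N : ℕ) {t : ℝ} (ht : t < 1) :
    PP μ (q0 N) t = al N 0 t ∧ deriv (PP μ (q0 N)) t = al N 1 t ∧
      deriv (deriv (PP μ (q0 N))) t = al N 2 t := by
  have h0 : ∀ t, t < 1 → PP μ (q0 N) t = al N 0 t := by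
    intro t ht
    unfold PP
    rw [Am_one μ (by linarith), ct_one (by linarith), V0_eq N ht.le]
    ring
  have h1 : ∀ t, t < 1 → deriv (PP μ (q0 N)) t = al N 1 t := by
    intro t ht
    have e : PP μ (q0 N) =ᶠ[𝓝 t] al N 0 := by
      filter_upwards [Iio_mem_nhds ht] with x hx using h0 x hx
    rw [e.deriv_eq, (al_der N 0 t).deriv]
  refine ⟨h0 t ht, h1 t ht, ?_⟩
  have e : deriv (PP μ (q0 N)) =ᶠ[𝓝 t] al N 1 := by
    filter_upwards [Iio_mem_nhds ht] with x hx using h1 x hx
  rw [e.deriv_eq, (al_der N 1 t).deriv]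

lemma PP1_early (μ : ℝ) (N : ℕ) {t : ℝ} (ht : t ≤ 2) : PP μ (q1 N) t = 0 := by
  unfold PP
  have : prof (q1 N) 0 t = 0 := by
    show ∫ x in (0:ℝ)..t, q1 N x = 0
    rw [intervalIntegral.integral_congr (g := fun _ => (0:ℝ))]
    · simp
    · intro x hx
      apply q1_zero
      rcases le_total t 0 with h | h
      · rw [uIcc_of_ge h] at hx
        linarith [hx.2]
      · rw [uIcc_of_le h] at hx
        linarith [hx.2]
  rw [this, mul_zero, zero_mul]

lemma prof_q1_zero (N : ℕ) {t : ℝ} (ht : t ≤ 2) : prof (q1 N) 0 t = 0 := by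
  show ∫ x in (0:ℝ)..t, q1 N x = 0
  rw [intervalIntegral.integral_congr (g := fun _ => (0:ℝ))]
  · simp
  · intro x hx
    apply q1_zero
    rcases le_total t 0 with h | h
    · rw [uIcc_of_ge h] at hx
      linarith [hx.2]
    · rw [uIcc_of_le h] at hx
      linarith [hx.2]

/-- derivatives of `q0`, `q1` for `t ≥ 1` -/
lemma q0_late (N : ℕ) {t : ℝ} (ht : 1 ≤ t) :
    q0 N t = gg N * (exp (1 - t) * ct (t - 4)) * cos (et1 t) := by
  unfold q0
  rw [smoothTransition.one_of_one_le (by linarith), pb_zero_right ht]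
  ring

lemma q1_late (N : ℕ) (t : ℝ) :
    q1 N t = gg N * (exp (1 - t) * ct (t - 4)) * sin (et1 t) := by
  unfold q1
  ring

lemma et1_hasDerivAt (t : ℝ) : HasDerivAt et1 (deriv et1 t) t :=
  (et1_contDiff.differentiable (by simp) t).hasDerivAt

lemma y_hasDerivAt (t : ℝ) : HasDerivAt (fun t => exp (1 - t) * ct (t - 4))
    (-(exp (1 - t) * (ct (t - 4) + deriv smoothTransition (t - 4)))) t := by
  have h1 : HasDerivAt (fun t : ℝ => exp (1 - t)) (exp (1 - t) * (-1)) t :=
    ((hasDerivAt_id t).const_sub 1).exp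
  have h2 : HasDerivAt (fun t : ℝ => ct (t - 4)) (-deriv smoothTransition (t - 4)) t :=
    (ct_hasDerivAt (t - 4)).comp_sub_const t 4
  refine (h1.mul h2).congr_deriv ?_
  ring

lemma q0_deriv (N : ℕ) {t : ℝ} (ht : 1 ≤ t) :
    deriv (q0 N) t = gg N * (-(exp (1 - t) * (ct (t - 4) + deriv smoothTransition (t - 4))) * cos (et1 t)
      - exp (1 - t) * ct (t - 4) * sin (et1 t) * deriv et1 t) := by
  have e : q0 N =ᶠ[𝓝 t] fun t => gg N * (exp (1 - t) * ct (t - 4) * cos (et1 t)) + gg (N + 1) * pb t := by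
    filter_upwards [Ioi_mem_nhds (show (1/2:ℝ) < t by linarith)] with x hx
    unfold q0
    rw [smoothTransition.one_of_one_le (by rw [mem_Ioi] at hx; linarith)]
    ring
  rw [e.deriv_eq]
  have hb : HasDerivAt pb (deriv pb t) t := (pb_contDiff.differentiable (by simp) t).hasDerivAt
  have h : HasDerivAt (fun t => gg N * (exp (1 - t) * ct (t - 4) * cos (et1 t)) + gg (N + 1) * pb t) _ t :=
    (((y_hasDerivAt t).mul (et1_hasDerivAt t).cos).const_mul (gg N)).add (hb.const_mul (gg (N + 1)))
  rw [h.deriv, deriv_pb_zero (pb_zero_right ht)]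
  ring

lemma q1_deriv (N : ℕ) (t : ℝ) :
    deriv (q1 N) t = gg N * (-(exp (1 - t) * (ct (t - 4) + deriv smoothTransition (t - 4))) * sin (et1 t)
      + exp (1 - t) * ct (t - 4) * cos (et1 t) * deriv et1 t) := by
  have e : q1 N = fun t => gg N * (exp (1 - t) * ct (t - 4) * sin (et1 t)) := by
    funext x
    unfold q1
    ring
  rw [e]
  have h : HasDerivAt (fun t => gg N * (exp (1 - t) * ct (t - 4) * sin (et1 t))) _ t :=
    ((y_hasDerivAt t).mul (et1_hasDerivAt t).sin).const_mul (gg N)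
  rw [h.deriv]
  ring

lemma deriv_et1_late {t : ℝ} (ht : 3 ≤ t) : deriv et1 t = 0 := by
  have h1 : HasDerivAt (fun t : ℝ => smoothTransition (t - 2)) (deriv smoothTransition (t - 2)) t :=
    (st_hasDerivAt (t - 2)).comp_sub_const t 2
  have h : HasDerivAt et1 (π * deriv smoothTransition (t - 2)) t := h1.const_mul π
  rw [h.deriv, deriv_st_zero_right (by linarith), mul_zero]

lemma deriv_lam (μ t : ℝ) : deriv (lam μ) t = μ * deriv smoothTransition (t - 3) := by
  have h1 : HasDerivAt (fun t : ℝ => smoothTransition (t - 3)) (deriv smoothTransition (t - 3)) t :=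
    (st_hasDerivAt (t - 3)).comp_sub_const t 3
  have h : HasDerivAt (lam μ) (μ * deriv smoothTransition (t - 3)) t := h1.const_mul μ
  exact h.deriv

lemma prof_sub_le {q : ℝ → ℝ} (hq : Continuous q) {a b B : ℝ} (hab : a ≤ b)
    (h : ∀ t, a ≤ t → t ≤ b → |q t| ≤ B) : |prof q 0 b - prof q 0 a| ≤ B * (b - a) := by
  have e : prof q 0 b - prof q 0 a = ∫ x in a..b, q x := by
    show (∫ x in (0:ℝ)..b, q x) - (∫ x in (0:ℝ)..a, q x) = _
    rw [intervalIntegral.integral_interval_sub_left (hq.intervalIntegrable _ _)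
      (hq.intervalIntegrable _ _)]
  rw [e]
  have := intervalIntegral.norm_integral_le_of_norm_le_const (a := a) (b := b) (f := q) (C := B)
    (fun x hx => by
      rw [uIoc_of_le hab] at hx
      exact h x hx.1.le hx.2)
  rwa [Real.norm_eq_abs, abs_of_nonneg (by linarith : 0 ≤ b - a)] at this

lemma pb_le_one (t : ℝ) : pb t ≤ 1 := by
  rcases le_total t 0 with h | h
  · rw [pb_zero_left h]; norm_num
  · unfold pb
    have h1 := smoothTransition.nonneg (2 * t - 1)
    have h2 : exp (-t) ≤ 1 := by rw [Real.exp_le_one_iff]; linarith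
    have h3 := sin_le_one (eta t)
    have h4 := Pool.Agent.H120R3.Lw.sin_eta_nonneg t
    have h5 := smoothTransition.le_one (2 * t - 1)
    have h6 := exp_pos (-t)
    calc (1 - smoothTransition (2 * t - 1)) * exp (-t) * sin (eta t) ≤ 1 * 1 * 1 := by
          gcongr
          linarith
      _ = 1 := by norm_num

lemma q0_abs (N : ℕ) {t : ℝ} (ht : 0 ≤ t) : |q0 N t| ≤ 4 * gg N := by
  have hg := gg_pos N
  have hg1 := gg_pos (N + 1)
  have hg2 := gg_succ_le N
  have h1 := smoothTransition.nonneg (4 * t - 1)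
  have h1' := smoothTransition.le_one (4 * t - 1)
  have h2 : exp (1 - t) ≤ 3 := by
    have : exp (1 - t) ≤ exp 1 := Real.exp_le_exp.2 (by linarith)
    have := Real.exp_one_lt_d9
    linarith
  have h3 := abs_cos_le_one (et1 t)
  have h4 := ct_nonneg (t - 4)
  have h5 := ct_le (t - 4)
  have h6 := pb_nonneg t
  have h7 := pb_le_one t
  unfold q0
  refine (abs_add_le _ _).trans ?_
  rw [abs_mul, abs_mul, abs_mul, abs_mul, abs_mul, abs_of_pos hg, abs_of_nonneg h1, abs_of_pos (exp_pos _),
    abs_of_nonneg h4, abs_of_pos hg1, abs_of_nonneg h6]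
  have e1 : smoothTransition (4 * t - 1) * exp (1 - t) * |cos (et1 t)| * ct (t - 4) ≤ 1 * 3 * 1 * 1 := by
    gcongr
  have e2 : gg N * (smoothTransition (4 * t - 1) * exp (1 - t) * |cos (et1 t)| * ct (t - 4))
      ≤ gg N * (1 * 3 * 1 * 1) := mul_le_mul_of_nonneg_left e1 hg.le
  have e3 : gg (N + 1) * pb t ≤ gg (N + 1) * 1 := mul_le_mul_of_nonneg_left h7 hg1.le
  linarith

lemma q1_abs (N : ℕ) {t : ℝ} (ht : 0 ≤ t) : |q1 N t| ≤ 4 * gg N := by
  have hg := gg_pos N
  have h2 : exp (1 - t) ≤ 3 := by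
    have : exp (1 - t) ≤ exp 1 := Real.exp_le_exp.2 (by linarith)
    have := Real.exp_one_lt_d9
    linarith
  have h3 := abs_sin_le_one (et1 t)
  have h4 := ct_nonneg (t - 4)
  have h5 := ct_le (t - 4)
  unfold q1
  rw [abs_mul, abs_mul, abs_mul, abs_of_pos hg, abs_of_pos (exp_pos _), abs_of_nonneg h4]
  have e1 : exp (1 - t) * |sin (et1 t)| * ct (t - 4) ≤ 3 * 1 * 1 := by
    gcongr
  have e2 : gg N * (exp (1 - t) * |sin (et1 t)| * ct (t - 4))
      ≤ gg N * (3 * 1 * 1) := mul_le_mul_of_nonneg_left e1 hg.le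
  linarith

/-- bounds for the primitives -/
lemma V_abs (N : ℕ) {q : ℝ → ℝ} (hq : Continuous q) (h : ∀ t, 0 ≤ t → |q t| ≤ 4 * gg N) {t : ℝ}
    (h0 : 0 ≤ t) (h7 : t ≤ 7) : |prof q 0 t| ≤ 28 * gg N := by
  have h1 := prof_sub_le hq h0 (fun s hs _ => h s hs)
  have h2 : prof q 0 0 = 0 := by
    show ∫ x in (0:ℝ)..0, q x = 0
    simp
  rw [h2, sub_zero, sub_zero] at h1
  have := gg_pos N
  nlinarith

/-- positivity of the first component -/
lemma V0_pos (N : ℕ) {t : ℝ} (ht : 2 ≤ t) : gg N * exp (1 - t) ≤ prof (q0 N) 0 t := by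
  have hg := gg_pos N
  have hd := fun t => prof_zero_hasDerivAt (q0 N) (q0_contDiff N).continuous t
  have h1 : ∀ t, HasDerivAt (fun t => prof (q0 N) 0 t - gg N * exp (1 - t)) (q0 N t + gg N * exp (1 - t)) t := by
    intro t
    have h2 : HasDerivAt (fun t : ℝ => exp (1 - t)) (exp (1 - t) * (-1)) t :=
      ((hasDerivAt_id t).const_sub 1).exp
    refine ((hd t).sub (h2.const_mul (gg N))).congr_deriv ?_
    ring
  -- on [2,∞) monotone
  have hmono : MonotoneOn (fun t => prof (q0 N) 0 t - gg N * exp (1 - t)) (Ici 2) := by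
    apply monotoneOn_of_deriv_nonneg (convex_Ici _)
    · exact fun t _ => (h1 t).continuousAt.continuousWithinAt
    · exact fun t _ => (h1 t).differentiableAt.differentiableWithinAt
    · intro t ht
      rw [interior_Ici, mem_Ioi] at ht
      rw [(h1 t).deriv, q0_late N (by linarith)]
      have hc := neg_one_le_cos (et1 t)
      have h4 := ct_nonneg (t - 4)
      have h5 := ct_le (t - 4)
      have h6 : -1 ≤ ct (t - 4) * cos (et1 t) := by nlinarith [cos_le_one (et1 t)]
      have h7 : 0 ≤ gg N * exp (1 - t) := by positivity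
      have h8 : gg N * (exp (1 - t) * ct (t - 4)) * cos (et1 t) + gg N * exp (1 - t)
        = gg N * exp (1 - t) * (1 + ct (t - 4) * cos (et1 t)) := by ring
      rw [h8]
      apply mul_nonneg h7
      linarith
  -- on [1,2]
  have hmono2 : MonotoneOn (fun t => prof (q0 N) 0 t - gg N * exp (-1) * t) (Icc 1 2) := by
    have h3 : ∀ t, HasDerivAt (fun t => prof (q0 N) 0 t - gg N * exp (-1) * t) (q0 N t - gg N * exp (-1)) t := by
      intro t
      refine ((hd t).sub ((hasDerivAt_id t).const_mul (gg N * exp (-1)))).congr_deriv ?_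
      ring
    apply monotoneOn_of_deriv_nonneg (convex_Icc _ _)
    · exact fun t _ => (h3 t).continuousAt.continuousWithinAt
    · exact fun t _ => (h3 t).differentiableAt.differentiableWithinAt
    · intro t ht
      rw [interior_Icc, mem_Ioo] at ht
      rw [(h3 t).deriv, q0_late N ht.1.le, et1_zero ht.2.le, ct_one (by linarith), cos_zero]
      have : exp (-1) ≤ exp (1 - t) := Real.exp_le_exp.2 (by linarith)
      have := mul_le_mul_of_nonneg_left this hg.le
      linarith
  have h01 : 0 ≤ prof (q0 N) 0 1 := by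
    rw [V0_eq N le_rfl]
    exact Pool.Agent.H120R3.Lw.al_nonneg N 1
  have e1 := hmono2 (left_mem_Icc.2 (by norm_num)) (right_mem_Icc.2 (by norm_num)) (by norm_num : (1:ℝ) ≤ 2)
  have e2 := hmono (mem_Ici.2 le_rfl) (mem_Ici.2 ht) ht
  simp only at e1 e2
  have e3 : exp (1 - 2 : ℝ) = exp (-1) := by norm_num
  rw [e3] at e2
  linarith

end Pool.Agent.H120R3.Ca
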