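import Mathlib
import Pool.Agent.H120R3.CaProf

set_option autoImplicit false

/-!
The outer (pure vector) region.
-/

namespace Pool.Agent.H120R3.Ca

open Real Filter Topology Set MeasureTheory
open Pool.Agent.H120R3.Lw (Prof prof pa pb eta pa_contDiff pb_contDiff pa_isProf pb_isProf gg al al_der
  gg_pos pb_zero_right pb_zero_left pa_nonneg pb_nonneg eta_of_nonpos deriv_pb_zero
  prof_zero_hasDerivAt prof_mono gg_succ_le pb_window)
open scoped ContDiff

lemma D_neg {μ L : ℝ} (hμ : 0 < μ) (hL : ∀ t, |deriv smoothTransition t| ≤ L)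
    (hs : μ * (L + 1) * 1000000 ≤ 1) (N : ℕ) {t : ℝ} (h2 : 2 ≤ t) (h6 : t ≤ 6) :
    (q0 N t - lam μ t * prof (q0 N) 0 t) * (deriv (q0 N) t - 2 * lam μ t * q0 N t
        + (lam μ t ^ 2 - deriv (lam μ) t) * prof (q0 N) 0 t)
      + (q1 N t - lam μ t * prof (q1 N) 0 t) * (deriv (q1 N) t - 2 * lam μ t * q1 N t
        + (lam μ t ^ 2 - deriv (lam μ) t) * prof (q1 N) 0 t)
      + 3 * μ ^ 2 * (prof (q0 N) 0 t * (q0 N t - lam μ t * prof (q0 N) 0 t)
        + prof (q1 N) 0 t * (q1 N t - lam μ t * prof (q1 N) 0 t)) < 0 := by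
  have hg := gg_pos N
  have hL0 : 0 ≤ L := (abs_nonneg _).trans (hL 0)
  have hμ1 : μ ≤ 1 / 1000000 := by nlinarith
  have hV0 := V_abs N (q0_contDiff N).continuous (fun t h => q0_abs N h) (by linarith : 0 ≤ t) (by linarith)
  have hV1 := V_abs N (q1_contDiff N).continuous (fun t h => q1_abs N h) (by linarith : 0 ≤ t) (by linarith)
  have hV0p := V0_pos N h2
  have hep := exp_pos (1 - t)
  have hee : exp (1 - t) ≤ 1 := by rw [Real.exp_le_one_iff]; linarith
  have e0 := q0_late N (show 1 ≤ t by linarith)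
  have e1 := q1_late N t
  have d0 := q0_deriv N (show 1 ≤ t by linarith)
  have d1 := q1_deriv N t
  rw [e0, e1, d0, d1, deriv_lam]
  generalize prof (q0 N) 0 t = V0 at *
  generalize prof (q1 N) 0 t = V1 at *
  rcases le_or_gt t 3 with h3 | h3
  · -- rotation
    rw [lam_zero μ h3, deriv_st_zero_left (by linarith : t - 3 ≤ 0), ct_one (by linarith : t - 4 ≤ 0),
      deriv_st_zero_left (by linarith : t - 4 ≤ 0)]
    have hcs := cos_sq_add_sin_sq (et1 t)
    have hc1 := abs_cos_le_one (et1 t)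
    have hs1 := abs_sin_le_one (et1 t)
    have hexp : (1:ℝ) / 8 ≤ exp (1 - t) := by
      have h5 : exp (-2) ≤ exp (1 - t) := Real.exp_le_exp.2 (by linarith)
      have h6 : (1:ℝ) / 8 ≤ exp (-2) := by
        rw [Real.exp_neg, one_div]
        apply inv_anti₀ (exp_pos _)
        have h7 : exp 2 = exp 1 ^ 2 := by rw [← Real.exp_nat_mul]; norm_num
        rw [h7]
        have := Real.exp_one_lt_d9
        have := exp_pos (1:ℝ)
        nlinarith
      linarith
    generalize exp (1 - t) = e at *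
    generalize cos (et1 t) = co at *
    generalize sin (et1 t) = sn at *
    generalize deriv et1 t = d at *
    have key : |V0 * co + V1 * sn| ≤ 56 * gg N := by
      calc |V0 * co + V1 * sn| ≤ |V0 * co| + |V1 * sn| := abs_add_le _ _
        _ = |V0| * |co| + |V1| * |sn| := by rw [abs_mul, abs_mul]
        _ ≤ 28 * gg N * 1 + 28 * gg N * 1 := by gcongr
        _ = 56 * gg N := by ring
    have key2 := (abs_le.1 key).2
    have : (gg N * (e * 1) * co - 0 * V0) * (gg N * (-(e * (1 + 0)) * co - e * 1 * sn * d)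
          - 2 * 0 * (gg N * (e * 1) * co) + (0 ^ 2 - μ * 0) * V0)
        + (gg N * (e * 1) * sn - 0 * V1) * (gg N * (-(e * (1 + 0)) * sn + e * 1 * co * d)
          - 2 * 0 * (gg N * (e * 1) * sn) + (0 ^ 2 - μ * 0) * V1)
        + 3 * μ ^ 2 * (V0 * (gg N * (e * 1) * co - 0 * V0) + V1 * (gg N * (e * 1) * sn - 0 * V1))
        = gg N * e * (-(gg N * e) + 3 * μ ^ 2 * (V0 * co + V1 * sn)) := by
      linear_combination (-(gg N ^ 2 * e ^ 2)) * hcs
    rw [this]
    apply mul_neg_of_pos_of_neg (by positivity)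
    have h8 : 3 * μ ^ 2 * (V0 * co + V1 * sn) ≤ 3 * μ ^ 2 * (56 * gg N) :=
      mul_le_mul_of_nonneg_left key2 (by positivity)
    have h9 : μ ^ 2 ≤ 1 / 1000000 := by nlinarith
    have h10 : 3 * μ ^ 2 * (56 * gg N) ≤ 168 / 1000000 * gg N := by nlinarith
    nlinarith
  · rw [et1_pi h3.le, cos_pi, sin_pi, deriv_et1_late h3.le]
    have hV0pos : 0 < V0 := lt_of_lt_of_le (by positivity) hV0p
    rcases le_or_gt t 4 with h4 | h4
    · rw [ct_one (by linarith : t - 4 ≤ 0), deriv_st_zero_left (by linarith : t - 4 ≤ 0)]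
      have hexp : (1:ℝ) / 21 ≤ exp (1 - t) := by
        have h5 : exp (-3) ≤ exp (1 - t) := Real.exp_le_exp.2 (by linarith)
        have h6 : (1:ℝ) / 21 ≤ exp (-3) := by
          rw [Real.exp_neg, one_div]
          apply inv_anti₀ (exp_pos _)
          have h7 : exp 3 = exp 1 ^ 3 := by rw [← Real.exp_nat_mul]; norm_num
          rw [h7]
          have h8 : exp 1 ≤ 2.7183 := by have := Real.exp_one_lt_d9; linarith
          calc exp 1 ^ 3 ≤ 2.7183 ^ 3 := pow_le_pow_left₀ (exp_pos _).le h8 3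
            _ ≤ 21 := by norm_num
        linarith
      have hl0 : 0 ≤ lam μ t := by
        unfold lam
        exact mul_nonneg hμ.le (smoothTransition.nonneg _)
      have hl1 : lam μ t ≤ μ := by
        unfold lam
        have := smoothTransition.le_one (t - 3)
        nlinarith
      have hs0 := deriv_st_nonneg (t - 3)
      have hs1 := (le_abs_self _).trans (hL (t - 3))
      generalize exp (1 - t) = e at *
      generalize lam μ t = l at *
      generalize deriv smoothTransition (t - 3) = s' at *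
      obtain ⟨G, hG⟩ : ∃ G, G = gg N * e := ⟨_, rfl⟩
      have hGp : 0 < G := by rw [hG]; positivity
      have hGe : (gg N * (e * 1) * -1 - l * V0) * (gg N * (-(e * (1 + 0)) * -1 - e * 1 * 0 * 0) - 2 * l * (gg N * (e * 1) * -1) +
              (l ^ 2 - μ * s') * V0) +
          (gg N * (e * 1) * 0 - l * V1) * (gg N * (-(e * (1 + 0)) * 0 + e * 1 * -1 * 0) - 2 * l * (gg N * (e * 1) * 0) +
              (l ^ 2 - μ * s') * V1) +
        3 * μ ^ 2 * (V0 * (gg N * (e * 1) * -1 - l * V0) + V1 * (gg N * (e * 1) * 0 - l * V1))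
        = -G ^ 2 + μ * s' * (G * V0) + l * (μ * s') * (V0 ^ 2 + V1 ^ 2)
          - (2 * l * G ^ 2 + l ^ 2 * (G * V0) + l * (G * V0) + 2 * l ^ 2 * (G * V0) + l ^ 3 * (V0 ^ 2 + V1 ^ 2)
            + 3 * μ ^ 2 * (G * V0 + l * (V0 ^ 2 + V1 ^ 2))) := by
        rw [hG]; ring
      rw [hGe]
      have hpos : 0 ≤ 2 * l * G ^ 2 + l ^ 2 * (G * V0) + l * (G * V0) + 2 * l ^ 2 * (G * V0)
          + l ^ 3 * (V0 ^ 2 + V1 ^ 2) + 3 * μ ^ 2 * (G * V0 + l * (V0 ^ 2 + V1 ^ 2)) := by positivity
      have hGlow : gg N / 21 ≤ G := by rw [hG]; nlinarith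
      have hG2 : gg N ^ 2 / 441 ≤ G ^ 2 := by
        have : (gg N / 21) ^ 2 ≤ G ^ 2 := pow_le_pow_left₀ (by positivity) hGlow 2
        nlinarith
      have hGle : G ≤ gg N := by rw [hG]; nlinarith
      have hV0' := (abs_le.1 hV0).2
      have hGV : G * V0 ≤ 28 * gg N ^ 2 := by
        calc G * V0 ≤ gg N * (28 * gg N) := mul_le_mul hGle hV0' hV0pos.le hg.le
          _ = _ := by ring
      have hVV : V0 ^ 2 + V1 ^ 2 ≤ 1568 * gg N ^ 2 := by
        have h5 : V0 ^ 2 ≤ (28 * gg N) ^ 2 := by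
          rw [← sq_abs V0]; exact pow_le_pow_left₀ (abs_nonneg _) hV0 2
        have h6 : V1 ^ 2 ≤ (28 * gg N) ^ 2 := by
          rw [← sq_abs V1]; exact pow_le_pow_left₀ (abs_nonneg _) hV1 2
        nlinarith
      have hms0 : 0 ≤ μ * s' := by positivity
      have hms : μ * s' ≤ 1 / 1000000 := by
        have : μ * s' ≤ μ * L := mul_le_mul_of_nonneg_left hs1 hμ.le
        nlinarith
      have t1 : μ * s' * (G * V0) ≤ 1 / 1000000 * (28 * gg N ^ 2) :=
        mul_le_mul hms hGV (by positivity) (by norm_num)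
      have t2 : l * (μ * s') * (V0 ^ 2 + V1 ^ 2) ≤ 1 * (1 / 1000000) * (1568 * gg N ^ 2) := by
        apply mul_le_mul _ hVV (by positivity) (by norm_num)
        apply mul_le_mul (by linarith) hms hms0 (by norm_num)
      have hgg : 0 < gg N ^ 2 := by positivity
      linarith
    · rw [lam_one μ h4.le, deriv_st_zero_right (by linarith : 1 ≤ t - 3)]
      have hc0 := ct_nonneg (t - 4)
      have hs0 := deriv_st_nonneg (t - 4)
      generalize exp (1 - t) = e at *
      generalize ct (t - 4) = c at *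
      generalize deriv smoothTransition (t - 4) = s' at *
      have hE : (gg N * (e * c) * -1 - μ * V0) *
            (gg N * (-(e * (c + s')) * -1 - e * c * 0 * 0) - 2 * μ * (gg N * (e * c) * -1) + (μ ^ 2 - μ * 0) * V0) +
          (gg N * (e * c) * 0 - μ * V1) *
            (gg N * (-(e * (c + s')) * 0 + e * c * -1 * 0) - 2 * μ * (gg N * (e * c) * 0) + (μ ^ 2 - μ * 0) * V1) +
        3 * μ ^ 2 * (V0 * (gg N * (e * c) * -1 - μ * V0) + V1 * (gg N * (e * c) * 0 - μ * V1))
        = -((gg N * (e * c) + μ * V0) * (gg N * (e * (c + s')) + 2 * μ * (gg N * (e * c)) + μ ^ 2 * V0)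
          + μ ^ 3 * V1 ^ 2 + 3 * μ ^ 2 * (V0 * (gg N * (e * c)) + μ * V0 ^ 2 + μ * V1 ^ 2)) := by ring
      rw [hE, neg_lt_zero]
      positivity

/-- no zero in the pure vector region -/
lemma pure_ne {μ L : ℝ} (hμ : 0 < μ) (hL : ∀ t, |deriv smoothTransition t| ≤ L)
    (hs : μ * (L + 1) * 1000000 ≤ 1) (N : ℕ) {t : ℝ} (h2 : 2 ≤ t) (h6 : t ≤ 6) {X Y : ℝ}
    (hXY : X ^ 2 + Y ^ 2 = 1)
    (hS : deriv (PP μ (q1 N)) t * X - deriv (PP μ (q0 N)) t * Y = 0)
    (hR : deriv (deriv (PP μ (q0 N))) t * X + deriv (deriv (PP μ (q1 N))) t * Y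
      + 3 * μ ^ 2 * (PP μ (q0 N) t * X + PP μ (q1 N) t * Y) = 0) : False := by
  have h7 : t < 7 := by linarith
  have hD := D_neg hμ hL hs N h2 h6
  have e0 : PP μ (q0 N) t = Am μ t * prof (q0 N) 0 t := by
    unfold PP; rw [ct_one (by linarith), mul_one]
  have e1 : PP μ (q1 N) t = Am μ t * prof (q1 N) 0 t := by
    unfold PP; rw [ct_one (by linarith), mul_one]
  rw [PP_deriv μ (q0_contDiff N) h7, PP_deriv μ (q1_contDiff N) h7] at hS
  rw [PP_deriv2 μ (q0_contDiff N) h7, PP_deriv2 μ (q1_contDiff N) h7, e0, e1] at hR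
  have hA := Am_pos μ t
  generalize q0 N t - lam μ t * prof (q0 N) 0 t = a at *
  generalize q1 N t - lam μ t * prof (q1 N) 0 t = b at *
  generalize deriv (q0 N) t - 2 * lam μ t * q0 N t
        + (lam μ t ^ 2 - deriv (lam μ) t) * prof (q0 N) 0 t = c at *
  generalize deriv (q1 N) t - 2 * lam μ t * q1 N t
        + (lam μ t ^ 2 - deriv (lam μ) t) * prof (q1 N) 0 t = d at *
  generalize prof (q0 N) 0 t = V0 at *
  generalize prof (q1 N) 0 t = V1 at *
  generalize Am μ t = A at *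
  have hS' : b * X = a * Y := by
    have : A * (b * X - a * Y) = 0 := by linear_combination hS
    have := (mul_eq_zero.1 this).resolve_left hA.ne'
    linarith
  have hR' : c * X + d * Y + 3 * μ ^ 2 * (V0 * X + V1 * Y) = 0 := by
    have : A * (c * X + d * Y + 3 * μ ^ 2 * (V0 * X + V1 * Y)) = 0 := by linear_combination hR
    exact (mul_eq_zero.1 this).resolve_left hA.ne'
  -- a = m X, b = m Y
  have ha : a = (a * X + b * Y) * X := by linear_combination (-a) * hXY - Y * hS'
  have hb : b = (a * X + b * Y) * Y := by linear_combination (-b) * hXY + X * hS'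
  have : a * c + b * d + 3 * μ ^ 2 * (V0 * a + V1 * b) = 0 := by
    linear_combination (a * X + b * Y) * hR' + (c + 3 * μ ^ 2 * V0) * ha + (d + 3 * μ ^ 2 * V1) * hb
  linarith

end Pool.Agent.H120R3.Ca
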