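import Mathlib
import Pool.Agent.H120R3.CaSer

set_option autoImplicit false

/-!
Second order computation.
-/

namespace Pool.Agent.H120R3.Ca

open Real Filter Topology Set
open Pool.Agent.H120R3.Lw (HP HP_re HP_im HP_const ri si nsq_pos ssq_pos si_sq ri_sq HP_si HP_ri
  HP_powsi norm_lin_le Prof ri_pos ee LL LLx LLy kr HP_ee HP_LL HP_v HP_LLx HP_LLy euler_LL)
open scoped ContDiff

lemma HP_LLx' (c p q : ℝ) {A B : ℝ} (hA : 0 < A) (hB : 0 < B) {z : ℂ} (hz : z ≠ 0) :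
    HP (LLx c p q A B) (kr c p q A B z * z.im ^ 2) (-(kr c p q A B z * z.re * z.im)) z := by
  obtain ⟨w, hw⟩ := HP_LLx c p q hA hB hz
  have h3 := (((HP_ee hA hB hz).add (HP_const (-1) z)).const_mul (c * q)).add
    (HP_v A B (c * q) (c * p) (A - B) 1 2 3 hA hB hz)
  have h4 := (HP_const p z).add h3
  have e : LLx c p q A B = fun z => p + (c * q * (ee A B z + -1) +
      (c * q * z.re + c * p * z.im) * (A - B) * z.re ^ 1 * z.im ^ 2 * si A B z * ri z ^ 3) := by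
    funext w; unfold LLx; ring
  rw [← e] at h4
  have h6 := (hw.unique h4).2
  refine hw.cg rfl ?_
  rw [h6]
  have hs := si_sq hA hB hz
  have hr := ri_sq hz
  unfold kr
  generalize si A B z = s at *
  generalize ri z = r at *
  generalize z.re = x at *
  generalize z.im = y at *
  push_cast
  linear_combination (-(c*(A-B)*s*x*y*r^3*(q*x+3*p*y-(p*y+q*x)*B*y^2*s^2)))*hr
    + (-(c*(A-B)*s*x*y*r^5*(p*y+q*x)*y^2))*hs

/-- derivative of `rh * β(τ) * M` -/
lemma HP_V {κ m : ℝ} (hm : 0 < m) {β : ℝ → ℝ} {β' : ℝ} {M : ℂ → ℝ} {Mx My : ℝ} {z : ℂ} (hz : z ≠ 0)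
    (hβ : HasDerivAt β β' (tau κ m z)) (hM : HP M Mx My z) :
    HP (fun w => rh w * (β (tau κ m w) * M w))
      (rh z * (z.re * ri z ^ 2 * (2 * κ * β' - β (tau κ m z) / 2) * M z + β (tau κ m z) * Mx))
      (rh z * (z.im * ri z ^ 2 * (2 * κ * β' - β (tau κ m z) / 2) * M z + β (tau κ m z) * My)) z := by
  have h := (HP_rh hz).mul ((HP.comp hβ (HP_tau κ hm hz)).mul hM)
  have h2 : ri z = rh z ^ 2 := (rh_sq z).symm
  refine h.cg ?_ ?_
  · rw [h2]; ring
  · rw [h2]; ring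

lemma Euler_V {κ : ℝ} {β β' : ℝ} {M Mx My : ℝ} {z : ℂ} (hz : z ≠ 0)
    (hE : z.re * Mx + z.im * My = M) :
    z.re * (rh z * (z.re * ri z ^ 2 * (2 * κ * β' - β / 2) * M + β * Mx))
      + z.im * (rh z * (z.im * ri z ^ 2 * (2 * κ * β' - β / 2) * M + β * My))
      = rh z * ((2 * κ * β' + β / 2) * M) := by
  have hr := ri_sq hz
  generalize ri z = r at *
  generalize rh z = h at *
  generalize z.re = x at *
  generalize z.im = y at *
  linear_combination (h * (2 * κ * β' - β / 2) * M) * hr + h * β * hE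

lemma Rot_V {κ : ℝ} {β β' : ℝ} {M Mx My : ℝ} {z : ℂ} :
    z.re * (rh z * (z.im * ri z ^ 2 * (2 * κ * β' - β / 2) * M + β * My))
      - z.im * (rh z * (z.re * ri z ^ 2 * (2 * κ * β' - β / 2) * M + β * Mx))
      = rh z * (β * (z.re * My - z.im * Mx)) := by
  ring

/-- second order computation for a sum of two terms. -/
lemma second_order {κ m : ℝ} (hm : 0 < m) {a0 a1 a2 b0 b1 b2 : ℝ → ℝ}
    (ha0 : ∀ t, HasDerivAt a0 (a1 t) t) (ha1 : ∀ t, HasDerivAt a1 (a2 t) t)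
    (hb0 : ∀ t, HasDerivAt b0 (b1 t) t) (hb1 : ∀ t, HasDerivAt b1 (b2 t) t)
    (c p q : ℝ) {A B : ℝ} (hA : 0 < A) (hB : 0 < B)
    {u ux uy uxx uxy uyx uyy : ℂ → ℝ}
    (hu : ∀ z, z ≠ 0 → u z = rh z * (a0 (tau κ m z) * LL c p q A B z) + rh z * (b0 (tau κ m z) * z.im))
    (H : ∀ z, HP u (ux z) (uy z) z) (Hx : ∀ z, HP ux (uxx z) (uxy z) z)
    (Hy : ∀ z, HP uy (uyx z) (uyy z) z) {z : ℂ} (hz : z ≠ 0) :
    (z.re ^ 2 - z.im ^ 2) * (uxx z - uyy z) + 2 * z.re * z.im * (uxy z + uyx z)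
      + (z.re * ux z + z.im * uy z)
      = rh z * (4 * κ ^ 2 * a2 (tau κ m z) * LL c p q A B z + 3 / 4 * a0 (tau κ m z) * LL c p q A B z
        - a0 (tau κ m z) * (kr c p q A B z * (z.re ^ 2 + z.im ^ 2) ^ 2)
        + (4 * κ ^ 2 * b2 (tau κ m z) + 3 / 4 * b0 (tau κ m z)) * z.im) ∧
    (z.re ^ 2 - z.im ^ 2) * (uxy z + uyx z) - 2 * z.re * z.im * (uxx z - uyy z)
      + (z.re * uy z - z.im * ux z)
      = rh z * (4 * κ * (a1 (tau κ m z) * (z.re * LLy c p q A B z - z.im * LLx c p q A B z)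
        + b1 (tau κ m z) * z.re)) := by
  have hne : ∀ w : ℂ, w ≠ 0 → ∀ᶠ w' in 𝓝 w, w' ≠ 0 := fun w hw => isOpen_ne.mem_nhds hw
  -- first level
  have hL : ∀ w : ℂ, w ≠ 0 → HP (LL c p q A B) (LLx c p q A B w) (LLy c p q A B w) w :=
    fun w hw => HP_LL c p q hA hB hw
  have hLr : ∀ w : ℂ, w ≠ 0 → HP (fun w => w.re * LLy c p q A B w - w.im * LLx c p q A B w)
      (LLy c p q A B w - kr c p q A B w * w.im * (w.re ^ 2 + w.im ^ 2))
      (-LLx c p q A B w + kr c p q A B w * w.re * (w.re ^ 2 + w.im ^ 2)) w := by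
    intro w hw
    have h1 := ((HP_re w).mul (HP_LLy c p q hA hB hw)).add
      (((HP_im w).mul (HP_LLx' c p q hA hB hw)).const_mul (-1))
    have e : (fun w : ℂ => w.re * LLy c p q A B w - w.im * LLx c p q A B w) =
        fun w => w.re * LLy c p q A B w + -1 * (w.im * LLx c p q A B w) := by
      funext w; ring
    rw [e]
    refine h1.cg ?_ ?_ <;> ring
  have h1 : ∀ w : ℂ, w ≠ 0 →
      w.re * ux w + w.im * uy w = rh w * ((2 * κ * a1 (tau κ m w) + a0 (tau κ m w) / 2) * LL c p q A B w)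
        + rh w * ((2 * κ * b1 (tau κ m w) + b0 (tau κ m w) / 2) * w.im) ∧
      w.re * uy w - w.im * ux w = rh w * (a0 (tau κ m w) * (w.re * LLy c p q A B w - w.im * LLx c p q A B w))
        + rh w * (b0 (tau κ m w) * w.re) := by
    intro w hw
    have h2 := (HP_V (κ := κ) hm hw (ha0 (tau κ m w)) (hL w hw)).add
      (HP_V (κ := κ) hm hw (hb0 (tau κ m w)) (HP_im w))
    have h3 : HP u _ _ w := h2.congr_ev (by
      filter_upwards [hne w hw] with w' hw' using hu w' hw')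
    obtain ⟨e1, e2⟩ := (H w).unique h3
    rw [e1, e2]
    have E1 := Euler_V (κ := κ) (β := a0 (tau κ m w)) (β' := a1 (tau κ m w)) hw (euler_LL c p q A B w)
    have E2 := Euler_V (κ := κ) (β := b0 (tau κ m w)) (β' := b1 (tau κ m w)) (M := w.im)
      (Mx := 0) (My := 1) hw (by ring)
    constructor
    · linear_combination E1 + E2
    · ring
  -- second level
  have h2D : HP (fun w : ℂ => w.re * ux w + w.im * uy w) (ux z + z.re * uxx z + z.im * uyx z)
      (z.re * uxy z + uy z + z.im * uyy z) z := by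
    refine (((HP_re z).mul (Hx z)).add ((HP_im z).mul (Hy z))).cg ?_ ?_ <;> ring
  have h2R : HP (fun w : ℂ => w.re * uy w - w.im * ux w) (uy z + z.re * uyx z - z.im * uxx z)
      (z.re * uyy z - ux z - z.im * uxy z) z := by
    have e : (fun w : ℂ => w.re * uy w - w.im * ux w) = fun w => w.re * uy w + -1 * (w.im * ux w) := by
      funext w; ring
    rw [e]
    refine (((HP_re z).mul (Hy z)).add (((HP_im z).mul (Hx z)).const_mul (-1))).cg ?_ ?_ <;> ring
  have hA1 : HasDerivAt (fun t => 2 * κ * a1 t + a0 t / 2)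
      (2 * κ * a2 (tau κ m z) + a1 (tau κ m z) / 2) (tau κ m z) :=
    ((ha1 _).const_mul (2 * κ)).add ((ha0 _).div_const 2)
  have hB1 : HasDerivAt (fun t => 2 * κ * b1 t + b0 t / 2)
      (2 * κ * b2 (tau κ m z) + b1 (tau κ m z) / 2) (tau κ m z) :=
    ((hb1 _).const_mul (2 * κ)).add ((hb0 _).div_const 2)
  have h3D := (HP_V (κ := κ) hm hz hA1 (hL z hz)).add (HP_V (κ := κ) hm hz hB1 (HP_im z))
  have h3R := (HP_V (κ := κ) hm hz (ha0 (tau κ m z)) (hLr z hz)).add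
    (HP_V (κ := κ) hm hz (hb0 (tau κ m z)) (HP_re z))
  obtain ⟨d1, d2⟩ := h2D.unique (h3D.congr_ev (by
      filter_upwards [hne z hz] with w' hw' using (h1 w' hw').1))
  obtain ⟨r1, r2⟩ := h2R.unique (h3R.congr_ev (by
      filter_upwards [hne z hz] with w' hw' using (h1 w' hw').2))
  obtain ⟨f1, f2⟩ := h1 z hz
  have ED1 := Euler_V (κ := κ) (β := 2 * κ * a1 (tau κ m z) + a0 (tau κ m z) / 2)
    (β' := 2 * κ * a2 (tau κ m z) + a1 (tau κ m z) / 2) hz (euler_LL c p q A B z)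
  have ED2 := Euler_V (κ := κ) (β := 2 * κ * b1 (tau κ m z) + b0 (tau κ m z) / 2)
    (β' := 2 * κ * b2 (tau κ m z) + b1 (tau κ m z) / 2) (M := z.im) (Mx := 0) (My := 1) hz (by ring)
  have ER1 := Euler_V (κ := κ) (β := a0 (tau κ m z)) (β' := a1 (tau κ m z))
    (M := z.re * LLy c p q A B z - z.im * LLx c p q A B z)
    (Mx := LLy c p q A B z - kr c p q A B z * z.im * (z.re ^ 2 + z.im ^ 2))
    (My := -LLx c p q A B z + kr c p q A B z * z.re * (z.re ^ 2 + z.im ^ 2)) hz (by ring)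
  have ER2 := Euler_V (κ := κ) (β := b0 (tau κ m z)) (β' := b1 (tau κ m z)) (M := z.re)
    (Mx := 1) (My := 0) hz (by ring)
  have RD1 := Rot_V (κ := κ) (β := 2 * κ * a1 (tau κ m z) + a0 (tau κ m z) / 2)
    (β' := 2 * κ * a2 (tau κ m z) + a1 (tau κ m z) / 2) (M := LL c p q A B z)
    (Mx := LLx c p q A B z) (My := LLy c p q A B z) (z := z)
  have RD2 := Rot_V (κ := κ) (β := 2 * κ * b1 (tau κ m z) + b0 (tau κ m z) / 2)
    (β' := 2 * κ * b2 (tau κ m z) + b1 (tau κ m z) / 2) (M := z.im) (Mx := 0) (My := 1) (z := z)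
  have RR1 := Rot_V (κ := κ) (β := a0 (tau κ m z)) (β' := a1 (tau κ m z))
    (M := z.re * LLy c p q A B z - z.im * LLx c p q A B z)
    (Mx := LLy c p q A B z - kr c p q A B z * z.im * (z.re ^ 2 + z.im ^ 2))
    (My := -LLx c p q A B z + kr c p q A B z * z.re * (z.re ^ 2 + z.im ^ 2)) (z := z)
  have RR2 := Rot_V (κ := κ) (β := b0 (tau κ m z)) (β' := b1 (tau κ m z)) (M := z.re)
    (Mx := 1) (My := 0) (z := z)
  have hE := euler_LL c p q A B z
  clear h1 h2D h2R h3D h3R hL hLr hu H Hx Hy ha0 ha1 hb0 hb1 hne hA1 hB1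
  constructor
  · linear_combination z.re * d1 + z.im * d2 - (z.re * r2 - z.im * r1) + ED1 + ED2 - RR1 - RR2 - f1
      + rh z * a0 (tau κ m z) * hE
  · linear_combination z.re * r1 + z.im * r2 + (z.re * d2 - z.im * d1) + ER1 + ER2 + RD1 + RD2 - f2

end Pool.Agent.H120R3.Ca
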