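import Mathlib
import Pool.Agent.H120R3.CaQ
import Pool.Agent.H120R3.CaAlg
import Pool.Agent.H120R3.CaProf

set_option autoImplicit false

/-!
Parameters, the function, and the termwise formula.
-/

namespace Pool.Agent.H120R3.Ca

open Real Filter Topology Set
open Pool.Agent.H120R3.Lw (HP ri nsq_pos ri_sq si_sq ssq_pos Prof prof pa pb eta pa_isProf pb_isProf
  gg al al_der gg_pos gg_succ_le gg_succ dd pp qq AA BB dd_pos dd_le dd_sq_le AA_pos BB_pos AA_le BB_le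
  AA_ge BB_ge si_le ri_pos si si_pos Xz Yz Un Vn sg En Wn LL_norm DD_norm KR_norm ph dp kp LL LLx LLy kr
  ee circXY summable_gauss)
open scoped ContDiff

noncomputable def mm (μ : ℝ) (N n : ℕ) : ℝ := 4 * exp (4 * μ * ((n:ℝ) - N + 6))

noncomputable def tn (μ : ℝ) (N n : ℕ) (z : ℂ) : ℝ := tau (1 / (4 * μ)) (mm μ N n) z

lemma mm_pos (μ : ℝ) (N n : ℕ) : 0 < mm μ N n := by unfold mm; positivity

lemma tn_eq {μ : ℝ} (hμ : 0 < μ) (N n : ℕ) {z : ℂ} (hz : z ≠ 0) :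
    tn μ N n z = (6 + 1 / (4 * μ) * Real.log (4 * (z.re ^ 2 + z.im ^ 2))) + ((n:ℝ) - N) := by
  have h := nsq_pos hz
  unfold tn tau mm
  have e : 4 * exp (4 * μ * ((n:ℝ) - N + 6)) * (z.re ^ 2 + z.im ^ 2) =
      exp (4 * μ * ((n:ℝ) - N + 6)) * (4 * (z.re ^ 2 + z.im ^ 2)) := by ring
  rw [e, Real.log_mul (exp_pos _).ne' (by positivity), Real.log_exp]
  field_simp
  ring

lemma ri_of_tn {μ : ℝ} (hμ : 0 < μ) (hμ' : 4 * μ ≤ 1) {N n : ℕ} {z : ℂ} (h : 0 < tn μ N n z) :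
    z ≠ 0 ∧ ri z ≤ 2 * exp 7 ^ (n + 1) := by
  have h0 : z ≠ 0 := by
    rintro rfl
    exact absurd (tau_nonpos_zero _ _) (not_le.2 h)
  refine ⟨h0, ?_⟩
  have hn := nsq_pos h0
  unfold tn tau at h
  have hm := mm_pos μ N n
  have h1 : 0 < Real.log (mm μ N n * (z.re ^ 2 + z.im ^ 2)) := by
    by_contra h2
    push Not at h2
    have : 1 / (4 * μ) * Real.log (mm μ N n * (z.re ^ 2 + z.im ^ 2)) ≤ 0 :=
      mul_nonpos_of_nonneg_of_nonpos (by positivity) h2
    linarith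
  rw [Real.log_pos_iff (by positivity)] at h1
  have hr := ri_sq h0
  have hrp := ri_pos h0
  have h2 : ri z ^ 2 ≤ mm μ N n := by
    by_contra h3
    push Not at h3
    have h4 : mm μ N n * (z.re ^ 2 + z.im ^ 2) < ri z ^ 2 * (z.re ^ 2 + z.im ^ 2) :=
      mul_lt_mul_of_pos_right h3 hn
    linarith
  have h3 : mm μ N n ≤ (2 * exp 7 ^ (n + 1)) ^ 2 := by
    unfold mm
    have e : (2 * exp 7 ^ (n + 1)) ^ 2 = 4 * exp (14 * ((n:ℝ) + 1)) := by
      rw [mul_pow, ← Real.exp_nat_mul, ← Real.exp_nat_mul]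
      norm_num
      ring_nf
    rw [e]
    have : exp (4 * μ * ((n:ℝ) - N + 6)) ≤ exp (14 * ((n:ℝ) + 1)) := by
      apply Real.exp_le_exp.2
      have hN : (0:ℝ) ≤ N := Nat.cast_nonneg N
      have hn0 : (0:ℝ) ≤ n := Nat.cast_nonneg n
      nlinarith
    linarith
  exact le_of_sq_le_sq₀ (h2.trans h3) (by positivity)
where
  le_of_sq_le_sq₀ {a b : ℝ} (h : a ^ 2 ≤ b ^ 2) (hb : 0 ≤ b) : a ≤ b := by
    exact (le_abs_self a).trans (abs_le_of_sq_le_sq h hb)

lemma base_ge {k : ℝ} (hk : 0 < k) (hk' : k ≤ 1 / 2) : 1 ≤ 8 * exp 7 / k := by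
  rw [le_div_iff₀ hk]
  have := Real.add_one_le_exp (7:ℝ)
  linarith

noncomputable def KK (k : ℝ) (n : ℕ) : ℝ := (8 * exp 7 / k) ^ (n + 1)

lemma KK_ge {k : ℝ} (hk : 0 < k) (hk' : k ≤ 1 / 2) (n : ℕ) : 1 ≤ KK k n :=
  one_le_pow₀ (base_ge hk hk')

lemma le_KK {k : ℝ} (hk : 0 < k) (hk' : k ≤ 1 / 2) (n : ℕ) : 2 * exp 7 ^ (n + 1) / dd k n ≤ KK k n := by
  unfold KK dd
  rw [div_pow, mul_pow]
  have h1 : k ^ (n + 1) ≤ k := by
    have : k ^ (n + 1) ≤ k ^ 1 := pow_le_pow_of_le_one hk.le (by linarith) (by omega)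
    simpa using this
  have h2 : (2:ℝ) * 4 ^ n ≤ 8 ^ (n + 1) := by
    have : (4:ℝ) ^ n ≤ 8 ^ n := pow_le_pow_left₀ (by norm_num) (by norm_num) n
    rw [pow_succ]
    have : (0:ℝ) < 8 ^ n := by positivity
    linarith
  have h3 : 0 < exp 7 ^ (n + 1) := by positivity
  calc 2 * exp 7 ^ (n + 1) / (k / 4 ^ n) = (2 * 4 ^ n * exp 7 ^ (n + 1)) / k := by field_simp
    _ ≤ (8 ^ (n + 1) * exp 7 ^ (n + 1)) / k := by gcongr
    _ ≤ (8 ^ (n + 1) * exp 7 ^ (n + 1)) / k ^ (n + 1) := by gcongr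

/-- the parameters -/
noncomputable def par (k μ : ℝ) (N : ℕ) (hk : 0 < k) (hk' : k ≤ 1 / 2) (hμ : 0 < μ) (hμ' : 4 * μ ≤ 1) :
    Par where
  κ := 1 / (4 * μ)
  m := mm μ N
  A := AA k
  B := BB k
  K := KK k
  κ_pos := by positivity
  m_pos := mm_pos μ N
  A_pos := AA_pos hk
  B_pos := BB_pos hk
  A_le := AA_le hk hk'
  B_le := BB_le hk hk'
  K_ge := KK_ge hk hk'
  hr := by
    intro n z h
    obtain ⟨h0, h1⟩ := ri_of_tn hμ hμ' h
    have hd := dd_pos hk n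
    have hd1 := dd_le hk hk' n
    have h2 : ri z ≤ KK k n := by
      refine h1.trans (le_trans ?_ (le_KK hk hk' n))
      rw [le_div_iff₀ hd]
      have : 0 < 2 * exp 7 ^ (n + 1) := by positivity
      nlinarith
    have hK := KK_ge hk hk' n
    rw [← rh_sq] at h2
    by_contra h3
    push Not at h3
    have := rh_pos h0
    nlinarith
  hs := by
    intro n z h
    obtain ⟨h0, h1⟩ := ri_of_tn hμ hμ' h
    refine (si_le (dd_pos hk n) (AA_ge hk hk' n) (BB_ge hk hk' n) h0).trans ?_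
    refine le_trans ?_ (le_KK hk hk' n)
    have := dd_pos hk n
    gcongr

lemma Om_gg {k μ : ℝ} {N : ℕ} (hk : 0 < k) (hk' : k ≤ 1 / 2) (hμ : 0 < μ) (hμ' : 4 * μ ≤ 1) :
    Om (par k μ N hk hk' hμ hμ') gg := by
  intro m
  have h := summable_gauss ((8 * exp 7 / k) ^ m) (one_le_pow₀ (base_ge hk hk'))
  refine h.congr ?_
  intro n
  show _ = |gg n| * (KK k n) ^ m
  rw [abs_of_pos (gg_pos n)]
  unfold KK
  rw [← pow_mul, ← pow_mul, mul_comm m (n + 1)]

lemma Om_gg' {k μ : ℝ} {N : ℕ} (hk : 0 < k) (hk' : k ≤ 1 / 2) (hμ : 0 < μ) (hμ' : 4 * μ ≤ 1) :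
    Om (par k μ N hk hk' hμ hμ') (fun n => gg (n + 1)) := by
  intro m
  refine Summable.of_nonneg_of_le (fun n => ?_) (fun n => ?_) (Om_gg (N := N) hk hk' hμ hμ' m)
  · have := (par k μ N hk hk' hμ hμ').K_ge n
    positivity
  · have h1 := (par k μ N hk hk' hμ hμ').K_ge n
    have h2 := gg_pos n
    have h3 := gg_pos (n + 1)
    have h4 := gg_succ_le n
    rw [abs_of_pos h2, abs_of_pos h3]
    gcongr
    linarith

lemma Om_single {P : Par} (N : ℕ) : Om P (fun n => if n = N then 1 else 0) := by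
  intro m
  apply summable_of_ne_finset_zero (s := {N})
  intro n hn
  have : n ≠ N := by simpa using hn
  simp [this]

/-- shifted cutoff -/
noncomputable def chi (N n l : ℕ) (t : ℝ) : ℝ := deriv^[l] ct (t - (((n:ℝ) - N) + 1))

lemma chi_isCProf (N : ℕ) : CProf (chi N) := by
  constructor
  · intro n l t
    have hsm : ∀ l, ContDiff ℝ ∞ (deriv^[l] ct) := fun l => ct_contDiff.iterate_deriv l
    have h1 : HasDerivAt (deriv^[l] ct) (deriv^[l + 1] ct (t - (((n:ℝ) - N) + 1))) (t - (((n:ℝ) - N) + 1)) := by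
      rw [Function.iterate_succ_apply']
      exact ((hsm l).differentiable (by simp) _).hasDerivAt
    exact h1.comp_sub_const t _
  · intro l
    obtain ⟨C, hC⟩ := ct_iter_bdd l
    exact ⟨C, fun n t => hC _⟩

noncomputable def onep (_n l : ℕ) (_t : ℝ) : ℝ := if l = 0 then 1 else 0

lemma onep_isCProf : CProf onep := by
  constructor
  · intro n l t
    have e : onep n l = fun _ => (if l = 0 then (1:ℝ) else 0) := rfl
    have e2 : onep n (l + 1) t = 0 := by unfold onep; simp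
    rw [e, e2]
    exact hasDerivAt_const t _
  · intro l
    refine ⟨1, fun n t => ?_⟩
    unfold onep
    split_ifs <;> simp

noncomputable def cn (c : ℝ) (N n : ℕ) : ℝ := if n = N then 0 else c

section
variable (μ : ℝ) (N : ℕ)

noncomputable def A0 (n : ℕ) (t : ℝ) : ℝ :=
  if n < N then 0 else if n = N then PP μ (q0 N) t else chi N n 0 t * al n 0 t
noncomputable def A1 (n : ℕ) (t : ℝ) : ℝ :=
  if n < N then 0 else if n = N then deriv (PP μ (q0 N)) t else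
    chi N n 1 t * al n 0 t + chi N n 0 t * al n 1 t
noncomputable def A2 (n : ℕ) (t : ℝ) : ℝ :=
  if n < N then 0 else if n = N then deriv (deriv (PP μ (q0 N))) t else
    (chi N n 2 t * al n 0 t + chi N n 1 t * al n 1 t) + (chi N n 1 t * al n 1 t + chi N n 0 t * al n 2 t)
noncomputable def B0 (n : ℕ) (t : ℝ) : ℝ := if n = N then PP μ (q1 N) t else 0
noncomputable def B1 (n : ℕ) (t : ℝ) : ℝ := if n = N then deriv (PP μ (q1 N)) t else 0
noncomputable def B2 (n : ℕ) (t : ℝ) : ℝ := if n = N then deriv (deriv (PP μ (q1 N))) t else 0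

end

lemma hasDerivAt_sm {F : ℝ → ℝ} (hF : ContDiff ℝ ∞ F) (t : ℝ) : HasDerivAt F (deriv F t) t :=
  (hF.differentiable (by simp) t).hasDerivAt

lemma deriv_sm {F : ℝ → ℝ} (hF : ContDiff ℝ ∞ F) : ContDiff ℝ ∞ (deriv F) :=
  (contDiff_infty_iff_deriv.1 hF).2

lemma A0_der (μ : ℝ) (N n : ℕ) (t : ℝ) : HasDerivAt (A0 μ N n) (A1 μ N n t) t := by
  unfold A0 A1
  by_cases h1 : n < N
  · simp only [h1, if_true]
    exact hasDerivAt_const t _
  · by_cases h2 : n = N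
    · simp only [h2, if_false, if_true, lt_irrefl]
      exact hasDerivAt_sm (PP_contDiff μ (q0_contDiff N)) t
    · simp only [h1, h2, if_false]
      exact ((chi_isCProf N).der n 0 t).mul (al_der n 0 t)

lemma A1_der (μ : ℝ) (N n : ℕ) (t : ℝ) : HasDerivAt (A1 μ N n) (A2 μ N n t) t := by
  unfold A1 A2
  by_cases h1 : n < N
  · simp only [h1, if_true]
    exact hasDerivAt_const t _
  · by_cases h2 : n = N
    · simp only [h2, if_false, if_true, lt_irrefl]
      exact hasDerivAt_sm (deriv_sm (PP_contDiff μ (q0_contDiff N))) t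
    · simp only [h1, h2, if_false]
      exact (((chi_isCProf N).der n 1 t).mul (al_der n 0 t)).add
        (((chi_isCProf N).der n 0 t).mul (al_der n 1 t))

lemma B0_der (μ : ℝ) (N n : ℕ) (t : ℝ) : HasDerivAt (B0 μ N n) (B1 μ N n t) t := by
  unfold B0 B1
  by_cases h2 : n = N
  · simp only [h2, if_true]
    exact hasDerivAt_sm (PP_contDiff μ (q1_contDiff N)) t
  · simp only [h2, if_false]
    exact hasDerivAt_const t _

lemma B1_der (μ : ℝ) (N n : ℕ) (t : ℝ) : HasDerivAt (B1 μ N n) (B2 μ N n t) t := by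
  unfold B1 B2
  by_cases h2 : n = N
  · simp only [h2, if_true]
    exact hasDerivAt_sm (deriv_sm (PP_contDiff μ (q1_contDiff N))) t
  · simp only [h2, if_false]
    exact hasDerivAt_const t _

/-- the terms of the counterexample -/
noncomputable def uu (c k μ : ℝ) (N n : ℕ) (z : ℂ) : ℝ :=
  rh z * (A0 μ N n (tn μ N n z) * LL (cn c N n) (pp n) (qq n) (AA k n) (BB k n) z)
    + rh z * (B0 μ N n (tn μ N n z) * z.im)

lemma Fam_uu {c k μ : ℝ} {N : ℕ} (hc : 0 ≤ c) (hc' : c ≤ 1 / 8) (hk : 0 < k) (hk' : k ≤ 1 / 2)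
    (hμ : 0 < μ) (hμ' : 4 * μ ≤ 1) : Fam (par k μ N hk hk' hμ hμ') (uu c k μ N) := by
  set P := par k μ N hk hk' hμ hμ' with hP
  have hP0 := PP_isProf μ (q0_contDiff N) (fun t ht => q0_nonpos N ht)
  have hP1 := PP_isProf μ (q1_contDiff N) (fun t ht => q1_zero N (by linarith))
  have hind : ∀ n : ℕ, |(if N < n then (1:ℝ) else 0)| ≤ 1 := by intro n; split_ifs <;> simp
  have hb1 : Fam P (T P (fun n => (if N < n then (1:ℝ) else 0) * gg n) 0 0 0 0 (prof pa) 0 (chi N) 0) :=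
    Fam.basic _ _ _ _ _ _ _ _ _ ((Om_gg hk hk' hμ hμ').bmul hind) pa_isProf (chi_isCProf N)
  have hb2 : Fam P (T P (fun n => (if N < n then (1:ℝ) else 0) * gg (n + 1)) 0 0 0 0 (prof pb) 0 (chi N) 0) :=
    Fam.basic _ _ _ _ _ _ _ _ _ ((Om_gg' hk hk' hμ hμ').bmul hind) pb_isProf (chi_isCProf N)
  have hb3 : Fam P (T P (fun n => if n = N then 1 else 0) 0 0 0 0 (fun l => deriv^[l] (PP μ (q0 N))) 0 onep 0) :=
    Fam.basic _ _ _ _ _ _ _ _ _ (Om_single N) hP0 onep_isCProf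
  have hb4 : Fam P (T P (fun n => if n = N then 1 else 0) 0 0 0 0 (fun l => deriv^[l] (PP μ (q1 N))) 0 onep 0) :=
    Fam.basic _ _ _ _ _ _ _ _ _ (Om_single N) hP1 onep_isCProf
  have hb' := Fam.add _ _ (Fam.add _ _ hb1 hb2) hb3
  have hb : Fam P (fun n z => A0 μ N n (tn μ N n z)) := by
    convert hb' using 1
    funext n z
    have eτ : tau P.κ (P.m n) z = tn μ N n z := rfl
    unfold T A0
    rw [eτ]
    generalize tn μ N n z = t
    rcases lt_trichotomy n N with h | h | h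
    · have h2 : ¬ N < n := by omega
      have h3 : ¬ n = N := by omega
      simp [h, h2, h3]
    · subst h
      simp [onep]
    · have h2 : ¬ n < N := by omega
      have h3 : ¬ n = N := by omega
      simp only [h, h2, h3, if_true, if_false]
      unfold al
      ring
  have hbB : Fam P (fun n z => B0 μ N n (tn μ N n z)) := by
    convert hb4 using 1
    funext n z
    have eτ : tau P.κ (P.m n) z = tn μ N n z := rfl
    unfold T B0
    rw [eτ]
    generalize tn μ N n z = t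
    by_cases h : n = N
    · simp [h, onep]
    · simp [h]
  have hpp : ∀ n, |pp n| ≤ 1 := by intro n; unfold pp; split_ifs <;> simp
  have hqq : ∀ n, |qq n| ≤ 1 := by intro n; unfold qq; split_ifs <;> simp
  have hcn : ∀ n, |cn c N n| ≤ 1 := by
    intro n; unfold cn; split_ifs
    · simp
    · rw [abs_of_nonneg hc]; linarith
  have hAA : ∀ n, |P.A n| ≤ 1 := fun n => by rw [abs_of_pos (P.A_pos n)]; exact P.A_le n
  have hBB : ∀ n, |P.B n| ≤ 1 := fun n => by rw [abs_of_pos (P.B_pos n)]; exact P.B_le n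
  have h1 := (hb.mulx).smul hpp
  have h2 := (hb.muly).smul hqq
  have hS := (hb.mulri).mulsi
  have hE := Fam.add _ _ ((hS.mulx.mulx).smul hAA) ((hS.muly.muly).smul hBB)
  have h3 := (Fam.add _ _ ((hE.muly).smul hpp) ((hE.mulx).smul hqq)).smul hcn
  have h4 := ((Fam.add _ _ ((hb.muly).smul hpp) ((hb.mulx).smul hqq)).smul hcn).cmul (-1)
  have h5 := (Fam.add _ _ (Fam.add _ _ h1 h2) (Fam.add _ _ h3 h4)).mulrh
  have h6 := (hbB.muly).mulrh
  have h7 := Fam.add _ _ h5 h6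
  convert h7 using 1
  funext n z
  have eA : P.A n = AA k n := rfl
  have eB : P.B n = BB k n := rfl
  rw [eA, eB]
  unfold uu LL ee
  ring

/-- normalized quantities -/
noncomputable def Rn (c k μ : ℝ) (N n : ℕ) (z : ℂ) : ℝ :=
  A2 μ N n (tn μ N n z) * ph (cn c N n) (Un n z) (Vn n z) (En k n z)
    + 3 * μ ^ 2 * (A0 μ N n (tn μ N n z) * ph (cn c N n) (Un n z) (Vn n z) (En k n z))
    - 4 * μ ^ 2 * (A0 μ N n (tn μ N n z) *
        kp (cn c N n) (1 - dd k n ^ 2) (Un n z) (Vn n z) (Wn k n z))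
    + (B2 μ N n (tn μ N n z) + 3 * μ ^ 2 * B0 μ N n (tn μ N n z)) * Yz z

noncomputable def Sn (c k μ : ℝ) (N n : ℕ) (z : ℂ) : ℝ :=
  A1 μ N n (tn μ N n z) *
    (sg n * dp (cn c N n) (1 - dd k n ^ 2) (Un n z) (Vn n z) (En k n z) (Wn k n z))
    + B1 μ N n (tn μ N n z) * Xz z

lemma term_eq {c k μ : ℝ} {N : ℕ} (hk : 0 < k) (hμ : 0 < μ) (n : ℕ)
    {ux uy uxx uxy uyx uyy : ℂ → ℝ}
    (H : ∀ z, HP (uu c k μ N n) (ux z) (uy z) z) (Hx : ∀ z, HP ux (uxx z) (uxy z) z)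
    (Hy : ∀ z, HP uy (uyx z) (uyy z) z) {z : ℂ} (hz : z ≠ 0) :
    Rn c k μ N n z = 4 * μ ^ 2 * rh z * ((z.re ^ 2 - z.im ^ 2) * (uxx z - uyy z)
      + 2 * z.re * z.im * (uxy z + uyx z) + (z.re * ux z + z.im * uy z)) ∧
    Sn c k μ N n z = μ * rh z * ((z.re ^ 2 - z.im ^ 2) * (uxy z + uyx z)
      - 2 * z.re * z.im * (uxx z - uyy z) + (z.re * uy z - z.im * ux z)) := by
  obtain ⟨h1, h2⟩ := second_order (κ := 1 / (4 * μ)) (mm_pos μ N n) (A0_der μ N n) (A1_der μ N n)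
    (B0_der μ N n) (B1_der μ N n) (cn c N n) (pp n) (qq n) (AA_pos hk n) (BB_pos hk n)
    (u := uu c k μ N n) (fun w _ => rfl) H Hx Hy hz
  rw [h1, h2]
  have hr := ri_sq hz
  have hrh := rh_sq z
  have e1 := LL_norm (cn c N n) k n z
  have e2 := DD_norm (cn c N n) hk n hz
  have e3 := KR_norm (cn c N n) k n hz
  have eτ : tau (1 / (4 * μ)) (mm μ N n) z = tn μ N n z := rfl
  rw [eτ, e3]
  unfold Rn Sn
  rw [← e1, ← e2]
  have eY : Yz z = z.im * ri z := rfl
  have eX : Xz z = z.re * ri z := rfl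
  rw [eX, eY]
  generalize A0 μ N n (tn μ N n z) = a0
  generalize A1 μ N n (tn μ N n z) = a1
  generalize A2 μ N n (tn μ N n z) = a2
  generalize B0 μ N n (tn μ N n z) = b0
  generalize B1 μ N n (tn μ N n z) = b1
  generalize B2 μ N n (tn μ N n z) = b2
  generalize LL (cn c N n) (pp n) (qq n) (AA k n) (BB k n) z = L
  generalize LLx (cn c N n) (pp n) (qq n) (AA k n) (BB k n) z = Lx
  generalize LLy (cn c N n) (pp n) (qq n) (AA k n) (BB k n) z = Ly
  generalize kp (cn c N n) (1 - dd k n ^ 2) (Un n z) (Vn n z) (Wn k n z) = K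
  rw [← hrh] at hr ⊢
  generalize rh z = h at *
  generalize z.re = x at *
  generalize z.im = y at *
  have hμ0 : μ ≠ 0 := hμ.ne'
  constructor
  · field_simp
    linear_combination (4 * μ ^ 2 * a0 * K * (h ^ 4 * (x ^ 2 + y ^ 2) + 1)) * hr
  · field_simp

end Pool.Agent.H120R3.Ca
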