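import Mathlib
import Pool.Agent.H120R3.CaPar

set_option autoImplicit false

/-!
Stage analysis.
-/

namespace Pool.Agent.H120R3.Ca

open Real Filter Topology Set
open Pool.Agent.H120R3.Lw (HP ri nsq_pos ri_sq si_sq ssq_pos Prof prof pa pb eta pa_isProf pb_isProf
  gg al al_der gg_pos gg_succ_le gg_succ dd pp qq AA BB dd_pos dd_le dd_sq_le AA_pos BB_pos AA_le BB_le
  AA_ge BB_ge si_le ri_pos si si_pos Xz Yz Un Vn sg En Wn LL_norm DD_norm KR_norm ph dp kp LL LLx LLy kr
  ee circXY summable_gauss al_nonneg al_zero al_one al_two al_one_zero al_two_zero Un_succ Vn_succ sg_succ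
  sg_sq UV_par profa_zero profb_nonneg profa_nonneg profa_pos prof_mono pa_contDiff pb_contDiff pa_nonneg
  pb_nonneg gg_geom exists_sigma window_neg pa_window pb_window pb_zero_right pa_zero_left
  deriv_pa_window deriv_pb_window deriv_pb_zero deriv_pa_zero pa_zero_right cos_eta_nonneg sin_eta_nonneg
  dwell_pos)
open scoped ContDiff

/-- constants -/
structure Cst (c k C H μ L L2 : ℝ) (N : ℕ) : Prop where
  cpos : 0 < c
  cle : c ≤ 1 / 8
  kpos : 0 < k
  kle : k ≤ 1 / 2
  Cpos : 0 < C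
  Hnn : 0 ≤ H
  ca : ∀ t, prof pa 0 t ≤ C
  cb : ∀ t, prof pb 0 t ≤ C
  ca2 : ∀ t, deriv pa t ≤ C
  cb2 : ∀ t, deriv pb t ≤ C
  hH : ∀ s, 0 ≤ s → s ≤ 1 / 4 → |deriv eta s| ≤ H
  small : c * (100 * (C + H + 1)) ≤ 1
  μpos : 0 < μ
  μc : 4 * μ ^ 2 ≤ c
  kc : C * k ≤ μ ^ 2 * (prof pa 0 1 * c)
  hL : ∀ t, |deriv smoothTransition t| ≤ L
  hL2 : ∀ t, |deriv^[2] ct t| ≤ L2
  μs : μ * (L + 1) * 1000000 ≤ 1
  Nev : Even N
  hN : gg (N + 1) * (C * (L + L2 + 1) * 10000) ≤ gg N

lemma Cst.L0 {c k C H μ L L2 : ℝ} {N : ℕ} (h : Cst c k C H μ L L2 N) : 0 ≤ L :=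
  (abs_nonneg _).trans (h.hL 0)
lemma Cst.μ1 {c k C H μ L L2 : ℝ} {N : ℕ} (h : Cst c k C H μ L L2 N) : μ ≤ 1 / 1000000 := by
  have h1 := h.μs
  have h2 := h.L0
  have h3 := h.μpos
  nlinarith

lemma cn_nonneg {c : ℝ} (hc : 0 ≤ c) (N n : ℕ) : 0 ≤ cn c N n := by
  unfold cn; split_ifs <;> linarith
lemma cn_le {c : ℝ} (hc : 0 ≤ c) (N n : ℕ) : cn c N n ≤ c := by
  unfold cn; split_ifs <;> linarith

lemma pt_n {c k : ℝ} (hc : 0 ≤ c) (hc' : c ≤ 1 / 8) (hk : 0 < k) (hk' : k ≤ 1 / 2) (n : ℕ) {z : ℂ}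
    (hz : z ≠ 0) : Pt c (dd k n) (Un n z) (Vn n z) (En k n z) (Wn k n z) := by
  have hr := ri_sq hz
  have hs := si_sq (AA_pos hk n) (BB_pos hk n) hz
  have hrp := ri_pos hz
  have hsp := si_pos (AA_pos hk n) (BB_pos hk n) hz
  have hssq := ssq_pos (AA_pos hk n) (BB_pos hk n) hz
  refine ⟨hc, hc', dd_pos hk n, dd_le hk hk' n, ?_, ?_, ?_, ?_⟩
  · have := circXY hz
    unfold Un Vn
    split_ifs <;> linarith
  · unfold En ee
    positivity
  · have h1 : En k n z ^ 2 = (AA k n * z.re ^ 2 + BB k n * z.im ^ 2) * ri z ^ 2 := by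
      unfold En ee
      linear_combination ((AA k n * z.re ^ 2 + BB k n * z.im ^ 2) * ri z ^ 2) * hs
    rw [h1]
    unfold Un Vn AA BB Xz Yz
    split_ifs <;> ring
  · unfold En Wn ee
    field_simp
    linear_combination hs

lemma pt_cn {c k : ℝ} (hc : 0 ≤ c) (hc' : c ≤ 1 / 8) (hk : 0 < k) (hk' : k ≤ 1 / 2) (N n : ℕ) {z : ℂ}
    (hz : z ≠ 0) : Pt (cn c N n) (dd k n) (Un n z) (Vn n z) (En k n z) (Wn k n z) :=
  pt_n (cn_nonneg hc N n) ((cn_le hc N n).trans hc') hk hk' n hz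

lemma ct_iter_left (l : ℕ) {x : ℝ} (hx : x < 0) : deriv^[l + 1] ct x = 0 := by
  induction l generalizing x with
  | zero =>
    show deriv ct x = 0
    have : ct =ᶠ[𝓝 x] fun _ => (1:ℝ) := by
      filter_upwards [Iio_mem_nhds hx] with y hy using ct_one (le_of_lt hy)
    rw [this.deriv_eq, deriv_const]
  | succ l ih =>
    rw [Function.iterate_succ_apply']
    have : deriv^[l + 1] ct =ᶠ[𝓝 x] fun _ => (0:ℝ) := by
      filter_upwards [Iio_mem_nhds hx] with y hy using ih hy
    rw [this.deriv_eq, deriv_const]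

lemma ct_iter_right (l : ℕ) {x : ℝ} (hx : 1 < x) : deriv^[l] ct x = 0 := by
  induction l generalizing x with
  | zero => exact ct_zero hx.le
  | succ l ih =>
    rw [Function.iterate_succ_apply']
    have : deriv^[l] ct =ᶠ[𝓝 x] fun _ => (0:ℝ) := by
      filter_upwards [Ioi_mem_nhds hx] with y hy using ih hy
    rw [this.deriv_eq, deriv_const]

/-- the combined profiles before time `0` -/
lemma early_AB {μ : ℝ} {N n : ℕ} {t : ℝ} (ht : t < ((n:ℝ) - N) + 1) :
    A0 μ N n t = al n 0 t * (if n < N then 0 else 1) ∧ A1 μ N n t = al n 1 t * (if n < N then 0 else 1) ∧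
    A2 μ N n t = al n 2 t * (if n < N then 0 else 1) ∧ B0 μ N n t = 0 ∧ B1 μ N n t = 0 ∧ B2 μ N n t = 0 := by
  have hB : B0 μ N n t = 0 ∧ B1 μ N n t = 0 ∧ B2 μ N n t = 0 := by
    unfold B0 B1 B2
    by_cases h : n = N
    · subst h
      simp only [if_true]
      have h1 : t < 2 := by linarith
      have e0 : ∀ x, x < 2 → PP μ (q1 n) x = 0 := fun x hx => PP1_early μ n hx.le
      have e1 : ∀ x, x < 2 → deriv (PP μ (q1 n)) x = 0 := by
        intro x hx
        have : PP μ (q1 n) =ᶠ[𝓝 x] fun _ => (0:ℝ) := by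
          filter_upwards [Iio_mem_nhds hx] with y hy using e0 y hy
        rw [this.deriv_eq, deriv_const]
      have e2 : deriv (deriv (PP μ (q1 n))) t = 0 := by
        have : deriv (PP μ (q1 n)) =ᶠ[𝓝 t] fun _ => (0:ℝ) := by
          filter_upwards [Iio_mem_nhds h1] with y hy using e1 y hy
        rw [this.deriv_eq, deriv_const]
      exact ⟨e0 t h1, e1 t h1, e2⟩
    · simp [h]
  refine ⟨?_, ?_, ?_, hB⟩
  all_goals
    rcases lt_trichotomy n N with h | h | h
    · simp [A0, A1, A2, h]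
    · subst h
      have h1 : t < 1 := by linarith
      obtain ⟨p0, p1, p2⟩ := PP_early μ n h1
      simp [A0, A1, A2, p0, p1, p2]
    · have h2 : ¬ n < N := by omega
      have h3 : ¬ n = N := by omega
      have hx : t - (((n:ℝ) - N) + 1) < 0 := by linarith
      have c0 : chi N n 0 t = 1 := ct_one hx.le
      have c1 : chi N n 1 t = 0 := ct_iter_left 0 hx
      have c2 : chi N n 2 t = 0 := ct_iter_left 1 hx
      simp only [A0, A1, A2, h2, h3, if_false, c0, c1, c2]
      ring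

/-- stage hypotheses -/
structure Stg (μ : ℝ) (N M : ℕ) (s : ℝ) (z : ℂ) : Prop where
  hz : z ≠ 0
  hNM : N ≤ M
  hs0 : 0 ≤ s
  hs1 : s < 1
  hst : ∀ n : ℕ, tn μ N n z = s + ((n : ℝ) - M)

lemma Stg.AB {μ : ℝ} {N M : ℕ} {s : ℝ} {z : ℂ} (h : Stg μ N M s z) (n : ℕ) :
    A0 μ N n (tn μ N n z) = al n 0 (tn μ N n z) ∧ A1 μ N n (tn μ N n z) = al n 1 (tn μ N n z) ∧
    A2 μ N n (tn μ N n z) = al n 2 (tn μ N n z) ∧ B0 μ N n (tn μ N n z) = 0 ∧
    B1 μ N n (tn μ N n z) = 0 ∧ B2 μ N n (tn μ N n z) = 0 := by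
  have hNM : (N:ℝ) ≤ M := by exact_mod_cast h.hNM
  have ht : tn μ N n z < ((n:ℝ) - N) + 1 := by rw [h.hst n]; linarith [h.hs1]
  obtain ⟨h0, h1, h2, h3⟩ := early_AB (μ := μ) ht
  rw [h0, h1, h2]
  by_cases hn : n < N
  · have h4 : (n:ℝ) + 1 ≤ N := by exact_mod_cast hn
    have h5 : tn μ N n z ≤ 0 := by rw [h.hst n]; linarith [h.hs1]
    rw [al_zero n 0 h5, al_zero n 1 h5, al_zero n 2 h5]
    simp [h3]
  · simp [hn, h3]

lemma Stg.M {μ : ℝ} {N M : ℕ} {s : ℝ} {z : ℂ} (h : Stg μ N M s z) :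
    tn μ N M z = s ∧ tn μ N (M + 1) z = 1 + s := by
  constructor
  · rw [h.hst M]; ring
  · rw [h.hst (M + 1)]; push_cast; ring

lemma Stg.R_eq {c k μ : ℝ} {N M : ℕ} {s : ℝ} {z : ℂ} (h : Stg μ N M s z) (n : ℕ) :
    Rn c k μ N n z = al n 2 (tn μ N n z) * ph (cn c N n) (Un n z) (Vn n z) (En k n z)
      + al n 0 (tn μ N n z) * (3 * μ ^ 2 * ph (cn c N n) (Un n z) (Vn n z) (En k n z)
      - 4 * μ ^ 2 * kp (cn c N n) (1 - dd k n ^ 2) (Un n z) (Vn n z) (Wn k n z)) := by
  obtain ⟨h0, h1, h2, h3, h4, h5⟩ := h.AB n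
  unfold Rn
  rw [h0, h2, h3, h5]
  ring

lemma Stg.S_eq {c k μ : ℝ} {N M : ℕ} {s : ℝ} {z : ℂ} (h : Stg μ N M s z) (n : ℕ) :
    Sn c k μ N n z = al n 1 (tn μ N n z) *
      (sg n * dp (cn c N n) (1 - dd k n ^ 2) (Un n z) (Vn n z) (En k n z) (Wn k n z)) := by
  obtain ⟨h0, h1, h2, h3, h4, h5⟩ := h.AB n
  unfold Sn
  rw [h1, h4]
  ring

lemma kp_lower_sigma {c d X Y E W σ : ℝ} (h : Pt c d X Y E W) (hσ : σ = 1 ∨ σ = -1) (hY : 0 ≤ σ * Y) :
    -(3 * c) ≤ σ * kp c (1 - d ^ 2) X Y W := by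
  rcases hσ with rfl | rfl
  · rw [one_mul] at *
    exact kp_lower h hY
  · have h2 := kp_lower h.neg (by linarith)
    rw [kp_neg] at h2
    linarith

/-- `S` at a stage -/
lemma S_stage {c k μ : ℝ} {N M : ℕ} {s : ℝ} {z : ℂ} (h : Stg μ N M s z) {S : ℝ}
    (hS : HasSum (fun n => Sn c k μ N n z) S) :
    S = Sn c k μ N M z + Sn c k μ N (M + 1) z := by
  have h' : HasSum (fun n => Sn c k μ N n z) (∑ n ∈ ({M, M + 1} : Finset ℕ), Sn c k μ N n z) := by
    apply hasSum_sum_of_ne_finset_zero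
    intro n hn
    simp only [Finset.mem_insert, Finset.mem_singleton, not_or] at hn
    have h1 := h.hst n
    rw [h.S_eq n]
    have hs1 := h.hs1
    have hs0 := h.hs0
    rcases lt_or_gt_of_ne hn.1 with h2 | h2
    · have : (n : ℝ) + 1 ≤ M := by exact_mod_cast h2
      rw [al_zero n 1 (by linarith), zero_mul]
    · have : (M : ℝ) + 2 ≤ n := by
        have : M + 2 ≤ n := by omega
        exact_mod_cast this
      rw [al_one_zero n (by linarith), zero_mul]
  have h2 := hS.unique h'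
  rw [h2, Finset.sum_pair (by omega)]

lemma al_le {c k C H μ L L2 : ℝ} {N : ℕ} (hc : Cst c k C H μ L L2 N) (n : ℕ) (t : ℝ) :
    al n 0 t ≤ 2 * C * gg n := by
  unfold al
  have h1 := gg_pos n
  have h2 := gg_pos (n + 1)
  have h3 := mul_le_mul_of_nonneg_left (hc.ca t) h1.le
  have h4 := mul_le_mul_of_nonneg_left (hc.cb t) h2.le
  have h5 : gg (n + 1) * C ≤ gg n * C := by
    apply mul_le_mul_of_nonneg_right _ hc.Cpos.le
    have := gg_succ_le n
    linarith
  linarith

/-- geometric series helper -/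
lemma geom_from (M : ℕ) (D : ℝ) :
    HasSum (fun n : ℕ => if n < M then 0 else D * (1 / 2 : ℝ) ^ (n - M)) (2 * D) := by
  rw [← hasSum_nat_add_iff' M]
  have h1 : ∑ i ∈ Finset.range M, (if i < M then 0 else D * (1 / 2 : ℝ) ^ (i - M)) = 0 := by
    apply Finset.sum_eq_zero
    intro i hi
    simp [Finset.mem_range.1 hi]
  rw [h1, sub_zero]
  have h2 : (fun n => (if n + M < M then 0 else D * (1 / 2 : ℝ) ^ (n + M - M))) =
      fun n => D * (1 / 2) ^ n := by
    funext n
    have : ¬ n + M < M := by omega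
    simp only [this, if_false, Nat.add_sub_cancel]
  rw [h2]
  have h3 := (hasSum_geometric_of_lt_one (r := (1/2:ℝ)) (by norm_num) (by norm_num)).mul_left D
  have h4 : (1 - 1 / 2 : ℝ)⁻¹ = 2 := by norm_num
  rw [h4] at h3
  rw [mul_comm]
  exact h3

/-- geometric bound for the amplitudes in the dwell phase -/
lemma al0_dwell {c k C H μ L L2 : ℝ} {N : ℕ} (hc : Cst c k C H μ L L2 N) {M : ℕ} {s : ℝ} {z : ℂ}
    (h : Stg μ N M s z) :
    ∃ b : ℕ → ℝ, (∀ n, al n 0 (tn μ N n z) ≤ b n) ∧ HasSum b (4 * C * gg M) := by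
  have hC := hc.Cpos
  refine ⟨fun n => if n < M then 0 else (2 * C * gg M) * (1 / 2) ^ (n - M), ?_, ?_⟩
  · intro n
    by_cases h1 : n < M
    · have : (n : ℝ) + 1 ≤ M := by exact_mod_cast h1
      rw [al_zero n 0 (by rw [h.hst n]; linarith [h.hs1])]
      simp [h1]
    · simp only [h1, if_false]
      obtain ⟨j, rfl⟩ : ∃ j, n = M + j := ⟨n - M, by omega⟩
      have h2 : M + j - M = j := by omega
      rw [h2]
      have h3 := gg_geom M j
      refine (al_le hc _ _).trans ?_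
      calc 2 * C * gg (M + j) ≤ 2 * C * (gg M * (1 / 2) ^ j) := by gcongr
        _ = _ := by ring
  · have := geom_from M (2 * C * gg M)
    have e : 2 * (2 * C * gg M) = 4 * C * gg M := by ring
    rw [e] at this
    exact this

/-- geometric bound for the amplitudes in the window -/
lemma al0_bound {c k C H μ L L2 : ℝ} {N : ℕ} (hc : Cst c k C H μ L L2 N) {M : ℕ} {s : ℝ} {z : ℂ}
    (h : Stg μ N M s z) (hs1 : s ≤ 1 / 4) :
    ∃ b : ℕ → ℝ, (∀ n, al n 0 (tn μ N n z) ≤ b n) ∧ HasSum b (8 * C * gg (M + 1)) := by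
  have hC := hc.Cpos
  refine ⟨fun n => if n < M then 0 else (4 * C * gg (M + 1)) * (1 / 2) ^ (n - M), ?_, ?_⟩
  · intro n
    have hgM := gg_pos (M + 1)
    rcases lt_trichotomy n M with h1 | h1 | h1
    · have : (n : ℝ) + 1 ≤ M := by exact_mod_cast h1
      rw [al_zero n 0 (by rw [h.hst n]; linarith)]
      simp [h1]
    · subst h1
      have h2 : tn μ N n z = s := by rw [h.hst n]; ring
      rw [h2]
      have h3 : al n 0 s ≤ C * gg (n + 1) := by
        unfold al
        rw [profa_zero hs1]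
        have := hc.cb s
        have h4 := mul_le_mul_of_nonneg_left this hgM.le
        linarith
      simp only [lt_irrefl, if_false, Nat.sub_self, pow_zero, mul_one]
      have : 0 ≤ C * gg (n + 1) := by positivity
      linarith
    · have hn : ¬ n < M := by omega
      simp only [hn, if_false]
      obtain ⟨j, rfl⟩ : ∃ j, n = M + 1 + j := ⟨n - (M + 1), by omega⟩
      have h2 : M + 1 + j - M = j + 1 := by omega
      rw [h2]
      have h3 := gg_geom (M + 1) j
      refine (al_le hc _ _).trans ?_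
      calc 2 * C * gg (M + 1 + j) ≤ 2 * C * (gg (M + 1) * (1 / 2) ^ j) := by gcongr
        _ = _ := by rw [pow_succ]; ring
  · have := geom_from M (4 * C * gg (M + 1))
    have e : 2 * (4 * C * gg (M + 1)) = 8 * C * gg (M + 1) := by ring
    rw [e] at this
    exact this

/-- dwell: sign of `R` on the axis. -/
lemma dwell_R {c k C H μ L L2 : ℝ} {N : ℕ} (hc : Cst c k C H μ L L2 N) {M : ℕ} {s : ℝ} {z : ℂ}
    (h : Stg μ N M s z) (hs0 : 1 / 4 ≤ s) {R : ℝ}
    (hR : HasSum (fun n => Rn c k μ N n z) R) (hV : Vn M z = 0) : Un M z * R < 0 := by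
  obtain ⟨hM, hM1⟩ := h.M
  have hz := h.hz
  have hs1 := h.hs1
  have hμ := hc.μpos
  have hμ1 := hc.μ1
  have hptM := pt_cn hc.cpos.le hc.cle hc.kpos hc.kle N M hz
  have hU : Un M z ^ 2 = 1 := by have := hptM.circ; rw [hV] at this; linarith
  have hσ : Un M z = 1 ∨ Un M z = -1 := by
    have h0 : (Un M z - 1) * (Un M z + 1) = 0 := by linear_combination hU
    rcases mul_eq_zero.1 h0 with h | h
    · left; linarith
    · right; linarith
  obtain ⟨σ, hσe⟩ : ∃ σ, σ = Un M z := ⟨_, rfl⟩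
  rw [← hσe] at hU hσ ⊢
  -- kink value
  have hkink : ∀ n, Un n z = 0 → Vn n z = σ →
      σ * kp (cn c N n) (1 - dd k n ^ 2) (Un n z) (Vn n z) (Wn k n z)
      = cn c N n * (1 - dd k n ^ 2) / dd k n := by
    intro n h1 h2
    have hpt := pt_cn hc.cpos.le hc.cle hc.kpos hc.kle N n hz
    rcases hσ with h3 | h3
    · rw [h3, one_mul]
      exact kp_top hpt h1 (by rw [h2, h3])
    · have h4 := kp_top hpt.neg (by rw [h1]; ring) (by rw [h2, h3]; ring)
      rw [kp_neg] at h4
      rw [h3, ← h4]; ring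
  obtain ⟨b, hb1, hb2⟩ := al0_dwell hc h
  set w : ℕ → ℝ := fun n => if n = M then al M 2 s else if n = M + 1 then
    -(4 * μ ^ 2 * (al (M + 1) 0 (1 + s) * (c * (1 - dd k (M + 1) ^ 2) / dd k (M + 1)))) else 0 with hw
  have hle : ∀ n, σ * Rn c k μ N n z ≤ w n + 3 * μ ^ 2 * b n := by
    intro n
    rw [h.R_eq n]
    have hal := al_nonneg n (tn μ N n z)
    have hbn := hb1 n
    have hmb : 3 * μ ^ 2 * al n 0 (tn μ N n z) ≤ 3 * μ ^ 2 * b n :=
      mul_le_mul_of_nonneg_left hbn (by positivity)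
    rcases lt_trichotomy n M with h1 | h1 | h1
    · have : (n : ℝ) + 1 ≤ M := by exact_mod_cast h1
      have h2 : tn μ N n z ≤ 0 := by rw [h.hst n]; linarith
      rw [al_zero n 0 h2, mul_zero] at hmb
      rw [al_zero n 2 h2, al_zero n 0 h2]
      have h3 : n ≠ M := by omega
      have h4 : n ≠ M + 1 := by omega
      simp only [hw, h3, h4, if_false]
      linarith
    · subst h1
      simp only [hw, if_true]
      rw [hM] at hmb
      rw [hM, hV, Pool.Agent.H120R3.Ca.kp_zero, ← hσe]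
      have : ph (cn c N n) σ 0 (En k n z) = σ := by unfold ph; ring
      rw [this]
      have : σ * (al n 2 s * σ + al n 0 s * (3 * μ ^ 2 * σ - 4 * μ ^ 2 * 0))
        = (al n 2 s + 3 * μ ^ 2 * al n 0 s) * σ ^ 2 := by ring
      rw [this, hU, mul_one]
      linarith
    · have h5 : (M : ℝ) + 1 ≤ n := by exact_mod_cast h1
      have h2 : 5 / 4 ≤ tn μ N n z := by rw [h.hst n]; linarith
      rw [al_two_zero n h2]
      rcases UV_par n M z with ⟨h3, h4⟩ | ⟨h3, h4⟩
      · have hne : n ≠ M + 1 := by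
          rintro rfl
          rw [Un_succ, hV, ← hσe] at h3
          rw [← h3] at hU
          norm_num at hU
        have hne' : n ≠ M := by omega
        rw [h4, hV, Pool.Agent.H120R3.Ca.kp_zero, h3, ← hσe]
        simp only [hw, hne, hne', if_false]
        have : ph (cn c N n) σ 0 (En k n z) = σ := by unfold ph; ring
        rw [this]
        have : σ * (0 * σ + al n 0 (tn μ N n z) * (3 * μ ^ 2 * σ - 4 * μ ^ 2 * 0))
          = (3 * μ ^ 2 * al n 0 (tn μ N n z)) * σ ^ 2 := by ring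
        rw [this, hU, mul_one]
        linarith
      · rw [hV] at h3
        rw [← hσe] at h4
        have h6 := hkink n h3 h4
        have hcn : cn c N n = c := by
          unfold cn
          have : n ≠ N := by have := h.hNM; omega
          simp [this]
        have hpt := pt_cn hc.cpos.le hc.cle hc.kpos hc.kle N n hz
        have hph : σ * ph (cn c N n) (Un n z) (Vn n z) (En k n z) = cn c N n * (En k n z - 1) := by
          rw [h3, h4]
          unfold ph
          calc σ * (0 + cn c N n * σ * (En k n z - 1)) = σ ^ 2 * (cn c N n * (En k n z - 1)) := by ring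
            _ = _ := by rw [hU, one_mul]
        have h7 : σ * (0 * ph (cn c N n) (Un n z) (Vn n z) (En k n z) +
            al n 0 (tn μ N n z) * (3 * μ ^ 2 * ph (cn c N n) (Un n z) (Vn n z) (En k n z)
              - 4 * μ ^ 2 * kp (cn c N n) (1 - dd k n ^ 2) (Un n z) (Vn n z) (Wn k n z)))
            = 3 * μ ^ 2 * al n 0 (tn μ N n z) * (cn c N n * (En k n z - 1))
              - 4 * μ ^ 2 * (al n 0 (tn μ N n z) * (cn c N n * (1 - dd k n ^ 2) / dd k n)) := by
          rw [← h6, ← hph]; ring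
        rw [h7, hcn]
        have hE := hpt.E_le
        have hneg : 3 * μ ^ 2 * al n 0 (tn μ N n z) * (c * (En k n z - 1)) ≤ 0 := by
          apply mul_nonpos_of_nonneg_of_nonpos (by positivity)
          exact mul_nonpos_of_nonneg_of_nonpos hc.cpos.le (by linarith)
        have hbnn : 0 ≤ 3 * μ ^ 2 * b n := le_trans (by positivity) hmb
        by_cases h8 : n = M + 1
        · subst h8
          have hne' : M + 1 ≠ M := by omega
          simp only [hw, hne', if_false, if_true]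
          rw [hM1] at hneg ⊢
          linarith
        · have hne' : n ≠ M := by omega
          simp only [hw, hne', if_false, h8]
          have h9 := dd_pos hc.kpos n
          have h10 := dd_sq_le hc.kpos hc.kle n
          have h11 : 0 ≤ c * (1 - dd k n ^ 2) / dd k n :=
            div_nonneg (mul_nonneg hc.cpos.le (by linarith)) h9.le
          have : 0 ≤ 4 * μ ^ 2 * (al n 0 (tn μ N n z) * (c * (1 - dd k n ^ 2) / dd k n)) := by positivity
          linarith
  have hsumw : HasSum w (∑ n ∈ ({M, M + 1} : Finset ℕ), w n) := by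
    apply hasSum_sum_of_ne_finset_zero
    intro n hn
    simp only [Finset.mem_insert, Finset.mem_singleton, not_or] at hn
    simp [hw, hn.1, hn.2]
  rw [Finset.sum_pair (by omega)] at hsumw
  have hfin := hasSum_le hle (hR.mul_left σ) (hsumw.add (hb2.mul_left (3 * μ ^ 2)))
  refine lt_of_le_of_lt hfin ?_
  have hne' : M + 1 ≠ M := by omega
  simp only [hw, hne', if_false, if_true]
  -- final numeric inequality
  have hg := gg_pos M
  have hg1 := gg_pos (M + 1)
  have h1 : al M 2 s ≤ 2 * C * gg M := by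
    rw [al_two]
    have h2 := gg_succ_le M
    have h3 : gg M * deriv pa s ≤ gg M * C := mul_le_mul_of_nonneg_left (hc.ca2 s) hg.le
    have h4 : gg (M + 1) * deriv pb s ≤ gg (M + 1) * C := mul_le_mul_of_nonneg_left (hc.cb2 s) hg1.le
    have h5 : gg (M + 1) * C ≤ gg M * C := by
      apply mul_le_mul_of_nonneg_right _ hc.Cpos.le
      linarith
    linarith
  have ha0 : 0 < prof pa 0 1 := profa_pos le_rfl
  have h2 : gg (M + 1) * prof pa 0 1 ≤ al (M + 1) 0 (1 + s) := by
    unfold al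
    have h3 := prof_mono pa pa_contDiff.continuous pa_nonneg (show (1:ℝ) ≤ 1 + s by linarith)
    have h4 := profb_nonneg (1 + s)
    have h5 := gg_pos (M + 1 + 1)
    have h6 : gg (M + 1) * prof pa 0 1 ≤ gg (M + 1) * prof pa 0 (1 + s) :=
      mul_le_mul_of_nonneg_left h3 hg1.le
    have h7 : 0 ≤ gg (M + 1 + 1) * prof pb 0 (1 + s) := by positivity
    linarith
  have hd := dd_pos hc.kpos (M + 1)
  have hd2 : dd k (M + 1) ^ 2 ≤ 1 / 4 := by
    have := dd_le hc.kpos hc.kle (M + 1)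
    nlinarith
  have h3 : c * (3 / 4) / dd k (M + 1) ≤ c * (1 - dd k (M + 1) ^ 2) / dd k (M + 1) := by
    have := hc.cpos
    gcongr
    linarith
  have h4 : gg (M + 1) * prof pa 0 1 * (c * (3 / 4) / dd k (M + 1))
      ≤ al (M + 1) 0 (1 + s) * (c * (1 - dd k (M + 1) ^ 2) / dd k (M + 1)) := by
    have h5 : 0 ≤ c * (3 / 4) / dd k (M + 1) := by have := hc.cpos; positivity
    exact mul_le_mul h2 h3 h5 (al_nonneg _ _)
  have hg3 : 2 * C * gg M + 12 * μ ^ 2 * C * gg M ≤ 3 * C * gg M := by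
    have h5 : 0 < C * gg M := by have := hc.Cpos; positivity
    have h6 : 12 * μ ^ 2 ≤ 1 := by nlinarith
    nlinarith
  have h5 : 3 * C * gg M < 4 * μ ^ 2 * (gg (M + 1) * prof pa 0 1 * (c * (3 / 4) / dd k (M + 1))) := by
    have h6 : c * (3 / 4) / dd k (M + 1) = c * (3 / 4) * 4 ^ (M + 1) / k := by
      unfold dd
      field_simp
    rw [h6, gg_succ]
    have h7 : ((1:ℝ) / 4) ^ M * 4 ^ (M + 1) = 4 := by
      rw [pow_succ, ← mul_assoc, ← mul_pow]; norm_num
    have h8 : 4 * μ ^ 2 * (gg M * (1 / 2 * (1 / 4) ^ M) * prof pa 0 1 * (c * (3 / 4) * 4 ^ (M + 1) / k))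
        = gg M * (μ ^ 2 * (prof pa 0 1 * c)) * 6 / k := by
      calc _ = gg M * (μ ^ 2 * (prof pa 0 1 * c)) * (3 / 2) * ((1 / 4) ^ M * 4 ^ (M + 1)) / k := by ring
        _ = _ := by rw [h7]; ring
    rw [h8, lt_div_iff₀ hc.kpos]
    have h9 := hc.kc
    have h10 : 0 < gg M * (μ ^ 2 * (prof pa 0 1 * c)) := by have := hc.cpos; positivity
    have h11 : gg M * (C * k) ≤ gg M * (μ ^ 2 * (prof pa 0 1 * c)) := mul_le_mul_of_nonneg_left h9 hg.le
    nlinarith
  have h6 : 4 * μ ^ 2 * (gg (M + 1) * prof pa 0 1 * (c * (3 / 4) / dd k (M + 1)))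
      ≤ 4 * μ ^ 2 * (al (M + 1) 0 (1 + s) * (c * (1 - dd k (M + 1) ^ 2) / dd k (M + 1))) :=
    mul_le_mul_of_nonneg_left h4 (by positivity)
  linarith

lemma ph_abs {c d X Y E W : ℝ} (h : Pt c d X Y E W) : |ph c X Y E| ≤ 9 / 8 := by
  have h1 := ph_bound h
  have h2 := h.absX
  have h3 := h.absY
  have h4 := h.cle
  have h5 := h.cpos
  have h6 : c * |Y| ≤ 1 / 8 * 1 := mul_le_mul h4 h3 (abs_nonneg _) (by norm_num)
  have h7 : |ph c X Y E| ≤ |ph c X Y E - X| + |X| := by
    have := abs_add_le (ph c X Y E - X) X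
    simpa using this
  linarith

/-- window: if `S = 0` then `R ≠ 0`. -/
lemma window_R {c k C H μ L L2 : ℝ} {N : ℕ} (hc : Cst c k C H μ L L2 N) {M : ℕ} {s : ℝ} {z : ℂ}
    (h : Stg μ N M s z) (hs1 : s ≤ 1 / 4) {R S : ℝ}
    (hR : HasSum (fun n => Rn c k μ N n z) R) (hS : HasSum (fun n => Sn c k μ N n z) S) (hS0 : S = 0) :
    R ≠ 0 := by
  obtain ⟨hM, hM1⟩ := h.M
  have hz := h.hz
  have hs0 := h.hs0
  have hμ := hc.μpos
  have hptM := pt_cn hc.cpos.le hc.cle hc.kpos hc.kle N M hz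
  have hptM1 := pt_cn hc.cpos.le hc.cle hc.kpos hc.kle N (M + 1) hz
  have hSS := S_stage h hS
  rw [hS0] at hSS
  -- amplitudes
  set w : ℝ := gg (M + 1) * exp (-s) with hw
  have hwpos : 0 < w := by have := gg_pos (M + 1); positivity
  set co := cos (eta s) with hco
  set sn := sin (eta s) with hsn
  set hh' := deriv eta s with hh
  have hp : al (M + 1) 1 (1 + s) = w * co := by
    rw [al_one, pa_window (by linarith), pb_zero_right (by linarith)]
    rw [hw]; ring
  have hq : al M 1 s = w * sn := by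
    rw [al_one, pa_zero_left hs1, pb_window (by linarith)]
    rw [hw]; ring
  have hp' : al (M + 1) 2 (1 + s) = -(w * co) - w * sn * hh' := by
    rw [al_two, deriv_pa_window (by linarith), deriv_pb_zero (pb_zero_right (by linarith))]
    rw [hw]; ring
  have hq' : al M 2 s = -(w * sn) + w * co * hh' := by
    rw [al_two, deriv_pa_zero (pa_zero_left hs1), deriv_pb_window (by linarith)]
    rw [hw]; ring
  have hconn : 0 ≤ co := cos_eta_nonneg s
  have hsnn : 0 ≤ sn := sin_eta_nonneg s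
  have hcs : co ^ 2 + sn ^ 2 = 1 := cos_sq_add_sin_sq _
  -- critical equation
  obtain ⟨ε', hε'₀, hdM⟩ := dp_form hptM
  obtain ⟨ε, hε₀, hdM1⟩ := dp_form hptM1
  have hcnM := cn_le hc.cpos.le N M
  have hcnM1 := cn_le hc.cpos.le N (M + 1)
  have hε' : |ε'| ≤ 2 * c := by linarith
  have hε : |ε| ≤ 2 * c := by linarith
  rw [Un_succ, Vn_succ] at hdM1 hptM1
  set U := Vn M z with hU
  set V := Un M z with hV
  have hcrit : w * co * (V * (1 + ε)) = w * sn * (U * (1 + ε')) := by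
    rw [h.S_eq M, h.S_eq (M + 1)] at hSS
    rw [hM, hM1, hp, hq, Un_succ, Vn_succ, ← hU, ← hV, hdM, hdM1, sg_succ] at hSS
    rcases sg_sq M with h1 | h1
    · rw [h1] at hSS; linarith
    · rw [h1] at hSS; linarith
  have hc1 := hc.cle
  have hc0 := hc.cpos
  have hε1 : 0 < 1 + ε := by have := (abs_le.1 hε).1; linarith
  have hε1' : 0 < 1 + ε' := by have := (abs_le.1 hε').1; linarith
  obtain ⟨σ, hσ, hσU, hσV⟩ := exists_sigma hwpos hconn hsnn hcs hcrit hε1 hε1'
  have hσ2 : σ ^ 2 = 1 := by rcases hσ with h1 | h1 <;> rw [h1] <;> norm_num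
  have hσabs : |σ| = 1 := by rcases hσ with h1 | h1 <;> rw [h1] <;> norm_num
  -- bound of sigma R
  obtain ⟨b, hb1, hb2⟩ := al0_bound hc h hs1
  set d : ℕ → ℝ := fun n => if n = M then σ * (al M 2 s * ph (cn c N M) V U (En k M z)) else
    if n = M + 1 then
    σ * (al (M + 1) 2 (1 + s) * ph (cn c N (M + 1)) U V (En k (M + 1) z)) else 0 with hd
  have hle : ∀ n, σ * Rn c k μ N n z ≤ d n + 3 * c * b n := by
    intro n
    rw [h.R_eq n]
    have hpt := pt_cn hc.cpos.le hc.cle hc.kpos hc.kle N n hz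
    have hσVn : 0 ≤ σ * Vn n z := by
      rcases UV_par n M z with ⟨h3, h4⟩ | ⟨h3, h4⟩
      · rw [h4]; exact hσU
      · rw [h4]; exact hσV
    have hk := kp_lower_sigma hpt hσ hσVn
    have hcn := cn_le hc.cpos.le N n
    have hphs : σ * ph (cn c N n) (Un n z) (Vn n z) (En k n z) ≤ 9 / 8 := by
      have h1 := ph_abs hpt
      have h2 := le_abs_self (σ * ph (cn c N n) (Un n z) (Vn n z) (En k n z))
      rw [abs_mul, hσabs, one_mul] at h2
      linarith
    have hal := al_nonneg n (tn μ N n z)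
    have hμc := hc.μc
    have hk1 : 3 * μ ^ 2 * (σ * ph (cn c N n) (Un n z) (Vn n z) (En k n z))
        - 4 * μ ^ 2 * (σ * kp (cn c N n) (1 - dd k n ^ 2) (Un n z) (Vn n z) (Wn k n z)) ≤ 3 * c := by
      have h1 : 3 * μ ^ 2 * (σ * ph (cn c N n) (Un n z) (Vn n z) (En k n z)) ≤ 3 * μ ^ 2 * (9 / 8) :=
        mul_le_mul_of_nonneg_left hphs (by positivity)
      have h2 : 4 * μ ^ 2 * (-(3 * c)) ≤
          4 * μ ^ 2 * (σ * kp (cn c N n) (1 - dd k n ^ 2) (Un n z) (Vn n z) (Wn k n z)) :=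
        mul_le_mul_of_nonneg_left (by linarith) (by positivity)
      have h3 : 4 * μ ^ 2 * (3 * c) ≤ c * (3 * (1 / 8)) := by
        apply mul_le_mul hμc (by linarith) (by positivity) hc0.le
      linarith
    have hk2 : al n 0 (tn μ N n z) * (3 * μ ^ 2 * (σ * ph (cn c N n) (Un n z) (Vn n z) (En k n z))
        - 4 * μ ^ 2 * (σ * kp (cn c N n) (1 - dd k n ^ 2) (Un n z) (Vn n z) (Wn k n z)))
        ≤ 3 * c * b n := by
      have h1 := mul_le_mul_of_nonneg_left hk1 hal
      have h2 : 3 * c * al n 0 (tn μ N n z) ≤ 3 * c * b n :=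
        mul_le_mul_of_nonneg_left (hb1 n) (by linarith)
      linarith
    have hd2 : σ * (al n 2 (tn μ N n z) * ph (cn c N n) (Un n z) (Vn n z) (En k n z)) = d n := by
      rcases eq_or_ne n M with h1 | h1
      · subst h1
        simp only [hd, if_true]
        rw [hM]
      · rcases eq_or_ne n (M + 1) with h2 | h2
        · subst h2
          simp only [hd, h1, if_false, if_true]
          rw [hM1, Un_succ, Vn_succ]
        · simp only [hd, h1, h2, if_false]
          rcases lt_or_gt_of_ne h1 with h3 | h3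
          · have : (n : ℝ) + 1 ≤ M := by exact_mod_cast h3
            rw [al_zero n 2 (by rw [h.hst n]; linarith)]
            ring
          · have : (M : ℝ) + 2 ≤ n := by
              have : M + 2 ≤ n := by omega
              exact_mod_cast this
            rw [al_two_zero n (by rw [h.hst n]; linarith)]
            ring
    have hsplit : σ * (al n 2 (tn μ N n z) * ph (cn c N n) (Un n z) (Vn n z) (En k n z)
      + al n 0 (tn μ N n z) * (3 * μ ^ 2 * ph (cn c N n) (Un n z) (Vn n z) (En k n z)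
      - 4 * μ ^ 2 * kp (cn c N n) (1 - dd k n ^ 2) (Un n z) (Vn n z) (Wn k n z)))
      = σ * (al n 2 (tn μ N n z) * ph (cn c N n) (Un n z) (Vn n z) (En k n z))
        + al n 0 (tn μ N n z) * (3 * μ ^ 2 * (σ * ph (cn c N n) (Un n z) (Vn n z) (En k n z))
        - 4 * μ ^ 2 * (σ * kp (cn c N n) (1 - dd k n ^ 2) (Un n z) (Vn n z) (Wn k n z))) := by ring
    rw [hsplit, hd2]
    linarith
  have hsumd : HasSum d (∑ n ∈ ({M, M + 1} : Finset ℕ), d n) := by
    apply hasSum_sum_of_ne_finset_zero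
    intro n hn
    simp only [Finset.mem_insert, Finset.mem_singleton, not_or] at hn
    simp [hd, hn.1, hn.2]
  rw [Finset.sum_pair (by omega)] at hsumd
  have hfin := hasSum_le hle (hR.mul_left σ) (hsumd.add (hb2.mul_left (3 * c)))
  have hne' : M + 1 ≠ M := by omega
  simp only [hd, hne', if_false, if_true] at hfin
  rw [hp', hq'] at hfin
  have hK : 3 * c * (8 * C * gg (M + 1)) ≤ 3 * c * (12 * C * w) := by
    have h1 : 3 / 4 ≤ exp (-s) := by
      have := Real.add_one_le_exp (-s)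
      linarith
    have h2 := gg_pos (M + 1)
    have h3 : 8 * C * gg (M + 1) ≤ 12 * C * w := by
      rw [hw]
      have h4 : 0 < C * gg (M + 1) := by have := hc.Cpos; positivity
      nlinarith
    exact mul_le_mul_of_nonneg_left h3 (by linarith)
  have hφ1 := ph_bound hptM1
  have hφ2 := ph_bound hptM
  have hφ1' : |σ * ph (cn c N (M + 1)) U V (En k (M + 1) z) - σ * U| ≤ c * |σ * V| := by
    rw [← mul_sub, abs_mul, abs_mul, hσabs, one_mul, one_mul]
    exact hφ1.trans (mul_le_mul_of_nonneg_right hcnM1 (abs_nonneg _))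
  have hφ2' : |σ * ph (cn c N M) V U (En k M z) - σ * V| ≤ c * |σ * U| := by
    rw [← mul_sub, abs_mul, abs_mul, hσabs, one_mul, one_mul]
    exact hφ2.trans (mul_le_mul_of_nonneg_right hcnM (abs_nonneg _))
  have hUV : (σ * U) ^ 2 + (σ * V) ^ 2 = 1 := by
    have := hptM1.circ
    rw [mul_pow, mul_pow, hσ2, one_mul, one_mul]
    exact this
  have hmain := window_neg hc.cpos hc.Hnn hc.Cpos.le hc.small hwpos hconn hsnn hcs
    (hc.hH s hs0 hs1) hUV hσU hσV (by linear_combination σ * hcrit) hε hε' hφ1' hφ2' hK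
  intro hR0
  rw [hR0, mul_zero] at hfin
  linarith

/-- nonvanishing in the stage region -/
lemma stage_ne {c k C H μ L L2 : ℝ} {N : ℕ} (hc : Cst c k C H μ L L2 N) {M : ℕ} {s : ℝ} {z : ℂ}
    (h : Stg μ N M s z) {R S : ℝ}
    (hR : HasSum (fun n => Rn c k μ N n z) R) (hS : HasSum (fun n => Sn c k μ N n z) S) :
    ¬ (R = 0 ∧ S = 0) := by
  rintro ⟨hR0, hS0⟩
  rcases le_or_gt s (1 / 4) with h' | h'
  · exact window_R hc h h' hR hS hS0 hR0
  · have hSS := S_stage h hS
    obtain ⟨hM, hM1⟩ := h.M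
    have hz := h.hz
    have hptM := pt_cn hc.cpos.le hc.cle hc.kpos hc.kle N M hz
    obtain ⟨ε, hε, hd⟩ := dp_form hptM
    have h1 : Sn c k μ N (M + 1) z = 0 := by
      rw [h.S_eq, hM1, al_one_zero (M + 1) (by linarith), zero_mul]
    rw [h1, add_zero, hS0] at hSS
    rw [h.S_eq, hM, hd] at hSS
    have h2 : 0 < al M 1 s := by
      rw [al_one]
      exact dwell_pos (gg_pos _) (gg_pos _) h'.le h.hs1.le
    have h3 : sg M ≠ 0 := by rcases sg_sq M with h4 | h4 <;> rw [h4] <;> norm_num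
    have h5 : 0 < 1 + ε := by
      have := (abs_le.1 hε).1
      have := hc.cle
      have := cn_le hc.cpos.le N M
      linarith
    have hV : Vn M z = 0 := by
      have h6 := (mul_eq_zero.1 hSS.symm).resolve_left h2.ne'
      have h7 := (mul_eq_zero.1 h6).resolve_left h3
      exact (mul_eq_zero.1 h7).resolve_right h5.ne'
    have h8 := dwell_R hc h h'.le hR hV
    rw [hR0, mul_zero] at h8
    exact lt_irrefl _ h8

end Pool.Agent.H120R3.Ca
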