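import Mathlib
import Pool.Agent.H120R3.CaStage
import Pool.Agent.H120R3.CaOuter

set_option autoImplicit false

/-!
The intermediate region and the full nonvanishing statement.
-/

namespace Pool.Agent.H120R3.Ca

open Real Filter Topology Set
open Pool.Agent.H120R3.Lw (HP ri nsq_pos ri_sq si_sq ssq_pos Prof prof pa pb eta pa_isProf pb_isProf
  gg al al_der gg_pos gg_succ_le gg_succ dd pp qq AA BB dd_pos dd_le dd_sq_le AA_pos BB_pos AA_le BB_le
  AA_ge BB_ge si_le ri_pos si si_pos Xz Yz Un Vn sg En Wn LL_norm DD_norm KR_norm ph dp kp LL LLx LLy kr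
  ee circXY summable_gauss al_nonneg al_zero al_one al_two al_one_zero al_two_zero Un_succ Vn_succ sg_succ
  sg_sq UV_par profa_zero profb_nonneg profa_nonneg profa_pos prof_mono pa_contDiff pb_contDiff pa_nonneg
  pb_nonneg gg_geom exists_sigma window_neg pa_window pb_window pb_zero_right pa_zero_left
  deriv_pa_window deriv_pb_window deriv_pb_zero deriv_pa_zero pa_zero_right cos_eta_nonneg sin_eta_nonneg
  dwell_pos)
open scoped ContDiff

lemma kp_mid {c d X Y E W : ℝ} (h : Pt c d X Y E W) (hX : 1 / 2 ≤ |X|) :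
    |kp c (1 - d ^ 2) X Y W| ≤ 5 * c := by
  rw [kp_form h]
  have hc := h.cpos
  have hW := h.Wpos
  have hXE := h.X_le
  have hEW := h.EW
  have hW2 : W ≤ 2 := by
    by_contra h2
    push Not at h2
    have : 1 / 2 * 2 < E * W := by
      apply mul_lt_mul'' (lt_of_le_of_ne (hX.trans hXE) ?_) h2 (by norm_num) (by norm_num)
      intro h3
      rw [← h3] at hEW
      linarith
    linarith
  have hd := h.dpos
  have hd2 := h.dle
  have hm : 0 ≤ 1 - d ^ 2 := by nlinarith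
  have hm1 : 1 - d ^ 2 ≤ 1 := by have := sq_nonneg d; linarith
  have hY := h.absY
  have hY2 : Y ^ 2 ≤ 1 := by rw [← sq_abs]; nlinarith [abs_nonneg Y]
  have hX1 := h.absX
  have hXW := h.XW
  have h1 : 0 ≤ d ^ 2 * Y ^ 2 * W ^ 3 := by positivity
  have h2 : d ^ 2 * Y ^ 2 * W ^ 3 ≤ 2 := by
    have hW3 : W ^ 3 ≤ 2 ^ 3 := pow_le_pow_left₀ hW.le hW2 3
    have hd3 : d ^ 2 ≤ 1 / 4 := by nlinarith
    calc d ^ 2 * Y ^ 2 * W ^ 3 ≤ 1 / 4 * 1 * 2 ^ 3 := by gcongr
      _ = 2 := by norm_num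
  have h3 : 0 ≤ X ^ 2 * W := by positivity
  have h4 : X ^ 2 * W ≤ 1 := by
    calc X ^ 2 * W = |X| * (|X| * W) := by rw [← sq_abs]; ring
      _ ≤ 1 * 1 := mul_le_mul hX1 hXW (by positivity) (by norm_num)
      _ = 1 := by norm_num
  have h5 : |d ^ 2 * Y ^ 2 * W ^ 3 - 3 * X ^ 2 * W| ≤ 5 := by
    rw [abs_le]; constructor <;> nlinarith
  rw [abs_mul, abs_mul, abs_mul, abs_of_nonneg hc, abs_of_nonneg hm]
  calc c * (1 - d ^ 2) * |Y| * |d ^ 2 * Y ^ 2 * W ^ 3 - 3 * X ^ 2 * W| ≤ c * 1 * 1 * 5 := by gcongr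
    _ = 5 * c := by ring

/-- values at the top level in the intermediate region -/
lemma top_mid {μ : ℝ} {N : ℕ} {t : ℝ} (h1 : 1 ≤ t) (h2 : t ≤ 2) :
    A0 μ N N t = prof (q0 N) 0 t ∧ A1 μ N N t = gg N * exp (1 - t) ∧ A2 μ N N t = -(gg N * exp (1 - t)) ∧
    B0 μ N N t = 0 ∧ B1 μ N N t = 0 ∧ B2 μ N N t = 0 := by
  have hdl : deriv (lam μ) t = 0 := by rw [deriv_lam, deriv_st_zero_left (by linarith), mul_zero]
  have hl : lam μ t = 0 := lam_zero μ (by linarith)
  have hA : Am μ t = 1 := Am_one μ (by linarith)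
  have hde : deriv et1 t = 0 := by
    have h1 : HasDerivAt (fun t : ℝ => smoothTransition (t - 2)) (deriv smoothTransition (t - 2)) t :=
      (st_hasDerivAt (t - 2)).comp_sub_const t 2
    have h : HasDerivAt et1 (π * deriv smoothTransition (t - 2)) t := h1.const_mul π
    rw [h.deriv, deriv_st_zero_left (by linarith), mul_zero]
  refine ⟨?_, ?_, ?_, ?_, ?_, ?_⟩
  · simp only [A0, lt_irrefl, if_false, if_true]
    unfold PP
    rw [hA, ct_one (by linarith)]
    ring
  · simp only [A1, lt_irrefl, if_false, if_true]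
    rw [PP_deriv μ (q0_contDiff N) (by linarith), hA, hl, q0_late N h1, et1_zero h2, cos_zero,
      ct_one (by linarith)]
    ring
  · simp only [A2, lt_irrefl, if_false, if_true]
    rw [PP_deriv2 μ (q0_contDiff N) (by linarith), hA, hl, hdl, q0_deriv N h1, et1_zero h2, cos_zero,
      sin_zero, ct_one (by linarith), deriv_st_zero_left (by linarith)]
    ring
  · simp only [B0, if_true]
    exact PP1_early μ N h2
  · simp only [B1, if_true]
    rw [PP_deriv μ (q1_contDiff N) (by linarith), hA, hl, q1_zero N h2]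
    ring
  · simp only [B2, if_true]
    rw [PP_deriv2 μ (q1_contDiff N) (by linarith), hA, hl, hdl, q1_deriv N t, et1_zero h2, cos_zero,
      sin_zero, hde]
    ring

/-- values above the top level for `t ≥ 1` -/
lemma high_AB {μ : ℝ} {N n : ℕ} {t : ℝ} (hn : N < n) (ht : 1 ≤ t) :
    A0 μ N n (t + ((n:ℝ) - N)) = ct (t - 1) * al n 0 (t + ((n:ℝ) - N)) ∧
    A1 μ N n (t + ((n:ℝ) - N)) = deriv ct (t - 1) * al n 0 (t + ((n:ℝ) - N)) ∧
    A2 μ N n (t + ((n:ℝ) - N)) = deriv^[2] ct (t - 1) * al n 0 (t + ((n:ℝ) - N)) ∧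
    B0 μ N n (t + ((n:ℝ) - N)) = 0 ∧ B1 μ N n (t + ((n:ℝ) - N)) = 0 ∧ B2 μ N n (t + ((n:ℝ) - N)) = 0 := by
  have h1 : ¬ n < N := by omega
  have h2 : ¬ n = N := by omega
  have h3 : (N:ℝ) + 1 ≤ n := by exact_mod_cast hn
  have e1 : al n 1 (t + ((n:ℝ) - N)) = 0 := al_one_zero n (by linarith)
  have e2 : al n 2 (t + ((n:ℝ) - N)) = 0 := al_two_zero n (by linarith)
  have hx : t + ((n:ℝ) - N) - (((n:ℝ) - N) + 1) = t - 1 := by ring
  have c0 : ∀ l, chi N n l (t + ((n:ℝ) - N)) = deriv^[l] ct (t - 1) := by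
    intro l; unfold chi; rw [hx]
  refine ⟨?_, ?_, ?_, ?_, ?_, ?_⟩
  · simp only [A0, h1, h2, if_false]
    rw [c0]; rfl
  · simp only [A1, h1, h2, if_false]
    rw [c0, c0, e1, mul_zero, add_zero]; rfl
  · simp only [A2, h1, h2, if_false]
    rw [c0, c0, c0, e1, e2]; ring
  · simp [B0, h2]
  · simp [B1, h2]
  · simp [B2, h2]

lemma low_AB {μ : ℝ} {N n : ℕ} {t : ℝ} (hn : n < N) :
    A0 μ N n t = 0 ∧ A1 μ N n t = 0 ∧ A2 μ N n t = 0 ∧ B0 μ N n t = 0 ∧ B1 μ N n t = 0 ∧ B2 μ N n t = 0 := by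
  have h2 : ¬ n = N := by omega
  simp [A0, A1, A2, B0, B1, B2, hn, h2]

lemma exp_third {t : ℝ} (h : t ≤ 2) : 1 / 3 ≤ exp (1 - t) := by
  have h5 : exp (-1) ≤ exp (1 - t) := Real.exp_le_exp.2 (by linarith)
  have h6 : (1:ℝ) / 3 ≤ exp (-1) := by
    rw [Real.exp_neg, one_div]
    apply inv_anti₀ (exp_pos _)
    have := Real.exp_one_lt_d9
    linarith
  linarith

set_option maxHeartbeats 4000000 in
/-- nonvanishing in the intermediate region -/
lemma mid_ne {c k C H μ L L2 : ℝ} {N : ℕ} (hc : Cst c k C H μ L L2 N) {z : ℂ} (hz : z ≠ 0) {t : ℝ}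
    (ht : ∀ n : ℕ, tn μ N n z = t + ((n:ℝ) - N)) (h1 : 1 ≤ t) (h2 : t ≤ 2) {R S : ℝ}
    (hR : HasSum (fun n => Rn c k μ N n z) R) (hS : HasSum (fun n => Sn c k μ N n z) S) :
    ¬ (R = 0 ∧ S = 0) := by
  rintro ⟨hR0, hS0⟩
  have hμ := hc.μpos
  have hμ1 := hc.μ1
  have hC := hc.Cpos
  have hL := hc.L0
  have hL2 : 0 ≤ L2 := (abs_nonneg _).trans (hc.hL2 0)
  have hg := gg_pos N
  have hg1 := gg_pos (N + 1)
  have hN := hc.hN
  have htN : tn μ N N z = t := by rw [ht N]; ring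
  obtain ⟨a0, a1, a2, b0, b1, b2⟩ := top_mid (μ := μ) (N := N) h1 h2
  have hUN : Un N z = Xz z := by unfold Un; simp [hc.Nev]
  have hVN : Vn N z = Yz z := by unfold Vn; simp [hc.Nev]
  have hsgN : sg N = -1 := by unfold sg; simp [hc.Nev]
  have hcnN : cn c N N = 0 := by unfold cn; simp
  have hcirc := circXY hz
  have hex := exp_third h2
  have hSN : Sn c k μ N N z = -(gg N * exp (1 - t)) * Yz z := by
    unfold Sn
    rw [htN, a1, b1, hsgN, hUN, hVN, hcnN]
    unfold dp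
    ring
  have hRN : Rn c k μ N N z = (-(gg N * exp (1 - t)) + 3 * μ ^ 2 * prof (q0 N) 0 t) * Xz z := by
    unfold Rn
    rw [htN, a0, a2, b0, b2, hUN, hVN, hcnN]
    unfold ph kp
    ring
  -- amplitudes above
  have hal : ∀ n, N < n → al n 0 (t + ((n:ℝ) - N)) ≤ (2 * C * gg (N + 1)) * (1 / 2) ^ (n - (N + 1)) := by
    intro n hn
    obtain ⟨j, rfl⟩ : ∃ j, n = N + 1 + j := ⟨n - (N + 1), by omega⟩
    have h3 : N + 1 + j - (N + 1) = j := by omega
    rw [h3]
    refine (al_le hc _ _).trans ?_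
    have := gg_geom (N + 1) j
    calc 2 * C * gg (N + 1 + j) ≤ 2 * C * (gg (N + 1) * (1 / 2) ^ j) := by gcongr
      _ = _ := by ring
  have hbL := geom_from (N + 1) (2 * L * (2 * C * gg (N + 1)))
  -- bound for S
  have hSb : |gg N * exp (1 - t) * Yz z| ≤ 2 * (2 * L * (2 * C * gg (N + 1))) := by
    have hd : HasSum (fun n : ℕ => if n = N then Sn c k μ N N z else 0) (Sn c k μ N N z) := by
      have := hasSum_ite_eq N (Sn c k μ N N z)
      simpa using this
    have hdiff := hS.sub hd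
    have habs : ∀ n, |Sn c k μ N n z - (if n = N then Sn c k μ N N z else 0)| ≤
        (if n < N + 1 then 0 else (2 * L * (2 * C * gg (N + 1))) * (1 / 2 : ℝ) ^ (n - (N + 1))) := by
      intro n
      rcases lt_trichotomy n N with h | h | h
      · obtain ⟨l0, l1, l2, l3, l4, l5⟩ := low_AB (μ := μ) (t := tn μ N n z) h
        have e : Sn c k μ N n z = 0 := by unfold Sn; rw [l1, l4]; ring
        have h3 : ¬ n = N := by omega
        have h4 : n < N + 1 := by omega
        simp [e, h3, h4]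
      · subst h
        simp
      · have h3 : ¬ n = N := by omega
        have h4 : ¬ n < N + 1 := by omega
        simp only [h3, h4, if_false, sub_zero]
        obtain ⟨l0, l1, l2, l3, l4, l5⟩ := high_AB (μ := μ) h h1
        have hpt := pt_cn hc.cpos.le hc.cle hc.kpos hc.kle N n hz
        obtain ⟨ε, hε, hd⟩ := dp_form hpt
        unfold Sn
        rw [ht n, l1, l4, zero_mul, add_zero, hd]
        have hsg : |sg n| = 1 := by rcases sg_sq n with h5 | h5 <;> rw [h5] <;> norm_num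
        have hdc : |deriv ct (t - 1)| ≤ L := by
          rw [(ct_hasDerivAt (t - 1)).deriv, abs_neg]
          exact hc.hL _
        have hal0 := al_nonneg n (t + ((n:ℝ) - N))
        have hal1 := hal n h
        have hcn := cn_le hc.cpos.le N n
        have hcle := hc.cle
        have h1ε : |1 + ε| ≤ 2 := by
          have h6 := abs_le.1 hε
          rw [abs_le]; constructor <;> linarith [h6.1, h6.2]
        rw [abs_mul, abs_mul, abs_mul, abs_mul, hsg, abs_of_nonneg hal0, one_mul]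
        calc |deriv ct (t - 1)| * al n 0 (t + ((n:ℝ) - N)) * (|Vn n z| * |1 + ε|)
            ≤ L * ((2 * C * gg (N + 1)) * (1 / 2) ^ (n - (N + 1))) * (1 * 2) := by
              gcongr
              exact hpt.absY
          _ = _ := by ring
    have h3 : |S - Sn c k μ N N z| ≤ 2 * (2 * L * (2 * C * gg (N + 1))) := by
      rw [abs_le]
      constructor
      · have := hasSum_le (fun n => (abs_le.1 (habs n)).1) hbL.neg hdiff
        exact this
      · exact hasSum_le (fun n => (abs_le.1 (habs n)).2) hdiff hbL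
    rw [hS0, hSN] at h3
    have e : 0 - -(gg N * exp (1 - t)) * Yz z = gg N * exp (1 - t) * Yz z := by ring
    rwa [e] at h3
  have hYs : |Yz z| ≤ 1 / 2 := by
    rw [abs_mul, abs_mul, abs_of_pos hg, abs_of_pos (exp_pos _)] at hSb
    have h3 : gg N * (1 / 3) * |Yz z| ≤ gg N * exp (1 - t) * |Yz z| := by gcongr
    have h4 : gg (N + 1) * (C * L) * 10000 ≤ gg N := by
      have : 0 ≤ gg (N + 1) * C * (L2 + 1) := by positivity
      linarith
    have h5 : gg N * |Yz z| ≤ gg N * (1 / 2) := by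
      have e1 : 2 * (2 * L * (2 * C * gg (N + 1))) = 8 * (gg (N + 1) * (C * L)) := by ring
      rw [e1] at hSb
      linarith
    exact le_of_mul_le_mul_left h5 hg
  have hXb : 1 / 2 ≤ |Xz z| := by
    by_contra h3
    push Not at h3
    have h4 : Xz z ^ 2 < 1 / 4 := by
      rw [← sq_abs]
      have := abs_nonneg (Xz z)
      nlinarith
    have h5 : Yz z ^ 2 ≤ 1 / 4 := by
      rw [← sq_abs]
      have := abs_nonneg (Yz z)
      nlinarith
    linarith
  obtain ⟨σ, hσ, hσX⟩ : ∃ σ : ℝ, (σ = 1 ∨ σ = -1) ∧ σ * Xz z = |Xz z| := by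
    rcases le_total 0 (Xz z) with h | h
    · exact ⟨1, Or.inl rfl, by rw [abs_of_nonneg h, one_mul]⟩
    · exact ⟨-1, Or.inr rfl, by rw [abs_of_nonpos h]; ring⟩
  have hσabs : |σ| = 1 := by rcases hσ with h1 | h1 <;> rw [h1] <;> norm_num
  have hXle : |Xz z| ≤ 1 := by
    apply abs_le_of_sq_le_sq _ (by norm_num)
    nlinarith [sq_nonneg (Yz z)]
  -- bound for R
  have hbR := geom_from (N + 1) ((2 * L2 + 1) * (2 * C * gg (N + 1)))
  have hd : HasSum (fun n : ℕ => if n = N then σ * Rn c k μ N N z else 0) (σ * Rn c k μ N N z) := by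
    have := hasSum_ite_eq N (σ * Rn c k μ N N z)
    simpa using this
  have hle : ∀ n, σ * Rn c k μ N n z ≤ (if n = N then σ * Rn c k μ N N z else 0) +
      (if n < N + 1 then 0 else ((2 * L2 + 1) * (2 * C * gg (N + 1))) * (1 / 2 : ℝ) ^ (n - (N + 1))) := by
    intro n
    rcases lt_trichotomy n N with h | h | h
    · obtain ⟨l0, l1, l2, l3, l4, l5⟩ := low_AB (μ := μ) (t := tn μ N n z) h
      have e : Rn c k μ N n z = 0 := by unfold Rn; rw [l0, l2, l3, l5]; ring
      have h3 : ¬ n = N := by omega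
      have h4 : n < N + 1 := by omega
      simp [e, h3, h4]
    · subst h
      simp
    · have h3 : ¬ n = N := by omega
      have h4 : ¬ n < N + 1 := by omega
      simp only [h3, h4, if_false, zero_add]
      obtain ⟨l0, l1, l2, l3, l4, l5⟩ := high_AB (μ := μ) h h1
      have hpt := pt_cn hc.cpos.le hc.cle hc.kpos hc.kle N n hz
      have hcn := cn_le hc.cpos.le N n
      have hcn0 := cn_nonneg hc.cpos.le N n
      have hcle := hc.cle
      have hphs : |σ * ph (cn c N n) (Un n z) (Vn n z) (En k n z)| ≤ 9 / 8 := by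
        rw [abs_mul, hσabs, one_mul]
        exact ph_abs hpt
      have hkps : -1 ≤ σ * kp (cn c N n) (1 - dd k n ^ 2) (Un n z) (Vn n z) (Wn k n z) := by
        rcases UV_par n N z with ⟨h5, h6⟩ | ⟨h5, h6⟩
        · have h7 := kp_mid hpt (by rw [h5, hUN]; exact hXb)
          have h8 : |σ * kp (cn c N n) (1 - dd k n ^ 2) (Un n z) (Vn n z) (Wn k n z)| ≤ 5 * cn c N n := by
            rw [abs_mul, hσabs, one_mul]; exact h7
          have := (abs_le.1 h8).1
          linarith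
        · have h7 := kp_lower_sigma hpt hσ (by rw [h6, hUN, hσX]; positivity)
          linarith
      have hct0 := ct_nonneg (t - 1)
      have hct1 := ct_le (t - 1)
      have hcd := hc.hL2 (t - 1)
      have hal0 := al_nonneg n (t + ((n:ℝ) - N))
      have hal1 := hal n h
      have e : σ * Rn c k μ N n z = al n 0 (t + ((n:ℝ) - N)) *
          (deriv^[2] ct (t - 1) * (σ * ph (cn c N n) (Un n z) (Vn n z) (En k n z))
            + 3 * μ ^ 2 * (ct (t - 1) * (σ * ph (cn c N n) (Un n z) (Vn n z) (En k n z)))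
            - 4 * μ ^ 2 * (ct (t - 1) * (σ * kp (cn c N n) (1 - dd k n ^ 2) (Un n z) (Vn n z) (Wn k n z)))) := by
        unfold Rn
        rw [ht n, l0, l2, l3, l5]
        ring
      rw [e]
      have f1 : deriv^[2] ct (t - 1) * (σ * ph (cn c N n) (Un n z) (Vn n z) (En k n z)) ≤ L2 * (9 / 8) := by
        refine (le_abs_self _).trans ?_
        rw [abs_mul]
        exact mul_le_mul hcd hphs (abs_nonneg _) hL2
      have f2 : ct (t - 1) * (σ * ph (cn c N n) (Un n z) (Vn n z) (En k n z)) ≤ 1 * (9 / 8) :=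
        (mul_le_mul_of_nonneg_left (abs_le.1 hphs).2 hct0).trans
          (mul_le_mul_of_nonneg_right hct1 (by norm_num))
      have f3 : -1 ≤ ct (t - 1) * (σ * kp (cn c N n) (1 - dd k n ^ 2) (Un n z) (Vn n z) (Wn k n z)) := by
        have := mul_le_mul_of_nonneg_left hkps hct0
        linarith
      have hμ2 : μ ^ 2 ≤ 1 / 1000000 := by nlinarith
      have f4 : 3 * μ ^ 2 * (ct (t - 1) * (σ * ph (cn c N n) (Un n z) (Vn n z) (En k n z)))
          ≤ 3 * μ ^ 2 * (1 * (9 / 8)) := mul_le_mul_of_nonneg_left f2 (by positivity)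
      have f5 : 4 * μ ^ 2 * (-1) ≤
          4 * μ ^ 2 * (ct (t - 1) * (σ * kp (cn c N n) (1 - dd k n ^ 2) (Un n z) (Vn n z) (Wn k n z))) :=
        mul_le_mul_of_nonneg_left f3 (by positivity)
      calc al n 0 (t + ((n:ℝ) - N)) * _ ≤ al n 0 (t + ((n:ℝ) - N)) * (2 * L2 + 1) := by
            apply mul_le_mul_of_nonneg_left _ hal0
            linarith
        _ ≤ (2 * C * gg (N + 1)) * (1 / 2) ^ (n - (N + 1)) * (2 * L2 + 1) :=
            mul_le_mul_of_nonneg_right hal1 (by positivity)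
        _ = _ := by ring
  have hfin := hasSum_le hle (hR.mul_left σ) (hd.add hbR)
  rw [hR0, mul_zero, hRN] at hfin
  have hV := V_abs N (q0_contDiff N).continuous (fun t h => q0_abs N h) (by linarith : 0 ≤ t) (by linarith)
  have hV' := (abs_le.1 hV).2
  have e1 : σ * ((-(gg N * exp (1 - t)) + 3 * μ ^ 2 * prof (q0 N) 0 t) * Xz z)
      = (-(gg N * exp (1 - t)) + 3 * μ ^ 2 * prof (q0 N) 0 t) * |Xz z| := by
    rw [← hσX]; ring
  rw [e1] at hfin
  have hμ2 : μ ^ 2 ≤ 1 / 1000000 := by nlinarith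
  have g1 : 3 * μ ^ 2 * prof (q0 N) 0 t ≤ gg N * (84 / 1000000) := by
    have e2 : 3 * μ ^ 2 * prof (q0 N) 0 t ≤ 3 * μ ^ 2 * (28 * gg N) :=
      mul_le_mul_of_nonneg_left hV' (by positivity)
    have e3 : μ ^ 2 * gg N ≤ 1 / 1000000 * gg N := mul_le_mul_of_nonneg_right hμ2 hg.le
    linarith
  have g2 : -(gg N * exp (1 - t)) + 3 * μ ^ 2 * prof (q0 N) 0 t ≤ -(gg N * (1 / 4)) := by
    have : gg N * (1 / 3) ≤ gg N * exp (1 - t) := mul_le_mul_of_nonneg_left hex hg.le
    linarith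
  have g3 : (-(gg N * exp (1 - t)) + 3 * μ ^ 2 * prof (q0 N) 0 t) * |Xz z| ≤ -(gg N * (1 / 4)) * |Xz z| :=
    mul_le_mul_of_nonneg_right g2 (abs_nonneg _)
  have g4 : gg N * (1 / 4) * (1 / 2) ≤ gg N * (1 / 4) * |Xz z| := by gcongr
  have g5 : gg (N + 1) * (C * (L2 + 1)) * 10000 ≤ gg N := by
    have : 0 ≤ gg (N + 1) * C * L := by positivity
    linarith
  have g6 : 2 * ((2 * L2 + 1) * (2 * C * gg (N + 1))) ≤ 8 * (gg (N + 1) * (C * (L2 + 1))) := by
    have : 0 ≤ C * gg (N + 1) := by positivity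
    linarith
  linarith

/-- nonvanishing in the outer region -/
lemma outer_ne {c k C H μ L L2 : ℝ} {N : ℕ} (hc : Cst c k C H μ L L2 N) {z : ℂ} (hz : z ≠ 0) {t : ℝ}
    (ht : ∀ n : ℕ, tn μ N n z = t + ((n:ℝ) - N)) (h1 : 2 < t) (h2 : t ≤ 6) {R S : ℝ}
    (hR : HasSum (fun n => Rn c k μ N n z) R) (hS : HasSum (fun n => Sn c k μ N n z) S) :
    ¬ (R = 0 ∧ S = 0) := by
  rintro ⟨hR0, hS0⟩
  have htN : tn μ N N z = t := by rw [ht N]; ring
  have hz0 : ∀ n, n ≠ N → Rn c k μ N n z = 0 ∧ Sn c k μ N n z = 0 := by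
    intro n hn
    rcases lt_or_gt_of_ne hn with h | h
    · obtain ⟨l0, l1, l2, l3, l4, l5⟩ := low_AB (μ := μ) (t := tn μ N n z) h
      constructor
      · unfold Rn; rw [l0, l2, l3, l5]; ring
      · unfold Sn; rw [l1, l4]; ring
    · obtain ⟨l0, l1, l2, l3, l4, l5⟩ := high_AB (μ := μ) h (show 1 ≤ t by linarith)
      have c0 : ct (t - 1) = 0 := ct_iter_right 0 (by linarith)
      have c1 : deriv ct (t - 1) = 0 := ct_iter_right 1 (by linarith)
      have c2 : deriv^[2] ct (t - 1) = 0 := ct_iter_right 2 (by linarith)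
      rw [c0, zero_mul] at l0
      rw [c1, zero_mul] at l1
      rw [c2, zero_mul] at l2
      constructor
      · unfold Rn; rw [ht n, l0, l2, l3, l5]; ring
      · unfold Sn; rw [ht n, l1, l4]; ring
  have eR : R = Rn c k μ N N z := hR.unique (hasSum_single N (fun n hn => (hz0 n hn).1))
  have eS : S = Sn c k μ N N z := hS.unique (hasSum_single N (fun n hn => (hz0 n hn).2))
  have hUN : Un N z = Xz z := by unfold Un; simp [hc.Nev]
  have hVN : Vn N z = Yz z := by unfold Vn; simp [hc.Nev]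
  have hsgN : sg N = -1 := by unfold sg; simp [hc.Nev]
  have hcnN : cn c N N = 0 := by unfold cn; simp
  have hcirc := circXY hz
  rw [hR0] at eR
  rw [hS0] at eS
  unfold Rn at eR
  unfold Sn at eS
  rw [htN, hUN, hVN, hcnN] at eR eS
  rw [hsgN] at eS
  have a0 : A0 μ N N t = PP μ (q0 N) t := by simp [A0]
  have a1 : A1 μ N N t = deriv (PP μ (q0 N)) t := by simp [A1]
  have a2 : A2 μ N N t = deriv (deriv (PP μ (q0 N))) t := by simp [A2]
  have b0 : B0 μ N N t = PP μ (q1 N) t := by simp [B0]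
  have b1 : B1 μ N N t = deriv (PP μ (q1 N)) t := by simp [B1]
  have b2 : B2 μ N N t = deriv (deriv (PP μ (q1 N))) t := by simp [B2]
  rw [a0, a2, b0, b2] at eR
  rw [a1, b1] at eS
  unfold ph kp at eR
  unfold dp at eS
  refine pure_ne hc.μpos hc.hL hc.μs N h1.le h2 hcirc ?_ ?_
  · linear_combination -eS
  · linear_combination -eR

/-- nonvanishing in the whole disc -/
lemma all_ne {c k C H μ L L2 : ℝ} {N : ℕ} (hc : Cst c k C H μ L L2 N) {z : ℂ} (hz : z ≠ 0)
    (hz1 : ‖z‖ ≤ 1 / 2) {R S : ℝ}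
    (hR : HasSum (fun n => Rn c k μ N n z) R) (hS : HasSum (fun n => Sn c k μ N n z) S) :
    ¬ (R = 0 ∧ S = 0) := by
  have hμ := hc.μpos
  obtain ⟨t, htd⟩ : ∃ t, t = 6 + 1 / (4 * μ) * Real.log (4 * (z.re ^ 2 + z.im ^ 2)) := ⟨_, rfl⟩
  have ht : ∀ n : ℕ, tn μ N n z = t + ((n:ℝ) - N) := by
    intro n
    rw [tn_eq hμ N n hz, htd]
  have hnsq := nsq_pos hz
  have h6 : t ≤ 6 := by
    have h1 : 4 * (z.re ^ 2 + z.im ^ 2) ≤ 1 := by
      rw [Pool.Agent.H120R3.Lw.normsq_eq]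
      have := norm_nonneg z
      nlinarith
    have h2 : Real.log (4 * (z.re ^ 2 + z.im ^ 2)) ≤ 0 := Real.log_nonpos (by positivity) h1
    have h3 : 1 / (4 * μ) * Real.log (4 * (z.re ^ 2 + z.im ^ 2)) ≤ 0 :=
      mul_nonpos_of_nonneg_of_nonpos (by positivity) h2
    linarith
  rcases lt_or_ge t 1 with h1 | h1
  · -- stage
    have hfl : ⌊t⌋ ≤ 0 := by
      have : ⌊t⌋ < 1 := by
        rw [Int.floor_lt]; exact_mod_cast h1
      omega
    have hst : Stg μ N (N + (-⌊t⌋).toNat) (Int.fract t) z := by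
      refine ⟨hz, by omega, Int.fract_nonneg _, Int.fract_lt_one _, ?_⟩
      intro n
      rw [ht n]
      have h2 : (((-⌊t⌋).toNat : ℕ) : ℝ) = -(⌊t⌋ : ℝ) := by
        have h3 : (((-⌊t⌋).toNat : ℕ) : ℤ) = -⌊t⌋ := Int.toNat_of_nonneg (by omega)
        have h4 : ((((-⌊t⌋).toNat : ℕ) : ℤ) : ℝ) = ((-⌊t⌋ : ℤ) : ℝ) := by rw [h3]
        push_cast at h4
        rw [← h4]
      push_cast
      rw [h2]
      have := Int.fract_add_floor t
      linarith
    exact stage_ne hc hst hR hS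
  · rcases le_or_gt t 2 with h2 | h2
    · exact mid_ne hc hz ht h1 h2 hR hS
    · exact outer_ne hc hz ht h2 h6 hR hS

end Pool.Agent.H120R3.Ca
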