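import Mathlib
import Pool.Agent.H120R3.CaMid

set_option autoImplicit false

/-!
The planar function.
-/

namespace Pool.Agent.H120R3.Ca

open Real Filter Topology Set
open Pool.Agent.H120R3.Lw (HP ri nsq_pos ri_sq si_sq ssq_pos Prof prof pa pb eta pa_isProf pb_isProf
  gg al al_der gg_pos gg_succ_le gg_succ dd pp qq AA BB dd_pos dd_le dd_sq_le AA_pos BB_pos AA_le BB_le
  AA_ge BB_ge si_le ri_pos si si_pos Xz Yz Un Vn sg En Wn LL LLx LLy kr
  eta_contDiff profa_pos pb_zero_right normsq_eq)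
open scoped ContDiff

lemma exists_cst : ∃ c k C H μ L L2 : ℝ, ∃ N : ℕ, Cst c k C H μ L L2 N := by
  obtain ⟨C1, h1⟩ := pa_isProf.bdd 0
  obtain ⟨C2, h2⟩ := pb_isProf.bdd 0
  obtain ⟨C3, h3⟩ := pa_isProf.bdd 2
  obtain ⟨C4, h4⟩ := pb_isProf.bdd 2
  obtain ⟨L, hL⟩ := ct_iter_bdd 1
  obtain ⟨L2, hL2⟩ := ct_iter_bdd 2
  have hcd : Continuous (deriv eta) := (eta_contDiff.continuous_deriv (by simp))
  obtain ⟨H, hH⟩ := (isCompact_Icc (a := (0:ℝ)) (b := 1/4)).exists_bound_of_continuousOn hcd.continuousOn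
  have hH0 : 0 ≤ H := (norm_nonneg _).trans (hH 0 (left_mem_Icc.2 (by norm_num)))
  have hC1 : 0 ≤ C1 := (abs_nonneg _).trans (h1 0)
  have hC2 : 0 ≤ C2 := (abs_nonneg _).trans (h2 0)
  have hC3 : 0 ≤ C3 := (abs_nonneg _).trans (h3 0)
  have hC4 : 0 ≤ C4 := (abs_nonneg _).trans (h4 0)
  have hL0 : 0 ≤ L := (abs_nonneg _).trans (hL 0)
  have hL20 : 0 ≤ L2 := (abs_nonneg _).trans (hL2 0)
  obtain ⟨C, hC⟩ : ∃ C, C = C1 + C2 + C3 + C4 + 1 := ⟨_, rfl⟩
  have hCpos : 0 < C := by linarith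
  obtain ⟨c, hc⟩ : ∃ c, c = 1 / (100 * (C + H + 1)) := ⟨_, rfl⟩
  have hcpos : 0 < c := by rw [hc]; positivity
  have hcle : c ≤ 1 / 8 := by
    rw [hc, div_le_div_iff₀ (by positivity) (by norm_num)]
    linarith
  have ha0 : 0 < prof pa 0 1 := profa_pos le_rfl
  obtain ⟨μ, hμ⟩ : ∃ μ, μ = min (1 / (1000000 * (L + 1))) (c / 4) := ⟨_, rfl⟩
  have hμpos : 0 < μ := by rw [hμ]; apply lt_min <;> positivity
  have hμ1 : μ ≤ 1 / (1000000 * (L + 1)) := by rw [hμ]; exact min_le_left _ _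
  have hμ2 : μ ≤ c / 4 := by rw [hμ]; exact min_le_right _ _
  obtain ⟨k, hk⟩ : ∃ k, k = min (1 / 2) (μ ^ 2 * (prof pa 0 1 * c) / C) := ⟨_, rfl⟩
  have hkpos : 0 < k := by rw [hk]; apply lt_min <;> positivity
  obtain ⟨D, hD⟩ : ∃ D, D = C * (L + L2 + 1) * 10000 := ⟨_, rfl⟩
  have hDpos : 0 < D := by rw [hD]; positivity
  obtain ⟨n, hn⟩ := exists_pow_lt_of_lt_one (show 0 < 1 / D by positivity) (show (1/4:ℝ) < 1 by norm_num)
  refine ⟨c, k, C, H, μ, L, L2, 2 * n, hcpos, hcle, hkpos, ?_, hCpos, hH0, ?_, ?_, ?_, ?_,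
    ?_, ?_, hμpos, ?_, ?_, ?_, hL2, ?_, ?_, ?_⟩
  · rw [hk]; exact min_le_left _ _
  · intro t; have := (le_abs_self _).trans (h1 t); linarith
  · intro t; have := (le_abs_self _).trans (h2 t); linarith
  · intro t; have := (le_abs_self _).trans (h3 t); show prof pa 2 t ≤ C; linarith
  · intro t; have := (le_abs_self _).trans (h4 t); show prof pb 2 t ≤ C; linarith
  · intro s hs0 hs1
    exact hH s ⟨hs0, hs1⟩
  · rw [hc]
    have : 0 < 100 * (C + H + 1) := by positivity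
    rw [one_div, inv_mul_cancel₀ this.ne']
  · nlinarith
  · have h5 : k ≤ μ ^ 2 * (prof pa 0 1 * c) / C := by rw [hk]; exact min_le_right _ _
    rw [le_div_iff₀ hCpos] at h5
    linarith
  · intro t
    have h5 := hL t
    have e : deriv^[1] ct t = -deriv smoothTransition t := (ct_hasDerivAt t).deriv
    rwa [e, abs_neg] at h5
  · rw [le_div_iff₀ (by positivity)] at hμ1
    linarith
  · exact even_two_mul n
  · rw [gg_succ, ← hD]
    have hg := gg_pos (2 * n)
    have h5 : ((1:ℝ) / 4) ^ (2 * n) ≤ (1 / 4) ^ n :=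
      pow_le_pow_of_le_one (by norm_num) (by norm_num) (by omega)
    have h6 : (1 / 4 : ℝ) ^ n * D < 1 := by
      rw [lt_div_iff₀ hDpos] at hn
      exact hn
    have h7 : 0 < ((1:ℝ) / 4) ^ (2 * n) := by positivity
    have h8 : (1 / 2) * (1 / 4 : ℝ) ^ (2 * n) * D ≤ 1 := by nlinarith
    calc gg (2 * n) * (1 / 2 * (1 / 4) ^ (2 * n)) * D = gg (2 * n) * ((1 / 2) * (1 / 4 : ℝ) ^ (2 * n) * D) := by
          ring
      _ ≤ gg (2 * n) * 1 := mul_le_mul_of_nonneg_left h8 hg.le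
      _ = gg (2 * n) := mul_one _

lemma q_zero_late (N : ℕ) {t : ℝ} (ht : 5 ≤ t) : q0 N t = 0 ∧ q1 N t = 0 := by
  constructor
  · rw [q0_late N (by linarith), ct_zero (by linarith)]; ring
  · rw [q1_late N, ct_zero (by linarith)]; ring

lemma prof_late {q : ℝ → ℝ} (hq : Continuous q) (h : ∀ t, 5 ≤ t → q t = 0) {t : ℝ} (ht : 5 ≤ t) :
    prof q 0 t = prof q 0 5 := by
  have := prof_sub_le hq ht (B := 0) (fun s hs _ => by rw [h s hs, abs_zero])
  rw [zero_mul] at this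
  have h2 := abs_nonpos_iff.1 this
  linarith

lemma rh_exp {z : ℂ} (hz : z ≠ 0) : rh z = exp (-(Real.log (z.re ^ 2 + z.im ^ 2) / 4)) := by
  have h := nsq_pos hz
  have h1 : rh z ^ 4 = exp (-(Real.log (z.re ^ 2 + z.im ^ 2) / 4)) ^ 4 := by
    rw [← Real.exp_nat_mul]
    have e : ((4:ℕ):ℝ) * -(Real.log (z.re ^ 2 + z.im ^ 2) / 4) = -Real.log (z.re ^ 2 + z.im ^ 2) := by
      push_cast; ring
    rw [e, Real.exp_neg, Real.exp_log h]
    have : rh z ^ 4 = ri z ^ 2 := by rw [← rh_sq]; ring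
    rw [this]
    unfold Pool.Agent.H120R3.Lw.ri
    rw [inv_pow, Real.sq_sqrt h.le]
  exact (pow_left_inj₀ (rh_nonneg z) (exp_pos _).le (by norm_num)).1 h1

/-- all the data of the planar construction -/
lemma construction : ∃ (G Gx Gy Gxx Gxy Gyx Gyy : ℂ → ℝ) (r1 r2 v0 v1 : ℝ),
    ContDiffOn ℝ ∞ G (Metric.ball (0 : ℂ) 1) ∧
    (∀ z : ℂ, ‖z‖ < 1 → HP G (Gx z) (Gy z) z) ∧
    (∀ z : ℂ, ‖z‖ < 1 → HP Gx (Gxx z) (Gxy z) z) ∧
    (∀ z : ℂ, ‖z‖ < 1 → HP Gy (Gyx z) (Gyy z) z) ∧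
    (∀ z : ℂ, z ≠ 0 → ‖z‖ ≤ 1 / 2 →
      ¬ (z.re * (Gxx z - Gyy z) + z.im * (Gxy z + Gyx z) + Gx z = 0 ∧
         z.re * (Gxy z + Gyx z) - z.im * (Gxx z - Gyy z) + Gy z = 0)) ∧
    0 < r1 ∧ r1 < 1 / 2 ∧ 1 / 2 < r2 ∧ r2 < 1 ∧ 0 < v0 ∧
    (∀ z : ℂ, r1 < ‖z‖ → ‖z‖ < r2 → G z = (v0 * z.re + v1 * z.im) * ri z) := by
  obtain ⟨c, k, C, H, μ, L, L2, N, hc⟩ := exists_cst
  have hμ := hc.μpos
  have hμ1 := hc.μ1
  have hF := Fam_uu (N := N) hc.cpos.le hc.cle hc.kpos hc.kle hμ (by linarith)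
  obtain ⟨ux, uy, hx, hy, hd⟩ := hF.deriv
  obtain ⟨uxx, uxy, hxx, hxy, hdx⟩ := hx.deriv
  obtain ⟨uyx, uyy, hyx, hyy, hdy⟩ := hy.deriv
  refine ⟨Ser (uu c k μ N), Ser ux, Ser uy, Ser uxx, Ser uxy, Ser uyx, Ser uyy,
    1 / 2 * exp (-(2 * μ)), 1 / 2 * exp (2 * μ),
    Am μ 4 * exp (-(2 * μ)) * exp (-(Real.log 4 / 4)) * prof (q0 N) 0 5,
    Am μ 4 * exp (-(2 * μ)) * exp (-(Real.log 4 / 4)) * prof (q1 N) 0 5,
    hF.contDiffOn, fun z hz => HP_Ser hF hx hy hd hz, fun z hz => HP_Ser hx hxx hxy hdx hz,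
    fun z hz => HP_Ser hy hyx hyy hdy hz, ?_, by positivity, ?_, ?_, ?_, ?_, ?_⟩
  · -- nonvanishing
    intro z hz hz2 ⟨hn1, hn2⟩
    have hz1 : ‖z‖ < 1 := by linarith
    have s0 := (hx.summable hz1).hasSum
    have s0' := (hy.summable hz1).hasSum
    have s1 := (hxx.summable hz1).hasSum
    have s2 := (hyy.summable hz1).hasSum
    have s3 := (hxy.summable hz1).hasSum
    have s4 := (hyx.summable hz1).hasSum
    have hterm := fun n => term_eq hc.kpos hμ n (hd n) (hdx n) (hdy n) hz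
    have hR : HasSum (fun n => Rn c k μ N n z) (4 * μ ^ 2 * rh z * ((z.re ^ 2 - z.im ^ 2) * (Ser uxx z - Ser uyy z)
      + 2 * z.re * z.im * (Ser uxy z + Ser uyx z) + (z.re * Ser ux z + z.im * Ser uy z))) := by
      have h1 := ((((s1.sub s2).mul_left (z.re ^ 2 - z.im ^ 2)).add
        ((s3.add s4).mul_left (2 * z.re * z.im))).add
        ((s0.mul_left z.re).add (s0'.mul_left z.im))).mul_left (4 * μ ^ 2 * rh z)
      exact HasSum.congr_fun h1 (fun n => (hterm n).1)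
    have hS : HasSum (fun n => Sn c k μ N n z) (μ * rh z * ((z.re ^ 2 - z.im ^ 2) * (Ser uxy z + Ser uyx z)
      - 2 * z.re * z.im * (Ser uxx z - Ser uyy z) + (z.re * Ser uy z - z.im * Ser ux z))) := by
      have h1 := ((((s3.add s4).mul_left (z.re ^ 2 - z.im ^ 2)).sub
        ((s1.sub s2).mul_left (2 * z.re * z.im))).add
        ((s0'.mul_left z.re).sub (s0.mul_left z.im))).mul_left (μ * rh z)
      exact HasSum.congr_fun h1 (fun n => (hterm n).2)
    apply all_ne hc hz hz2 hR hS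
    constructor
    · have : (z.re ^ 2 - z.im ^ 2) * (Ser uxx z - Ser uyy z)
        + 2 * z.re * z.im * (Ser uxy z + Ser uyx z) + (z.re * Ser ux z + z.im * Ser uy z) = 0 := by
        linear_combination z.re * hn1 + z.im * hn2
      rw [this, mul_zero]
    · have : (z.re ^ 2 - z.im ^ 2) * (Ser uxy z + Ser uyx z)
        - 2 * z.re * z.im * (Ser uxx z - Ser uyy z) + (z.re * Ser uy z - z.im * Ser ux z) = 0 := by
        linear_combination z.re * hn2 - z.im * hn1
      rw [this, mul_zero]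
  · have : exp (-(2 * μ)) < 1 := by rw [Real.exp_lt_one_iff]; linarith
    linarith
  · have : 1 < exp (2 * μ) := by rw [Real.one_lt_exp_iff]; linarith
    linarith
  · have h1 : exp (2 * μ) ≤ exp (1 / 2) := Real.exp_le_exp.2 (by linarith)
    have h2 : exp (1 / 2) < 2 := by
      have h3 : exp (1 / 2 : ℝ) ^ 2 = exp 1 := by rw [← Real.exp_nat_mul]; norm_num
      have h4 := Real.exp_one_lt_d9
      have h5 := exp_pos (1 / 2 : ℝ)
      by_contra h6
      push Not at h6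
      nlinarith
    linarith
  · have h1 := V0_pos N (show (2:ℝ) ≤ 5 by norm_num)
    have h2 : 0 < gg N * exp (1 - 5) := by have := gg_pos N; positivity
    have h3 := Am_pos μ 4
    have h4 : 0 < prof (q0 N) 0 5 := by linarith
    positivity
  · intro z hz1 hz2
    have hz : z ≠ 0 := by
      rintro rfl
      rw [norm_zero] at hz1
      have : 0 < 1 / 2 * exp (-(2 * μ)) := by positivity
      linarith
    have hnsq := nsq_pos hz
    obtain ⟨t, htd⟩ : ∃ t, t = 6 + 1 / (4 * μ) * Real.log (4 * (z.re ^ 2 + z.im ^ 2)) := ⟨_, rfl⟩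
    have ht : ∀ n : ℕ, tn μ N n z = t + ((n:ℝ) - N) := by
      intro n
      rw [tn_eq hμ N n hz, htd]
    have hlog : Real.log (4 * (z.re ^ 2 + z.im ^ 2)) = 4 * μ * (t - 6) := by
      rw [htd]; field_simp; ring
    have hexp : 4 * (z.re ^ 2 + z.im ^ 2) = exp (4 * μ * (t - 6)) := by
      rw [← hlog, Real.exp_log (by positivity)]
    have hn2 : 4 * (z.re ^ 2 + z.im ^ 2) = (2 * ‖z‖) ^ 2 := by rw [normsq_eq]; ring
    have h5 : 5 < t := by
      have h1 : exp (-(4 * μ)) < exp (4 * μ * (t - 6)) := by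
        rw [← hexp, hn2]
        have : exp (-(4 * μ)) = exp (-(2 * μ)) ^ 2 := by rw [← Real.exp_nat_mul]; push_cast; ring_nf
        rw [this]
        exact pow_lt_pow_left₀ (by linarith) (exp_pos _).le (by norm_num)
      rw [Real.exp_lt_exp] at h1
      by_contra h2
      push Not at h2
      nlinarith
    have h7 : t < 7 := by
      have h1 : exp (4 * μ * (t - 6)) < exp (4 * μ) := by
        rw [← hexp, hn2]
        have : exp (4 * μ) = exp (2 * μ) ^ 2 := by rw [← Real.exp_nat_mul]; push_cast; ring_nf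
        rw [this]
        exact pow_lt_pow_left₀ (by linarith) (by positivity) (by norm_num)
      rw [Real.exp_lt_exp] at h1
      by_contra h2
      push Not at h2
      nlinarith
    -- only the top term
    have hz0 : ∀ n, n ≠ N → uu c k μ N n z = 0 := by
      intro n hn
      rcases lt_or_gt_of_ne hn with h | h
      · obtain ⟨l0, l1, l2, l3, l4, l5⟩ := low_AB (μ := μ) (t := tn μ N n z) h
        unfold uu; rw [l0, l3]; ring
      · obtain ⟨l0, l1, l2, l3, l4, l5⟩ := high_AB (μ := μ) h (show 1 ≤ t by linarith)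
        have c0 : ct (t - 1) = 0 := ct_iter_right 0 (by linarith)
        rw [c0, zero_mul] at l0
        unfold uu; rw [ht n, l0, l3]; ring
    have hG : Ser (uu c k μ N) z = uu c k μ N N z := by
      unfold Ser
      exact tsum_eq_single N hz0
    rw [hG]
    unfold uu
    have htN : tn μ N N z = t := by rw [ht N]; ring
    have a0 : A0 μ N N t = PP μ (q0 N) t := by simp [A0]
    have b0 : B0 μ N N t = PP μ (q1 N) t := by simp [B0]
    have hcnN : cn c N N = 0 := by unfold cn; simp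
    have hp : pp N = 1 := by unfold pp; simp [hc.Nev]
    have hq : qq N = 0 := by unfold qq; simp [hc.Nev]
    have hLL : LL 0 1 0 (AA k N) (BB k N) z = z.re := by unfold LL; ring
    rw [htN, a0, b0, hcnN, hp, hq, hLL]
    unfold PP
    rw [ct_one (by linarith : t - 7 ≤ 0),
      prof_late (q0_contDiff N).continuous (fun t h => (q_zero_late N h).1) h5.le,
      prof_late (q1_contDiff N).continuous (fun t h => (q_zero_late N h).2) h5.le,
      Am_late μ (by linarith)]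
    have hkey : rh z * exp (-(μ * (t - 4))) = exp (-(2 * μ)) * exp (-(Real.log 4 / 4)) * ri z := by
      have e1 : μ * (t - 4) = 2 * μ + Real.log 4 / 4 + Real.log (z.re ^ 2 + z.im ^ 2) / 4 := by
        rw [Real.log_mul (by norm_num) hnsq.ne'] at hlog
        linarith
      have e2 : exp (-(μ * (t - 4))) = exp (-(2 * μ)) * exp (-(Real.log 4 / 4)) * rh z := by
        rw [e1, rh_exp hz, ← Real.exp_add, ← Real.exp_add]
        congr 1; ring
      rw [e2, ← rh_sq z]; ring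
    linear_combination (Am μ 4 * (prof (q0 N) 0 5 * z.re + prof (q1 N) 0 5 * z.im)) * hkey

end Pool.Agent.H120R3.Ca
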