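import Mathlib
import Pool.Agent.H120R3.CaMain
import Pool.Agent.H120R3.CaChart
import Pool.Agent.H120R3.CaGeo

set_option autoImplicit false

/-!
The one-homogeneous function and the surface.
-/

namespace Pool.Agent.H120R3.Ca

open Real Filter Topology Set
open Pool.Agent.H120R3.Lw (HP HP_re HP_im HP_const ri)
open scoped ContDiff RealInnerProductSpace

abbrev E3 := EuclideanSpace ℝ (Fin 3)

noncomputable def f0 : E3 := EuclideanSpace.single 0 1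
noncomputable def f1 : E3 := EuclideanSpace.single 1 1
noncomputable def f2 : E3 := EuclideanSpace.single 2 1

lemma f00 : ⟪f0, f0⟫ = 1 := by simp [f0]
lemma f11 : ⟪f1, f1⟫ = 1 := by simp [f1]
lemma f22 : ⟪f2, f2⟫ = 1 := by simp [f2]
lemma f01 : ⟪f0, f1⟫ = 0 := by simp [f0, f1, EuclideanSpace.inner_single_left]
lemma f02 : ⟪f0, f2⟫ = 0 := by simp [f0, f2, EuclideanSpace.inner_single_left]
lemma f12 : ⟪f1, f2⟫ = 0 := by simp [f1, f2, EuclideanSpace.inner_single_left]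

lemma nsq3 (y : E3) : ‖y‖ ^ 2 = y 0 ^ 2 + y 1 ^ 2 + y 2 ^ 2 := by
  rw [EuclideanSpace.real_norm_sq_eq, Fin.sum_univ_three]

lemma Psi0 (l σ : ℝ) (z : ℂ) : Psi f0 f1 f2 l σ z 0 = l * z.re := by simp [Psi, f0, f1, f2]
lemma Psi1 (l σ : ℝ) (z : ℂ) : Psi f0 f1 f2 l σ z 1 = l * z.im := by simp [Psi, f0, f1, f2]
lemma Psi2 (l σ : ℝ) (z : ℂ) :
    Psi f0 f1 f2 l σ z 2 = l * σ * (1 - (z.re ^ 2 + z.im ^ 2)) / 2 := by simp [Psi, f0, f1, f2]

lemma norm_Psi {l σ : ℝ} (hl : 0 < l) (hσ : σ ^ 2 = 1) (z : ℂ) :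
    ‖Psi f0 f1 f2 l σ z‖ = l * (1 + (z.re ^ 2 + z.im ^ 2)) / 2 := by
  have h1 : ‖Psi f0 f1 f2 l σ z‖ ^ 2 = (l * (1 + (z.re ^ 2 + z.im ^ 2)) / 2) ^ 2 := by
    rw [nsq3, Psi0, Psi1, Psi2]
    linear_combination (l ^ 2 * (1 - (z.re ^ 2 + z.im ^ 2)) ^ 2 / 4) * hσ
  exact (pow_left_inj₀ (norm_nonneg _) (by positivity) (by norm_num)).1 h1

lemma ext3 {x y : E3} (h0 : x 0 = y 0) (h1 : x 1 = y 1) (h2 : x 2 = y 2) : x = y := by
  ext i
  fin_cases i
  · exact h0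
  · exact h1
  · exact h2

noncomputable def lamN (y : E3) : ℝ := ‖y‖ + y 2
noncomputable def lamS (y : E3) : ℝ := ‖y‖ - y 2
noncomputable def Wd (y : E3) : ℂ :=
  ((y 0 ^ 2 - y 1 ^ 2) / (2 * lamN y ^ 2)) • (1 : ℂ) + (y 0 * y 1 / lamN y ^ 2) • Complex.I
noncomputable def HN (G : ℂ → ℝ) (y : E3) : ℝ := lamN y * G (Wd y)
noncomputable def HS (v0 v1 : ℝ) (y : E3) : ℝ :=
  (v0 * (y 0 ^ 2 - y 1 ^ 2) + 2 * v1 * (y 0 * y 1)) / lamS y
noncomputable def HH (G : ℂ → ℝ) (v0 v1 : ℝ) (y : E3) : ℝ := if 0 < y 2 then HN G y else HS v0 v1 y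

lemma Wd_re (y : E3) : (Wd y).re = (y 0 ^ 2 - y 1 ^ 2) / (2 * lamN y ^ 2) := by
  unfold Wd
  rw [Complex.add_re, Complex.smul_re, Complex.smul_re, Complex.one_re, Complex.I_re, smul_eq_mul,
    smul_eq_mul]
  ring
lemma Wd_im (y : E3) : (Wd y).im = y 0 * y 1 / lamN y ^ 2 := by
  unfold Wd
  rw [Complex.add_im, Complex.smul_im, Complex.smul_im, Complex.one_im, Complex.I_im, smul_eq_mul,
    smul_eq_mul]
  ring

lemma abs2_le (y : E3) : |y 2| ≤ ‖y‖ := by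
  apply abs_le_of_sq_le_sq _ (norm_nonneg y)
  rw [nsq3]
  nlinarith [sq_nonneg (y 0), sq_nonneg (y 1)]

lemma lamN_nonneg (y : E3) : 0 ≤ lamN y := by
  unfold lamN; have := (abs_le.1 (abs2_le y)).1; linarith
lemma lamS_nonneg (y : E3) : 0 ≤ lamS y := by
  unfold lamS; have := (abs_le.1 (abs2_le y)).2; linarith
lemma lam_sum {y : E3} (hy : y ≠ 0) : 0 < lamN y + lamS y := by
  unfold lamN lamS; have := norm_pos_iff.2 hy; linarith
lemma lam_mul (y : E3) : lamS y * lamN y = y 0 ^ 2 + y 1 ^ 2 := by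
  unfold lamN lamS
  have := nsq3 y
  linear_combination this

lemma Wd_sq {y : E3} (h : 0 < lamN y) : (Wd y).re ^ 2 + (Wd y).im ^ 2 = (lamS y / (2 * lamN y)) ^ 2 := by
  rw [Wd_re, Wd_im]
  have h2 := lam_mul y
  have h3 : lamS y = (y 0 ^ 2 + y 1 ^ 2) / lamN y := by rw [← h2]; field_simp
  rw [h3]
  field_simp
  ring

lemma Wd_norm {y : E3} (h : 0 < lamN y) : ‖Wd y‖ = lamS y / (2 * lamN y) := by
  have h1 : ‖Wd y‖ ^ 2 = (lamS y / (2 * lamN y)) ^ 2 := by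
    rw [← Wd_sq h, Pool.Agent.H120R3.Lw.normsq_eq]
  have h2 := lamS_nonneg y
  exact (pow_left_inj₀ (norm_nonneg _) (by positivity) (by norm_num)).1 h1

/-- data of the planar function used below -/
structure PD (G : ℂ → ℝ) (r1 r2 v0 v1 : ℝ) : Prop where
  sm : ContDiffOn ℝ ∞ G (Metric.ball (0 : ℂ) 1)
  r1pos : 0 < r1
  r1lt : r1 < 1 / 2
  r2gt : 1 / 2 < r2
  r2lt : r2 < 1
  v0pos : 0 < v0
  out : ∀ z : ℂ, r1 < ‖z‖ → ‖z‖ < r2 → G z = (v0 * z.re + v1 * z.im) * ri z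

lemma HN_eq_HS {G : ℂ → ℝ} {r1 r2 v0 v1 : ℝ} (h : PD G r1 r2 v0 v1) {y : E3} (hN : 0 < lamN y)
    (h1 : 2 * r1 * lamN y < lamS y) (h2 : lamS y < 2 * r2 * lamN y) : HN G y = HS v0 v1 y := by
  have hr1 := h.r1pos
  have hS : 0 < lamS y := lt_trans (by positivity) h1
  have hn := Wd_norm hN
  have g1 : r1 < ‖Wd y‖ := by rw [hn, lt_div_iff₀ (by positivity)]; linarith
  have g2 : ‖Wd y‖ < r2 := by rw [hn, div_lt_iff₀ (by positivity)]; linarith
  unfold HN HS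
  rw [h.out _ g1 g2]
  have hri : ri (Wd y) = (lamS y / (2 * lamN y))⁻¹ := by
    unfold Pool.Agent.H120R3.Lw.ri
    rw [Wd_sq hN, Real.sqrt_sq (by positivity)]
  rw [hri, Wd_re, Wd_im]
  field_simp

lemma HH_N {G : ℂ → ℝ} {r1 r2 v0 v1 : ℝ} (h : PD G r1 r2 v0 v1) {y : E3} (hN : 0 < lamN y)
    (h2 : lamS y < 2 * r2 * lamN y) : HH G v0 v1 y = HN G y := by
  unfold HH
  by_cases hy : 0 < y 2
  · simp [hy]
  · simp only [hy, if_false]
    rw [HN_eq_HS h hN _ h2]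
    have h3 : lamN y ≤ lamS y := by unfold lamN lamS; linarith
    have := h.r1lt
    nlinarith

lemma HH_S {G : ℂ → ℝ} {r1 r2 v0 v1 : ℝ} (h : PD G r1 r2 v0 v1) {y : E3}
    (h1 : 2 * r1 * lamN y < lamS y) : HH G v0 v1 y = HS v0 v1 y := by
  unfold HH
  by_cases hy : 0 < y 2
  · simp only [hy, if_true]
    have h3 : lamS y < lamN y := by unfold lamN lamS; linarith
    have h4 : 0 < lamN y := lt_of_le_of_lt (lamS_nonneg y) h3
    apply HN_eq_HS h h4 h1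
    have := h.r2gt
    nlinarith
  · simp [hy]

lemma contDiff_coord (i : Fin 3) : ContDiff ℝ ∞ (fun y : E3 => y i) :=
  (EuclideanSpace.proj i : E3 →L[ℝ] ℝ).contDiff

lemma lamN_cd {y : E3} (hy : y ≠ 0) : ContDiffAt ℝ ∞ lamN y :=
  (contDiffAt_norm ℝ hy).add (contDiff_coord 2).contDiffAt
lemma lamS_cd {y : E3} (hy : y ≠ 0) : ContDiffAt ℝ ∞ lamS y :=
  (contDiffAt_norm ℝ hy).sub (contDiff_coord 2).contDiffAt

lemma HH_cd {G : ℂ → ℝ} {r1 r2 v0 v1 : ℝ} (h : PD G r1 r2 v0 v1) {y : E3} (hy : y ≠ 0) :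
    ContDiffAt ℝ ∞ (HH G v0 v1) y := by
  have hcN : ContinuousAt lamN y := (lamN_cd hy).continuousAt
  have hcS : ContinuousAt lamS y := (lamS_cd hy).continuousAt
  have hsum := lam_sum hy
  have c0 := (contDiff_coord 0).contDiffAt (x := y)
  have c1 := (contDiff_coord 1).contDiffAt (x := y)
  by_cases hV : lamS y < 2 * r2 * lamN y
  · have hN : 0 < lamN y := by
      by_contra h3
      push Not at h3
      have h4 : lamN y = 0 := le_antisymm h3 (lamN_nonneg y)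
      rw [h4] at hV hsum
      linarith [lamS_nonneg y]
    have e : HH G v0 v1 =ᶠ[𝓝 y] HN G := by
      have o1 : ∀ᶠ x in 𝓝 y, 0 < lamN x := hcN.eventually (lt_mem_nhds hN)
      have o2 : ∀ᶠ x in 𝓝 y, lamS x < 2 * r2 * lamN x :=
        hcS.eventually_lt (continuousAt_const.mul hcN) hV
      filter_upwards [o1, o2] with x hx1 hx2 using HH_N h hx1 hx2
    refine ContDiffAt.congr_of_eventuallyEq ?_ e
    have hW : ContDiffAt ℝ ∞ Wd y := by
      unfold Wd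
      have hNc := lamN_cd hy
      have w1 : ContDiffAt ℝ ∞ (fun x : E3 => (x 0 ^ 2 - x 1 ^ 2) / (2 * lamN x ^ 2)) y := by
        apply ((c0.pow 2).sub (c1.pow 2)).div (contDiffAt_const.mul (hNc.pow 2))
        positivity
      have w2 : ContDiffAt ℝ ∞ (fun x : E3 => x 0 * x 1 / lamN x ^ 2) y := by
        apply (c0.mul c1).div (hNc.pow 2)
        positivity
      exact (w1.smul contDiffAt_const).add (w2.smul contDiffAt_const)
    have hWn : ‖Wd y‖ < 1 := by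
      rw [Wd_norm hN, div_lt_iff₀ (by positivity)]
      have := h.r2lt
      nlinarith
    have hG : ContDiffAt ℝ ∞ G (Wd y) :=
      h.sm.contDiffAt (Metric.isOpen_ball.mem_nhds (by simpa using hWn))
    unfold HN
    exact (lamN_cd hy).mul (hG.comp y hW)
  · push Not at hV
    have hSS : 2 * r1 * lamN y < lamS y := by
      rcases (lamN_nonneg y).eq_or_lt with h3 | h3
      · rw [← h3] at hsum ⊢
        linarith
      · have := h.r1lt
        have := h.r2gt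
        nlinarith
    have hSpos : 0 < lamS y := lt_of_le_of_lt (mul_nonneg (by linarith [h.r1pos]) (lamN_nonneg y)) hSS
    have e : HH G v0 v1 =ᶠ[𝓝 y] HS v0 v1 := by
      have o2 : ∀ᶠ x in 𝓝 y, 2 * r1 * lamN x < lamS x :=
        (continuousAt_const.mul hcN).eventually_lt hcS hSS
      filter_upwards [o2] with x hx2 using HH_S h hx2
    refine ContDiffAt.congr_of_eventuallyEq ?_ e
    unfold HS
    refine ContDiffAt.div ?_ (lamS_cd hy) hSpos.ne'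
    exact (contDiffAt_const.mul ((c0.pow 2).sub (c1.pow 2))).add (contDiffAt_const.mul (c0.mul c1))

lemma HH_hom {G : ℂ → ℝ} {v0 v1 s : ℝ} (hs : 0 < s) (y : E3) :
    HH G v0 v1 (s • y) = s * HH G v0 v1 y := by
  have hn : ‖s • y‖ = s * ‖y‖ := by rw [norm_smul, Real.norm_of_nonneg hs.le]
  have hc : ∀ i, (s • y) i = s * y i := fun i => by simp
  have hN : lamN (s • y) = s * lamN y := by unfold lamN; rw [hn, hc]; ring
  have hS : lamS (s • y) = s * lamS y := by unfold lamS; rw [hn, hc]; ring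
  have hW : Wd (s • y) = Wd y := by
    unfold Wd
    rw [hN, hc, hc]
    congr 2
    · rcases eq_or_ne (lamN y) 0 with h | h
      · rw [h]; simp
      · field_simp
    · rcases eq_or_ne (lamN y) 0 with h | h
      · rw [h]; simp
      · field_simp
  unfold HH
  have h2 : 0 < (s • y) 2 ↔ 0 < y 2 := by rw [hc]; exact mul_pos_iff_of_pos_left hs
  by_cases hy : 0 < y 2
  · rw [if_pos hy, if_pos (h2.2 hy)]
    unfold HN
    rw [hN, hW]; ring
  · rw [if_neg hy, if_neg (fun h => hy (h2.1 h))]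
    unfold HS
    rw [hS, hc, hc]
    rcases eq_or_ne (lamS y) 0 with h | h
    · rw [h]; simp
    · field_simp

lemma HH_euler {G : ℂ → ℝ} {r1 r2 v0 v1 : ℝ} (h : PD G r1 r2 v0 v1) {y : E3} (hy : y ≠ 0) :
    fderiv ℝ (HH G v0 v1) y y = HH G v0 v1 y := by
  have h1 : HasFDerivAt (HH G v0 v1) (fderiv ℝ (HH G v0 v1) y) ((1:ℝ) • y) := by
    rw [one_smul]
    exact ((HH_cd h hy).differentiableAt (by simp)).hasFDerivAt
  have h2 : HasDerivAt (fun s : ℝ => s • y) y 1 := by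
    have := (hasDerivAt_id (1:ℝ)).smul_const y
    simpa using this
  have h3 : HasDerivAt (fun s : ℝ => HH G v0 v1 (s • y)) (fderiv ℝ (HH G v0 v1) y y) 1 := by
    have h3' := HasFDerivAt.comp_hasDerivAt (1:ℝ) h1 h2
    exact h3'
  have h4 : HasDerivAt (fun s : ℝ => s * HH G v0 v1 y) (HH G v0 v1 y) 1 := by
    have := (hasDerivAt_id (1:ℝ)).mul_const (HH G v0 v1 y)
    simpa using this
  have h5 : (fun s : ℝ => HH G v0 v1 (s • y)) =ᶠ[𝓝 1] fun s => s * HH G v0 v1 y := by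
    filter_upwards [lt_mem_nhds (show (0:ℝ) < 1 by norm_num)] with s hs using HH_hom hs y
  exact h3.unique (h4.congr_of_eventuallyEq h5)

lemma HH_fd {G : ℂ → ℝ} {r1 r2 v0 v1 : ℝ} (h : PD G r1 r2 v0 v1) {y : E3} (hy : y ≠ 0) :
    HasFDerivAt (fderiv ℝ (HH G v0 v1)) (fderiv ℝ (fderiv ℝ (HH G v0 v1)) y) y := by
  have h1 : ContDiffAt ℝ ∞ (fderiv ℝ (HH G v0 v1)) y := (HH_cd h hy).fderiv_right (by simp)
  exact (h1.differentiableAt (by simp)).hasFDerivAt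

lemma HH_euler2 {G : ℂ → ℝ} {r1 r2 v0 v1 : ℝ} (h : PD G r1 r2 v0 v1) {y : E3} (hy : y ≠ 0) (v : E3) :
    fderiv ℝ (fderiv ℝ (HH G v0 v1)) y v y = 0 := by
  have h1 := (HH_fd h hy).clm_apply (hasFDerivAt_id y)
  have h2 : HasFDerivAt (HH G v0 v1) (fderiv ℝ (HH G v0 v1) y) y :=
    ((HH_cd h hy).differentiableAt (by simp)).hasFDerivAt
  have h3 : (fun x => fderiv ℝ (HH G v0 v1) x (id x)) =ᶠ[𝓝 y] HH G v0 v1 := by
    filter_upwards [isOpen_ne.mem_nhds hy] with x hx using HH_euler h hx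
  have h4 := h1.unique (h2.congr_of_eventuallyEq h3)
  have h5 := congrArg (fun L : E3 →L[ℝ] ℝ => L v) h4
  simpa using h5

lemma HH_symm {G : ℂ → ℝ} {r1 r2 v0 v1 : ℝ} (h : PD G r1 r2 v0 v1) {y : E3} (hy : y ≠ 0) (v w : E3) :
    fderiv ℝ (fderiv ℝ (HH G v0 v1)) y v w = fderiv ℝ (fderiv ℝ (HH G v0 v1)) y w v := by
  have h1 : IsSymmSndFDerivAt ℝ (HH G v0 v1) y := (HH_cd h hy).isSymmSndFDerivAt (by
    rw [minSmoothness_of_isRCLikeNormedField]
    exact ENat.LEInfty.out)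
  exact h1.eq v w

/-! ### cutoff -/

noncomputable def KKf (G : ℂ → ℝ) (v0 v1 : ℝ) (y : E3) : ℝ :=
  smoothTransition (4 * ‖y‖ ^ 2 - 1) * smoothTransition (3 - ‖y‖ ^ 2) * HH G v0 v1 y

lemma KKf_cd {G : ℂ → ℝ} {r1 r2 v0 v1 : ℝ} (h : PD G r1 r2 v0 v1) : ContDiff ℝ ∞ (KKf G v0 v1) := by
  rw [contDiff_iff_contDiffAt]
  intro y
  have hn : ContDiff ℝ ∞ (fun y : E3 => ‖y‖ ^ 2) := contDiff_norm_sq ℝ
  by_cases hy : y = 0
  · subst hy
    have e : KKf G v0 v1 =ᶠ[𝓝 0] fun _ => 0 := by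
      have : ∀ᶠ x : E3 in 𝓝 0, ‖x‖ ^ 2 < 1 / 4 := by
        have := hn.continuous.tendsto 0
        simp only [norm_zero, ne_eq, OfNat.ofNat_ne_zero, not_false_eq_true, zero_pow] at this
        exact this.eventually (gt_mem_nhds (by norm_num))
      filter_upwards [this] with x hx
      unfold KKf
      rw [smoothTransition.zero_of_nonpos (by linarith)]
      ring
    exact contDiffAt_const.congr_of_eventuallyEq e
  · unfold KKf
    have s1 : ContDiff ℝ ∞ (fun y : E3 => smoothTransition (4 * ‖y‖ ^ 2 - 1)) :=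
      st_contDiff.comp ((contDiff_const.mul hn).sub contDiff_const)
    have s2 : ContDiff ℝ ∞ (fun y : E3 => smoothTransition (3 - ‖y‖ ^ 2)) :=
      st_contDiff.comp (contDiff_const.sub hn)
    exact ((s1.mul s2).contDiffAt).mul (HH_cd h hy)

lemma KKf_cs (G : ℂ → ℝ) (v0 v1 : ℝ) : HasCompactSupport (KKf G v0 v1) := by
  apply HasCompactSupport.intro (isCompact_closedBall (0 : E3) 2)
  intro x hx
  have : 2 < ‖x‖ := by simpa using hx
  unfold KKf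
  rw [smoothTransition.zero_of_nonpos (by nlinarith : 3 - ‖x‖ ^ 2 ≤ 0)]
  ring

lemma KKf_near (G : ℂ → ℝ) (v0 v1 : ℝ) {y : E3} (h1 : 1 / 2 < ‖y‖ ^ 2) (h2 : ‖y‖ ^ 2 < 2) :
    KKf G v0 v1 =ᶠ[𝓝 y] HH G v0 v1 := by
  have hn : Continuous (fun y : E3 => ‖y‖ ^ 2) := by fun_prop
  filter_upwards [hn.continuousAt.eventually (lt_mem_nhds h1), hn.continuousAt.eventually (gt_mem_nhds h2)]
    with x hx1 hx2
  unfold KKf
  rw [smoothTransition.one_of_one_le (by linarith), smoothTransition.one_of_one_le (by linarith)]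
  ring

lemma KKf_fd2 (G : ℂ → ℝ) (v0 v1 : ℝ) {y : E3} (h1 : 1 / 2 < ‖y‖ ^ 2) (h2 : ‖y‖ ^ 2 < 2) :
    fderiv ℝ (fderiv ℝ (KKf G v0 v1)) y = fderiv ℝ (fderiv ℝ (HH G v0 v1)) y :=
  (KKf_near G v0 v1 h1 h2).fderiv.fderiv_eq

lemma KKf_euler {G : ℂ → ℝ} {r1 r2 v0 v1 : ℝ} (h : PD G r1 r2 v0 v1) (y : E3) (hy : ‖y‖ = 1) :
    ∀ᶠ x in 𝓝 y, ∀ v, fderiv ℝ (fderiv ℝ (KKf G v0 v1)) x v x = 0 := by
  have hn : Continuous (fun y : E3 => ‖y‖ ^ 2) := by fun_prop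
  have h1 : (1:ℝ) / 2 < ‖y‖ ^ 2 := by rw [hy]; norm_num
  have h2 : ‖y‖ ^ 2 < 2 := by rw [hy]; norm_num
  filter_upwards [hn.continuousAt.eventually (lt_mem_nhds h1), hn.continuousAt.eventually (gt_mem_nhds h2)]
    with x hx1 hx2 v
  rw [KKf_fd2 G v0 v1 hx1 hx2]
  apply HH_euler2 h
  rintro rfl
  simp at hx1
  linarith

end Pool.Agent.H120R3.Ca
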