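import Mathlib
import Pool.Agent.H120R3.CaFin

set_option autoImplicit false

/-!
Umbilic directions.
-/

namespace Pool.Agent.H120R3.Ca

open Real Filter Topology Set
open Pool.Agent.H120R3.Lw (HP HP_re HP_im HP_const ri)
open scoped ContDiff RealInnerProductSpace

/-- chain rule for `G(w²/2)` -/
noncomputable def W2 (w : ℂ) : ℂ := ((w.re ^ 2 - w.im ^ 2) / 2) • (1 : ℂ) + (w.re * w.im) • Complex.I

lemma W2_re (w : ℂ) : (W2 w).re = (w.re ^ 2 - w.im ^ 2) / 2 := by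
  unfold W2
  rw [Complex.add_re, Complex.smul_re, Complex.smul_re, Complex.one_re, Complex.I_re, smul_eq_mul,
    smul_eq_mul]
  ring
lemma W2_im (w : ℂ) : (W2 w).im = w.re * w.im := by
  unfold W2
  rw [Complex.add_im, Complex.smul_im, Complex.smul_im, Complex.one_im, Complex.I_im, smul_eq_mul,
    smul_eq_mul]
  ring

lemma W2_norm (w : ℂ) : ‖W2 w‖ = (w.re ^ 2 + w.im ^ 2) / 2 := by
  have h1 : ‖W2 w‖ ^ 2 = ((w.re ^ 2 + w.im ^ 2) / 2) ^ 2 := by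
    rw [← Pool.Agent.H120R3.Lw.normsq_eq, W2_re, W2_im]; ring
  exact (pow_left_inj₀ (norm_nonneg _) (by positivity) (by norm_num)).1 h1

lemma HP_comp_W2 {G : ℂ → ℝ} {a b : ℝ} {w : ℂ} (h : HP G a b (W2 w)) :
    HP (fun w => G (W2 w)) (a * w.re + b * w.im) (-(a * w.im) + b * w.re) w := by
  have h1 : HP (fun w : ℂ => (w.re ^ 2 - w.im ^ 2) / 2) w.re (-w.im) w := by
    have := (((HP_re w).pow 2).const_mul (1/2)).add (((HP_im w).pow 2).const_mul (-(1/2)))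
    have e : (fun w : ℂ => (w.re ^ 2 - w.im ^ 2) / 2) = fun w => 1 / 2 * w.re ^ 2 + -(1/2) * w.im ^ 2 := by
      funext w; ring
    rw [e]
    refine this.cg ?_ ?_
    · simp
    · simp
  have h2 : HP (fun w : ℂ => w.re * w.im) w.im w.re w := by
    refine ((HP_re w).mul (HP_im w)).cg ?_ ?_ <;> ring
  have h3 : HasFDerivAt W2 _ w := (HasFDerivAt.smul_const h1 (1:ℂ)).add (HasFDerivAt.smul_const h2 Complex.I)
  have h4 : HasFDerivAt (fun w => G (W2 w)) _ w := HasFDerivAt.comp w h h3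
  refine h4.congr_fderiv ?_
  ext v
  simp
  ring

/-- north chart -/
lemma north {G Gx Gy Gxx Gxy Gyx Gyy : ℂ → ℝ} {r1 r2 v0 v1 : ℝ} (h : PD G r1 r2 v0 v1)
    (hG : ∀ z : ℂ, ‖z‖ < 1 → HP G (Gx z) (Gy z) z)
    (hGx : ∀ z : ℂ, ‖z‖ < 1 → HP Gx (Gxx z) (Gxy z) z)
    (hGy : ∀ z : ℂ, ‖z‖ < 1 → HP Gy (Gyx z) (Gyy z) z)
    (hne : ∀ z : ℂ, z ≠ 0 → ‖z‖ ≤ 1 / 2 →
      ¬ (z.re * (Gxx z - Gyy z) + z.im * (Gxy z + Gyx z) + Gx z = 0 ∧
         z.re * (Gxy z + Gyx z) - z.im * (Gxx z - Gyy z) + Gy z = 0))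
    {y : E3} (hy1 : ‖y‖ = 1) (hy2 : 0 ≤ y 2) {c : ℝ}
    (humb : ∀ u v, ⟪u, y⟫ = 0 → ⟪v, y⟫ = 0 → fderiv ℝ (fderiv ℝ (HH G v0 v1)) y u v = c * ⟪u, v⟫) :
    y 0 = 0 ∧ y 1 = 0 := by
  have hy : y ≠ 0 := by rintro rfl; simp at hy1
  obtain ⟨l, hl⟩ : ∃ l, l = lamN y := ⟨_, rfl⟩
  have hlv : l = 1 + y 2 := by rw [hl]; unfold lamN; rw [hy1]
  have hl0 : 0 < l := by linarith
  have hsq := nsq3 y
  rw [hy1] at hsq
  obtain ⟨z, hzd⟩ : ∃ z : ℂ, z = ⟨y 0 / l, y 1 / l⟩ := ⟨_, rfl⟩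
  have hzre : z.re = y 0 / l := by rw [hzd]
  have hzim : z.im = y 1 / l := by rw [hzd]
  have hz2 : z.re ^ 2 + z.im ^ 2 = (1 - y 2) / l := by
    rw [hzre, hzim]
    field_simp
    rw [hlv]
    linear_combination -hsq
  have hz2' : z.re ^ 2 + z.im ^ 2 ≤ 1 := by
    rw [hz2, div_le_one hl0]; linarith
  have hΨ : Psi f0 f1 f2 l 1 z = y := by
    apply ext3
    · rw [Psi0, hzre]; field_simp
    · rw [Psi1, hzim]; field_simp
    · rw [Psi2, hz2]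
      field_simp
      rw [hlv]; ring
  have hr2 := h.r2gt
  have hnear : ∀ᶠ w : ℂ in 𝓝 z, w.re ^ 2 + w.im ^ 2 < 2 * r2 := by
    have hc : Continuous (fun w : ℂ => w.re ^ 2 + w.im ^ 2) := by fun_prop
    exact hc.continuousAt.eventually (gt_mem_nhds (by linarith))
  have hloc : ∀ᶠ w in 𝓝 z, HH G v0 v1 (Psi f0 f1 f2 l 1 w) = l * (fun w => G (W2 w)) w := by
    filter_upwards [hnear] with w hw
    have hnP := norm_Psi hl0 (show (1:ℝ) ^ 2 = 1 by norm_num) w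
    have hN : lamN (Psi f0 f1 f2 l 1 w) = l := by
      unfold lamN; rw [hnP, Psi2]; ring
    have hS : lamS (Psi f0 f1 f2 l 1 w) = l * (w.re ^ 2 + w.im ^ 2) := by
      unfold lamS; rw [hnP, Psi2]; ring
    rw [HH_N h (by rw [hN]; exact hl0) (by rw [hN, hS]; nlinarith)]
    unfold HN
    rw [hN]
    have hW : Wd (Psi f0 f1 f2 l 1 w) = W2 w := by
      apply Complex.ext
      · rw [Wd_re, W2_re, hN, Psi0, Psi1]; field_simp
      · rw [Wd_im, W2_im, hN, Psi0, Psi1]; field_simp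
    rw [hW]
  have hW1 : ∀ w : ℂ, w.re ^ 2 + w.im ^ 2 < 2 * r2 → ‖W2 w‖ < 1 := by
    intro w hw
    rw [W2_norm]; have := h.r2lt; linarith
  have hzW : ‖W2 z‖ < 1 := hW1 z (by linarith)
  have hg : ∀ᶠ w in 𝓝 z, HP (fun w => G (W2 w)) (Gx (W2 w) * w.re + Gy (W2 w) * w.im)
      (-(Gx (W2 w) * w.im) + Gy (W2 w) * w.re) w := by
    filter_upwards [hnear] with w hw using HP_comp_W2 (hG _ (hW1 w hw))
  have dx := HP_comp_W2 (hGx _ hzW)
  have dy := HP_comp_W2 (hGy _ hzW)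
  have hgx : HP (fun w => Gx (W2 w) * w.re + Gy (W2 w) * w.im) _ _ z :=
    (dx.mul (HP_re z)).add (dy.mul (HP_im z))
  have hgy0 := ((dx.mul (HP_im z)).const_mul (-1)).add (dy.mul (HP_re z))
  have ey : (fun w : ℂ => -1 * (Gx (W2 w) * w.im) + Gy (W2 w) * w.re) =
      fun w : ℂ => -(Gx (W2 w) * w.im) + Gy (W2 w) * w.re := by funext w; ring
  rw [ey] at hgy0
  have hHd : ∀ᶠ x in 𝓝 (Psi f0 f1 f2 l 1 z), HasFDerivAt (HH G v0 v1) (fderiv ℝ (HH G v0 v1) x) x := by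
    rw [hΨ]
    filter_upwards [isOpen_ne.mem_nhds hy] with x hx
    exact ((HH_cd h hx).differentiableAt (by simp)).hasFDerivAt
  obtain ⟨c1, c2⟩ := chart f00 f11 f22 f01 f02 f12 hl0 (show (1:ℝ) ^ 2 = 1 by norm_num)
    (fderiv ℝ (HH G v0 v1)) hHd (fderiv ℝ (fderiv ℝ (HH G v0 v1)) y)
    (by rw [hΨ]; exact HH_fd h hy) (by rw [hΨ]; exact fun v => HH_euler2 h hy v)
    (by rw [hΨ]; intro v; rw [HH_symm h hy]; exact HH_euler2 h hy v)
    (by rw [hΨ]; exact humb) hg hgx hgy0 hloc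
  have hzero : W2 z = 0 := by
    by_contra hW0
    apply hne (W2 z) hW0 (by rw [W2_norm]; linarith)
    rw [W2_re, W2_im]
    constructor
    · linear_combination c1 / 2
    · linear_combination c2 / 2
  have h0 : z.re ^ 2 + z.im ^ 2 = 0 := by
    have := W2_norm z
    rw [hzero, norm_zero] at this
    linarith
  have hre : z.re = 0 := by nlinarith [sq_nonneg z.re, sq_nonneg z.im]
  have him : z.im = 0 := by nlinarith [sq_nonneg z.re, sq_nonneg z.im]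
  rw [hzre, div_eq_zero_iff] at hre
  rw [hzim, div_eq_zero_iff] at him
  exact ⟨hre.resolve_right hl0.ne', him.resolve_right hl0.ne'⟩

/-- south chart -/
lemma south {G : ℂ → ℝ} {r1 r2 v0 v1 : ℝ} (h : PD G r1 r2 v0 v1)
    {y : E3} (hy1 : ‖y‖ = 1) (hy2 : y 2 < 0) {c : ℝ}
    (humb : ∀ u v, ⟪u, y⟫ = 0 → ⟪v, y⟫ = 0 → fderiv ℝ (fderiv ℝ (HH G v0 v1)) y u v = c * ⟪u, v⟫) :
    False := by
  have hy : y ≠ 0 := by rintro rfl; simp at hy1
  obtain ⟨l, hl⟩ : ∃ l, l = lamS y := ⟨_, rfl⟩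
  have hlv : l = 1 - y 2 := by rw [hl]; unfold lamS; rw [hy1]
  have hl0 : 0 < l := by linarith
  have hsq := nsq3 y
  rw [hy1] at hsq
  obtain ⟨z, hzd⟩ : ∃ z : ℂ, z = ⟨y 0 / l, y 1 / l⟩ := ⟨_, rfl⟩
  have hzre : z.re = y 0 / l := by rw [hzd]
  have hzim : z.im = y 1 / l := by rw [hzd]
  have hz2 : z.re ^ 2 + z.im ^ 2 = (1 + y 2) / l := by
    rw [hzre, hzim]
    field_simp
    rw [hlv]
    linear_combination -hsq
  have hz2' : z.re ^ 2 + z.im ^ 2 < 1 := by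
    rw [hz2, div_lt_one hl0]; linarith
  have hσ : (-1:ℝ) ^ 2 = 1 := by norm_num
  have hΨ : Psi f0 f1 f2 l (-1) z = y := by
    apply ext3
    · rw [Psi0, hzre]; field_simp
    · rw [Psi1, hzim]; field_simp
    · rw [Psi2, hz2]
      field_simp
      rw [hlv]; ring
  have hr1 := h.r1lt
  have hnear : ∀ᶠ w : ℂ in 𝓝 z, w.re ^ 2 + w.im ^ 2 < 1 := by
    have hc : Continuous (fun w : ℂ => w.re ^ 2 + w.im ^ 2) := by fun_prop
    exact hc.continuousAt.eventually (gt_mem_nhds hz2')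
  have hloc : ∀ᶠ w in 𝓝 z, HH G v0 v1 (Psi f0 f1 f2 l (-1) w) =
      l * (fun w : ℂ => v0 * (w.re ^ 2 + -1 * w.im ^ 2) + 2 * v1 * (w.re * w.im)) w := by
    filter_upwards [hnear] with w hw
    have hnP := norm_Psi hl0 hσ w
    have hN : lamN (Psi f0 f1 f2 l (-1) w) = l * (w.re ^ 2 + w.im ^ 2) := by
      unfold lamN; rw [hnP, Psi2]; ring
    have hS : lamS (Psi f0 f1 f2 l (-1) w) = l := by
      unfold lamS; rw [hnP, Psi2]; ring
    rw [HH_S h (by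
      rw [hN, hS]
      have h5 : l * (w.re ^ 2 + w.im ^ 2) < l * 1 := mul_lt_mul_of_pos_left hw hl0
      have h6 : 0 ≤ l * (w.re ^ 2 + w.im ^ 2) := by positivity
      have := h.r1pos
      nlinarith)]
    unfold HS
    rw [hS, Psi0, Psi1]
    field_simp
    ring
  have hg0 : ∀ w : ℂ, HP (fun w : ℂ => v0 * (w.re ^ 2 + -1 * w.im ^ 2) + 2 * v1 * (w.re * w.im))
      (2 * v0 * w.re + 2 * v1 * w.im) (-(2 * v0) * w.im + 2 * v1 * w.re) w := by
    intro w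
    have h5 := ((((HP_re w).pow 2).add (((HP_im w).pow 2).const_mul (-1))).const_mul v0).add
      (((HP_re w).mul (HP_im w)).const_mul (2 * v1))
    refine h5.cg ?_ ?_
    · simp; ring
    · simp; ring
  have hgx : HP (fun w : ℂ => 2 * v0 * w.re + 2 * v1 * w.im) (2 * v0) (2 * v1) z := by
    refine (((HP_re z).const_mul (2 * v0)).add ((HP_im z).const_mul (2 * v1))).cg ?_ ?_ <;> ring
  have hgy : HP (fun w : ℂ => -(2 * v0) * w.im + 2 * v1 * w.re) (2 * v1) (-(2 * v0)) z := by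
    refine (((HP_im z).const_mul (-(2 * v0))).add ((HP_re z).const_mul (2 * v1))).cg ?_ ?_ <;> ring
  have hHd : ∀ᶠ x in 𝓝 (Psi f0 f1 f2 l (-1) z), HasFDerivAt (HH G v0 v1) (fderiv ℝ (HH G v0 v1) x) x := by
    rw [hΨ]
    filter_upwards [isOpen_ne.mem_nhds hy] with x hx
    exact ((HH_cd h hx).differentiableAt (by simp)).hasFDerivAt
  obtain ⟨c1, c2⟩ := chart f00 f11 f22 f01 f02 f12 hl0 hσ
    (fderiv ℝ (HH G v0 v1)) hHd (fderiv ℝ (fderiv ℝ (HH G v0 v1)) y)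
    (by rw [hΨ]; exact HH_fd h hy) (by rw [hΨ]; exact fun v => HH_euler2 h hy v)
    (by rw [hΨ]; intro v; rw [HH_symm h hy]; exact HH_euler2 h hy v)
    (by rw [hΨ]; exact humb) (Eventually.of_forall hg0) hgx hgy hloc
  have := h.v0pos
  linarith

/-- the final object -/
theorem final_surface : ∃ F : E3 → ℝ, (∀ n : ℕ, ContDiff ℝ n F) ∧ IsCompact {x : E3 | F x = 0} ∧
    (∀ x, F x = 0 → fderiv ℝ F x ≠ 0) ∧
    Nonempty (↥{x : E3 | F x = 0} ≃ₜ ↥(Metric.sphere (0 : E3) 1)) ∧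
    ¬ ∃ p q : E3, F p = 0 ∧ F q = 0 ∧ p ≠ q ∧
      (∃ c : ℝ, ∀ u v : E3, fderiv ℝ F p u = 0 → fderiv ℝ F p v = 0 →
          fderiv ℝ (fderiv ℝ F) p u v = c * inner ℝ u v) ∧
      (∃ c : ℝ, ∀ u v : E3, fderiv ℝ F q u = 0 → fderiv ℝ F q v = 0 →
          fderiv ℝ (fderiv ℝ F) q u v = c * inner ℝ u v) := by
  obtain ⟨G, Gx, Gy, Gxx, Gxy, Gyx, Gyy, r1, r2, v0, v1, g1, g2, g3, g4, g5, g6, g7, g8, g9, g10, g11⟩ :=
    construction
  have hPD : PD G r1 r2 v0 v1 := ⟨g1, g6, g7, g8, g9, g10, g11⟩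
  obtain ⟨F, Φ, k1, k2, k3, k4⟩ := geo (KKf_cd hPD) (KKf_cs G v0 v1) (KKf_euler hPD)
  have hiff : ∀ x, F x = 0 ↔ ‖Φ.symm x‖ = 1 := by
    intro x
    rw [k2]
    have hn := norm_nonneg (Φ.symm x)
    constructor
    · intro h; nlinarith
    · intro h; rw [h]; norm_num
  refine ⟨F, fun n => k1.of_le (by exact_mod_cast le_top), ?_, k3, ?_, ?_⟩
  · have e : {x : E3 | F x = 0} = Φ.symm ⁻¹' (Metric.sphere (0 : E3) 1) := by
      ext x
      simp [hiff]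
    rw [e]
    exact Φ.symm.isCompact_preimage.2 (isCompact_sphere _ _)
  · exact ⟨Φ.symm.subtype (fun x => by simp [hiff])⟩
  · rintro ⟨p, q, hp, hq, hpq, up, uq⟩
    have key : ∀ x, F x = 0 → (∃ c : ℝ, ∀ u v : E3, fderiv ℝ F x u = 0 → fderiv ℝ F x v = 0 →
          fderiv ℝ (fderiv ℝ F) x u v = c * inner ℝ u v) → Φ.symm x = f2 := by
      intro x hx hux
      obtain ⟨c, hc⟩ := k4 x hx hux
      have hn : ‖Φ.symm x‖ = 1 := (hiff x).1 hx
      rw [KKf_fd2 G v0 v1 (by rw [hn]; norm_num) (by rw [hn]; norm_num)] at hc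
      have hs := nsq3 (Φ.symm x)
      rw [hn] at hs
      rcases lt_or_ge ((Φ.symm x) 2) 0 with h2 | h2
      · exact absurd (south hPD hn h2 hc) (by simp)
      · obtain ⟨h0, h1⟩ := north hPD g2 g3 g4 g5 hn h2 hc
        rw [h0, h1] at hs
        have h3 : (Φ.symm x) 2 = 1 := by nlinarith
        apply ext3
        · rw [h0]; simp [f2]
        · rw [h1]; simp [f2]
        · rw [h3]; simp [f2]
    have e1 := key p hp up
    have e2 := key q hq uq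
    apply hpq
    have : Φ.symm p = Φ.symm q := by rw [e1, e2]
    exact Φ.symm.injective this

end Pool.Agent.H120R3.Ca
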