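import Mathlib

set_option autoImplicit false

/-!
Combinatorial part for Feynman checkers: path sums and the integer array
`lam A B = ∑ (-1)^s C(A,s) C(B,s)`.
-/

namespace Pool.Agent.H120R3.Checkers

open Finset

/-- alternating sum of products of binomials -/
def lam (A B : ℕ) : ℤ := ∑ s ∈ range (B + 1), (-1 : ℤ) ^ s * (A.choose s : ℤ) * (B.choose s : ℤ)

/-- We may sum over a larger range. -/
lemma lam_eq_range {A B K : ℕ} (h : B ≤ K) :
    lam A B = ∑ s ∈ range (K + 1), (-1 : ℤ) ^ s * (A.choose s : ℤ) * (B.choose s : ℤ) := by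
  unfold lam
  apply Finset.sum_subset
  · intro s hs
    simp only [mem_range] at hs ⊢
    omega
  · intro s _ hs
    simp only [mem_range, not_lt] at hs
    have : B.choose s = 0 := Nat.choose_eq_zero_of_lt (by omega)
    simp [this]

lemma lam_zero_left (B : ℕ) : lam 0 B = 1 := by
  unfold lam
  rw [Finset.sum_eq_single 0]
  · simp
  · intro s _ hs
    have : (0 : ℕ).choose s = 0 := Nat.choose_eq_zero_of_lt (by omega)
    simp [this]
  · simp

lemma lam_zero_right (A : ℕ) : lam A 0 = 1 := by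
  unfold lam
  simp

/-- weighted sum -/
def mu (A B : ℕ) : ℤ := ∑ s ∈ range (A + B + 1), (-1 : ℤ) ^ s * (s : ℤ) * (A.choose s : ℤ) * (B.choose s : ℤ)

lemma choose_diff (A s : ℕ) :
    ((A : ℤ) + 1) * (((A + 1).choose s : ℤ) - (A.choose s : ℤ)) = (s : ℤ) * ((A + 1).choose s : ℤ) := by
  have h := Nat.choose_mul_succ_eq A s
  -- A.choose s * (A+1) = (A+1).choose s * (A+1-s)
  by_cases hs : s ≤ A + 1
  · have h2 : ((A.choose s : ℤ)) * ((A : ℤ) + 1) = ((A + 1).choose s : ℤ) * ((A : ℤ) + 1 - s) := by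
      have := congrArg (fun n : ℕ => (n : ℤ)) h
      push_cast [Nat.cast_sub hs] at this
      simpa using this
    linear_combination -h2
  · have h1 : (A + 1).choose s = 0 := Nat.choose_eq_zero_of_lt (by omega)
    have h2 : A.choose s = 0 := Nat.choose_eq_zero_of_lt (by omega)
    simp [h1, h2]

/-- boost relation, one side (left index) -/
lemma lam_diff_left (A B : ℕ) :
    ((A : ℤ) + 1) * (lam (A + 1) B - lam A B) =
      ∑ s ∈ range (A + B + 5), (-1 : ℤ) ^ s * (s : ℤ) * ((A + 1).choose s : ℤ) * (B.choose s : ℤ) := by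
  rw [lam_eq_range (A := A + 1) (B := B) (K := A + B + 4) (by omega),
    lam_eq_range (A := A) (B := B) (K := A + B + 4) (by omega), ← Finset.sum_sub_distrib,
    Finset.mul_sum]
  apply Finset.sum_congr rfl
  intro s _
  have h := choose_diff A s
  linear_combination ((-1 : ℤ) ^ s * (B.choose s : ℤ)) * h

lemma lam_diff_right (A B : ℕ) :
    ((B : ℤ) + 1) * (lam A (B + 1) - lam A B) =
      ∑ s ∈ range (A + B + 5), (-1 : ℤ) ^ s * (s : ℤ) * (A.choose s : ℤ) * ((B + 1).choose s : ℤ) := by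
  rw [lam_eq_range (A := A) (B := B + 1) (K := A + B + 4) (by omega),
    lam_eq_range (A := A) (B := B) (K := A + B + 4) (by omega), ← Finset.sum_sub_distrib,
    Finset.mul_sum]
  apply Finset.sum_congr rfl
  intro s _
  have h := choose_diff B s
  linear_combination ((-1 : ℤ) ^ s * (A.choose s : ℤ)) * h

/-- The first order relation `A(λ(A,B) - λ(A-1,B)) = B(λ(A,B) - λ(A,B-1))`. -/
lemma lam_boost (A B : ℕ) :
    ((A : ℤ) + 1) * (lam (A + 1) (B + 1) - lam A (B + 1)) =
      ((B : ℤ) + 1) * (lam (A + 1) (B + 1) - lam (A + 1) B) := by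
  rw [lam_diff_left, lam_diff_right]
  apply Finset.sum_congr
  · congr 1; omega
  · intro s _; rfl

/-- Pascal rule for `lam`. -/
lemma lam_pascal (A B : ℕ) :
    lam (A + 1) (B + 1) = lam (A + 1) B + lam A (B + 1) - 2 * lam A B := by
  rw [lam_eq_range (A := A + 1) (B := B + 1) (K := B + 1) le_rfl,
    lam_eq_range (A := A + 1) (B := B) (K := B + 1) (by omega),
    lam_eq_range (A := A) (B := B + 1) (K := B + 1) le_rfl]
  -- all sums over range (B+2); lam A B over range (B+1)
  have e1 : ∀ (f : ℕ → ℤ), ∑ s ∈ range (B + 1 + 1), f s = ∑ s ∈ range (B + 1), f (s + 1) + f 0 := by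
    intro f
    rw [Finset.sum_range_succ']
  rw [e1, e1, e1]
  unfold lam
  rw [Finset.mul_sum]
  have hz : ∀ x y z w : ℤ, ∀ a b c d : ℤ, x + a = (y + b) + (z + c) - w ↔ x - y - z + w = b + c - a := by
    intros; constructor <;> intro h <;> linarith
  rw [hz _ _ _ _ _ _ _ 0]
  rw [← Finset.sum_sub_distrib, ← Finset.sum_sub_distrib, ← Finset.sum_add_distrib]
  simp only [pow_zero, Nat.choose_zero_right, Nat.cast_one, mul_one]
  have : (∑ i ∈ range (B + 1),
      ((-1 : ℤ) ^ (i + 1) * ((A + 1).choose (i + 1) : ℤ) * ((B + 1).choose (i + 1) : ℤ) -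
        (-1) ^ (i + 1) * ((A + 1).choose (i + 1) : ℤ) * (B.choose (i + 1) : ℤ) -
        (-1) ^ (i + 1) * (A.choose (i + 1) : ℤ) * ((B + 1).choose (i + 1) : ℤ) +
        2 * ((-1) ^ i * (A.choose i : ℤ) * (B.choose i : ℤ)))) =
      ∑ i ∈ range (B + 1), (((-1 : ℤ) ^ i * (A.choose i : ℤ) * (B.choose i : ℤ))
        - ((-1 : ℤ) ^ (i + 1) * (A.choose (i + 1) : ℤ) * (B.choose (i + 1) : ℤ))) := by
    apply Finset.sum_congr rfl
    intro i _
    have hA : ((A + 1).choose (i + 1) : ℤ) = (A.choose i : ℤ) + (A.choose (i + 1) : ℤ) := by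
      exact_mod_cast Nat.choose_succ_succ A i
    have hB : ((B + 1).choose (i + 1) : ℤ) = (B.choose i : ℤ) + (B.choose (i + 1) : ℤ) := by
      exact_mod_cast Nat.choose_succ_succ B i
    rw [hA, hB]
    ring
  rw [this, Finset.sum_range_sub' (fun i => (-1 : ℤ) ^ i * (A.choose i : ℤ) * (B.choose i : ℤ))]
  simp

/-- Three term recurrence along an antidiagonal. -/
lemma lam_three_term (a b : ℕ) :
    let A : ℤ := (a : ℤ) + 1
    let B : ℤ := (b : ℤ) + 1
    let d : ℤ := A - B
    (d + 1) * A * (B + 1) * lam a (b + 2) + (d - 1) * B * (A + 1) * lam (a + 2) b =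
      ((d + 1) * A ^ 2 + (d - 1) * B ^ 2 - 2 * d * (d ^ 2 - 1)) * lam (a + 1) (b + 1) := by
  intro A B d
  -- p0 = lam (a+1)(b+1), pm = lam a (b+2), pp = lam (a+2) b
  -- q1 = lam a (b+1), q2 = lam (a+1) b, r1 = lam (a+2) (b+1), r2 = lam (a+1) (b+2)
  have h1 := lam_boost a b
  have h2 := lam_boost (a + 1) b
  have h3 := lam_boost a (b + 1)
  have h4 := lam_pascal (a + 1) b
  have h5 := lam_pascal a (b + 1)
  simp only [Nat.cast_add, Nat.cast_one, add_assoc, one_add_one_eq_two] at h1 h2 h3 h4 h5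
  generalize lam (a + 1) (b + 1) = p0 at *
  generalize lam a (b + 2) = pm at *
  generalize lam (a + 2) b = pp at *
  generalize lam a (b + 1) = q1 at *
  generalize lam (a + 1) b = q2 at *
  generalize lam (a + 2) (b + 1) = r1 at *
  generalize lam (a + 1) (b + 2) = r2 at *
  linear_combination (2 * (d ^ 2 - 1)) * h1 + ((d ^ 2 - 1) * A) * h5 - ((d ^ 2 - 1) * B) * h4
    - ((d + 1) * A) * h3 + ((d - 1) * B) * h2

end Pool.Agent.H120R3.Checkers
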