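import Mathlib
import Pool.Agent.H120R3.CheckersComb

set_option autoImplicit false

/-!
Path sums of Feynman checkers.
-/

namespace Pool.Agent.H120R3.Checkers

open Finset

/-- step value -/
def stp (b : Bool) : ℤ := if b then 1 else -1

/-- number of turns of a path -/
def turns (n : ℕ) (s : Fin (n + 1) → Bool) : ℕ :=
  (Finset.univ.filter (fun i : Fin n => s i.castSucc ≠ s i.succ)).card

/-- amplitude with given first step -/
noncomputable def amp (n : ℕ) (b : Bool) (y : ℤ) : ℂ :=
  ∑ s ∈ Finset.univ.filter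
    (fun s : Fin (n + 1) → Bool => s 0 = b ∧ ∑ i, (if s i then (1:ℤ) else -1) = y),
    (-Complex.I) ^ (turns n s)

lemma amp_eq (n : ℕ) (b : Bool) (y : ℤ) :
    amp n b y = ∑ s : Fin (n + 1) → Bool,
      if s 0 = b ∧ ∑ i, stp (s i) = y then (-Complex.I) ^ (turns n s) else 0 := by
  unfold amp stp
  rw [Finset.sum_filter]

lemma turns_cons (n : ℕ) (b : Bool) (s : Fin (n + 1) → Bool) :
    turns (n + 1) (Fin.cons b s : Fin (n + 2) → Bool) = (if b ≠ s 0 then 1 else 0) + turns n s := by
  unfold turns
  rw [Finset.card_filter, Finset.card_filter, Fin.sum_univ_succ]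
  congr 1

lemma sum_cons (n : ℕ) (b : Bool) (s : Fin (n + 1) → Bool) :
    ∑ i, stp ((Fin.cons b s : Fin (n + 2) → Bool) i) = stp b + ∑ i, stp (s i) := by
  rw [Fin.sum_univ_succ]
  simp

lemma amp_succ (n : ℕ) (b : Bool) (y : ℤ) :
    amp (n + 1) b y = amp n b (y - stp b) + (-Complex.I) * amp n (!b) (y - stp b) := by
  rw [amp_eq, amp_eq, amp_eq]
  rw [← (Fin.consEquiv (fun _ : Fin (n + 2) => Bool)).sum_comp, Fintype.sum_prod_type]
  rw [Finset.mul_sum, ← Finset.sum_add_distrib]
  rw [Finset.sum_comm]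
  apply Finset.sum_congr rfl
  intro s _
  simp only [Fin.consEquiv, Equiv.coe_fn_mk, Fin.cons_zero, sum_cons, turns_cons]
  rw [Fintype.sum_bool]
  have hy : ∀ c : Bool, (stp c + ∑ i, stp (s i) = y) ↔ (∑ i, stp (s i) = y - stp c) := by
    intro c; constructor <;> intro h <;> linarith
  cases b <;> cases h0 : s 0 <;> simp [hy, pow_succ, pow_add, mul_comm]

lemma amp_zero (b : Bool) (y : ℤ) : amp 0 b y = if stp b = y then 1 else 0 := by
  rw [amp_eq]
  have hs : ∀ s : Fin 1 → Bool, turns 0 s = 0 := by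
    intro s; simp [turns]
  rw [Finset.sum_eq_single (fun _ => b)]
  · simp [hs]
  · intro s _ hne
    have : s 0 ≠ b := by
      intro h
      apply hne
      funext i
      have : i = 0 := by
        apply Fin.ext
        have := i.isLt
        simp only [Fin.val_zero]
        omega
      rw [this, h]
    simp [this]
  · simp

/-- support: parity and range -/
lemma amp_support (n : ℕ) : ∀ (b : Bool) (y : ℤ), amp n b y ≠ 0 →
    (y ≤ n + 1 ∧ -(n + 1 : ℤ) ≤ y ∧ (y + n + 1) % 2 = 0) := by
  induction n with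
  | zero =>
    intro b y h
    rw [amp_zero] at h
    have : stp b = y := by
      by_contra hh
      simp [hh] at h
    subst this
    cases b <;> simp [stp]
  | succ n ih =>
    intro b y h
    rw [amp_succ] at h
    have hor : amp n b (y - stp b) ≠ 0 ∨ amp n (!b) (y - stp b) ≠ 0 := by
      by_contra hh
      push Not at hh
      simp [hh.1, hh.2] at h
    have key : (y - stp b ≤ n + 1 ∧ -(n + 1 : ℤ) ≤ y - stp b ∧ (y - stp b + n + 1) % 2 = 0) := by
      rcases hor with h1 | h1
      · exact ih b _ h1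
      · exact ih (!b) _ h1
    obtain ⟨k1, k2, k3⟩ := key
    cases b
    · simp only [stp, Bool.false_eq_true, ↓reduceIte] at k1 k2 k3
      push_cast
      refine ⟨by omega, by omega, by omega⟩
    · simp only [stp, ↓reduceIte] at k1 k2 k3
      push_cast
      refine ⟨by omega, by omega, by omega⟩

lemma amp_top (n : ℕ) : amp n true (n + 1) = 1 ∧ amp n false (n + 1) = 0 := by
  induction n with
  | zero => simp [amp_zero, stp]
  | succ n ih =>
    rw [amp_succ, amp_succ]
    have e1 : ((n + 1 : ℕ) : ℤ) + 1 - stp true = n + 1 := by simp [stp]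
    rw [e1]
    have z : ∀ b, amp n b (((n + 1 : ℕ) : ℤ) + 1 - stp false) = 0 := by
      intro b
      by_contra h
      have := (amp_support n b _ h).1
      simp [stp] at this
    rw [z, z, Bool.not_true, ih.1, ih.2]
    constructor <;> ring

lemma amp_bot (n : ℕ) : amp n true (-(n + 1 : ℤ)) = 0 ∧ amp n false (-(n + 1 : ℤ)) = 1 := by
  induction n with
  | zero => simp [amp_zero, stp]
  | succ n ih =>
    rw [amp_succ, amp_succ]
    have e1 : -(((n + 1 : ℕ) : ℤ) + 1) - stp false = -(n + 1 : ℤ) := by simp [stp]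
    rw [e1]
    have z : ∀ b, amp n b (-(((n + 1 : ℕ) : ℤ) + 1) - stp true) = 0 := by
      intro b
      by_contra h
      have := (amp_support n b _ h).2.1
      simp [stp] at this
    rw [z, z, Bool.not_false, ih.1, ih.2]
    constructor <;> ring

/-- Closed form. -/
lemma amp_closed (n : ℕ) : ∀ A B : ℕ, n = A + B + 1 →
    amp n true ((A : ℤ) - B) = ((lam A (B + 1) - lam A B : ℤ) : ℂ) - Complex.I * (lam A B : ℤ) ∧
    amp n false ((A : ℤ) - B) = ((lam (A + 1) B - lam A B : ℤ) : ℂ) - Complex.I * (lam A B : ℤ) := by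
  induction n with
  | zero => intro A B h; omega
  | succ n ih =>
    intro A B h
    have hAB : n = A + B := by omega
    constructor
    · rw [amp_succ]
      simp only [stp, ↓reduceIte, Bool.not_true]
      rcases Nat.eq_zero_or_pos A with hA | hA
      · subst hA
        have e : ((0 : ℕ) : ℤ) - B - 1 = -(n + 1 : ℤ) := by push_cast [hAB]; ring
        rw [e, (amp_bot n).1, (amp_bot n).2]
        simp [lam_zero_left]
      · obtain ⟨a, rfl⟩ : ∃ a, A = a + 1 := ⟨A - 1, by omega⟩
        have e : ((a + 1 : ℕ) : ℤ) - B - 1 = (a : ℤ) - B := by push_cast; ring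
        rw [e]
        obtain ⟨h1, h2⟩ := ih a B (by omega)
        rw [h1, h2]
        have hp := lam_pascal a B
        have hp' : ((lam (a + 1) (B + 1) : ℤ) : ℂ) = (lam (a + 1) B : ℤ) + (lam a (B + 1) : ℤ)
            - 2 * (lam a B : ℤ) := by rw [hp]; push_cast; ring
        push_cast
        rw [hp']
        ring_nf
        rw [Complex.I_sq]
        ring
    · rw [amp_succ]
      simp only [stp, Bool.false_eq_true, ↓reduceIte, Bool.not_false]
      rcases Nat.eq_zero_or_pos B with hB | hB
      · subst hB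
        have e : (A : ℤ) - ((0 : ℕ) : ℤ) - -1 = (n + 1 : ℤ) := by push_cast [hAB]; ring
        rw [e, (amp_top n).1, (amp_top n).2]
        simp [lam_zero_right]
      · obtain ⟨b, rfl⟩ : ∃ b, B = b + 1 := ⟨B - 1, by omega⟩
        have e : (A : ℤ) - ((b + 1 : ℕ) : ℤ) - -1 = (A : ℤ) - b := by push_cast; ring
        rw [e]
        obtain ⟨h1, h2⟩ := ih A b (by omega)
        rw [h1, h2]
        have hp := lam_pascal A b
        have hp' : ((lam (A + 1) (b + 1) : ℤ) : ℂ) = (lam (A + 1) b : ℤ) + (lam A (b + 1) : ℤ)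
            - 2 * (lam A b : ℤ) := by rw [hp]; push_cast; ring
        push_cast
        rw [hp']
        ring_nf
        rw [Complex.I_sq]
        ring

/-- Squared modulus. -/
lemma amp_normSq (A B : ℕ) :
    ‖amp (A + B + 1) true ((A : ℤ) - B)‖ ^ 2 =
      ((lam A (B + 1) : ℝ) - lam A B) ^ 2 + (lam A B : ℝ) ^ 2 := by
  rw [(amp_closed _ A B rfl).1]
  rw [← Complex.normSq_eq_norm_sq, Complex.normSq_apply]
  simp
  ring

end Pool.Agent.H120R3.Checkers
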