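import Mathlib
import Pool.Agent.H120R3.CheckersPath

set_option autoImplicit false

/-!
Analysis along an antidiagonal (fixed time): the alternating sequence `G N B = (-1)^B λ(N-B,B)`
is positive and strictly increasing in `B` for `N - 2B ≥ (N+1)/√2 - Y`, `N` large.
-/

namespace Pool.Agent.H120R3.Checkers

open Finset

/-- the alternated antidiagonal sequence -/
noncomputable def G (N B : ℕ) : ℝ := (-1 : ℝ) ^ B * (lam (N - B) B : ℝ)

lemma G_zero (N : ℕ) : G N 0 = 1 := by simp [G, lam_zero_right]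

lemma lam_one_right (A : ℕ) : lam A 1 = 1 - A := by
  unfold lam
  rw [Finset.sum_range_succ, Finset.sum_range_succ]
  simp
  ring

lemma G_one (N : ℕ) (h : 1 ≤ N) : G N 1 = N - 2 := by
  unfold G
  rw [lam_one_right]
  have : ((N - 1 : ℕ) : ℤ) = (N : ℤ) - 1 := by omega
  rw [this]
  push_cast
  ring

lemma G_rec (N B : ℕ) (h1 : 1 ≤ B) (h2 : B < N) :
    let A : ℝ := (N : ℝ) - B
    let d : ℝ := (N : ℝ) - 2 * B
    ((d + 1) * A * ((B : ℝ) + 1)) * (G N (B + 1) - G N B) =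
      ((d - 1) * B * (A + 1)) * (G N B - G N (B - 1))
        + (d * (2 * d ^ 2 - ((N : ℝ) + 1) ^ 2 - 2)) * G N B := by
  intro A d
  obtain ⟨b, rfl⟩ : ∃ b, B = b + 1 := ⟨B - 1, by omega⟩
  obtain ⟨a, rfl⟩ : ∃ a, N = a + b + 2 := ⟨N - b - 2, by omega⟩
  have ht := lam_three_term a b
  simp only at ht
  have hR := congrArg (fun n : ℤ => (n : ℝ)) ht
  push_cast at hR
  have e1 : a + b + 2 - (b + 1 + 1) = a := by omega
  have e2 : a + b + 2 - (b + 1) = a + 1 := by omega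
  have e3 : a + b + 2 - (b + 1 - 1) = a + 2 := by omega
  unfold G
  rw [e1, e2, e3]
  have e4 : b + 1 - 1 = b := by omega
  rw [e4]
  simp only [A, d]
  push_cast
  rw [pow_succ (-1 : ℝ) (b + 1), pow_succ (-1 : ℝ) b]
  have hb2 : b + 1 + 1 = b + 2 := rfl
  rw [hb2]
  linear_combination ((-1 : ℝ) ^ b) * hR


lemma beta_alpha (N d A B : ℝ) (hN : 0 < N) (hdl : N / 2 ≤ d) (hd1 : 1 ≤ d)
    (hBl : N / 8 ≤ B) (hAl : N / 2 ≤ A) :
    (N - 12) * ((d + 1) * A * (B + 1)) ≤ N * ((d - 1) * B * (A + 1)) := by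
  have hA0 : 0 < A := by linarith
  have hB0 : 0 < B := by linarith
  have hAB : 0 ≤ A * B := by positivity
  have h1 : N * (2 * (A * B)) ≤ 4 * ((d + 1) * (A * B)) := by
    have : (2 * N) * (A * B) ≤ (4 * (d + 1)) * (A * B) :=
      mul_le_mul_of_nonneg_right (by linarith) hAB
    linarith
  have hdA : 0 ≤ (d + 1) * A := by
    have : 0 ≤ d + 1 := by linarith
    positivity
  have h2 : N * ((d + 1) * A) ≤ 8 * ((d + 1) * A * (B + 1)) := by
    have : N * ((d + 1) * A) ≤ (8 * (B + 1)) * ((d + 1) * A) :=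
      mul_le_mul_of_nonneg_right (by linarith) hdA
    linarith
  have h3 : 0 ≤ N * ((d - 1) * B) := by
    have : 0 ≤ d - 1 := by linarith
    positivity
  have h4 : 0 ≤ 4 * ((d + 1) * A) := by linarith
  have e : N * ((d - 1) * B * (A + 1)) - (N - 12) * ((d + 1) * A * (B + 1))
      = (4 * ((d + 1) * (A * B)) - N * (2 * (A * B)))
        + (8 * ((d + 1) * A * (B + 1)) - N * ((d + 1) * A))
        + N * ((d - 1) * B) + 4 * ((d + 1) * A) := by ring
  linarith

lemma gamma_alpha (N d A B c Y D y : ℝ)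
    (hA : A = (N + d) / 2) (hB : B = (N - d) / 2) (hd : d = c + y)
    (hc2 : 2 * c ^ 2 = (N + 1) ^ 2) (hcl : 0.7 * (N + 1) ≤ c) (hcu : c ≤ 0.71 * (N + 1))
    (hY : 1 ≤ Y) (hD : D = 64 * Y + 2) (hyl : -Y ≤ y)
    (hN : 100 * (Y + 1) ≤ N) (hdl : N / 2 ≤ d) (hBl : N / 8 ≤ B) (hAl : N / 2 ≤ A) :
    (y - D) * ((d + 1) * A * (B + 1)) ≤ N * (d * (2 * d ^ 2 - (N + 1) ^ 2 - 2)) := by
  have hNpos : 0 < N := by linarith
  have hfac : 2 * d ^ 2 - (N + 1) ^ 2 - 2 = 2 * y * (2 * c + y) - 2 := by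
    rw [← hc2, hd]; ring
  rw [hfac]
  have hAB : A * (B + 1) ≤ (N + 1) ^ 2 / 4 := by
    have e : A * (B + 1) = ((N + 1) ^ 2 - (d - 1) ^ 2) / 4 := by rw [hA, hB]; ring
    have := sq_nonneg (d - 1)
    rw [e]
    linarith
  have hAB2 : N ^ 2 / 16 ≤ A * (B + 1) := by
    have : N / 2 * (N / 8) ≤ A * (B + 1) := by
      apply mul_le_mul hAl (by linarith) (by linarith) (by linarith)
    linarith
  have hd1 : 0 < d + 1 := by linarith
  have hd0 : 0 < d := by linarith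
  have hDpos : 0 ≤ D := by rw [hD]; linarith
  have hcpos : 0 < c := by linarith
  have hα : 0 ≤ (d + 1) * A * (B + 1) := by
    have : 0 ≤ A := by linarith
    have : 0 ≤ B := by linarith
    positivity
  rcases le_or_gt 1 y with hy | hy
  · -- positive y
    have h1 : 4 * c * y ≤ 2 * y * (2 * c + y) - 2 := by
      have : 1 ≤ y ^ 2 := one_le_pow₀ hy
      linarith
    have h3 : (y - D) * ((d + 1) * A * (B + 1)) ≤ y * ((d + 1) * A * (B + 1)) :=
      mul_le_mul_of_nonneg_right (by linarith) hα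
    have h4 : (d + 1) * A * (B + 1) ≤ (d + 1) * ((N + 1) ^ 2 / 4) := by
      rw [mul_assoc]
      exact mul_le_mul_of_nonneg_left hAB hd1.le
    have h5 : y * ((d + 1) * A * (B + 1)) ≤ y * ((d + 1) * ((N + 1) ^ 2 / 4)) :=
      mul_le_mul_of_nonneg_left h4 (by linarith)
    have h7 : (d + 1) * ((N + 1) ^ 2 / 4) ≤ N * (d * (4 * c)) := by
      have h8 : (d + 1) ≤ 2 * d := by linarith
      have h9 : (N + 1) ^ 2 / 4 ≤ 2 * N * c := by
        have k1 : 2 * N * (0.7 * (N + 1)) ≤ 2 * N * c :=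
          mul_le_mul_of_nonneg_left hcl (by linarith)
        have k2 : (N + 1) * (N + 1) ≤ (2 * N) * (N + 1) :=
          mul_le_mul_of_nonneg_right (by linarith) (by linarith)
        have e1 : (N + 1) ^ 2 / 4 = (N + 1) * (N + 1) / 4 := by ring
        have e2 : 2 * N * (0.7 * (N + 1)) = 0.7 * ((2 * N) * (N + 1)) := by ring
        have k3 : 0 ≤ (N + 1) * (N + 1) := by positivity
        rw [e1]
        linarith
      calc (d + 1) * ((N + 1) ^ 2 / 4) ≤ (2 * d) * (2 * N * c) := by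
            apply mul_le_mul h8 h9 (by positivity) (by positivity)
        _ = N * (d * (4 * c)) := by ring
    have h6 : y * ((d + 1) * ((N + 1) ^ 2 / 4)) ≤ y * (N * (d * (4 * c))) :=
      mul_le_mul_of_nonneg_left h7 (by linarith)
    have h10 : N * (d * (4 * c * y)) ≤ N * (d * (2 * y * (2 * c + y) - 2)) := by
      apply mul_le_mul_of_nonneg_left _ hNpos.le
      exact mul_le_mul_of_nonneg_left h1 hd0.le
    have e : y * (N * (d * (4 * c))) = N * (d * (4 * c * y)) := by ring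
    linarith
  · -- y < 1
    have h1 : -(4 * Y * c + 2) ≤ 2 * y * (2 * c + y) - 2 := by
      have h2c : 0 < 2 * c + y := by linarith
      rcases le_or_gt 0 y with h0 | h0
      · have : 0 ≤ 2 * y * (2 * c + y) := by positivity
        have : 0 ≤ 4 * Y * c := by positivity
        linarith
      · have k1 : (-Y) * (2 * c) ≤ y * (2 * c) := mul_le_mul_of_nonneg_right hyl (by linarith)
        have k2 := sq_nonneg y
        have e : 2 * y * (2 * c + y) - 2 = 2 * (y * (2 * c)) + 2 * y ^ 2 - 2 := by ring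
        rw [e]
        linarith
    have h2 : (4 * Y * c + 2) * 16 ≤ (D - 1) * N := by
      rw [hD]
      have h3 : c ≤ N := by linarith
      have h4 : Y * c ≤ Y * N := mul_le_mul_of_nonneg_left h3 (by linarith)
      linarith
    have h3 : (D - 1) * ((d + 1) * (N ^ 2 / 16)) ≤ (D - y) * ((d + 1) * A * (B + 1)) := by
      have h4 : (d + 1) * (N ^ 2 / 16) ≤ (d + 1) * A * (B + 1) := by
        rw [mul_assoc]
        exact mul_le_mul_of_nonneg_left hAB2 hd1.le
      have h5 : D - 1 ≤ D - y := by linarith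
      exact mul_le_mul h5 h4 (by positivity) (by linarith)
    have h6 : N * (d * (4 * Y * c + 2)) ≤ (D - 1) * ((d + 1) * (N ^ 2 / 16)) := by
      have h7 : (4 * Y * c + 2) ≤ (D - 1) * N / 16 := by linarith
      have h8 : d * (4 * Y * c + 2) ≤ (d + 1) * ((D - 1) * N / 16) := by
        have : 0 ≤ 4 * Y * c + 2 := by positivity
        apply mul_le_mul (by linarith) h7 this hd1.le
      calc N * (d * (4 * Y * c + 2)) ≤ N * ((d + 1) * ((D - 1) * N / 16)) :=
            mul_le_mul_of_nonneg_left h8 hNpos.le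
        _ = (D - 1) * ((d + 1) * (N ^ 2 / 16)) := by ring
    have h9 : N * (d * (-(4 * Y * c + 2))) ≤ N * (d * (2 * y * (2 * c + y) - 2)) := by
      apply mul_le_mul_of_nonneg_left _ hNpos.le
      exact mul_le_mul_of_nonneg_left h1 hd0.le
    have e1 : N * (d * (-(4 * Y * c + 2))) = -(N * (d * (4 * Y * c + 2))) := by ring
    have e2 : (y - D) * ((d + 1) * A * (B + 1)) = -((D - y) * ((d + 1) * A * (B + 1))) := by ring
    linarith

/-- Abstract combination step. -/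
lemma combine (N α β γ K y D σ g0 g1 g2 : ℝ) (hN : 0 < N) (hN12 : 12 ≤ N)
    (hα : 0 < α) (hβ0 : 0 ≤ β) (hβα : (N - 12) * α ≤ N * β) (hγ : (y - D) * α ≤ N * γ)
    (hK0 : 0 ≤ K) (hNK : K ^ 2 + 12 * K ≤ N) (hσ0 : 0 ≤ σ) (hσK : σ * N ≤ K)
    (hrec : α * (g2 - g1) = β * (g1 - g0) + γ * g1)
    (hg0 : 0 < g0) (hg : σ * g0 ≤ g1 - g0) :
    0 < g1 ∧ (σ + (y - D - 1) / N) * g1 ≤ g2 - g1 := by
  have hg1 : 0 < g1 := by
    have := mul_nonneg hσ0 hg0.le
    linarith
  refine ⟨hg1, ?_⟩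
  have hσ1 : σ ≤ 1 := by
    have h1 : K ≤ N := by
      have := sq_nonneg K
      linarith
    have : σ * N ≤ 1 * N := by linarith
    exact le_of_mul_le_mul_right this hN
  have he0 : σ * (1 - σ) * g1 ≤ g1 - g0 := by
    have h1 : σ * g1 ≤ (g1 - g0) * (1 + σ) := by linarith
    have h2 : (σ * (1 - σ) * g1) * (1 + σ) ≤ (g1 - g0) * (1 + σ) := by
      have : (σ * (1 - σ) * g1) * (1 + σ) = σ * g1 - σ ^ 3 * g1 := by ring
      have h3 : 0 ≤ σ ^ 3 * g1 := by positivity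
      linarith
    exact le_of_mul_le_mul_right h2 (by linarith)
  have hS : 0 ≤ σ * (1 - σ) := mul_nonneg hσ0 (by linarith)
  have k1 : β * (σ * (1 - σ) * g1) ≤ β * (g1 - g0) := mul_le_mul_of_nonneg_left he0 hβ0
  have k2 : (N - 12) * α * (σ * (1 - σ)) ≤ N * β * (σ * (1 - σ)) :=
    mul_le_mul_of_nonneg_right hβα hS
  have k3 : (N * σ - 1) ≤ (N - 12) * (σ * (1 - σ)) := by
    have h1 : N * (N * σ ^ 2 + 12 * σ) ≤ N * 1 := by
      have h0 : (σ * N) ^ 2 ≤ K ^ 2 := by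
        apply pow_le_pow_left₀ (by positivity) hσK
      have e : N * (N * σ ^ 2 + 12 * σ) = (σ * N) ^ 2 + 12 * (σ * N) := by ring
      rw [e]
      linarith
    have h2 : N * σ ^ 2 + 12 * σ ≤ 1 := le_of_mul_le_mul_left h1 hN
    have e : (N - 12) * (σ * (1 - σ)) - (N * σ - 1) = (1 - (N * σ ^ 2 + 12 * σ)) + 12 * σ ^ 2 := by
      ring
    have : 0 ≤ 12 * σ ^ 2 := by positivity
    linarith
  have k4 : α * (N * σ - 1) ≤ α * ((N - 12) * (σ * (1 - σ))) :=
    mul_le_mul_of_nonneg_left k3 hα.le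
  have k5 : α * (N * σ - 1 + (y - D)) ≤ N * β * (σ * (1 - σ)) + N * γ := by
    have e1 : α * (N * σ - 1 + (y - D)) = α * (N * σ - 1) + (y - D) * α := by ring
    have e2 : (N - 12) * α * (σ * (1 - σ)) = α * ((N - 12) * (σ * (1 - σ))) := by ring
    linarith
  have k6 : α * (N * σ - 1 + (y - D)) * g1 ≤ (N * β * (σ * (1 - σ)) + N * γ) * g1 :=
    mul_le_mul_of_nonneg_right k5 hg1.le
  have k7 : (N * β * (σ * (1 - σ)) + N * γ) * g1 ≤ N * (α * (g2 - g1)) := by
    rw [hrec]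
    have e : (N * β * (σ * (1 - σ)) + N * γ) * g1 = N * (β * (σ * (1 - σ) * g1) + γ * g1) := by
      ring
    rw [e]
    exact mul_le_mul_of_nonneg_left (by linarith) hN.le
  have k8 : α * ((N * σ - 1 + (y - D)) * g1) ≤ α * (N * (g2 - g1)) := by
    linarith
  have k9 : (N * σ - 1 + (y - D)) * g1 ≤ N * (g2 - g1) := le_of_mul_le_mul_left k8 hα
  have k10 : (σ + (y - D - 1) / N) * g1 = ((N * σ - 1 + (y - D)) * g1) / N := by
    field_simp
    ring
  rw [k10, div_le_iff₀ hN]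
  linarith

/-- One step of the discrete Riccati estimate. -/
lemma step_est (N d A B c Y D M K y σ g0 g1 g2 : ℝ)
    (hA : A = (N + d) / 2) (hB : B = (N - d) / 2) (hd : d = c + y)
    (hc2 : 2 * c ^ 2 = (N + 1) ^ 2) (hcl : 0.7 * (N + 1) ≤ c) (hcu : c ≤ 0.71 * (N + 1))
    (hY : 1 ≤ Y) (hD : D = 64 * Y + 2) (hM : Y ≤ M) (hyl : -Y ≤ y) (hyu : y ≤ M)
    (hN : 100 * (M + 1) ≤ N) (hK0 : 0 ≤ K) (hNK : K ^ 2 + 12 * K ≤ N)
    (hσ0 : 0 ≤ σ) (hσK : σ * N ≤ K)
    (hrec : ((d + 1) * A * (B + 1)) * (g2 - g1) =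
      ((d - 1) * B * (A + 1)) * (g1 - g0) + (d * (2 * d ^ 2 - (N + 1) ^ 2 - 2)) * g1)
    (hg0 : 0 < g0) (hg : σ * g0 ≤ g1 - g0) :
    0 < g1 ∧ (σ + (y - D - 1) / N) * g1 ≤ g2 - g1 := by
  have hNpos : 0 < N := by linarith
  have hdl : N / 2 ≤ d := by rw [hd]; linarith
  have hdu : d ≤ 3 * N / 4 := by rw [hd]; linarith
  have hBl : N / 8 ≤ B := by rw [hB]; linarith
  have hAl : N / 2 ≤ A := by rw [hA]; linarith
  have hα : 0 < (d + 1) * A * (B + 1) := by
    have : 0 < d + 1 := by linarith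
    have : 0 < A := by linarith
    have : 0 < B + 1 := by linarith
    positivity
  have hβ0 : 0 ≤ (d - 1) * B * (A + 1) := by
    have : 0 ≤ d - 1 := by linarith
    have : 0 ≤ B := by linarith
    have : 0 ≤ A + 1 := by linarith
    positivity
  exact combine N _ _ _ K y D σ g0 g1 g2 hNpos (by linarith) hα hβ0
    (beta_alpha N d A B hNpos hdl (by linarith) hBl hAl)
    (gamma_alpha N d A B c Y D y hA hB hd hc2 hcl hcu hY hD hyl (by linarith) hdl hBl hAl)
    hK0 hNK hσ0 hσK hrec hg0 hg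

end Pool.Agent.H120R3.Checkers
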