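import Mathlib
import Pool.Agent.H120R3.CheckersAnalysis

set_option autoImplicit false

namespace Pool.Agent.H120R3.Checkers

open Finset

/-- `√2/2` bounds -/
lemma c_bounds (N : ℝ) (hN : 0 ≤ N) :
    2 * ((N + 1) * (Real.sqrt 2 / 2)) ^ 2 = (N + 1) ^ 2 ∧
    0.7 * (N + 1) ≤ (N + 1) * (Real.sqrt 2 / 2) ∧ (N + 1) * (Real.sqrt 2 / 2) ≤ 0.71 * (N + 1) := by
  have h2 : Real.sqrt 2 ^ 2 = 2 := Real.sq_sqrt (by norm_num)
  have hpos : 0 ≤ Real.sqrt 2 := Real.sqrt_nonneg 2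
  have hl : 1.4 ≤ Real.sqrt 2 := by
    apply Real.le_sqrt_of_sq_le; norm_num
  have hu : Real.sqrt 2 ≤ 1.42 := by
    rw [Real.sqrt_le_left (by norm_num)]; norm_num
  refine ⟨?_, ?_, ?_⟩
  · calc 2 * ((N + 1) * (Real.sqrt 2 / 2)) ^ 2 = (N + 1) ^ 2 * (Real.sqrt 2 ^ 2) / 2 := by ring
      _ = (N + 1) ^ 2 := by rw [h2]; ring
  · have : 0 ≤ (N + 1) := by linarith
    nlinarith
  · have : 0 ≤ (N + 1) := by linarith
    nlinarith

lemma main_growth (Y M D : ℝ) (hY : 1 ≤ Y) (hD : D = 64 * Y + 2) (hM : M = 2 * D + Y + 5)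
    (N : ℕ) (hN : 100 * (M + 1) ≤ (N : ℝ))
    (hNK : ((M + Y + 1) ^ 2) ^ 2 + 12 * ((M + Y + 1) ^ 2) ≤ (N : ℝ)) :
    ∀ B : ℕ, ∀ y : ℝ, y = (N : ℝ) - 2 * B - ((N : ℝ) + 1) * (Real.sqrt 2 / 2) → -Y ≤ y →
      0 < G N B ∧ max ((M - y) * (y + Y + 1) / 4 / N) 0 * G N B ≤ G N (B + 1) - G N B := by
  have hM100 : 100 ≤ M := by rw [hM, hD]; linarith
  have hNpos : (0 : ℝ) < N := by linarith
  obtain ⟨hc2, hcl, hcu⟩ := c_bounds N hNpos.le
  set c : ℝ := ((N : ℝ) + 1) * (Real.sqrt 2 / 2) with hc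
  intro B
  induction B with
  | zero =>
    intro y hy hyY
    have hN1 : 1 ≤ N := by
      have : (1 : ℝ) ≤ N := by linarith
      exact_mod_cast this
    rw [G_zero, G_one N hN1]
    refine ⟨one_pos, ?_⟩
    have hyM : M ≤ y := by
      rw [hy]; push_cast; linarith
    have h0 : (M - y) * (y + Y + 1) / 4 / N ≤ 0 := by
      apply div_nonpos_of_nonpos_of_nonneg _ hNpos.le
      apply div_nonpos_of_nonpos_of_nonneg _ (by norm_num)
      apply mul_nonpos_of_nonpos_of_nonneg <;> linarith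
    rw [max_eq_right h0]
    linarith
  | succ B ih =>
    intro y hy hyY
    push_cast at hy
    have hyB : y + 2 = (N : ℝ) - 2 * B - c := by rw [hy]; ring
    obtain ⟨hG, he⟩ := ih (y + 2) hyB (by linarith)
    have hBN : B + 1 < N := by
      have : ((B + 1 : ℕ) : ℝ) < N := by
        push_cast
        linarith
      exact_mod_cast this
    have hrec := G_rec N (B + 1) (by omega) hBN
    simp only [Nat.add_sub_cancel] at hrec
    push_cast at hrec
    set d : ℝ := (N : ℝ) - 2 * ((B : ℝ) + 1) with hd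
    have hA : (N : ℝ) - ((B : ℝ) + 1) = ((N : ℝ) + d) / 2 := by rw [hd]; ring
    have hB : ((B : ℝ) + 1) = ((N : ℝ) - d) / 2 := by rw [hd]; ring
    have hdc : d = c + y := by rw [hd, hy]; ring
    rcases lt_or_ge y M with hyM | hyM
    · -- main window
      have hσK : max ((M - (y + 2)) * ((y + 2) + Y + 1) / 4 / N) 0 * N ≤ (M + Y + 1) ^ 2 := by
        rw [max_mul_of_nonneg _ _ hNpos.le, div_mul_cancel₀ _ hNpos.ne', zero_mul]
        apply max_le
        · nlinarith [sq_nonneg ((M - (y + 2)) - ((y + 2) + Y + 1)), sq_nonneg (M + Y + 1)]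
        · positivity
      obtain ⟨h1, h2⟩ := step_est N d _ _ c Y D M ((M + Y + 1) ^ 2) y _ (G N B) (G N (B + 1))
        (G N (B + 1 + 1)) hA hB hdc hc2 hcl hcu hY hD (by linarith) hyY hyM.le hN (by positivity)
        hNK (le_max_right _ 0) hσK hrec hG he
      refine ⟨h1, le_trans ?_ h2⟩
      apply mul_le_mul_of_nonneg_right _ h1.le
      have hΦ : 0 ≤ (M - y) * (y + Y + 1) / 4 / N := by
        apply div_nonneg _ hNpos.le
        apply div_nonneg _ (by norm_num)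
        apply mul_nonneg <;> linarith
      rw [max_eq_left hΦ]
      have e : (M - y) * (y + Y + 1) / 4 / N =
          (M - (y + 2)) * ((y + 2) + Y + 1) / 4 / N + (y - D - 1) / N := by
        rw [hM]; field_simp; ring
      rw [e]
      have := le_max_left ((M - (y + 2)) * ((y + 2) + Y + 1) / 4 / N) 0
      linarith
    · -- far region
      have he0 : 0 ≤ G N (B + 1) - G N B := by
        refine le_trans ?_ he
        exact mul_nonneg (le_max_right _ _) hG.le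
      have hG1 : 0 < G N (B + 1) := by linarith
      have hd2 : 2 ≤ d := by rw [hdc]; linarith
      have hdN : d ≤ N := by
        rw [hd]
        have : (0 : ℝ) ≤ B := Nat.cast_nonneg B
        linarith
      have hB1 : (0 : ℝ) ≤ (B : ℝ) + 1 := by positivity
      have hApos : 0 < (N : ℝ) - ((B : ℝ) + 1) := by rw [hA]; linarith
      have hα : 0 < (d + 1) * ((N : ℝ) - ((B : ℝ) + 1)) * (((B : ℝ) + 1) + 1) := by positivity
      have hβ : 0 ≤ (d - 1) * ((B : ℝ) + 1) * (((N : ℝ) - ((B : ℝ) + 1)) + 1) := by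
        have : 0 ≤ d - 1 := by linarith
        positivity
      have hγ : 0 ≤ d * (2 * d ^ 2 - ((N : ℝ) + 1) ^ 2 - 2) := by
        have hfac : 2 * d ^ 2 - ((N : ℝ) + 1) ^ 2 - 2 = 2 * y * (2 * c + y) - 2 := by
          rw [← hc2, hdc]; ring
        rw [hfac]
        have : 1 ≤ y * (2 * c + y) := by
          have h1 : 1 ≤ y := by linarith
          have h2 : 1 ≤ 2 * c + y := by linarith
          nlinarith
        apply mul_nonneg (by linarith)
        nlinarith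
      have hpos : 0 ≤ ((d + 1) * ((N : ℝ) - ((B : ℝ) + 1)) * (((B : ℝ) + 1) + 1)) *
          (G N (B + 1 + 1) - G N (B + 1)) := by
        rw [hrec]
        have := mul_nonneg hβ he0
        have := mul_nonneg hγ hG1.le
        linarith
      have he2 : 0 ≤ G N (B + 1 + 1) - G N (B + 1) := nonneg_of_mul_nonneg_right hpos hα
      refine ⟨hG1, ?_⟩
      have h0 : (M - y) * (y + Y + 1) / 4 / N ≤ 0 := by
        apply div_nonpos_of_nonpos_of_nonneg _ hNpos.le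
        apply div_nonpos_of_nonpos_of_nonneg _ (by norm_num)
        apply mul_nonpos_of_nonpos_of_nonneg <;> linarith
      rw [max_eq_right h0]
      linarith

/-- relation between the real part of the amplitude and `G`. -/
lemma R_sq (N B : ℕ) (h2 : B < N) :
    ((N : ℝ) - 2 * B - 1) ^ 2 * ((lam (N - B) (B + 1) : ℝ) - lam (N - B) B) ^ 2 =
      ((N : ℝ) - B) ^ 2 * (G N (B + 1) + G N B) ^ 2 := by
  obtain ⟨a, rfl⟩ : ∃ a, N = a + B + 1 := ⟨N - B - 1, by omega⟩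
  have h := lam_boost a B
  have hR := congrArg (fun n : ℤ => (n : ℝ)) h
  push_cast at hR
  have e1 : a + B + 1 - B = a + 1 := by omega
  have e2 : a + B + 1 - (B + 1) = a := by omega
  unfold G
  rw [e1, e2]
  push_cast
  have hlin : ((a : ℝ) + B + 1 - 2 * B - 1) * ((lam (a + 1) (B + 1) : ℝ) - lam (a + 1) B) =
      ((a : ℝ) + B + 1 - B) * ((lam a (B + 1) : ℝ) - lam (a + 1) B) := by
    linear_combination hR
  have hs : ((-1 : ℝ) ^ (B + 1) * (lam a (B + 1) : ℝ) + (-1) ^ B * (lam (a + 1) B : ℝ)) ^ 2 =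
      ((lam a (B + 1) : ℝ) - lam (a + 1) B) ^ 2 := by
    have : ((-1 : ℝ) ^ B) ^ 2 = 1 := by
      rw [← pow_mul, mul_comm, pow_mul]; norm_num
    rw [pow_succ]
    calc ((-1 : ℝ) ^ B * -1 * (lam a (B + 1) : ℝ) + (-1) ^ B * (lam (a + 1) B : ℝ)) ^ 2
        = ((-1 : ℝ) ^ B) ^ 2 * ((lam a (B + 1) : ℝ) - lam (a + 1) B) ^ 2 := by ring
      _ = _ := by rw [this, one_mul]
  rw [hs, ← mul_pow, ← mul_pow, hlin]

lemma G_sq (N B : ℕ) : (lam (N - B) B : ℝ) ^ 2 = (G N B) ^ 2 := by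
  unfold G
  rw [mul_pow, ← pow_mul, mul_comm B 2, pow_mul]
  norm_num

/-- strict monotonicity of the probability in the window -/
lemma P_lt (C : ℝ) : ∃ N0 : ℕ, ∀ N : ℕ, N0 ≤ N → ∀ x : ℤ, |(x : ℝ) - ((N : ℝ) + 2) / Real.sqrt 2| ≤ C →
    (x + (N : ℤ)) % 2 = 0 →
    ‖amp (N + 1) true x‖ ^ 2 < ‖amp (N + 1) true (x - 2)‖ ^ 2 := by
  obtain ⟨Y, hY1, hYC⟩ : ∃ Y : ℝ, 1 ≤ Y ∧ C + 3 ≤ Y := ⟨max 1 (C + 3), le_max_left _ _, le_max_right _ _⟩
  obtain ⟨D, hD⟩ : ∃ D : ℝ, D = 64 * Y + 2 := ⟨_, rfl⟩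
  obtain ⟨M, hM⟩ : ∃ M : ℝ, M = 2 * D + Y + 5 := ⟨_, rfl⟩
  obtain ⟨N0, hN0⟩ := exists_nat_ge (max (100 * (M + 1)) (((M + Y + 1) ^ 2) ^ 2 + 12 * ((M + Y + 1) ^ 2)))
  refine ⟨N0, ?_⟩
  intro N hNN x hx hpar
  have hNr : (N0 : ℝ) ≤ N := by exact_mod_cast hNN
  have hN100 : 100 * (M + 1) ≤ (N : ℝ) := le_trans (le_trans (le_max_left _ _) hN0) hNr
  have hNK : ((M + Y + 1) ^ 2) ^ 2 + 12 * ((M + Y + 1) ^ 2) ≤ (N : ℝ) :=
    le_trans (le_trans (le_max_right _ _) hN0) hNr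
  have hM100 : 100 ≤ M := by rw [hM, hD]; linarith
  have hNpos : (0 : ℝ) < N := by linarith
  have main := main_growth Y M D hY1 hD hM N hN100 hNK
  obtain ⟨hc2, hcl, hcu⟩ := c_bounds N hNpos.le
  set c : ℝ := ((N : ℝ) + 1) * (Real.sqrt 2 / 2) with hc
  have hsq : ((N : ℝ) + 2) / Real.sqrt 2 = c + Real.sqrt 2 / 2 := by
    rw [hc]
    have h2 : Real.sqrt 2 ^ 2 = 2 := Real.sq_sqrt (by norm_num)
    have hne : Real.sqrt 2 ≠ 0 := by positivity
    field_simp
    nlinarith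
  have hs2l : 0 ≤ Real.sqrt 2 / 2 := by positivity
  have hs2u : Real.sqrt 2 / 2 ≤ 1 := by
    have : Real.sqrt 2 ≤ 2 := by
      rw [Real.sqrt_le_left (by norm_num)]; norm_num
    linarith
  rw [hsq, abs_le] at hx
  obtain ⟨hxl, hxu⟩ := hx
  have hYM : Y ≤ M := by linarith
  -- x lies between 0 and N
  have hx0 : (0 : ℝ) ≤ x := by linarith
  have hxN : (x : ℝ) ≤ N - 4 := by linarith
  have hx0' : 0 ≤ x := by exact_mod_cast hx0
  have hxN' : x ≤ (N : ℤ) - 4 := by exact_mod_cast hxN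
  obtain ⟨B, hB⟩ : ∃ B : ℕ, x = (N : ℤ) - 2 * B := ⟨(((N : ℤ) - x) / 2).toNat, by omega⟩
  have hBN : B < N := by omega
  obtain ⟨A, hA⟩ : ∃ A : ℕ, N = A + B := ⟨N - B, by omega⟩
  obtain ⟨a, ha⟩ : ∃ a : ℕ, A = a + 1 := ⟨A - 1, by omega⟩
  -- y values
  have hxr : (x : ℝ) = (N : ℝ) - 2 * B := by rw [hB]; push_cast; ring
  have m0 := main B (x - c) (by rw [hxr]) (by linarith)
  have m1 := main (B + 1) (x - c - 2) (by rw [hxr]; push_cast; ring) (by linarith)
  -- strict positivity of the increments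
  have pos_of : ∀ y : ℝ, -Y ≤ y → y < M → 0 < max ((M - y) * (y + Y + 1) / 4 / (N : ℝ)) 0 := by
    intro y h1 h2
    apply lt_max_of_lt_left
    have : 0 < M - y := by linarith
    have : 0 < y + Y + 1 := by linarith
    positivity
  have hyM : (x : ℝ) - c < M := by linarith
  have i0 : G N B < G N (B + 1) := by
    have h1 := mul_pos (pos_of (x - c) (by linarith) hyM) m0.1
    linarith [m0.2]
  have i1 : G N (B + 1) < G N (B + 1 + 1) := by
    have h1 := mul_pos (pos_of (x - c - 2) (by linarith) (by linarith)) m1.1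
    linarith [m1.2]
  have hG0 := m0.1
  have hG1 := m1.1
  -- squared moduli
  have e0 : ‖amp (N + 1) true x‖ ^ 2 =
      ((lam (N - B) (B + 1) : ℝ) - lam (N - B) B) ^ 2 + (lam (N - B) B : ℝ) ^ 2 := by
    have := amp_normSq A B
    have e1 : A + B + 1 = N + 1 := by omega
    have e2 : (A : ℤ) - B = x := by rw [hB, hA]; push_cast; ring
    have e3 : N - B = A := by omega
    rw [e1, e2] at this
    rw [e3]
    exact this
  have e1 : ‖amp (N + 1) true (x - 2)‖ ^ 2 =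
      ((lam (N - (B + 1)) (B + 1 + 1) : ℝ) - lam (N - (B + 1)) (B + 1)) ^ 2
        + (lam (N - (B + 1)) (B + 1) : ℝ) ^ 2 := by
    have := amp_normSq a (B + 1)
    have e1 : a + (B + 1) + 1 = N + 1 := by omega
    have e2 : (a : ℤ) - (B + 1 : ℕ) = x - 2 := by rw [hB, hA, ha]; push_cast; ring
    have e3 : N - (B + 1) = a := by omega
    rw [e1, e2] at this
    rw [e3]
    exact this
  rw [e0, e1, G_sq, G_sq]
  have r0 := R_sq N B hBN
  have r1 := R_sq N (B + 1) (by omega)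
  push_cast at r1
  set R0 := ((lam (N - B) (B + 1) : ℝ) - lam (N - B) B) ^ 2 with hR0
  set R1 := ((lam (N - (B + 1)) (B + 1 + 1) : ℝ) - lam (N - (B + 1)) (B + 1)) ^ 2 with hR1
  have hR1n : 0 ≤ R1 := by rw [hR1]; positivity
  have hsqG : G N B ^ 2 < G N (B + 1) ^ 2 := by
    apply pow_lt_pow_left₀ i0 hG0.le (by norm_num)
  have hRR : R0 ≤ R1 := by
    -- d = x
    set d : ℝ := (N : ℝ) - 2 * B with hd
    have hdx : d = x := hxr.symm
    have hd4 : 4 ≤ d := by rw [hdx]; linarith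
    set s0 := G N (B + 1) + G N B with hs0
    set s1 := G N (B + 1 + 1) + G N (B + 1) with hs1
    have hs0p : 0 < s0 := by linarith
    have hs01 : s0 ≤ s1 := by linarith
    have hAr : (0 : ℝ) ≤ (N : ℝ) - B - 1 := by
      have : ((B + 1 : ℕ) : ℝ) ≤ N := by exact_mod_cast hBN
      push_cast at this
      linarith
    -- (d-1)^2 R0 = (N-B)^2 s0^2 ; (d-3)^2 R1 = (N-B-1)^2 s1^2
    have r1' : (d - 3) ^ 2 * R1 = ((N : ℝ) - B - 1) ^ 2 * s1 ^ 2 := by
      have : (N : ℝ) - 2 * ((B : ℝ) + 1) - 1 = d - 3 := by rw [hd]; ring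
      rw [this] at r1
      have h2 : (N : ℝ) - ((B : ℝ) + 1) = (N : ℝ) - B - 1 := by ring
      rw [h2] at r1
      exact r1
    have key : ((N : ℝ) - B) * (d - 3) ≤ ((N : ℝ) - B - 1) * (d - 1) := by
      have : ((N : ℝ) - B - 1) * (d - 1) - ((N : ℝ) - B) * (d - 3) = N + 1 := by rw [hd]; ring
      linarith
    have key2 : (((N : ℝ) - B) * (d - 3)) ^ 2 * s0 ^ 2 ≤ (((N : ℝ) - B - 1) * (d - 1)) ^ 2 * s1 ^ 2 := by
      have h1 : 0 ≤ ((N : ℝ) - B) * (d - 3) := by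
        apply mul_nonneg <;> linarith
      apply mul_le_mul (pow_le_pow_left₀ h1 key 2) (pow_le_pow_left₀ hs0p.le hs01 2)
        (by positivity) (by positivity)
    have key3 : ((d - 1) ^ 2 * (d - 3) ^ 2) * R0 ≤ ((d - 1) ^ 2 * (d - 3) ^ 2) * R1 := by
      calc ((d - 1) ^ 2 * (d - 3) ^ 2) * R0 = (d - 3) ^ 2 * ((d - 1) ^ 2 * R0) := by ring
        _ = (d - 3) ^ 2 * (((N : ℝ) - B) ^ 2 * s0 ^ 2) := by rw [r0]
        _ = (((N : ℝ) - B) * (d - 3)) ^ 2 * s0 ^ 2 := by ring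
        _ ≤ (((N : ℝ) - B - 1) * (d - 1)) ^ 2 * s1 ^ 2 := key2
        _ = (d - 1) ^ 2 * (((N : ℝ) - B - 1) ^ 2 * s1 ^ 2) := by ring
        _ = (d - 1) ^ 2 * ((d - 3) ^ 2 * R1) := by rw [r1']
        _ = _ := by ring
    have hpos : 0 < (d - 1) ^ 2 * (d - 3) ^ 2 := by
      have : 0 < d - 1 := by linarith
      have : 0 < d - 3 := by linarith
      positivity
    exact le_of_mul_le_mul_left key3 hpos
  linarith

end Pool.Agent.H120R3.Checkers
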